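import Mathlib

namespace Pool.Agent.P.MP_0d6be8_lc

/-- finite additivity on a Boolean algebra -/
def IsAdditive {A : Type} [BooleanAlgebra A] (μ : A → ℝ) : Prop :=
  ∀ a b, Disjoint a b → μ (a ⊔ b) = μ a + μ b

/-- the total variation of `μ` is at most `C` -/
def VarLE {A : Type} [BooleanAlgebra A] (μ : A → ℝ) (C : ℝ) : Prop :=
  ∀ s : Finset A, (s : Set A).PairwiseDisjoint id → ∑ a ∈ s, |μ a| ≤ C

/-- the Nikodym property -/
def Nikodym (A : Type) [BooleanAlgebra A] : Prop :=
  ∀ μ : ℕ → A → ℝ, (∀ n, IsAdditive (μ n)) → (∀ n, ∃ C, VarLE (μ n) C) →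
    (∀ a, ∃ C, ∀ n, |μ n a| ≤ C) → ∃ C, ∀ n, VarLE (μ n) C

/-- generated along a well-order so that each generator gives a minimal (or trivial) extension
of the subalgebra generated by the earlier ones -/
def MinimallyGenerated (A : Type) [BooleanAlgebra A] : Prop :=
  ∃ (I : Type) (_ : LinearOrder I) (_ : WellFoundedLT I) (g : I → A),
    BooleanSubalgebra.closure (Set.range g) = ⊤ ∧
    ∀ (i : I) (D : BooleanSubalgebra A), BooleanSubalgebra.closure (g '' Set.Iio i) ≤ D →
      D ≤ BooleanSubalgebra.closure (g '' Set.Iic i) →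
      D = BooleanSubalgebra.closure (g '' Set.Iio i) ∨ D = BooleanSubalgebra.closure (g '' Set.Iic i)

/-- points of the Stone space: ultrafilters of `A` -/
structure Stone (A : Type) [BooleanAlgebra A] : Type where
  carrier : Set A
  top_mem : ⊤ ∈ carrier
  bot_notMem : ⊥ ∉ carrier
  inf_mem : ∀ a b, a ⊓ b ∈ carrier ↔ a ∈ carrier ∧ b ∈ carrier
  mem_or_compl_mem : ∀ a, a ∈ carrier ∨ aᶜ ∈ carrier

/-- the basic clopen set of ultrafilters containing `a` -/
def Stone.basic {A : Type} [BooleanAlgebra A] (a : A) : Set (Stone A) := {u | a ∈ u.carrier}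

instance Stone.topology (A : Type) [BooleanAlgebra A] : TopologicalSpace (Stone A) :=
  TopologicalSpace.generateFrom (Set.range Stone.basic)

instance Stone.borelSpace (A : Type) [BooleanAlgebra A] : MeasurableSpace (Stone A) :=
  borel (Stone A)

end Pool.Agent.P.MP_0d6be8_lc
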