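import Mathlib

namespace Pool.Agent.P.MP_0d6be8_lc

/-- a dense open family in the infinite subsets of the naturals ordered by inclusion modulo
finite sets -/
def DenseOpen (D : Set (Set ℕ)) : Prop :=
  (∀ E ∈ D, E.Infinite) ∧
    (∀ E ∈ D, ∀ E' : Set ℕ, E'.Infinite → (E' \ E).Finite → E' ∈ D) ∧
    ∀ E : Set ℕ, E.Infinite → ∃ E' ∈ D, E' ⊆ E

end Pool.Agent.P.MP_0d6be8_lc
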