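import Pool.Agent.P.MP_93aff1_lc.Defs

set_option autoImplicit false

/-! Boolean algebras, the Nikodym property and Radon measures on Stone spaces written inside a
structure `(M, mem)`; all quantifiers range over `M`. -/

open Pool.Agent.Lib.PosetForcing

namespace Pool.Agent.P.MP_0d6be8_lc.NK

universe v

variable {M : Type v} (mem : M → M → Prop)

/-- `((x, y), z) ∈ f` -/
def App2 (f x y z : M) : Prop := ∃ p, IsPair mem p x y ∧ App mem f p z

/-- `f` is a binary operation on `R` -/
def IsOp (f R : M) : Prop :=
  (∀ x y, mem x R → mem y R → ∃ z, mem z R ∧ App2 mem f x y z) ∧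
    ∀ x y z z', App2 mem f x y z → App2 mem f x y z' → z = z'

/-- `le` is a reflexive, antisymmetric and transitive relation on `A` -/
def IsOrder (A le : M) : Prop :=
  (∀ x, mem x A → App mem le x x) ∧
    (∀ x y, mem x A → mem y A → App mem le x y → App mem le y x → x = y) ∧
    ∀ x y z, mem x A → mem y A → mem z A → App mem le x y → App mem le y z → App mem le x z

/-- `f` is a commutative and associative operation on `R` with neutral element `e` -/
def IsMonoid (R f e : M) : Prop :=
  IsOp mem f R ∧ mem e R ∧ (∀ x, mem x R → App2 mem f x e x) ∧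
    (∀ x y z, mem x R → mem y R → App2 mem f x y z → App2 mem f y x z) ∧
    ∀ x y z a b c, mem x R → mem y R → mem z R → App2 mem f x y a → App2 mem f a z b →
      App2 mem f y z c → App2 mem f x c b

/-- `c` is the least upper bound in `(R, le)` of the elements that satisfy `S` -/
def IsSup (R le c : M) (S : M → Prop) : Prop :=
  mem c R ∧ ∀ b, mem b R → (App mem le c b ↔ ∀ x, S x → App mem le x b)

/-- `(R, add, mul, le)` with zero `o` is a complete ordered field -/
def IsReals (R add mul le o : M) : Prop :=
  ∃ e, IsMonoid mem R add o ∧ IsMonoid mem R mul e ∧ o ≠ e ∧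
    (∀ x, mem x R → ∃ y, mem y R ∧ App2 mem add x y o) ∧
    (∀ x, mem x R → x ≠ o → ∃ y, mem y R ∧ App2 mem mul x y e) ∧
    (∀ x y z a b c d, mem x R → mem y R → mem z R → App2 mem add y z a → App2 mem mul x a b →
      App2 mem mul x y c → App2 mem mul x z d → App2 mem add c d b) ∧
    IsOrder mem R le ∧ (∀ x y, mem x R → mem y R → App mem le x y ∨ App mem le y x) ∧
    (∀ x y z a b, mem x R → mem y R → mem z R → App mem le x y → App2 mem add x z a →
      App2 mem add y z b → App mem le a b) ∧
    (∀ x y a, mem x R → mem y R → App mem le o x → App mem le o y → App2 mem mul x y a →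
      App mem le o a) ∧
    ∀ S, IsSub mem S R → (∃ x, mem x S) → (∃ b, mem b R ∧ ∀ x, mem x S → App mem le x b) →
      ∃ c, IsSup mem R le c fun x => mem x S

/-- `t = |x|` -/
def IsAbs (R add le o x t : M) : Prop :=
  mem t R ∧ App mem le o t ∧ (t = x ∨ App2 mem add x t o)

/-- `s : ω → R` lists the finite sums `s n = v 0 + … + v (n - 1)`, where `v i x` says that the
`i`-th term is `x` -/
def IsSums (w R add o s : M) (v : M → M → Prop) : Prop :=
  IsFun mem s w R ∧ (∀ n, mem n w → (∀ x, ¬ mem x n) → App mem s n o) ∧
    ∀ n n' x y z, IsSucc mem n' n → App mem s n y → v n x → App mem s n' z → App2 mem add y x z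

/-- `c = a ∧ b` in `(A, le)` -/
def IsMeet (A le c a b : M) : Prop :=
  mem c A ∧ ∀ x, mem x A → (App mem le x c ↔ App mem le x a ∧ App mem le x b)

/-- `c = a ∨ b` in `(A, le)` -/
def IsJoin (A le c a b : M) : Prop :=
  mem c A ∧ ∀ x, mem x A → (App mem le c x ↔ App mem le a x ∧ App mem le b x)

/-- `a ∧ b = 0` -/
def Disj (A le a b : M) : Prop :=
  ∀ x y, mem x A → mem y A → App mem le x a → App mem le x b → App mem le x y

/-- `c` is a complement of `a`: `a ∧ c = 0` and `a ∨ c = 1` -/
def IsCompl (A le c a : M) : Prop :=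
  mem c A ∧ Disj mem A le a c ∧
    ∀ x y, mem x A → mem y A → App mem le a x → App mem le c x → App mem le y x

/-- `(A, le)` is a Boolean algebra: a complemented distributive lattice -/
def IsBoolean (A le : M) : Prop :=
  (∃ a, mem a A) ∧ IsOrder mem A le ∧
    (∀ a b, mem a A → mem b A → (∃ c, IsMeet mem A le c a b) ∧ ∃ c, IsJoin mem A le c a b) ∧
    (∀ a b c x y z t, mem a A → mem b A → mem c A → IsJoin mem A le x b c →
      IsMeet mem A le t a x → IsMeet mem A le y a b → IsMeet mem A le z a c →
        IsJoin mem A le t y z) ∧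
    ∀ a, mem a A → ∃ c, IsCompl mem A le c a

/-- the total variation of `m` is at most `c`: all sums `|m (d 0)| + … + |m (d (n - 1))|` along
a sequence `d` of pairwise disjoint elements are at most `c` -/
def VarLe (w R add rle o A le m c : M) : Prop :=
  ∀ d s, IsFun mem d w A →
    (∀ i j a b, App mem d i a → App mem d j b → i ≠ j → Disj mem A le a b) →
    IsSums mem w R add o s (fun i t => ∃ a x, App mem d i a ∧ App mem m a x ∧
      IsAbs mem R add rle o x t) → ∀ n y, App mem s n y → App mem rle y c

/-- `m` is a measure on the algebra: finitely additive, real valued, of bounded variation -/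
def IsCharge (w R add rle o A le m : M) : Prop :=
  IsFun mem m A R ∧
    (∀ a b c x y z, mem a A → mem b A → Disj mem A le a b → IsJoin mem A le c a b →
      App mem m a x → App mem m b y → App mem m c z → App2 mem add x y z) ∧
    ∃ c, mem c R ∧ VarLe mem w R add rle o A le m c

/-- every pointwise bounded sequence of measures on the algebra is bounded in norm -/
def Nikodym (w R add rle o A le : M) : Prop :=
  ∀ s, IsFunOn mem s w (IsCharge mem w R add rle o A le) →
    (∀ a, mem a A → ∃ c, mem c R ∧ ∀ n m x t, App mem s n m → App mem m a x →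
      IsAbs mem R add rle o x t → App mem rle t c) →
    ∃ c, mem c R ∧ ∀ n m, App mem s n m → VarLe mem w R add rle o A le m c

/-- `u` is an ultrafilter of the algebra -/
def IsUltra (A le u : M) : Prop :=
  IsSub mem u A ∧ (∀ a b, mem a u → mem b A → App mem le a b → mem b u) ∧
    (∀ a b c, mem a u → mem b u → IsMeet mem A le c a b → mem c u) ∧
    ∀ a c, mem a A → IsCompl mem A le c a → (mem a u ↔ ¬ mem c u)

/-- `X` is the Stone space: the set of ultrafilters -/
def IsStone (A le X : M) : Prop := ∀ u, mem u X ↔ IsUltra mem A le u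

/-- `O` is open in the Stone space `X`: a union of sets `{u : a ∈ u}` -/
def IsOpenIn (X O : M) : Prop :=
  IsSub mem O X ∧ ∀ u, mem u O → ∃ a, mem a u ∧ ∀ v, mem v X → mem a v → mem v O

/-- `K ⊆ X` is compact: every cover by open sets has a finite subcover -/
def IsCompactIn (w X K : M) : Prop :=
  IsSub mem K X ∧ ∀ C, (∀ O, mem O C → IsOpenIn mem X O) →
    (∀ u, mem u K → ∃ O, mem O C ∧ mem u O) →
      ∃ F n, IsSub mem F C ∧ mem n w ∧ LeCard mem F n ∧ ∀ u, mem u K → ∃ O, mem O F ∧ mem u O

/-- `S` is a σ-algebra of subsets of `X` that contains the open sets -/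
def IsSigmaOpen (w X S : M) : Prop :=
  (∀ B, mem B S → IsSub mem B X) ∧ (∀ O, IsOpenIn mem X O → mem O S) ∧
    (∀ B C, mem B S → (∀ u, mem u C ↔ mem u X ∧ ¬ mem u B) → mem C S) ∧
    ∀ f C, IsFun mem f w S → (∀ u, mem u C ↔ ∃ n B, App mem f n B ∧ mem u B) → mem C S

/-- `S` is the set of Borel subsets of `X` -/
def IsBorel (w X S : M) : Prop :=
  IsSigmaOpen mem w X S ∧ ∀ S', IsSigmaOpen mem w X S' → IsSub mem S S'

/-- `m` is a finite non-negative Radon measure on the Borel sets `S` of `X`: countably additive
and inner regular with respect to compact sets -/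
def IsRadon (w R add rle o X S m : M) : Prop :=
  IsFun mem m S R ∧ (∀ B x, App mem m B x → App mem rle o x) ∧
    (∀ B, mem B S → (∀ u, ¬ mem u B) → App mem m B o) ∧
    (∀ f s C x, IsFun mem f w S →
      (∀ i j B B' u, App mem f i B → App mem f j B' → mem u B → mem u B' → i = j) →
      IsSums mem w R add o s (fun i t => ∃ B, App mem f i B ∧ App mem m B t) →
      (∀ u, mem u C ↔ ∃ n B, App mem f n B ∧ mem u B) → App mem m C x →
        IsSup mem R rle x fun y => ∃ n, App mem s n y) ∧
    ∀ B x, App mem m B x → IsSup mem R rle x fun y =>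
      ∃ K, IsCompactIn mem w X K ∧ IsSub mem K B ∧ App mem m K y

/-- the measure algebra of `m` has a countable dense subset: there is a countable family `D` of
Borel sets such that for all Borel `B` and `ε > 0` some `F ∈ D` has `m (B △ F) < ε` -/
def CountableType (w R rle o S m : M) : Prop :=
  ∃ D, IsSub mem D S ∧ LeCard mem D w ∧ ∀ B e, mem B S → mem e R → ¬ App mem rle e o →
    ∃ F T x, mem F D ∧ (∀ u, mem u T ↔ (mem u B ∧ ¬ mem u F) ∨ (mem u F ∧ ¬ mem u B)) ∧
      App mem m T x ∧ ¬ App mem rle e x

/-- the Stone space of every infinite Boolean algebra with the Nikodym property carries a Radon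
measure of uncountable Maharam type -/
def Goal (w : M) : Prop :=
  ∀ R add mul rle o, IsReals mem R add mul rle o →
    ∀ A le, IsBoolean mem A le → LeCard mem w A → Nikodym mem w R add rle o A le →
      ∀ X S, IsStone mem A le X → IsBorel mem w X S →
        ∃ m, IsRadon mem w R add rle o X S m ∧ ¬ CountableType mem w R rle o S m

end Pool.Agent.P.MP_0d6be8_lc.NK
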