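import Pool.Agent.P.MP_0d6be8_lc.GDefs

set_option autoImplicit false

/-! Bridge between forced statements about sets of numbers and their ground forms. -/

open Pool.Agent.Lib.PosetForcing

namespace Pool.Agent.P.MP_0d6be8_lc

open NKIter MQ

variable {P : Type 1} [Preorder P] [OrderTop P]

/-- the ground form of a set of numbers -/
def gr (A : ∀ U : Gen P, Mod U → Prop) (p : P) (n : ℕ) : Prop :=
  Forces p fun U => A U ((natName n).val U)

theorem gr_mon (A : ∀ U : Gen P, Mod U → Prop) : Mon (gr A) := fun _ _ _ hq h => h.mono hq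

omit [OrderTop P] in
instance clopen_app2 (f a b d : Name P) :
    Clopen fun U : Gen P => App2 Mod.mem (f.val U) (a.val U) (b.val U) (d.val U) := by
  unfold App2; infer_instance

omit [OrderTop P] in
instance clopen_app3 (f a b c d : Name P) :
    Clopen fun U : Gen P => App3 Mod.mem (f.val U) (a.val U) (b.val U) (c.val U) (d.val U) := by
  unfold App3; infer_instance

variable (A B : ∀ U : Gen P, Mod U → Prop) [∀ a : Name P, Clopen fun U => A U (a.val U)]
  [∀ a : Name P, Clopen fun U => B U (a.val U)]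

omit [OrderTop P] in
instance clopen_infP (w : Name P) : Clopen fun U : Gen P => InfP Mod.mem (w.val U) (A U) := by
  unfold InfP; infer_instance

omit [OrderTop P] in
instance clopen_subP (w : Name P) :
    Clopen fun U : Gen P => SubP Mod.mem (w.val U) (A U) (B U) := by
  unfold SubP; infer_instance

omit [OrderTop P] in
instance clopen_dec (w e : Name P) :
    Clopen fun U : Gen P => Dec Mod.mem (w.val U) (A U) (e.val U) := by
  unfold Dec; infer_instance

theorem forces_exists_omega {p : P}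
    (h : Forces p fun U => ∃ m, Mod.mem m (omegaName.val U) ∧ A U m) : ∃ q ≤ p, ∃ n, gr A q n := by
  obtain ⟨m, hm⟩ := Forces.exists_name (Φ := fun U m => Mod.mem m (omegaName.val U) ∧ A U m) h
  obtain ⟨q, hq, n, hn⟩ := Forces.exists_fam (hm.imp fun _ h => h.1)
  exact ⟨q, hq, n.down, ((hm.mono hq).and hn).imp fun U h => h.2 ▸ h.1.2⟩

theorem forces_infP {p : P} :
    (Forces p fun U => InfP Mod.mem (omegaName.val U) (A U)) ↔ Inf p (gr A) := by
  constructor
  · intro h q hq n
    obtain ⟨r, hr, d, hd⟩ := forces_exists_omega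
      (fun U m => ¬ Mod.mem m ((natName n).val U) ∧ A U m)
      ((h.mono hq).imp fun U h => h _ (natName_mem_omega n U))
    obtain ⟨U, hU⟩ := hd.exists
    exact ⟨r, hr, d, not_lt.1 fun e => hU.1 (natName_mem e U), hd.imp fun _ h => h.2⟩
  · intro h
    refine forces_forall_mem_omega (Φ := fun U n => ∃ m, Mod.mem m (omegaName.val U) ∧
      ¬ Mod.mem m n ∧ A U m) fun n q hq => ?_
    obtain ⟨r, hr, d, hd, h1⟩ := h q hq n
    exact ⟨r, hr, h1.imp fun U h => ⟨_, natName_mem_omega d U,
      fun e => absurd (natName_mem_iff.1 e) (not_lt.2 hd), h⟩⟩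

theorem forces_subP {p : P} :
    (Forces p fun U => SubP Mod.mem (omegaName.val U) (A U) (B U)) ↔ Sub p (gr A) (gr B) := by
  constructor
  · intro h q hq
    obtain ⟨r, hr, N, hN⟩ := forces_exists_omega (fun U n => ∀ m, Mod.mem m (omegaName.val U) →
      ¬ Mod.mem m n → A U m → B U m) (h.mono hq)
    exact ⟨r, hr, N, fun d hd s hs h1 => ⟨s, le_rfl, ((Forces.mono hN hs).and h1).imp fun U h =>
      h.1 _ (natName_mem_omega d U) (fun e => absurd (natName_mem_iff.1 e) (not_lt.2 hd)) h.2⟩⟩
  · intro h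
    refine Forces.of_dn fun q hq => ?_
    obtain ⟨r, hr, N, hN⟩ := h q hq
    have : ∀ a : Name P, Clopen fun U => ¬ Mod.mem (a.val U) ((natName N).val U) →
        A U (a.val U) → B U (a.val U) := fun a => clopen_imp _ _
    refine ⟨r, hr, (forces_forall_mem_omega (Φ := fun U m => ¬ Mod.mem m ((natName N).val U) →
      A U m → B U m) fun d s hs => ⟨s, le_rfl, ?_⟩).imp fun U h => ⟨_, natName_mem_omega N U, h⟩⟩
    by_cases hd : d < N
    · exact Forces.of_forall (fun U h => absurd (natName_mem hd U) h) s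
    · exact (forces_imp fun t ht h1 => hN d (not_lt.1 hd) t (ht.trans hs) h1).imp fun U h _ => h

theorem forces_subP_not {p : P} :
    (Forces p fun U => SubP Mod.mem (omegaName.val U) (A U) fun m => ¬ B U m) ↔
      Dis p (gr A) (gr B) := by
  rw [forces_subP A fun U m => ¬ B U m]
  refine forall₂_congr fun q _ => exists_congr fun r => and_congr_right fun _ =>
    exists_congr fun N => forall₂_congr fun d _ => ⟨fun h s hs h1 h2 => ?_, fun h s hs h1 => ?_⟩
  · obtain ⟨t, ht, h3⟩ := h s hs h1
    exact forces_not_iff.1 h3 t le_rfl (Forces.mono h2 ht)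
  · exact ⟨s, le_rfl, forces_not_iff.2 fun t ht => h t (ht.trans hs) (Forces.mono h1 ht)⟩

theorem forces_dec {p : P} {e : Name P}
    (h : Forces p fun U => Dec Mod.mem (omegaName.val U) (A U) (e.val U)) :
    ∃ q ≤ p, Sub q (gr A) (gr fun U m => Mod.mem m (e.val U)) ∨
      Dis q (gr A) (gr fun U m => Mod.mem m (e.val U)) := by
  by_cases h1 : Forces p fun U =>
      SubP Mod.mem (omegaName.val U) (A U) fun m => Mod.mem m (e.val U)
  · exact ⟨p, le_rfl, Or.inl ((forces_subP A _).1 h1)⟩
  · obtain ⟨q, hq, h2⟩ := exists_forces_not h1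
    exact ⟨q, hq, Or.inr ((forces_subP_not A _).1
      (((h.mono hq).and h2).imp fun U h => h.1.resolve_left h.2))⟩

/-- the name of a ground form -/
def realName (e : P → ℕ → Prop) : Name P := niceReal {x | e x.1 x.2.down}

theorem gr_realName {e : P → ℕ → Prop} (he : Mon e) {p : P} {n : ℕ} :
    gr (fun U m => Mod.mem m ((realName e).val U)) p n ↔ ∀ q ≤ p, ∃ r ≤ q, e r n := by
  constructor
  · intro h q hq
    obtain ⟨r, hr, ⟨⟨s, m⟩, hs⟩, h1, h2⟩ := (Forces.mono h hq).exists_el
    obtain rfl : n = m.down := h2.natName_inj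
    exact ⟨r, hr, he _ _ _ h1 hs⟩
  · intro h
    refine Forces.of_dn fun q hq => ?_
    obtain ⟨r, hr, h1⟩ := h q hq
    exact ⟨r, hr, forces_el_mem (b := realName e) ⟨(r, ⟨n⟩), h1⟩ le_rfl⟩

theorem forces_exists_K {p : P}
    (h : Forces p fun U => ∃ m, Mod.mem m ((typeName O).val U) ∧ A U m) :
    ∃ q ≤ p, ∃ x : O, Forces q fun U => A U ((ordName x).val U) := by
  obtain ⟨m, hm⟩ := Forces.exists_name (Φ := fun U m => Mod.mem m ((typeName O).val U) ∧ A U m) h
  obtain ⟨q, hq, n, hn⟩ := Forces.exists_fam (hm.imp fun _ h => h.1)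
  exact ⟨q, hq, n, ((hm.mono hq).and hn).imp fun U h => h.2 ▸ h.1.2⟩

theorem forces_forall_mem_ord {p : P} {g : O}
    (h : ∀ x < g, ∀ q ≤ p, ∃ r ≤ q, Forces r fun U => A U ((ordName x).val U)) :
    Forces p fun U => ∀ z, Mod.mem z ((ordName g).val U) → A U z := by
  rw [ordName_eq g]
  exact forces_forall_mem_fam fun x => h x.1 x.2

end Pool.Agent.P.MP_0d6be8_lc
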