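import Pool.Agent.P.MP_0d6be8_lc.BBr

set_option autoImplicit false

open Pool.Agent.Lib.PosetForcing

namespace Pool.Agent.P.MP_0d6be8_lc

open NKIter MQ

theorem bx_small {ι : Type*} [Small.{0} ι] (h : ι → O) : ∃ b, ∀ i, h i < b := by
  obtain ⟨b, hb⟩ := Ordinal.bddAbove_of_small (s := Set.range h)
  exact ⟨Order.succ b, fun i => Order.lt_succ_iff.2 (hb ⟨i, rfl⟩)⟩

open Cardinal in
theorem bx_enum {X : Type 1} (j : X ↪ O) : ∃ e : O → Set X, ∀ S : Set X, S.Countable → ∃ ξ, e ξ = S := by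
  have h1 : #(Σ a : O, Set (Set.Iio a)) ≤ #O := by
    rw [mk_sigma]
    refine (sum_le_sum _ (fun _ => #O) fun a => ?_).trans ?_
    · have h : Small.{0} (Set (Set.Iio a)) := inferInstance
      rw [small_iff_lift_mk_lt_univ] at h
      simpa using h.le
    · rw [sum_const', mul_eq_self (aleph0_le_mk O)]
  obtain ⟨k⟩ := (Cardinal.le_def _ _).1 h1
  have : Nonempty (Σ a : O, Set (Set.Iio a)) := ⟨⟨0, ∅⟩⟩
  refine ⟨fun ξ => j ⁻¹' (Subtype.val '' (Function.invFun k ξ).2), fun S hS => ?_⟩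
  have := hS.to_subtype
  obtain ⟨a, ha⟩ := bx_small fun x : S => j x.1
  refine ⟨k ⟨a, Subtype.val ⁻¹' (j '' S)⟩, ?_⟩
  simp only []
  rw [Function.leftInverse_invFun k.injective]
  ext x
  constructor
  · rintro ⟨y, ⟨z, hz, e1⟩, e2⟩
    exact j.injective (e1.trans e2) ▸ hz
  · exact fun hx => ⟨⟨j x, ha ⟨x, hx⟩⟩, ⟨x, hx, rfl⟩, rfl⟩

variable {P : Type 1} [Preorder P]

theorem bx_wit (h : CCC P) {κ : Type*} [Nonempty κ] (V : κ → Prop) (hV : ∃ k, V k)
    (R : κ → P → Prop) (hR : ∀ k p q, q ≤ p → R k p → R k q) :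
    ∃ f : ℕ → κ, (∀ n, V (f n)) ∧ ∀ q k, V k → R k q → ∃ r ≤ q, ∃ n, R (f n) r := by
  obtain ⟨A, h1, h2, h3⟩ := h.exists_antichain {p | ∃ k, V k ∧ R k p}
  choose! f hf using h1
  obtain ⟨k0, h0⟩ := hV
  obtain ⟨u, hu⟩ := ((h2.image fun a => f (a := a)).insert k0).exists_eq_range
    (Set.insert_nonempty _ _)
  refine ⟨u, fun n => ?_, fun q k hk h4 => ?_⟩
  · rcases (hu ▸ Set.mem_range_self n : u n ∈ insert k0 _) with e | ⟨a, ha, e⟩
    · exact e ▸ h0
    · exact e ▸ (hf ha).1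
  · obtain ⟨a, ha, r, r1, r2⟩ := h3 q ⟨k, hk, h4⟩
    obtain ⟨n, hn⟩ : f (a := a) ∈ Set.range u := hu ▸ Or.inr ⟨a, ha, rfl⟩
    exact ⟨r, r2, n, hn ▸ hR _ _ _ r1 (hf ha).2⟩

variable [OrderTop P]

theorem isOrd_K (U : Gen P) : IsOrd Mod.mem ((typeName O).val U) := by
  refine ⟨fun x y hx => ?_, fun x y z hx hy => ?_, fun x y hx => ?_⟩
  · exact forall_mem_fam (Φ := fun U x => IsSub Mod.mem x ((typeName O).val U))
      (fun x U => forall_mem_ordName (Φ := fun U z => Mod.mem z ((typeName O).val U))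
        (fun y _ U => ordName_mem_typeName y U) U) U x hx y
  · exact forall_mem_fam (Φ := fun U x => ∀ y, Mod.mem y x → IsSub Mod.mem y x)
      (fun x U => forall_mem_ordName (Φ := fun U y => IsSub Mod.mem y ((ordName x).val U))
        (fun y hy U => forall_mem_ordName (Φ := fun U z => Mod.mem z ((ordName x).val U))
          (fun z hz U => ordName_mem (hz.trans hy) U) U) U) U x hx y hy z
  · refine forall_mem_fam (Φ := fun U x => ∀ y, Mod.mem y ((typeName O).val U) →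
      Mod.mem x y ∨ x = y ∨ Mod.mem y x) (fun x U => forall_mem_fam (Φ := fun U y =>
        Mod.mem ((ordName x).val U) y ∨ (ordName x).val U = y ∨ Mod.mem y ((ordName x).val U))
        (fun y U => ?_) U) U x hx y
    exact (lt_trichotomy x y).imp (fun h => ordName_mem h U)
      (Or.imp (fun h => by rw [h]) fun h => ordName_mem h U)

/-- witnesses in `K` for a small family of demands are found below one stage -/
theorem bx_bound (h : CCC P) {ι : Type*} [Small.{0} ι] (f : Name P) (a : ι → Name P) :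
    ∃ b : O, ∀ i U, (∃ z, Mod.mem z ((typeName O).val U) ∧ App Mod.mem (f.val U) ((a i).val U) z) →
      ∃ z, Mod.mem z ((ordName b).val U) ∧ App Mod.mem (f.val U) ((a i).val U) z := by
  choose u _ hu using fun i => bx_wit h (fun _ : O => True) ⟨0, trivial⟩ (fun k p => Forces p
    fun U => App Mod.mem (f.val U) ((a i).val U) ((ordName k).val U)) fun _ _ _ hq h => h.mono hq
  obtain ⟨b, hb⟩ := bx_small fun x : ι × ℕ => u x.1 x.2
  refine ⟨b, fun i => of_forces_all fun p => ⟨p, le_rfl, forces_imp fun q _ hq => ?_⟩⟩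
  obtain ⟨r, hr, x, hx⟩ := forces_exists_K (fun U z => App Mod.mem (f.val U) ((a i).val U) z) hq
  obtain ⟨s, hs, n, h1⟩ := hu i r x trivial hx
  exact ⟨s, hs.trans hr, h1.imp fun U h => ⟨_, ordName_mem (hb (i, n)) U, h⟩⟩

theorem bx_bdd (h : CCC P) {ι : Type 1} [Small.{0} ι] (a : ι → Name P) (U : Gen P) :
    Bdd Mod.mem ((fam a).val U) ((typeName O).val U) := by
  intro f hf
  obtain ⟨f, rfl⟩ := f.exists_name
  obtain ⟨d, hd⟩ := bx_bound h f a
  exact ⟨_, ordName_mem_typeName d U, fun n hn => forall_mem_fam (Φ := fun U n =>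
    (∃ a, Mod.mem a ((typeName O).val U) ∧ App Mod.mem (f.val U) n a) →
      ∃ a, Mod.mem a ((ordName d).val U) ∧ App Mod.mem (f.val U) n a) hd U n hn (hf n hn)⟩

theorem bdd_K (h : CCC P) (U : Gen P) :
    Bdd Mod.mem (omegaName.val U) ((typeName O).val U) := bx_bdd h _ U

instance clopen_bdd (a b : Name P) :
    Clopen fun U : Gen P => Bdd Mod.mem (a.val U) (b.val U) := by
  unfold Bdd; infer_instance

/-- `K` is regular -/
theorem reg_K (h : CCC P) (U : Gen P) : ∀ a, Mod.mem a ((typeName O).val U) →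
    Bdd Mod.mem a ((typeName O).val U) :=
  forall_mem_fam (Φ := fun U a => Bdd Mod.mem a ((typeName O).val U)) (fun x U => by
    have : Small.{0} {y // y < x} := inferInstanceAs (Small.{0} (Set.Iio x))
    rw [ordName_eq x]
    exact bx_bdd h _ U) U

theorem bdd_ord (h : CCC P) {g : O} (hg : ∀ f : ℕ → O, (∀ n, f n < g) → ∃ d < g, ∀ n, f n < d)
    (h0 : 0 < g) (U : Gen P) : Bdd Mod.mem (omegaName.val U) ((ordName g).val U) := by
  intro f hf
  obtain ⟨f, rfl⟩ := f.exists_name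
  choose u hu hu' using fun n : ℕ => bx_wit h (fun k : O => k < g) ⟨0, h0⟩ (fun k p => Forces p
    fun U => App Mod.mem (f.val U) ((natName n).val U) ((ordName k).val U))
    fun _ _ _ hq h => h.mono hq
  obtain ⟨b, hb, hb'⟩ := hg (fun m => u m.unpair.1 m.unpair.2) fun m => hu _ _
  refine ⟨_, ordName_mem hb U, fun n hn => forall_mem_omega (Φ := fun U n =>
    (∃ a, Mod.mem a ((ordName g).val U) ∧ App Mod.mem (f.val U) n a) →
      ∃ a, Mod.mem a ((ordName b).val U) ∧ App Mod.mem (f.val U) n a) (fun n => ?_) U n hn (hf n hn)⟩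
  refine of_forces_all fun p => ⟨p, le_rfl, forces_imp fun q _ hq => ?_⟩
  obtain ⟨a, ha⟩ := Forces.exists_name (Φ := fun U z => Mod.mem z ((ordName g).val U) ∧
    App Mod.mem (f.val U) ((natName n).val U) z) hq
  obtain ⟨r, hr, x, hx⟩ := Forces.exists_fam (ordName_eq (P := P) g ▸ ha.imp fun _ h => h.1)
  obtain ⟨s, hs, k, h2⟩ := hu' n r x.1 x.2 (((ha.mono hr).and hx).imp fun U h => h.2 ▸ h.1.2)
  exact ⟨s, hs.trans hr, h2.imp fun U h =>
    ⟨_, ordName_mem (by simpa using hb' (n.pair k)) U, h⟩⟩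

/-- a total relation on `K` is bounded by a ground function -/
theorem exists_bound (h : CCC P) (F : Name P) : ∃ f : O → O, ∀ (a : O) (U : Gen P),
    (∃ b, Mod.mem b ((typeName O).val U) ∧ App Mod.mem (F.val U) ((ordName a).val U) b) →
    ∃ b, Mod.mem b ((ordName (f a)).val U) ∧ App Mod.mem (F.val U) ((ordName a).val U) b := by
  choose f hf using fun a : O => bx_bound h F fun _ : Unit => ordName a
  exact ⟨f, fun a => hf a ()⟩

theorem exists_onto (h : CCC P) (hc : Cardinal.mk P ≤ Cardinal.univ.{0, 1}) :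
    ∃ X : Name P, ∀ U, Onto Mod.mem (omegaName.val U) ((typeName O).val U) (X.val U) := by
  obtain ⟨j⟩ : Nonempty (P × ULift.{1} ℕ ↪ O) := by
    rw [← Cardinal.le_def, Cardinal.mk_ordinal, Cardinal.mk_prod, Cardinal.lift_id, Cardinal.lift_id]
    exact Cardinal.mul_le_of_le Cardinal.aleph0_lt_univ.le hc
      (Cardinal.mk_le_aleph0.trans Cardinal.aleph0_lt_univ.le)
  obtain ⟨e, he⟩ := bx_enum j
  let T := {t : O × P × ULift.{1} ℕ // t.2 ∈ e t.1}
  let X : Name P := graphName (ι := T) (fun t => ordName t.1.1) (fun t => natName t.1.2.2.down)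
    fun t => t.1.2.1
  refine ⟨X, fun U x => ?_⟩
  obtain ⟨x, rfl⟩ := x.exists_name
  obtain ⟨S, hS, h1⟩ := h.exists_niceReal (sepName omegaName fun U z => Mod.mem z (x.val U))
  obtain ⟨ξ, rfl⟩ := he S hS
  refine ⟨_, ordName_mem_typeName ξ U, fun m hm => ?_⟩
  rw [← and_iff_right (b := Mod.mem m (x.val U)) hm, ← mem_sepName omegaName
    (fun U z => Mod.mem z (x.val U)), h1 U fun z hz => ((mem_sepName _ _ U z).1 hz).1]
  refine forall_mem_omega (Φ := fun U m => App Mod.mem (X.val U) ((ordName ξ).val U) m ↔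
    Mod.mem m ((niceReal (e ξ)).val U)) (fun n U => ?_) U m hm
  have c1 := (clopen_mem (natName n) (niceReal (e ξ))).out U
  have c2 := (clopen_app X (ordName ξ) (natName n)).out U
  refine ⟨fun h2 => c1.2 (U.mem_of_dn (fun _ _ hq h => Forces.mono h hq) (c2.1 h2)
    fun p hp q hq => ?_), fun h2 => c2.2 (U.mem_of_dn (fun _ _ hq h => Forces.mono h hq)
      (c1.1 h2) fun p hp q hq => ?_)⟩
  · obtain ⟨r, hr, ⟨⟨ζ, a, m⟩, ht⟩, h1, h2⟩ := (Forces.mono hp hq).exists_app_graph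
    obtain rfl : ξ = ζ := (h2.imp fun _ h => h.1).ordName_inj
    obtain rfl : n = m.down := (h2.imp fun _ h => h.2).natName_inj
    exact ⟨r, hr, forces_el_mem (b := niceReal (e ξ)) ⟨(a, m), ht⟩ h1⟩
  · obtain ⟨r, hr, ⟨⟨a, m⟩, ht⟩, h1, h2⟩ := (Forces.mono hp hq).exists_el
    obtain rfl : n = m.down := h2.natName_inj
    exact ⟨r, hr, forces_app_graph (ι := T) ⟨(ξ, a, m), ht⟩ h1⟩

end Pool.Agent.P.MP_0d6be8_lc
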