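import Pool.Agent.P.MP_0d6be8_lc.BBr
import Pool.Agent.P.MP_0d6be8_lc.BX

set_option autoImplicit false

/-! The principle `PL` in the quotient models. -/

open Pool.Agent.Lib.PosetForcing

namespace Pool.Agent.P.MP_0d6be8_lc

open NKIter MQ

variable {P : Type 1} [Preorder P]

instance clopen_noneIn (A B : ∀ U : Gen P, Mod U → Prop)
    [∀ a : Name P, Clopen fun U => A U (a.val U)] [∀ a : Name P, Clopen fun U => B U (a.val U)]
    (w g X : Name P) :
    Clopen fun U : Gen P => NoneIn Mod.mem (w.val U) (g.val U) (X.val U) (A U) (B U) := by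
  unfold NoneIn; infer_instance

instance clopen_towers (w K T Z : Name P) :
    Clopen fun U : Gen P => Towers Mod.mem (w.val U) (K.val U) (T.val U) (Z.val U) := by
  unfold Towers; infer_instance

instance clopen_luz (w K X T Z g : Name P) : Clopen fun U : Gen P =>
    Luz Mod.mem (w.val U) (K.val U) (X.val U) (T.val U) (Z.val U) (g.val U) := by
  unfold Luz; infer_instance

instance clopen_pl (w K X : Name P) :
    Clopen fun U : Gen P => PL Mod.mem (w.val U) (K.val U) (X.val U) := by
  unfold PL; infer_instance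

variable [OrderTop P]

theorem forces_noneIn (A B : ∀ U : Gen P, Mod U → Prop)
    [∀ a : Name P, Clopen fun U => A U (a.val U)] [∀ a : Name P, Clopen fun U => B U (a.val U)]
    {X : Name P} {g : O} {q : P}
    (h : ∀ x < g, ∀ r ≤ q, Inf r (gr fun U => App Mod.mem (X.val U) ((ordName x).val U)) →
      Sub r (gr fun U => App Mod.mem (X.val U) ((ordName x).val U)) (gr A) →
      ¬ Forces r fun U => SubP Mod.mem (omegaName.val U)
        (App Mod.mem (X.val U) ((ordName x).val U)) (B U)) :
    Forces q fun U =>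
      NoneIn Mod.mem (omegaName.val U) ((ordName g).val U) (X.val U) (A U) (B U) := by
  refine forces_forall_mem_ord (fun U x => InfP Mod.mem (omegaName.val U) (App Mod.mem (X.val U) x) →
    SubP Mod.mem (omegaName.val U) (App Mod.mem (X.val U) x) (A U) →
    ¬ SubP Mod.mem (omegaName.val U) (App Mod.mem (X.val U) x) (B U)) fun x hx r hr =>
    ⟨r, le_rfl, forces_imp fun s hs h1 => ⟨s, le_rfl, forces_imp fun t ht h2 => ⟨t, le_rfl,
      forces_not_iff.2 fun u hu => h x hx u (hu.trans (ht.trans (hs.trans hr))) ?_ ?_⟩⟩⟩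
  · exact (forces_infP _).1 (h1.mono (hu.trans ht))
  · exact (forces_subP _ _).1 (h2.mono hu)

theorem pl_holds (h : GP P) (X : Name P) (U : Gen P) :
    PL Mod.mem (omegaName.val U) ((typeName O).val U) (X.val U) := by
  refine of_forces_all (Φ := fun U => PL Mod.mem (omegaName.val U) ((typeName O).val U) (X.val U))
    (fun p => ⟨p, le_rfl, ?_⟩) U
  refine forces_forall fun T => forces_forall fun Z => forces_forall fun F =>
    forces_imp fun q1 _ hT => ⟨q1, le_rfl, forces_imp fun p0 h0 hF => ⟨p0, le_rfl, ?_⟩⟩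
  replace hT := hT.mono h0
  obtain ⟨f, hf⟩ := exists_bound h.ccc F
  have hK := fun (x : O) (U : Gen P) => ordName_mem_typeName x U
  obtain ⟨g, g0, g1, g2, g3⟩ := h.gpl p0
    (fun x => gr fun U => App Mod.mem (X.val U) ((ordName x).val U))
    (fun j x => gr fun U => App2 Mod.mem (T.val U) ((ordName j).val U) ((ordName x).val U))
    (fun j x k => gr fun U =>
      App3 Mod.mem (Z.val U) ((ordName j).val U) ((ordName x).val U) ((natName k).val U))
    f (fun _ => gr_mon _) (fun _ _ => gr_mon _) (fun _ _ _ => gr_mon _)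
    (fun j x y hy => (forces_subP _ _).1
      (hT.imp fun U h => h.1 _ _ _ (hK j U) (hK x U) (ordName_mem hy U)))
    (fun j e he q hq => by
      obtain ⟨r, hr, x, hx⟩ := forces_exists_K (fun U x => Dec Mod.mem (omegaName.val U)
        (App2 Mod.mem (T.val U) ((ordName j).val U) x) ((realName e).val U))
        ((hT.mono hq).imp fun U h => h.2.1 _ _ (hK j U))
      obtain ⟨s, hs, h1⟩ := forces_dec _ hx
      refine ⟨s, hs.trans hr, x, h1.imp (fun h1 t ht => ?_) fun h1 t ht => ?_⟩
      · obtain ⟨u, hu, N, hN⟩ := h1 t ht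
        refine ⟨u, hu, N, fun d hd v hv h2 => ?_⟩
        obtain ⟨v1, k1, k2⟩ := hN d hd v hv h2
        obtain ⟨v2, k3, k4⟩ := (gr_realName he).1 k2 v1 le_rfl
        exact ⟨v2, k3.trans k1, k4⟩
      · obtain ⟨u, hu, N, hN⟩ := h1 t ht
        exact ⟨u, hu, N, fun d hd v hv h2 h3 => hN d hd v hv h2
          ((gr_realName he).2 fun w hw => ⟨w, le_rfl, he _ _ _ hw h3⟩)⟩)
    (fun j x k =>
      have e := hT.imp fun U h => h.2.2 _ _ _ (hK j U) (hK x U) (natName_mem_omega k U)
      ⟨(forces_infP _).1 (e.imp fun _ h => h.1), (forces_subP _ _).1 (e.imp fun _ h => h.2)⟩)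
  have e1 : Forces p0 fun U => ∀ a, Mod.mem a ((ordName g).val U) →
      ∃ b, Mod.mem b ((ordName g).val U) ∧ App Mod.mem (F.val U) a b :=
    forces_forall_mem_ord (fun U a => ∃ b, Mod.mem b ((ordName g).val U) ∧
      App Mod.mem (F.val U) a b) fun a ha q hq => ⟨q, le_rfl, (hF.mono hq).imp fun U h => by
        obtain ⟨b, h1, h2⟩ := hf a U (h _ (hK a U))
        exact ⟨b, (isOrd_K U).2.1 _ _ _ (hK g U) (ordName_mem (g1 a ha) U) h1, h2⟩⟩
  have e2 : Forces p0 fun U => ∀ j, Mod.mem j ((ordName g).val U) → ∀ e,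
      (∀ x, Mod.mem x ((typeName O).val U) → ∃ k, Mod.mem k (omegaName.val U) ∧
        Dec Mod.mem (omegaName.val U) (App3 Mod.mem (Z.val U) j x k) e) →
      ∃ d, Mod.mem d ((ordName g).val U) ∧
        (NoneIn Mod.mem (omegaName.val U) ((ordName g).val U) (X.val U)
            (App2 Mod.mem (T.val U) j d) (fun m => Mod.mem m e) ∨
          NoneIn Mod.mem (omegaName.val U) ((ordName g).val U) (X.val U)
            (App2 Mod.mem (T.val U) j d) fun m => ¬ Mod.mem m e) := by
    refine forces_forall_mem_ord _ fun j hj q hq => ⟨q, le_rfl, forces_forall fun e =>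
      forces_imp fun r hr h1 => ?_⟩
    obtain ⟨s, hs, d, hd, h2⟩ := g3 j hj (gr fun U m => Mod.mem m (e.val U)) (gr_mon _) r
      (hr.trans hq) fun x s hs => by
        obtain ⟨t, ht, k, hk⟩ := forces_exists_omega (fun U k => Dec Mod.mem (omegaName.val U)
          (App3 Mod.mem (Z.val U) ((ordName j).val U) ((ordName x).val U) k) (e.val U))
          ((h1.mono hs).imp fun U h => h _ (hK x U))
        obtain ⟨u, hu, h3⟩ := forces_dec _ hk
        exact ⟨u, hu.trans ht, k, h3⟩
    refine ⟨s, hs, ?_⟩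
    rcases h2 with h2 | h2
    · exact (forces_noneIn _ (fun U m => Mod.mem m (e.val U)) fun x hx t ht k1 k2 k3 =>
        h2 x hx t ht k1 k2 ((forces_subP _ _).1 k3)).imp
        fun U h => ⟨_, ordName_mem hd U, Or.inl h⟩
    · exact (forces_noneIn _ (fun U m => ¬ Mod.mem m (e.val U)) fun x hx t ht k1 k2 k3 =>
        h2 x hx t ht k1 k2 ((forces_subP_not _ _).1 k3)).imp
        fun U h => ⟨_, ordName_mem hd U, Or.inr h⟩
  exact (e1.and e2).imp fun U e => ⟨_, hK g U, ⟨_, ordName_mem g0 U⟩, e.1,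
    bdd_ord h.ccc g2 g0 U, fun j x hj => e.2 j hj x⟩

end Pool.Agent.P.MP_0d6be8_lc
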