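import Mathlib

namespace Pool.Agent.P.MP_0d6be8_lc
open Set Filter MeasureTheory

/-- additivity on a family of subsets of `ℕ` -/
def AddOn (𝒜 : Set (Set ℕ)) (μ : Set ℕ → ℝ) : Prop :=
  ∀ a ∈ 𝒜, ∀ b ∈ 𝒜, Disjoint a b → μ (a ∪ b) = μ a + μ b

variable {𝒜 : Set (Set ℕ)} {μ ν : Set ℕ → ℝ}

lemma AddOn.empty (hA : IsSetAlgebra 𝒜) (h : AddOn 𝒜 μ) : μ ∅ = 0 := by
  have := h ∅ hA.empty_mem ∅ hA.empty_mem (by simp)
  simp at this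
  exact this

lemma AddOn.split (hA : IsSetAlgebra 𝒜) (h : AddOn 𝒜 μ) {a b : Set ℕ} (ha : a ∈ 𝒜) (hb : b ∈ 𝒜) :
    μ a = μ (a ∩ b) + μ (a \ b) := by
  rw [← h _ (hA.inter_mem ha hb) _ (hA.sdiff_mem ha hb) (Set.disjoint_left.2 fun x h1 h2 => h2.2 h1.2)]
  simp

lemma AddOn.subset {ℬ : Set (Set ℕ)} (h : AddOn 𝒜 μ) (hB : ℬ ⊆ 𝒜) : AddOn ℬ μ :=
  fun a ha b hb hd => h a (hB ha) b (hB hb) hd

/-- nonnegative additive -/
structure Pos (𝒜 : Set (Set ℕ)) (ν : Set ℕ → ℝ) : Prop where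
  add : AddOn 𝒜 ν
  nonneg : ∀ a ∈ 𝒜, 0 ≤ ν a

lemma Pos.mono (hA : IsSetAlgebra 𝒜) (h : Pos 𝒜 ν) {a b : Set ℕ} (ha : a ∈ 𝒜) (hb : b ∈ 𝒜)
    (hab : a ⊆ b) : ν a ≤ ν b := by
  rw [h.add.split hA hb ha, Set.inter_eq_right.2 hab]
  linarith [h.nonneg _ (hA.sdiff_mem hb ha)]

lemma Pos.union_le (hA : IsSetAlgebra 𝒜) (h : Pos 𝒜 ν) {a b : Set ℕ} (ha : a ∈ 𝒜) (hb : b ∈ 𝒜) :
    ν (a ∪ b) ≤ ν a + ν b := by
  have h1 := h.add.split hA (hA.union_mem ha hb) ha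
  have h2 : (a ∪ b) ∩ a = a := by ext x; simp; tauto
  rw [h2] at h1
  have h3 := h.mono hA (hA.sdiff_mem (hA.union_mem ha hb) ha) hb (by intro x; simp; tauto)
  linarith

/-- domination -/
def Dom (𝒜 : Set (Set ℕ)) (μ ν : Set ℕ → ℝ) : Prop := ∀ e ∈ 𝒜, |μ e| ≤ ν e

lemma approx_le (hA : IsSetAlgebra 𝒜) (hμ : AddOn 𝒜 μ) (hν : Pos 𝒜 ν) (hd : Dom 𝒜 μ ν)
    {a c S : Set ℕ} (ha : a ∈ 𝒜) (hc : c ∈ 𝒜) (hS : S ∈ 𝒜) (h : ∀ x, x ∉ S → (x ∈ a ↔ x ∈ c)) :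
    |μ a - μ c| ≤ ν S := by
  have h1 := hμ.split hA ha hc
  have h2 := hμ.split hA hc ha
  rw [Set.inter_comm c a] at h2
  have h3 := hd _ (hA.sdiff_mem ha hc)
  have h4 := hd _ (hA.sdiff_mem hc ha)
  have h5 := hν.add _ (hA.sdiff_mem ha hc) _ (hA.sdiff_mem hc ha)
    (Set.disjoint_left.2 fun x h1 h2 => h1.2 h2.1)
  have h6 := hν.mono hA (hA.union_mem (hA.sdiff_mem ha hc) (hA.sdiff_mem hc ha)) hS (by
    intro x hx
    by_contra hx'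
    have := h x hx'
    rcases hx with hx | hx
    · exact hx.2 (this.1 hx.1)
    · exact hx.2 (this.2 hx.1))
  rw [abs_le] at *
  constructor <;> linarith [h3.1, h3.2, h4.1, h4.2]

/-- `ν` is the variation of `μ` -/
structure IsVar (𝒜 : Set (Set ℕ)) (μ ν : Set ℕ → ℝ) : Prop where
  pos : Pos 𝒜 ν
  dom : Dom 𝒜 μ ν
  hahn : ∀ e ∈ 𝒜, ∀ ε > 0, ∃ c ∈ 𝒜, c ⊆ e ∧ ν e - ε ≤ μ c - μ (e \ c)

theorem exists_var (hA : IsSetAlgebra 𝒜) (hμ : AddOn 𝒜 μ) {C : ℝ} (hC : ∀ a ∈ 𝒜, |μ a| ≤ C) :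
    ∃ ν, IsVar 𝒜 μ ν := by
  let S : Set ℕ → Set ℝ := fun e => {x | ∃ c ∈ 𝒜, c ⊆ e ∧ x = μ c - μ (e \ c)}
  have hne : ∀ e, (S e).Nonempty := fun e => ⟨_, ∅, hA.empty_mem, empty_subset _, rfl⟩
  have hbd : ∀ e ∈ 𝒜, BddAbove (S e) := by
    intro e he
    refine ⟨2 * C, ?_⟩
    rintro x ⟨c, hc, -, rfl⟩
    have h1 := abs_le.1 (hC c hc)
    have h2 := abs_le.1 (hC _ (hA.sdiff_mem he hc))
    linarith [h1.2, h2.1]
  have hle : ∀ e ∈ 𝒜, ∀ c ∈ 𝒜, c ⊆ e → μ c - μ (e \ c) ≤ sSup (S e) :=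
    fun e he c hc hce => le_csSup (hbd e he) ⟨c, hc, hce, rfl⟩
  have hap : ∀ e ∈ 𝒜, ∀ ε > 0, ∃ c ∈ 𝒜, c ⊆ e ∧ sSup (S e) - ε ≤ μ c - μ (e \ c) := by
    intro e he ε hε
    obtain ⟨x, ⟨c, hc, hce, rfl⟩, hx⟩ := exists_lt_of_lt_csSup (hne e) (sub_lt_self (sSup (S e)) hε)
    exact ⟨c, hc, hce, hx.le⟩
  have hdom : ∀ e ∈ 𝒜, |μ e| ≤ sSup (S e) := by
    intro e he
    have h1 := hle e he e he subset_rfl
    have h2 := hle e he ∅ hA.empty_mem (empty_subset _)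
    simp only [sdiff_self, Set.sdiff_empty, hμ.empty hA] at h1 h2
    rw [abs_le]; constructor <;> linarith
  refine ⟨fun e => sSup (S e), ⟨⟨?_, fun a ha => (abs_nonneg _).trans (hdom a ha)⟩, hdom, hap⟩⟩
  intro a ha b hb hab
  have hab' : ∀ x, x ∈ a → x ∉ b := fun x hx => Set.disjoint_left.1 hab hx
  apply le_antisymm
  · refine csSup_le (hne _) ?_
    rintro x ⟨c, hc, hce, rfl⟩
    have h1 := hle a ha (c ∩ a) (hA.inter_mem hc ha) inter_subset_right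
    have h2 := hle b hb (c \ a) (hA.sdiff_mem hc ha) (by
      intro x hx; rcases hce hx.1 with h | h
      · exact absurd h hx.2
      · exact h)
    have h3 := hμ.split hA hc ha
    have h4 := hμ.split hA (hA.sdiff_mem (hA.union_mem ha hb) hc) ha
    have e1 : ((a ∪ b) \ c) ∩ a = a \ (c ∩ a) := by ext x; simp; tauto
    have e2 : ((a ∪ b) \ c) \ a = b \ (c \ a) := by
      ext x; have := hab' x; simp; tauto
    rw [e1, e2] at h4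
    linarith
  · refine le_of_forall_pos_le_add fun ε hε => ?_
    obtain ⟨c, hc, hce, h1⟩ := hap a ha (ε / 2) (by positivity)
    obtain ⟨d, hd, hde, h2⟩ := hap b hb (ε / 2) (by positivity)
    have h3 := hle _ (hA.union_mem ha hb) _ (hA.union_mem hc hd) (union_subset_union hce hde)
    have h4 := hμ c hc d hd (hab.mono hce hde)
    have h5 := hμ _ (hA.sdiff_mem ha hc) _ (hA.sdiff_mem hb hd) (hab.mono sdiff_subset sdiff_subset)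
    have e1 : (a ∪ b) \ (c ∪ d) = a \ c ∪ b \ d := by
      ext x; have := hab' x; have h6 : x ∈ c → x ∈ a := fun h => hce h
      have h7 : x ∈ d → x ∈ b := fun h => hde h
      simp; tauto
    rw [e1] at h3
    linarith

lemma IsVar.exists_hahn (hA : IsSetAlgebra 𝒜) (hμ : AddOn 𝒜 μ) (h : IsVar 𝒜 μ ν) :
    ∃ g ∈ 𝒜, ∀ W ∈ 𝒜, ν W - 1 ≤ μ (W ∩ g) - μ (W \ g) := by
  obtain ⟨g, hg, -, h1⟩ := h.hahn univ hA.univ_mem 1 one_pos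
  refine ⟨g, hg, fun W hW => ?_⟩
  have h2 := hμ.split hA hg hW
  have h3 := hμ.split hA (hA.sdiff_mem hA.univ_mem hg) hW
  have h4 := h.pos.add.split hA hA.univ_mem hW
  have h5 := h.pos.add.split hA (hA.sdiff_mem hA.univ_mem hW) hg
  have h6 := abs_le.1 (h.dom _ (hA.sdiff_mem hg hW))
  have h7 := abs_le.1 (h.dom _ (hA.sdiff_mem (hA.sdiff_mem hA.univ_mem hg) hW))
  have e1 : (univ \ W) ∩ g = g \ W := by ext x; simp; tauto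
  have e2 : (univ \ W) \ g = (univ \ g) \ W := by ext x; simp; tauto
  have e3 : (univ \ g) ∩ W = W \ g := by ext x; simp; tauto
  rw [e1, e2] at h5
  rw [e3] at h3
  rw [univ_inter] at h4
  rw [inter_comm g W] at h2
  linarith [h6.2, h7.1]

lemma IsVar.univ_le (hA : IsSetAlgebra 𝒜) (h : IsVar 𝒜 μ ν) {C : ℝ} (hC : ∀ a ∈ 𝒜, |μ a| ≤ C) :
    ν univ ≤ 2 * C := by
  refine le_of_forall_pos_le_add fun ε hε => ?_
  obtain ⟨c, hc, -, h1⟩ := h.hahn univ hA.univ_mem ε hε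
  have h2 := abs_le.1 (hC c hc)
  have h3 := abs_le.1 (hC _ (hA.sdiff_mem hA.univ_mem hc))
  linarith [h2.2, h3.1]

/-- signed mass of the atom at an ultrafilter -/
def AtomMass (𝒜 : Set (Set ℕ)) (μ : Set ℕ → ℝ) (z : Ultrafilter ℕ) (m : ℝ) : Prop :=
  ∀ ε > 0, ∃ e ∈ 𝒜, e ∈ z ∧ ∀ e' ∈ 𝒜, e' ∈ z → e' ⊆ e → |μ e' - m| ≤ ε

lemma near_inf (hA : IsSetAlgebra 𝒜) (hν : Pos 𝒜 ν) (z : Ultrafilter ℕ) {δ : ℝ} (hδ : 0 < δ) :
    ∃ e ∈ 𝒜, e ∈ z ∧ ∀ e' ∈ 𝒜, e' ∈ z → ν e ≤ ν e' + δ := by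
  let S : Set ℝ := {x | ∃ e ∈ 𝒜, e ∈ z ∧ x = ν e}
  have hne : S.Nonempty := ⟨_, univ, hA.univ_mem, univ_mem, rfl⟩
  have hbd : BddBelow S := ⟨0, by rintro x ⟨e, he, -, rfl⟩; exact hν.nonneg e he⟩
  obtain ⟨x, ⟨e, he, hez, rfl⟩, hx⟩ := exists_lt_of_csInf_lt hne (lt_add_of_pos_right (sInf S) hδ)
  refine ⟨e, he, hez, fun e' he' hez' => ?_⟩
  have : sInf S ≤ ν e' := csInf_le hbd ⟨e', he', hez', rfl⟩
  linarith

lemma pos_atomMass (hA : IsSetAlgebra 𝒜) (hν : Pos 𝒜 ν) (z : Ultrafilter ℕ) :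
    ∃ m, AtomMass 𝒜 ν z m := by
  let S : Set ℝ := {x | ∃ e ∈ 𝒜, e ∈ z ∧ x = ν e}
  have hne : S.Nonempty := ⟨_, univ, hA.univ_mem, univ_mem, rfl⟩
  have hbd : BddBelow S := ⟨0, by rintro x ⟨e, he, -, rfl⟩; exact hν.nonneg e he⟩
  refine ⟨sInf S, fun ε hε => ?_⟩
  obtain ⟨x, ⟨e, he, hez, rfl⟩, hx⟩ := exists_lt_of_csInf_lt hne (lt_add_of_pos_right (sInf S) hε)
  refine ⟨e, he, hez, fun e' he' hez' hee => ?_⟩
  have h1 : sInf S ≤ ν e' := csInf_le hbd ⟨e', he', hez', rfl⟩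
  have h2 := hν.mono hA he' he hee
  rw [abs_le]; constructor <;> linarith

lemma AtomMass.lin (hA : IsSetAlgebra 𝒜) {μ' : Set ℕ → ℝ} {z : Ultrafilter ℕ} {m m' : ℝ}
    (h : AtomMass 𝒜 μ z m) (h' : AtomMass 𝒜 μ' z m') (s t : ℝ) :
    AtomMass 𝒜 (fun e => s * μ e + t * μ' e) z (s * m + t * m') := by
  intro ε hε
  have hp : 0 < ε / (|s| + |t| + 1) := by positivity
  obtain ⟨e, he, hez, h1⟩ := h _ hp
  obtain ⟨d, hd, hdz, h2⟩ := h' _ hp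
  refine ⟨e ∩ d, hA.inter_mem he hd, inter_mem hez hdz, fun e' he' hez' hee => ?_⟩
  have h3 := h1 e' he' hez' (hee.trans inter_subset_left)
  have h4 := h2 e' he' hez' (hee.trans inter_subset_right)
  have e1 : s * μ e' + t * μ' e' - (s * m + t * m') = s * (μ e' - m) + t * (μ' e' - m') := by ring
  rw [e1]
  calc |s * (μ e' - m) + t * (μ' e' - m')| ≤ |s| * |μ e' - m| + |t| * |μ' e' - m'| := by
        rw [← abs_mul, ← abs_mul]; exact abs_add_le _ _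
    _ ≤ |s| * (ε / (|s| + |t| + 1)) + |t| * (ε / (|s| + |t| + 1)) := by gcongr
    _ = (|s| + |t|) / (|s| + |t| + 1) * ε := by ring
    _ ≤ 1 * ε := by
        gcongr
        rw [div_le_one (by positivity)]; linarith
    _ = ε := one_mul _

lemma IsVar.atomMass (hA : IsSetAlgebra 𝒜) (hμ : AddOn 𝒜 μ) (h : IsVar 𝒜 μ ν) (z : Ultrafilter ℕ) :
    ∃ m, AtomMass 𝒜 μ z m := by
  have hp : Pos 𝒜 (fun e => ν e + μ e) := ⟨fun a ha b hb hab => by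
      simp only [h.pos.add a ha b hb hab, hμ a ha b hb hab]; ring,
    fun a ha => by linarith [(abs_le.1 (h.dom a ha)).1]⟩
  obtain ⟨m1, h1⟩ := pos_atomMass hA hp z
  obtain ⟨m2, h2⟩ := pos_atomMass hA h.pos z
  refine ⟨1 * m1 + (-1) * m2, ?_⟩
  have := h1.lin hA h2 1 (-1)
  simpa using this

lemma AtomMass.abs_le (hA : IsSetAlgebra 𝒜) (hν : Pos 𝒜 ν) (hd : Dom 𝒜 μ ν) {z : Ultrafilter ℕ}
    {m : ℝ} (h : AtomMass 𝒜 μ z m) {d : Set ℕ} (hdA : d ∈ 𝒜) (hdz : d ∈ z) : |m| ≤ ν d := by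
  refine le_of_forall_pos_le_add fun ε hε => ?_
  obtain ⟨e, he, hez, h1⟩ := h ε hε
  have h2 := h1 (e ∩ d) (hA.inter_mem he hdA) (inter_mem hez hdz) inter_subset_left
  have h3 := hd _ (hA.inter_mem he hdA)
  have h4 := hν.mono hA (hA.inter_mem he hdA) hdA inter_subset_right
  rw [_root_.abs_le] at *
  constructor <;> linarith [h2.1, h2.2, h3.1, h3.2]

lemma IsVar.small (hA : IsSetAlgebra 𝒜) (hμ : AddOn 𝒜 μ) (h : IsVar 𝒜 μ ν) {z : Ultrafilter ℕ}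
    {m : ℝ} (hm : AtomMass 𝒜 μ z m) {ε : ℝ} (hε : 0 < ε) : ∃ e ∈ 𝒜, e ∈ z ∧ ν e ≤ |m| + ε := by
  obtain ⟨e, he, hez, h1⟩ := hm (ε / 4) (by positivity)
  refine ⟨e, he, hez, ?_⟩
  obtain ⟨c, hc, hce, h2⟩ := h.hahn e he (ε / 4) (by positivity)
  have h3 := hμ.split hA he hc
  rw [Set.inter_eq_right.2 hce] at h3
  have h4 := abs_le.1 (h1 e he hez subset_rfl)
  have h5 := le_abs_self m
  have h6 := neg_abs_le m
  by_cases hcz : c ∈ z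
  · have h7 := abs_le.1 (h1 c hc hcz hce)
    linarith [h4.1, h4.2, h7.1, h7.2]
  · have h7 := abs_le.1 (h1 (e \ c) (hA.sdiff_mem he hc)
      (inter_mem hez (Ultrafilter.compl_mem_iff_notMem.2 hcz)) sdiff_subset)
    linarith [h4.1, h4.2, h7.1, h7.2]

/-- finite covers by neighbourhoods carrying little mass off their centre -/
lemma exists_cover (hA : IsSetAlgebra 𝒜) (hν : Pos 𝒜 ν) {δ : ℝ} (hδ : 0 < δ) :
    ∃ Y : Set (Ultrafilter ℕ × Set ℕ), Y.Finite ∧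
      (∀ y ∈ Y, y.2 ∈ 𝒜 ∧ y.2 ∈ y.1 ∧ ∀ d ∈ 𝒜, d ∉ y.1 → ν (y.2 ∩ d) ≤ δ) ∧
      ∀ z : Ultrafilter ℕ, ∃ y ∈ Y, y.2 ∈ z := by
  choose e he hez hinf using fun z => near_inf hA hν z hδ
  obtain ⟨t, ht⟩ := isCompact_univ.elim_finite_subcover (fun z => {u : Ultrafilter ℕ | e z ∈ u})
    (fun z => ultrafilter_isOpen_basic _) (fun z _ => mem_iUnion.2 ⟨z, hez z⟩)
  refine ⟨(fun z => (z, e z)) '' t, t.finite_toSet.image _, ?_, fun z => ?_⟩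
  · rintro y ⟨z, -, rfl⟩
    refine ⟨he z, hez z, fun d hd hdz => ?_⟩
    have h1 := hinf z (e z \ d) (hA.sdiff_mem (he z) hd)
      (inter_mem (hez z) (Ultrafilter.compl_mem_iff_notMem.2 hdz))
    have h2 := hν.add.split hA (he z) hd
    simp only
    linarith
  · have := ht (mem_univ z)
    simp only [mem_iUnion] at this
    obtain ⟨y, hy, hyz⟩ := this
    exact ⟨_, ⟨y, hy, rfl⟩, hyz⟩

end Pool.Agent.P.MP_0d6be8_lc
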