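import Pool.Agent.P.MP_0d6be8_lc.Basic

namespace Pool.Agent.P.MP_0d6be8_lc
open Set Filter MeasureTheory Topology

variable {𝒜 : Set (Set ℕ)}

/-- a pointwise bounded sequence whose variations tend to infinity -/
structure Bad (𝒜 : Set (Set ℕ)) (μ ν : ℕ → Set ℕ → ℝ) : Prop where
  add : ∀ n, AddOn 𝒜 (μ n)
  var : ∀ n, IsVar 𝒜 (μ n) (ν n)
  bdd : ∀ a ∈ 𝒜, ∃ C, ∀ n, |μ n a| ≤ C
  tend : Tendsto (fun n => ν n univ) atTop atTop

lemma exists_sep (hA : IsSetAlgebra 𝒜) {y z : Ultrafilter ℕ} (h : ¬ ∀ d ∈ 𝒜, d ∈ z ↔ d ∈ y) :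
    ∃ d ∈ 𝒜, d ∈ z ∧ d ∉ y := by
  push Not at h
  obtain ⟨d, hd, h | h⟩ := h
  · exact ⟨d, hd, h.1, h.2⟩
  · exact ⟨dᶜ, hA.compl_mem hd, Ultrafilter.compl_mem_iff_notMem.2 h.1,
      fun h' => Ultrafilter.compl_mem_iff_notMem.1 h' h.2⟩

lemma AtomMass.congr {μ : Set ℕ → ℝ} {y z : Ultrafilter ℕ} {m : ℝ} (h : AtomMass 𝒜 μ y m)
    (hyz : ∀ d ∈ 𝒜, d ∈ z ↔ d ∈ y) : AtomMass 𝒜 μ z m := by
  intro ε hε
  obtain ⟨e, he, hez, h1⟩ := h ε hε
  exact ⟨e, he, (hyz e he).2 hez, fun e' he' hz hee => h1 e' he' ((hyz e' he').1 hz) hee⟩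

theorem stepA' (hA : IsSetAlgebra 𝒜) (μ ν : ℕ → Set ℕ → ℝ) (hadd : ∀ n, AddOn 𝒜 (μ n))
    (hvar : ∀ n, IsVar 𝒜 (μ n) (ν n)) (hbdd : ∀ a ∈ 𝒜, ∃ C, ∀ n, |μ n a| ≤ C)
    (hs : ∀ n : ℕ, (n : ℝ) + 1 ≤ ν n univ) :
    ∃ μ' ν', Bad 𝒜 μ' ν' ∧
      ∀ z : Ultrafilter ℕ, ∀ ε > 0, ∀ᶠ n in atTop, ∃ e ∈ 𝒜, e ∈ z ∧ ν' n e < ε * ν' n univ := by
  set s : ℕ → ℝ := fun n => ν n univ with hsdef
  have hspos : ∀ n, 0 < s n := fun n => lt_of_lt_of_le (by positivity) (hs n)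
  choose m hm using fun n z => (hvar n).atomMass hA (hadd n) z
  have hmle : ∀ n z, |m n z| ≤ s n := fun n z =>
    (hm n z).abs_le hA (hvar n).pos (hvar n).dom hA.univ_mem univ_mem
  choose Yc hYfin hYc hYcov using fun (n j : ℕ) =>
    exists_cover hA (hvar n).pos (Nat.one_div_pos_of_nat (α := ℝ) (n := j))
  let Y : Set (Ultrafilter ℕ) := ⋃ n, ⋃ j, Prod.fst '' Yc n j
  have hYcount : Y.Countable :=
    countable_iUnion fun n => countable_iUnion fun j => ((hYfin n j).image _).countable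
  have hdich : ∀ z : Ultrafilter ℕ, (∃ y ∈ Y, ∀ d ∈ 𝒜, d ∈ z ↔ d ∈ y) ∨ ∀ n, m n z = 0 := by
    intro z
    by_contra hcon
    push Not at hcon
    obtain ⟨h1, n, hn⟩ := hcon
    obtain ⟨j, hj⟩ := exists_nat_one_div_lt (abs_pos.2 hn)
    obtain ⟨y, hy, hyz⟩ := hYcov n j z
    have hyY : y.1 ∈ Y := mem_iUnion.2 ⟨n, mem_iUnion.2 ⟨j, y, hy, rfl⟩⟩
    obtain ⟨d, hd, hdz, hdy⟩ := exists_sep hA (y := y.1) (z := z) (by
      intro h; obtain ⟨d, hd, h2⟩ := h1 _ hyY; have := h d hd; tauto)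
    have h2 := (hYc n j y hy).2.2 d hd hdy
    have h3 := (hm n z).abs_le hA (hvar n).pos (hvar n).dom (hA.inter_mem (hYc n j y hy).1 hd)
      (inter_mem hyz hdz)
    linarith
  have : Countable Y := hYcount.to_subtype
  let x : ℕ → Y → ℝ := fun n y => m n y / s n
  have hx : ∀ n, x n ∈ Set.pi univ (fun _ : Y => Icc (-1 : ℝ) 1) := by
    intro n y _
    have : |x n y| ≤ 1 := by
      simp only [x, abs_div, abs_of_pos (hspos n)]
      exact (div_le_one (hspos n)).2 (hmle n y)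
    exact abs_le.1 this
  obtain ⟨θ, -, φ, hφ, hlim⟩ := (isCompact_univ_pi fun _ : Y => isCompact_Icc).tendsto_subseq hx
  have hW : ∀ n, ∃ W ∈ 𝒜, s n / 3 ≤ |μ n W| := by
    intro n
    obtain ⟨c, hc, -, h1⟩ := (hvar n).hahn univ hA.univ_mem (s n / 3) (by linarith [hspos n])
    by_cases h : s n / 3 ≤ |μ n c|
    · exact ⟨c, hc, h⟩
    · refine ⟨univ \ c, hA.sdiff_mem hA.univ_mem hc, ?_⟩
      push Not at h
      have h2 := le_abs_self (μ n c)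
      have h3 := neg_abs_le (μ n (univ \ c))
      simp only [hsdef] at *
      linarith
  choose W hWA hW using hW
  have hl : ∀ k, ∃ l, k ≤ l ∧ s (φ k) ≤ s (φ l) ∧ |μ (φ l) (W (φ k))| ≤ s (φ l) / 12 := by
    intro k
    obtain ⟨C, hC⟩ := hbdd _ (hWA (φ k))
    obtain ⟨l, hl⟩ := exists_nat_ge (max (k : ℝ) (max (s (φ k)) (12 * C)))
    simp only [max_le_iff] at hl
    have h1 : (l : ℝ) ≤ φ l := by exact_mod_cast hφ.id_le l
    have h2 := hs (φ l)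
    refine ⟨l, by exact_mod_cast hl.1, ?_, ?_⟩
    · simp only [hsdef] at *; linarith [hl.2.1]
    · simp only [hsdef] at *; linarith [hl.2.2, hC (φ l)]
  choose l hlk hls hlW using hl
  let t : ℕ → ℝ := fun k => s (φ k) / s (φ (l k))
  have ht0 : ∀ k, 0 ≤ t k := fun k => div_nonneg (hspos _).le (hspos _).le
  have ht1 : ∀ k, t k ≤ 1 := fun k => (div_le_one (hspos _)).2 (hls k)
  let μ' : ℕ → Set ℕ → ℝ := fun k e => t k * μ (φ (l k)) e + (-1) * μ (φ k) e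
  have hadd' : ∀ k, AddOn 𝒜 (μ' k) := fun k a ha b hb hab => by
    simp only [μ', hadd _ a ha b hb hab]; ring
  have hle' : ∀ k e, |μ' k e| ≤ |μ (φ (l k)) e| + |μ (φ k) e| := by
    intro k e
    calc |μ' k e| ≤ |t k * μ (φ (l k)) e| + |(-1) * μ (φ k) e| := abs_add_le _ _
      _ = t k * |μ (φ (l k)) e| + |μ (φ k) e| := by
          rw [abs_mul, abs_mul, abs_of_nonneg (ht0 k)]; simp
      _ ≤ 1 * |μ (φ (l k)) e| + |μ (φ k) e| := by gcongr; exact ht1 k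
      _ = _ := by rw [one_mul]
  have hb' : ∀ k, ∀ a ∈ 𝒜, |μ' k a| ≤ s (φ (l k)) + s (φ k) := by
    intro k a ha
    refine (hle' k a).trans (add_le_add ?_ ?_) <;>
    exact ((hvar _).dom a ha).trans ((hvar _).pos.mono hA ha hA.univ_mem (subset_univ _))
  choose ν' hν' using fun k => exists_var hA (hadd' k) (hb' k)
  have hlow : ∀ k, s (φ k) / 4 ≤ ν' k univ := by
    intro k
    have h1 := ((hν' k).dom _ (hWA (φ k))).trans
      ((hν' k).pos.mono hA (hWA (φ k)) hA.univ_mem (subset_univ _))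
    refine le_trans ?_ h1
    have h2 : |t k * μ (φ (l k)) (W (φ k))| ≤ s (φ k) / 12 := by
      rw [abs_mul, abs_of_nonneg (ht0 k)]
      calc t k * |μ (φ (l k)) (W (φ k))| ≤ t k * (s (φ (l k)) / 12) := by
            gcongr; exact ht0 k; exact hlW k
        _ = s (φ k) / 12 := by
            simp only [t]; field_simp [(hspos (φ (l k))).ne']
    have h3 := hW (φ k)
    have h4 : |μ (φ k) (W (φ k))| ≤ |μ' k (W (φ k))| + |t k * μ (φ (l k)) (W (φ k))| := by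
      have : μ (φ k) (W (φ k)) = -(μ' k (W (φ k))) + t k * μ (φ (l k)) (W (φ k)) := by
        simp only [μ']; ring
      rw [this]
      refine (abs_add_le _ _).trans ?_
      rw [abs_neg]
    linarith
  refine ⟨μ', ν', ⟨hadd', hν', fun a ha => ?_, ?_⟩, fun z ε hε => ?_⟩
  · obtain ⟨C, hC⟩ := hbdd a ha
    exact ⟨C + C, fun k => (hle' k a).trans (add_le_add (hC _) (hC _))⟩
  · refine tendsto_atTop_mono (f := fun k : ℕ => (k : ℝ) / 4) (fun k => ?_)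
      (tendsto_natCast_atTop_atTop.atTop_div_const (by norm_num))
    have h1 : (k : ℝ) ≤ φ k := by exact_mod_cast hφ.id_le k
    have h2 := hs (φ k)
    have h3 := hlow k
    simp only [hsdef] at *
    linarith
  · have key : ∀ᶠ k in atTop, ∃ m', AtomMass 𝒜 (μ' k) z m' ∧ |m'| ≤ ε * s (φ k) / 16 := by
      rcases hdich z with ⟨y, hy, hyz⟩ | h0
      · have h1 : Tendsto (fun k => x (φ k) ⟨y, hy⟩) atTop (𝓝 (θ ⟨y, hy⟩)) :=
          (continuous_apply _).continuousAt.tendsto.comp hlim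
        have h2 : Tendsto (fun k => x (φ (l k)) ⟨y, hy⟩) atTop (𝓝 (θ ⟨y, hy⟩)) :=
          h1.comp (tendsto_atTop_mono hlk tendsto_id)
        have h3 := (h2.sub h1).abs
        rw [sub_self, abs_zero] at h3
        filter_upwards [h3.eventually (gt_mem_nhds (show (0 : ℝ) < ε / 16 by positivity))] with k hk
        refine ⟨_, (((hm (φ (l k)) y).lin hA (hm (φ k) y) (t k) (-1))).congr hyz, ?_⟩
        have e1 : t k * m (φ (l k)) y + -1 * m (φ k) y =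
            s (φ k) * (x (φ (l k)) ⟨y, hy⟩ - x (φ k) ⟨y, hy⟩) := by
          simp only [t, x]; field_simp [(hspos (φ (l k))).ne', (hspos (φ k)).ne']; ring
        rw [e1, abs_mul, abs_of_pos (hspos _)]
        nlinarith [hspos (φ k)]
      · refine Eventually.of_forall fun k => ⟨_, (hm (φ (l k)) z).lin hA (hm (φ k) z) (t k) (-1), ?_⟩
        simp only [h0, mul_zero, add_zero, abs_zero]
        have := hspos (φ k)
        positivity
    filter_upwards [key] with k ⟨m', hm', hm2⟩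
    have hp : 0 < ε * s (φ k) / 16 := by have := hspos (φ k); positivity
    obtain ⟨e, he, hez, h1⟩ := (hν' k).small hA (hadd' k) hm' hp
    refine ⟨e, he, hez, ?_⟩
    have h2 := mul_le_mul_of_nonneg_left (hlow k) hε.le
    linarith

theorem stepA (hA : IsSetAlgebra 𝒜) (μ : ℕ → Set ℕ → ℝ) (hadd : ∀ n, AddOn 𝒜 (μ n))
    (hb : ∀ n, ∃ C, ∀ a ∈ 𝒜, |μ n a| ≤ C) (hbdd : ∀ a ∈ 𝒜, ∃ C, ∀ n, |μ n a| ≤ C)
    (hun : ¬ ∃ C, ∀ n, ∀ a ∈ 𝒜, |μ n a| ≤ C) :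
    ∃ μ' ν', Bad 𝒜 μ' ν' ∧
      ∀ z : Ultrafilter ℕ, ∀ ε > 0, ∀ᶠ n in atTop, ∃ e ∈ 𝒜, e ∈ z ∧ ν' n e < ε * ν' n univ := by
  have hv : ∀ n, ∃ ν, IsVar 𝒜 (μ n) ν := fun n => by
    obtain ⟨C, hC⟩ := hb n
    exact exists_var hA (hadd n) hC
  choose ν hν using hv
  have h1 : ∀ k : ℕ, ∃ n, (k : ℝ) + 1 ≤ ν n univ := by
    intro k
    by_contra h
    push Not at h
    exact hun ⟨k + 1, fun n a ha => (((hν n).dom a ha).trans
      ((hν n).pos.mono hA ha hA.univ_mem (subset_univ _))).trans (h n).le⟩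
  choose φ hφ using h1
  refine stepA' hA (fun k => μ (φ k)) (fun k => ν (φ k)) (fun k => hadd _) (fun k => hν _) ?_ hφ
  intro a ha
  obtain ⟨C, hC⟩ := hbdd a ha
  exact ⟨C, fun n => hC _⟩

theorem stepB (hA : IsSetAlgebra 𝒜) (ν : ℕ → Set ℕ → ℝ) (hν : ∀ n, Pos 𝒜 (ν n))
    (hat : ∀ z : Ultrafilter ℕ, ∀ ε > 0, ∀ᶠ n in atTop, ∃ e ∈ 𝒜, e ∈ z ∧ ν n e < ε) :
    ∃ ℬ : Set (Set ℕ), ℬ.Countable ∧ IsSetAlgebra ℬ ∧ ℬ ⊆ 𝒜 ∧
      ∀ z : Ultrafilter ℕ, ∀ ε > 0, ∀ᶠ n in atTop, ∃ e ∈ ℬ, e ∈ z ∧ ν n e < ε := by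
  classical
  choose Yc hYfin hYc hYcov using fun (n j : ℕ) =>
    exists_cover hA (hν n) (Nat.one_div_pos_of_nat (α := ℝ) (n := j))
  let Y : Set (Ultrafilter ℕ × Set ℕ) := ⋃ n, ⋃ j, Yc n j
  have hYcount : Y.Countable :=
    countable_iUnion fun n => countable_iUnion fun j => (hYfin n j).countable
  have hsep : ∀ y y' : Ultrafilter ℕ, ∃ d ∈ 𝒜, (¬ ∀ d ∈ 𝒜, d ∈ y ↔ d ∈ y') → d ∈ y ∧ d ∉ y' := by
    intro y y'
    by_cases h : ∀ d ∈ 𝒜, d ∈ y ↔ d ∈ y'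
    · exact ⟨∅, hA.empty_mem, fun h' => absurd h h'⟩
    · obtain ⟨d, hd, h1⟩ := exists_sep hA h
      exact ⟨d, hd, fun _ => h1⟩
  choose D hD hDs using hsep
  let G : Set (Set ℕ) := Prod.snd '' Y ∪ image2 (fun y y' => D y.1 y'.1) Y Y
  have hG : G ⊆ 𝒜 := by
    rintro e (⟨y, hy, rfl⟩ | ⟨y, -, y', -, rfl⟩)
    · simp only [Y, mem_iUnion] at hy
      obtain ⟨n, j, hy⟩ := hy
      exact (hYc n j y hy).1
    · exact hD _ _
  have hB := isSetAlgebra_generateSetAlgebra (𝒜 := G)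
  have hBA : generateSetAlgebra G ⊆ 𝒜 := hA.generateSetAlgebra_subset hG
  refine ⟨generateSetAlgebra G, countable_generateSetAlgebra
    ((hYcount.image _).union (hYcount.image2 hYcount _)), hB, hBA, fun z ε hε => ?_⟩
  by_contra hcon
  rw [Filter.not_eventually] at hcon
  obtain ⟨j, hj⟩ := exists_nat_one_div_lt (show 0 < ε / 2 by positivity)
  have hy : ∀ n, (¬ ∃ e ∈ generateSetAlgebra G, e ∈ z ∧ ν n e < ε) →
      ∃ y ∈ Yc n j, y.2 ∈ z ∧ ∀ d ∈ generateSetAlgebra G, d ∈ z ↔ d ∈ y.1 := by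
    intro n hn
    obtain ⟨y, hy, hyz⟩ := hYcov n j z
    refine ⟨y, hy, hyz, ?_⟩
    by_contra h
    obtain ⟨d, hd, hdz, hdy⟩ := exists_sep hB h
    have hyG : y.2 ∈ generateSetAlgebra G := self_subset_generateSetAlgebra
      (Or.inl ⟨y, mem_iUnion.2 ⟨n, mem_iUnion.2 ⟨j, hy⟩⟩, rfl⟩)
    refine hn ⟨_, hB.inter_mem hyG hd, inter_mem hyz hdz, ?_⟩
    have := (hYc n j y hy).2.2 d (hBA hd) hdy
    linarith
  obtain ⟨n0, hn0⟩ := hcon.exists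
  obtain ⟨y0, hy0, -, hy0z⟩ := hy n0 hn0
  obtain ⟨n, hn, e, he, hey, hlt⟩ := (hcon.and_eventually (hat y0.1 (ε / 2) (by positivity))).exists
  obtain ⟨y, hyn, hyz, hyz'⟩ := hy n hn
  have hyY : y ∈ Y := mem_iUnion.2 ⟨n, mem_iUnion.2 ⟨j, hyn⟩⟩
  have hy0Y : y0 ∈ Y := mem_iUnion.2 ⟨n0, mem_iUnion.2 ⟨j, hy0⟩⟩
  have heq : ∀ d ∈ 𝒜, d ∈ y0.1 ↔ d ∈ y.1 := by
    by_contra h
    have h1 := hDs _ _ h
    have h2 : D y0.1 y.1 ∈ generateSetAlgebra G := self_subset_generateSetAlgebra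
      (Or.inr ⟨y0, hy0Y, y, hyY, rfl⟩)
    exact h1.2 ((hyz' _ h2).1 ((hy0z _ h2).2 h1.1))
  have hyG : y.2 ∈ generateSetAlgebra G := self_subset_generateSetAlgebra (Or.inl ⟨y, hyY, rfl⟩)
  refine hn ⟨y.2, hyG, hyz, ?_⟩
  have h1 := (hYc n j y hyn).2.2 eᶜ (hA.compl_mem he)
    (fun h => Ultrafilter.compl_mem_iff_notMem.1 h ((heq e he).1 hey))
  have h2 := (hν n).add.split hA (hBA hyG) he
  have h3 := (hν n).mono hA (hA.inter_mem (hBA hyG) he) he inter_subset_right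
  rw [Set.sdiff_eq] at h2
  linarith

end Pool.Agent.P.MP_0d6be8_lc
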