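import Pool.Agent.P.MP_0d6be8_lc.Step
import Pool.Agent.P.MP_0d6be8_lc.Reduce

namespace Pool.Agent.P.MP_0d6be8_lc
open Set Filter MeasureTheory Topology symmDiff

/-- bookkeeping data -/
abbrev Datum : Type := (ℕ → Set ℕ) × (ℕ → ℕ → ℝ) × (ℕ → Set ℕ) × (ℕ → ℕ → ℝ) × (ℕ → ℝ)

def Kill (d : Datum) (a : Set ℕ) : Prop :=
  ∀ k : ℕ, ∃ n i j, (∀ x, x ∉ d.1 i → (x ∈ a ↔ x ∈ d.2.2.1 j)) ∧
    d.2.2.2.2 n * d.2.1 n i + k ≤ |d.2.2.2.1 n j|

variable {I : Type}

def stage (a : I → Set ℕ) (S : Set I) : Set (Set ℕ) :=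
  generateSetAlgebra (range (fun n : ℕ => ({n} : Set ℕ)) ∪ a '' S)

lemma stage_alg (a : I → Set ℕ) (S : Set I) : IsSetAlgebra (stage a S) :=
  isSetAlgebra_generateSetAlgebra

lemma stage_mono (a : I → Set ℕ) {S T : Set I} (h : S ⊆ T) : stage a S ⊆ stage a T :=
  generateSetAlgebra_mono (union_subset_union_right _ (image_mono h))

lemma mem_stage (a : I → Set ℕ) {S : Set I} {i : I} (h : i ∈ S) : a i ∈ stage a S :=
  self_subset_generateSetAlgebra (Or.inr ⟨i, h, rfl⟩)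

lemma stage_countable (a : I → Set ℕ) {S : Set I} (h : S.Countable) : (stage a S).Countable :=
  countable_generateSetAlgebra ((countable_range _).union (h.image _))

variable [LinearOrder I]

def Minimal' (a : I → Set ℕ) (γ : I) (x : Set ℕ) : Prop :=
  ∃ p : Ultrafilter ℕ, ∀ e ∈ stage a (Iio γ), e ∉ p → x ∩ e ∈ stage a (Iio γ)

def Keeps (f : I → Datum) (a : I → Set ℕ) (γ : I) (B : Set (Set ℕ)) : Prop :=
  ∀ β ≤ γ, Valid (stage a (Iio β)) (f β).1 (f β).2.1 → Holds (stage a (Iio β)) (f β).1 (f β).2.1 B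

def Good (f : I → Datum) (a : I → Set ℕ) (γ : I) (x : Set ℕ) : Prop :=
  Minimal' a γ x ∧ Keeps f a γ (insert x (stage a (Iio γ))) ∧ Kill (f γ) x

lemma exists_rec [WellFoundedLT I] {X : Type} [Inhabited X] (G : (I → X) → I → X)
    (hG : ∀ a a' γ, (∀ ξ < γ, a ξ = a' ξ) → G a γ = G a' γ) : ∃ a : I → X, ∀ γ, a γ = G a γ := by
  classical
  let F : ∀ γ : I, (∀ ξ, ξ < γ → X) → X := fun γ prev =>
    G (fun ξ => if h : ξ < γ then prev ξ h else default) γ
  refine ⟨(wellFounded_lt (α := I)).fix F, fun γ => ?_⟩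
  rw [WellFounded.fix_eq]
  exact hG _ _ _ fun ξ hξ => by simp [hξ]

lemma exists_construction [WellFoundedLT I] (f : I → Datum) :
    ∃ a : I → Set ℕ, ∀ γ, ((∃ x, Good f a γ x) → Good f a γ (a γ)) ∧
      (Good f a γ (a γ) ∨ a γ = ∅) := by
  classical
  let pick : (Set ℕ → Prop) → Set ℕ := fun P => if h : ∃ x, P x then h.choose else ∅
  obtain ⟨a, ha⟩ := exists_rec (fun a γ => pick (Good f a γ)) (fun a a' γ h => by
    have h1 : ∀ β ≤ γ, stage a (Iio β) = stage a' (Iio β) := fun β hβ => by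
      unfold stage
      rw [image_congr fun ξ (hξ : ξ ∈ Iio β) => h ξ (lt_of_lt_of_le hξ hβ)]
    have : Good f a γ = Good f a' γ := by
      funext x
      unfold Good Minimal' Keeps
      rw [h1 γ le_rfl]
      congr 2
      refine forall_congr fun β => forall_congr fun hβ => ?_
      rw [h1 β hβ]
    simp only [this])
  refine ⟨a, fun γ => ?_⟩
  by_cases h : ∃ x, Good f a γ x
  · have : Good f a γ (a γ) := by
      rw [ha γ]; simp only [pick, dif_pos h]; exact h.choose_spec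
    exact ⟨fun _ => this, Or.inl this⟩
  · refine ⟨fun h' => absurd h' h, Or.inr ?_⟩
    rw [ha γ]; simp only [pick, dif_neg h]

lemma Holds.subset {B0 : Set (Set ℕ)} {E : ℕ → Set ℕ} {w : ℕ → ℕ → ℝ} {B B' : Set (Set ℕ)}
    (h : Holds B0 E w B) (hB : B' ⊆ B) : Holds B0 E w B' :=
  fun F h1 h2 => h F h1 (h2.trans hB)

lemma keeps_stage [WellFoundedLT I] {f : I → Datum} {a : I → Set ℕ}
    (ha : ∀ γ, Good f a γ (a γ) ∨ a γ = ∅) (γ : I) : Keeps f a γ (stage a (Iio γ)) := by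
  induction γ using WellFoundedLT.induction with
  | ind γ ih =>
  intro β hβ hV
  refine Holds.gen (stage_alg _ _) fun T hT hTG => ?_
  obtain ⟨S, hS1, hS2, hS3⟩ := (hT.subset (inter_subset_left (t := a '' Iio γ))).exists_subset_finite_image_eq
    (s := Iio γ) (f := a) inter_subset_right
  have hT' : ∀ b ∈ T, b ∈ range (fun n : ℕ => ({n} : Set ℕ)) ∨ b ∈ a '' S := by
    intro b hb
    rcases hTG hb with h | h
    · exact Or.inl h
    · exact Or.inr (hS3 ▸ ⟨hb, h⟩)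
  by_cases hS : ∀ ξ ∈ S, ξ < β
  · refine hV.holds T hT fun b hb => ?_
    rcases hT' b hb with h | ⟨ξ, hξ, rfl⟩
    · exact self_subset_generateSetAlgebra (Or.inl h)
    · exact mem_stage a (hS ξ hξ)
  · push Not at hS
    obtain ⟨ξ0, hξ0, hβξ⟩ := hS
    obtain ⟨ξ, hξ, hmax⟩ := exists_max_image S id hS2 ⟨ξ0, hξ0⟩
    have hβξ' : β ≤ ξ := hβξ.trans (hmax ξ0 hξ0)
    have h1 : Holds (stage a (Iio β)) (f β).1 (f β).2.1 (insert (a ξ) (stage a (Iio ξ))) := by
      rcases ha ξ with h | h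
      · exact h.2.1 β hβξ' hV
      · refine (ih ξ (hS1 hξ) β hβξ' hV).subset (insert_subset ?_ subset_rfl)
        rw [h]; exact (stage_alg _ _).empty_mem
    refine h1 T hT fun b hb => ?_
    rcases hT' b hb with h | ⟨η, hη, rfl⟩
    · exact Or.inr (self_subset_generateSetAlgebra (Or.inl h))
    · rcases (hmax η hη).lt_or_eq with h | h
      · exact Or.inr (mem_stage a h)
      · exact Or.inl (congrArg a h)

lemma subset_stage (hb : ∀ S : Set I, S.Countable → ∃ i, ∀ j ∈ S, j < i) (a : I → Set ℕ)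
    {F : Set (Set ℕ)} (hF : F.Countable) (h : F ⊆ stage a univ) : ∃ β, F ⊆ stage a (Iio β) := by
  have h1 : ∀ b : F, ∃ S : Set I, S.Finite ∧ b.1 ∈ stage a S := by
    intro b
    obtain ⟨T, hT1, hT2, hT3⟩ := gen_finite (h b.2)
    obtain ⟨S, -, hS2, hS3⟩ :=
      (hT2.subset (inter_subset_left (t := a '' univ))).exists_subset_finite_image_eq
      (s := univ) (f := a) inter_subset_right
    refine ⟨S, hS2, generateSetAlgebra_mono (fun c hc => ?_) hT3⟩
    rcases hT1 hc with h | h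
    · exact Or.inl h
    · exact Or.inr (hS3 ▸ ⟨hc, h⟩)
  choose S hS1 hS2 using h1
  have := hF.to_subtype
  obtain ⟨β, hβ⟩ := hb (⋃ b, S b) (countable_iUnion fun b => (hS1 b).countable)
  exact ⟨β, fun b hb => stage_mono a (fun j hj => hβ j (mem_iUnion.2 ⟨_, hj⟩)) (hS2 ⟨b, hb⟩)⟩

theorem nikodym_set [WellFoundedLT I] (hI : ∀ i : I, (Iio i).Countable)
    (hb : ∀ S : Set I, S.Countable → ∃ i, ∀ j ∈ S, j < i) {f : I → Datum}
    (hf : ∀ d i, ∃ j, i ≤ j ∧ f j = d) {a : I → Set ℕ}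
    (ha : ∀ γ, ((∃ x, Good f a γ x) → Good f a γ (a γ)) ∧ (Good f a γ (a γ) ∨ a γ = ∅))
    (μ0 : ℕ → Set ℕ → ℝ) (hadd : ∀ n, AddOn (stage a univ) (μ0 n))
    (hb0 : ∀ n, ∃ C, ∀ e ∈ stage a univ, |μ0 n e| ≤ C)
    (hbdd : ∀ e ∈ stage a univ, ∃ C, ∀ n, |μ0 n e| ≤ C) :
    ∃ C, ∀ n, ∀ e ∈ stage a univ, |μ0 n e| ≤ C := by
  by_contra hun
  have hA := stage_alg a univ
  obtain ⟨μ, ν, hBad, hat⟩ := stepA hA μ0 hadd hb0 hbdd hun
  have hs0 : ∀ n, 0 ≤ ν n univ := fun n => (hBad.var n).pos.nonneg _ hA.univ_mem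
  have hpos : ∀ n, Pos (stage a univ) (fun e => ν n e / ν n univ) := fun n =>
    ⟨fun b hb c hc hbc => by simp only [(hBad.var n).pos.add b hb c hc hbc, add_div],
      fun b hb => div_nonneg ((hBad.var n).pos.nonneg b hb) (hs0 n)⟩
  obtain ⟨ℬ, hBc, hBA, hBs, hat'⟩ := stepB hA _ hpos (fun z ε hε => by
    filter_upwards [hat z ε hε, hBad.tend.eventually_gt_atTop 0] with n ⟨e, he, hez, h1⟩ hn
    exact ⟨e, he, hez, (div_lt_iff₀ hn).2 h1⟩)
  obtain ⟨E, hE⟩ := hBc.exists_eq_range ⟨∅, hBA.empty_mem⟩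
  have hEB : ∀ i, E i ∈ ℬ := fun i => hE ▸ mem_range_self i
  let w : ℕ → ℕ → ℝ := fun n i => ν n (E i) / ν n univ
  have hw : ∀ n i, ν n (E i) ≤ ν n univ * w n i := by
    intro n i
    rcases (hs0 n).eq_or_lt with h | h
    · rw [← h, zero_mul, h]
      exact (hBad.var n).pos.mono hA (hBs (hEB i)) hA.univ_mem (subset_univ _)
    · simp only [w]; rw [mul_div_cancel₀ _ h.ne']
  choose g hg hgh using fun n => (hBad.var n).exists_hahn hA (hBad.add n)
  obtain ⟨β0, hβ0⟩ := subset_stage hb a (hBc.union (countable_range g))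
    (union_subset hBs (range_subset_iff.2 hg))
  obtain ⟨β, hβ, hfβ⟩ := hf (E, w, default, default, default) β0
  have hβ1 := hβ0.trans (stage_mono a (Iio_subset_Iio hβ))
  have hV : Valid (stage a (Iio β)) E w := by
    refine ⟨fun i => hβ1 (Or.inl (hEB i)), fun i j => ?_, fun z ε hε => ?_⟩
    · obtain ⟨k, hk⟩ : E i ∪ E j ∈ range E := hE ▸ hBA.union_mem (hEB i) (hEB j)
      refine ⟨k, hk.ge, fun n => ?_⟩
      simp only [w, hk]
      exact (hpos n).union_le hA (hBs (hEB i)) (hBs (hEB j))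
    · filter_upwards [hat' z ε hε] with n ⟨e, he, hez, h1⟩
      obtain ⟨i, rfl⟩ : e ∈ range E := hE ▸ he
      exact ⟨i, hez, h1⟩
  obtain ⟨C, hC⟩ := (stage_countable a (hI β)).exists_eq_range ⟨∅, (stage_alg _ _).empty_mem⟩
  obtain ⟨γ, hγ, hfγ⟩ := hf (E, w, C, fun n j => μ n (C j), fun n => ν n univ) β
  have hsub : stage a (Iio γ) ⊆ stage a univ := stage_mono a (subset_univ _)
  let J := {β' : I // β' ≤ γ ∧ Valid (stage a (Iio β')) (f β').1 (f β').2.1}
  have : Countable J := by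
    have : (Iic γ).Countable := by
      rw [← Iio_insert]; exact (hI γ).insert γ
    exact (this.mono fun β' h => h.1 : {β' : I | β' ≤ γ ∧ _}.Countable).to_subtype
  let j0 : J := ⟨β, hγ, by rw [hfβ]; exact hV⟩
  obtain ⟨x, p, h1, h2, h3⟩ := step (stage_alg a (Iio γ)) (stage_countable a (hI γ))
    (fun j : J => stage a (Iio j.1)) (fun j => (f j.1).1) (fun j => (f j.1).2.1)
    (fun j => stage_alg _ _) (fun j => stage_mono a (Iio_subset_Iio j.2.1)) (fun j => j.2.2)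
    (fun j => keeps_stage (fun γ => (ha γ).2) γ j.1 j.2.1 j.2.2) j0 (μ := μ) (ν := ν)
    (fun n => (hBad.add n).subset hsub)
    (fun n => ⟨(hBad.var n).pos.add.subset hsub, fun b hb => (hBad.var n).pos.nonneg b (hsub hb)⟩)
    (fun n e he => (hBad.var n).dom e (hsub he)) hBad.tend
    (fun n i => by simp only [j0, hfβ]; exact hw n i)
    (fun n => ⟨g n, hβ1 (Or.inr (mem_range_self n)), fun W hW => hgh n W (hsub hW)⟩)
    (fun e he => hBad.bdd e (hsub he))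
  have hGood : Good f a γ x := by
    refine ⟨⟨p, h1⟩, fun β' hβ' hV' => h2 ⟨β', hβ', hV'⟩, fun k => ?_⟩
    obtain ⟨n, i, c, hc, h4, h5⟩ := h3 k
    simp only [j0, hfβ] at hc h4 h5
    obtain ⟨j, rfl⟩ : c ∈ range C := hC ▸ hc
    rw [hfγ]
    exact ⟨n, i, j, h4, h5⟩
  have hK := ((ha γ).1 ⟨x, hGood⟩).2.2
  rw [hfγ] at hK
  obtain ⟨M, hM⟩ := hBad.bdd (a γ) (mem_stage a (mem_univ γ))
  obtain ⟨k, hk⟩ := exists_nat_gt M
  obtain ⟨n, i, j, h4, h5⟩ := hK k
  have h6 := approx_le hA (hBad.add n) (hBad.var n).pos (hBad.var n).dom (mem_stage a (mem_univ γ))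
    (stage_mono a (subset_univ _) (hC ▸ mem_range_self j)) (hBs (hEB i)) h4
  simp only at h5 h6
  have h7 := hw n i
  have h8 := hM n
  have h9 : |μ n (C j)| ≤ |μ n (a γ)| + |μ n (a γ) - μ n (C j)| := by
    have := abs_sub_abs_le_abs_sub (μ n (C j)) (μ n (a γ))
    rw [abs_sub_comm] at this
    linarith
  linarith

theorem separable_set [WellFoundedLT I] {a : I → Set ℕ} (ha : ∀ γ, Minimal' a γ (a γ))
    {ν : Set ℕ → ℝ} (hν : Pos (stage a univ) ν) :
    ∃ 𝒞 ⊆ stage a univ, 𝒞.Countable ∧ ∀ e ∈ stage a univ, ∀ ε > 0, ∃ c ∈ 𝒞, ν (e ∆ c) < ε := by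
  have hA := stage_alg a univ
  have hsub : ∀ γ, stage a (Iio γ) ⊆ stage a univ := fun γ => stage_mono a (subset_univ _)
  have haA : ∀ γ, a γ ∈ stage a univ := fun γ => mem_stage a (mem_univ γ)
  choose p hp using ha
  let Ess : ℝ → I → Prop := fun ε γ =>
    ∀ e ∈ stage a (Iio γ), e ∈ p γ → ε ≤ ν (e ∩ a γ) ∧ ε ≤ ν (e \ a γ)
  have hfin : ∀ ε > 0, ∀ r : ℕ, ∀ e ∈ stage a univ, ν e < r * ε →
      {γ | Ess ε γ ∧ e ∈ stage a (Iio γ) ∧ e ∈ p γ}.Finite := by
    intro ε hε r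
    induction r with
    | zero =>
      intro e he h
      have := hν.nonneg e he
      simp at h; linarith
    | succ r ih =>
      intro e he h
      rcases {γ | Ess ε γ ∧ e ∈ stage a (Iio γ) ∧ e ∈ p γ}.eq_empty_or_nonempty with h0 | h0
      · rw [h0]; exact finite_empty
      obtain ⟨γ0, hγ0, hmin⟩ := (wellFounded_lt (α := I)).has_min _ h0
      have h1 := hγ0.1 e hγ0.2.1 hγ0.2.2
      have h2 := hν.add.split hA he (haA γ0)
      push_cast at h
      refine (((ih _ (hA.inter_mem he (haA γ0)) (by linarith)).union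
        (ih _ (hA.sdiff_mem he (haA γ0)) (by linarith))).insert γ0).subset fun γ hγ => ?_
      rcases (not_lt.1 (hmin γ hγ)).eq_or_lt with h3 | h3
      · exact Or.inl h3.symm
      · have h4 := mem_stage a (S := Iio γ) h3
        by_cases h5 : a γ0 ∈ p γ
        · exact Or.inr (Or.inl ⟨hγ.1, (stage_alg _ _).inter_mem hγ.2.1 h4, inter_mem hγ.2.2 h5⟩)
        · exact Or.inr (Or.inr ⟨hγ.1, (stage_alg _ _).sdiff_mem hγ.2.1 h4,
            inter_mem hγ.2.2 (Ultrafilter.compl_mem_iff_notMem.2 h5)⟩)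
  let S : Set I := ⋃ j : ℕ, {γ | Ess (1 / ((j : ℝ) + 1)) γ}
  have hS : S.Countable := countable_iUnion fun j => by
    have hε := Nat.one_div_pos_of_nat (α := ℝ) (n := j)
    obtain ⟨r, hr⟩ := exists_nat_gt (ν univ / (1 / ((j : ℝ) + 1)))
    refine ((hfin _ hε r univ hA.univ_mem ((div_lt_iff₀ hε).1 hr)).subset fun γ hγ => ?_).countable
    exact ⟨hγ, (stage_alg _ _).univ_mem, univ_mem⟩
  have hSA : stage a S ⊆ stage a univ := stage_mono a (subset_univ _)
  have hsd : ∀ b ∈ stage a univ, ∀ c ∈ stage a univ, b ∆ c ∈ stage a univ := fun b hb c hc =>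
    hA.union_mem (hA.sdiff_mem hb hc) (hA.sdiff_mem hc hb)
  let 𝒟 : Set (Set ℕ) := {e | e ∈ stage a univ ∧ ∀ ε > 0, ∃ c ∈ stage a S, ν (e ∆ c) < ε}
  have hself : stage a S ⊆ 𝒟 := fun e he => ⟨hSA he, fun ε hε => ⟨e, he, by
    rw [symmDiff_self, Set.bot_eq_empty, hν.add.empty hA]; exact hε⟩⟩
  have hD : IsSetAlgebra 𝒟 := by
    refine ⟨hself (stage_alg _ _).empty_mem, fun e he => ⟨hA.compl_mem he.1, fun ε hε => ?_⟩,
      fun e e' he he' => ⟨hA.union_mem he.1 he'.1, fun ε hε => ?_⟩⟩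
    · obtain ⟨c, hc, h⟩ := he.2 ε hε
      exact ⟨cᶜ, (stage_alg _ _).compl_mem hc, by rwa [compl_symmDiff_compl]⟩
    · obtain ⟨c, hc, h⟩ := he.2 (ε / 2) (by positivity)
      obtain ⟨c', hc', h'⟩ := he'.2 (ε / 2) (by positivity)
      refine ⟨c ∪ c', (stage_alg _ _).union_mem hc hc', ?_⟩
      have h1 := hν.union_le hA (hsd _ he.1 _ (hSA hc)) (hsd _ he'.1 _ (hSA hc'))
      have h2 := hν.mono hA (hsd _ (hA.union_mem he.1 he'.1) _ (hA.union_mem (hSA hc) (hSA hc')))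
        (hA.union_mem (hsd _ he.1 _ (hSA hc)) (hsd _ he'.1 _ (hSA hc')))
        (by intro x; simp only [mem_symmDiff, mem_union]; tauto)
      linarith
  have hall : ∀ γ, a γ ∈ 𝒟 := by
    intro γ
    induction γ using WellFoundedLT.induction with
    | ind γ ih =>
    by_cases hγ : γ ∈ S
    · exact hself (mem_stage a hγ)
    have hst : stage a (Iio γ) ⊆ 𝒟 := hD.generateSetAlgebra_subset (by
      rintro b (hb | ⟨ξ, hξ, rfl⟩)
      · exact hself (self_subset_generateSetAlgebra (Or.inl hb))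
      · exact ih ξ hξ)
    refine ⟨haA γ, fun ε hε => ?_⟩
    obtain ⟨j, hj⟩ := exists_nat_one_div_lt (show 0 < ε / 2 by positivity)
    have h1 : ¬ Ess (1 / ((j : ℝ) + 1)) γ := fun h => hγ (mem_iUnion.2 ⟨j, h⟩)
    have h2 : ∃ b ∈ stage a (Iio γ), ν (a γ ∆ b) < ε / 2 := by
      simp only [Ess] at h1
      push Not at h1
      obtain ⟨e, he, hep, h1⟩ := h1
      have h3 := hp γ eᶜ ((stage_alg _ _).compl_mem he)
        fun h => Ultrafilter.compl_mem_iff_notMem.1 h hep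
      by_cases h4 : 1 / ((j : ℝ) + 1) ≤ ν (e ∩ a γ)
      · refine ⟨a γ ∩ eᶜ ∪ e, (stage_alg _ _).union_mem h3 he, ?_⟩
        have : a γ ∆ (a γ ∩ eᶜ ∪ e) = e \ a γ := by
          ext x; simp only [mem_symmDiff, mem_union, mem_inter_iff, mem_compl_iff,
            Set.mem_sdiff]; tauto
        rw [this]; linarith [h1 h4]
      · refine ⟨a γ ∩ eᶜ, h3, ?_⟩
        have : a γ ∆ (a γ ∩ eᶜ) = e ∩ a γ := by
          ext x; simp only [mem_symmDiff, mem_inter_iff, mem_compl_iff]; tauto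
        rw [this]; linarith [not_le.1 h4]
    obtain ⟨b, hb, h2⟩ := h2
    obtain ⟨c, hc, h3⟩ := (hst hb).2 (ε / 2) (by positivity)
    refine ⟨c, hc, ?_⟩
    have h4 := hν.union_le hA (hsd _ (haA γ) _ (hsub γ hb)) (hsd _ (hsub γ hb) _ (hSA hc))
    have h5 := hν.mono hA (hsd _ (haA γ) _ (hSA hc))
      (hA.union_mem (hsd _ (haA γ) _ (hsub γ hb)) (hsd _ (hsub γ hb) _ (hSA hc)))
      (by intro x; simp only [mem_symmDiff, mem_union]; tauto)
    linarith
  refine ⟨stage a S, hSA, stage_countable a hS, fun e he => (hD.generateSetAlgebra_subset ?_ he).2⟩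
  rintro b (hb | ⟨ξ, -, rfl⟩)
  · exact hself (self_subset_generateSetAlgebra (Or.inl hb))
  · exact hall ξ

end Pool.Agent.P.MP_0d6be8_lc
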