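import Mathlib

namespace Pool.Agent.P.MP_0d6be8_lc

/-- Martin's statement: for every nonempty ccc poset and every family of fewer than continuum many
dense subsets there is a filter meeting all of them -/
def MA : Prop :=
  ∀ (P : Type) [PartialOrder P], Nonempty P →
    (∀ A : Set P, (A.Pairwise fun p q => ¬ ∃ r, r ≤ p ∧ r ≤ q) → A.Countable) →
    ∀ 𝒟 : Set (Set P), Cardinal.mk 𝒟 < Cardinal.continuum →
      (∀ D ∈ 𝒟, ∀ p, ∃ q ∈ D, q ≤ p) →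
      ∃ G : Set P, G.Nonempty ∧ (∀ p ∈ G, ∀ q, p ≤ q → q ∈ G) ∧
        (∀ p ∈ G, ∀ q ∈ G, ∃ r ∈ G, r ≤ p ∧ r ≤ q) ∧ ∀ D ∈ 𝒟, (G ∩ D).Nonempty

end Pool.Agent.P.MP_0d6be8_lc
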