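import Pool.Agent.Lib.PosetForcing.CardDefs

set_option autoImplicit false

/-! The combinatorial principles forced by the iteration, written inside `(M, mem)`. Families of
sets of numbers are relations; a set of numbers is given by a predicate. -/

open Pool.Agent.Lib.PosetForcing

namespace Pool.Agent.P.MP_0d6be8_lc

universe v

variable {M : Type v} (mem : M → M → Prop)

/-- `((a, b), d) ∈ f` -/
def App2 (f a b d : M) : Prop := ∃ p, IsPair mem p a b ∧ App mem f p d

/-- `(((a, b), c), d) ∈ f` -/
def App3 (f a b c d : M) : Prop := ∃ p, IsPair mem p a b ∧ App2 mem f p c d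

/-- infinitely many numbers satisfy `A` -/
def InfP (w : M) (A : M → Prop) : Prop := ∀ n, mem n w → ∃ m, mem m w ∧ ¬ mem m n ∧ A m

/-- almost all numbers with `A` satisfy `B` -/
def SubP (w : M) (A B : M → Prop) : Prop :=
  ∃ n, mem n w ∧ ∀ m, mem m w → ¬ mem m n → A m → B m

/-- `A` is almost inside `e` or almost outside `e` -/
def Dec (w : M) (A : M → Prop) (e : M) : Prop :=
  SubP mem w A (fun m => mem m e) ∨ SubP mem w A (fun m => ¬ mem m e)

/-- `K` is a transitive set linearly ordered by membership -/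
def IsOrd (K : M) : Prop :=
  (∀ x y, mem x K → mem y x → mem y K) ∧ (∀ x y z, mem x K → mem y x → mem z y → mem z x) ∧
    ∀ x y, mem x K → mem y K → mem x y ∨ x = y ∨ mem y x

/-- sequences of length `ω` are bounded in `g` -/
def Bdd (w g : M) : Prop :=
  ∀ f, (∀ n, mem n w → ∃ a, mem a g ∧ App mem f n a) →
    ∃ d, mem d g ∧ ∀ n, mem n w → ∃ a, mem a d ∧ App mem f n a

/-- the sections of `X` over `K` list all sets of numbers -/
def Onto (w K X : M) : Prop :=
  ∀ e, ∃ x, mem x K ∧ ∀ m, mem m w → (App mem X x m ↔ mem m e)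

/-- pseudo-intersections of directed families indexed by `g × ω` -/
def PI (w K : M) : Prop :=
  ∀ A g, mem g K → (∀ b n, mem b g → mem n w → InfP mem w (App2 mem A b n)) →
    (∀ b n b' n', mem b g → mem n w → mem b' g → mem n' w → ∃ c k, mem c g ∧ mem k w ∧
      SubP mem w (App2 mem A c k) (App2 mem A b n) ∧
      SubP mem w (App2 mem A c k) (App2 mem A b' n')) →
    ∃ z, InfP mem w (fun m => mem m z) ∧
      ∀ b n, mem b g → mem n w → SubP mem w (fun m => mem m z) (App2 mem A b n)

/-- no infinite section of `X` over `g` is almost inside both `A` and `B` -/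
def NoneIn (w g X : M) (A B : M → Prop) : Prop :=
  ∀ x, mem x g → InfP mem w (App mem X x) → SubP mem w (App mem X x) A →
    ¬ SubP mem w (App mem X x) B

/-- the hypotheses of `PL` on the towers `T` and the sets `Z` -/
def Towers (w K T Z : M) : Prop :=
  (∀ j x y, mem j K → mem x K → mem y x → SubP mem w (App2 mem T j x) (App2 mem T j y)) ∧
  (∀ j e, mem j K → ∃ x, mem x K ∧ Dec mem w (App2 mem T j x) e) ∧
  ∀ j x k, mem j K → mem x K → mem k w →
    InfP mem w (App3 mem Z j x k) ∧ SubP mem w (App3 mem Z j x k) (App2 mem T j x)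

/-- the Luzin property at `g` -/
def Luz (w K X T Z g : M) : Prop :=
  ∀ j e, mem j g → (∀ x, mem x K → ∃ k, mem k w ∧ Dec mem w (App3 mem Z j x k) e) →
    ∃ d, mem d g ∧ (NoneIn mem w g X (App2 mem T j d) (fun m => mem m e) ∨
      NoneIn mem w g X (App2 mem T j d) (fun m => ¬ mem m e))

/-- the principle `PL` -/
def PL (w K X : M) : Prop :=
  ∀ T Z F, Towers mem w K T Z → (∀ a, mem a K → ∃ b, mem b K ∧ App mem F a b) →
    ∃ g, mem g K ∧ (∃ a, mem a g) ∧ (∀ a, mem a g → ∃ b, mem b g ∧ App mem F a b) ∧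
      Bdd mem w g ∧ Luz mem w K X T Z g

/-- everything the inside part may use -/
def Princ (w K X : M) : Prop :=
  IsOrd mem K ∧ Bdd mem w K ∧ (∀ a, mem a K → Bdd mem a K) ∧ Onto mem w K X ∧ PI mem w K ∧
    PL mem w K X

end Pool.Agent.P.MP_0d6be8_lc
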