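import Pool.Agent.Lib.PosetForcing.Card

set_option autoImplicit false

/-! Ground form of MA. -/

open Pool.Agent.Lib.PosetForcing

namespace Pool.Agent.P.MP_0d6be8_lc

/-- `ρ r x y` reads: `r` forces `x ≤ y`; below `p0` this is a preorder on its domain and the
two-step iteration is ccc. -/
structure Task {P : Type 1} [Preorder P] (p0 : P) {X : Type} (ρ : P → X → X → Prop) : Prop where
  mono : ∀ r r' x y, r' ≤ r → ρ r x y → ρ r' x y
  reg : ∀ r x y, Dn (fun s => ρ s x y) r → ρ r x y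
  trans : ∀ r x y z, r ≤ p0 → ρ r x y → ρ r y z → ρ r x z
  left : ∀ r x y, r ≤ p0 → ρ r x y → ρ r x x
  ccc : ∀ (ι : Type 1) (I : Set ι), ¬ I.Countable → ∀ (p : ι → P) (x : ι → X),
    (∀ i ∈ I, p i ≤ p0 ∧ ρ (p i) (x i) (x i)) →
    ∃ i ∈ I, ∃ j ∈ I, i ≠ j ∧ ∃ r z, r ≤ p i ∧ r ≤ p j ∧ ρ r z (x i) ∧ ρ r z (x j)

/-- `v s` is the value of `s` at a coordinate that is generic for `ρ`. -/
structure Coord {P : Type 1} [Preorder P] (p0 : P) {X : Type} (ρ : P → X → X → Prop)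
    (v : P → Option X) : Prop where
  le : ∀ s s1 x, s ≤ s1 → v s1 = some x → ∃ x', v s = some x' ∧ ρ s x' x
  ext : ∀ s ≤ p0, ∀ r ≤ s, ∀ y, ρ r y y → (∀ x, v s = some x → ρ r y x) →
    ∃ s' ≤ s, v s' = some y

/-- Every small task has a generic coordinate. -/
def GMA (P : Type 1) [Preorder P] : Prop :=
  ∀ (p0 : P) (X : Type) (ρ : P → X → X → Prop), Task p0 ρ → ∃ v, Coord p0 ρ v

end Pool.Agent.P.MP_0d6be8_lc
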