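import Pool.Agent.P.MP_0d6be8_lc.NKPP
import Pool.Agent.P.MP_0d6be8_lc.NKGMA

set_option autoImplicit false

/-! Small forced preorders are iterands at arbitrarily late stages: the ground form of MA for the
iteration. -/

open Pool.Agent.Lib.PosetForcing Cardinal

namespace Pool.Agent.P.MP_0d6be8_lc.NKIter

variable {Y : Type 1}

/-- `r` is a condition and densely below `r` the pair `a, b` is listed in `t` -/
def Below (le : C Y → C Y → Prop) (t : Set (C Y × O × O)) (r : C Y) (a b : O) : Prop :=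
  le r r ∧ ∀ r1, le r1 r → ∃ r2, le r2 r1 ∧ ∃ r', le r2 r' ∧ (r', a, b) ∈ t

/-- the iterand coded by a task -/
def RT (inj : O → Y) (le : C Y → C Y → Prop) (t : Set (C Y × O × O)) : Rel Y := fun r x y =>
  (x = none ∧ y = none) ∨ ∃ a, x = some (inj a) ∧
    ((y = none ∧ Below le t r a a) ∨ ∃ b, y = some (inj b) ∧ Below le t r a b)

theorem small_RT (inj : O → Y) (le : C Y → C Y → Prop) (t : Set (C Y × O × O)) [Small.{0} t] :
    Small.{0} {y : Y | ∃ p, RT inj le t p (some y) (some y)} := by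
  refine small_subset (s := Set.range fun z : t => inj z.1.2.1) ?_
  rintro y ⟨p, ⟨h, -⟩ | ⟨a, e, ⟨h, -⟩ | ⟨b, -, h⟩⟩⟩
  · simp at h
  · simp at h
  · obtain ⟨_, -, r', -, h1⟩ := h.2 p h.1
    exact ⟨⟨_, h1⟩, (Option.some.inj e).symm⟩

/-- the trivial iterand -/
def R0 : Rel Y := fun _ x y => x = none ∧ y = none

theorem isIt_R0 (le : C Y → C Y → Prop) : IsIt le R0 :=
  ⟨fun _ _ _ _ _ h => h, fun _ _ _ _ h h' => ⟨h.1, h'.2⟩, fun _ _ _ h => ⟨h.1, h.1⟩,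
    fun _ _ h => ⟨h.1, rfl⟩, fun _ => ⟨rfl, rfl⟩⟩

theorem cccr_R0 {le : C Y → C Y → Prop} (h : CCCR le) : CCCR (two le R0) := fun ι I hI p hp => by
  obtain ⟨i, hi, j, hj, hne, r, r1, r2⟩ := h ι I hI (fun i => (p i).1) fun i hi => (hp i hi).1
  exact ⟨i, hi, j, hj, hne, (r, none), ⟨r1, rfl, (hp i hi).2.1⟩, r2, rfl, (hp j hj).2.1⟩

open Classical in
/-- the iterand chosen for a task -/
noncomputable def step (inj : O → Y) (t : Set (C Y × O × O)) (le : C Y → C Y → Prop) : Rel Y :=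
  if IsIt le (RT inj le t) ∧ CCCR (two le (RT inj le t)) then RT inj le t else R0

theorem step_good (inj : O → Y) (t : Set (C Y × O × O)) [Small.{0} t] {le : C Y → C Y → Prop}
    (h : CCCR le) : IsIt le (step inj t le) ∧ CCCR (two le (step inj t le)) ∧
      Small.{0} {y : Y | ∃ p, step inj t le p (some y) (some y)} := by
  unfold step
  split_ifs with h1
  · exact ⟨h1.1, h1.2, small_RT inj le t⟩
  · refine ⟨isIt_R0 le, cccr_R0 h, ?_⟩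
    have : IsEmpty {y : Y | ∃ p : C Y, R0 p (some y) (some y)} :=
      ⟨fun ⟨_, _, h, _⟩ => by simp at h⟩
    infer_instance

/-- every small task is treated at arbitrarily late stages -/
def Tasks (inj : O → Y) (R : O → Rel Y) : Prop :=
  ∀ t : Set (C Y × O × O), Small.{0} t → ∀ a, ∃ b, a ≤ b ∧ R b = step inj t (leA R b)

section main
variable {R : O → Rel Y} [AllGood R] {inj : O → Y} {p0 : PP R} {X : Type}
  {ρ : PP R → X → X → Prop} {ι : X ↪ O} {α : O} {A : X → X → Set (PP R)}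

/-- the task coding the forced order -/
def tk (ι : X ↪ O) (A : X → X → Set (PP R)) : Set (C Y × O × O) :=
  {z | ∃ x y, ∃ r ∈ A x y, z = (r.1, ι x, ι y)}

variable (p0 ρ) in
/-- densely below `r`, conditions extend `p0` and force `x ≤ y` -/
def Fo (r : C Y) (x y : X) : Prop := ∀ s : PP R, le R s.1 r → ∃ s' ≤ s, s' ≤ p0 ∧ ρ s' x y

variable (p0 ρ α A) in
/-- the antichains capture the forced order and live below the stage `α` -/
structure Cap : Prop where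
  sub : ∀ x y, ∀ r ∈ A x y, r ≤ p0 ∧ ρ r x y
  max : ∀ x y, ∀ q ≤ p0, ρ q x y → ∃ r ∈ A x y, ∃ u, u ≤ r ∧ u ≤ q
  sup : ∀ x y, ∀ r ∈ A x y, Sup α r.1

theorem Below.mono {t : Set (C Y × O × O)} {r r' : C Y} {a b : O} (h : Below (leA R α) t r a b)
    (hr : leA R α r' r) : Below (leA R α) t r' a b :=
  ⟨hr.left, fun r1 h1 => h.2 r1 (h1.trans hr)⟩

theorem Cap.fo (h : Cap p0 ρ α A) (hT : Task p0 ρ) {r : C Y} {a b : O}
    (hb : Below (leA R α) (tk ι A) r a b) : ∃ x y, a = ι x ∧ b = ι y ∧ Fo p0 ρ r x y := by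
  obtain ⟨_, -, _, -, x, y, _, -, e⟩ := hb.2 r hb.1
  simp only [Prod.mk.injEq] at e
  obtain ⟨-, rfl, rfl⟩ := e
  refine ⟨x, y, rfl, rfl, fun s hs => ?_⟩
  obtain ⟨r2, h2, r', h3, x', y', r'', h4, e⟩ := hb.2 (s.1.restr α)
    ((hs.restr_le hb.1.1).leA (sup_restr _ _) hb.1.1)
  simp only [Prod.mk.injEq, EmbeddingLike.apply_eq_iff_eq] at e
  obtain ⟨rfl, rfl, rfl⟩ := e
  obtain ⟨u, u1, u2, -⟩ := amalg1 s.2 h2.1 h2.le
  let u' : PP R := ⟨u, u1.left⟩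
  have u3 : u' ≤ r'' := u2.trans h3.le
  exact ⟨u', u1, u3.trans (h.sub _ _ _ h4).1, hT.mono _ _ _ _ u3 (h.sub _ _ _ h4).2⟩

theorem Cap.below (h : Cap p0 ρ α A) {r : C Y} (hr : leA R α r r) {x y : X}
    (hf : Fo p0 ρ r x y) : Below (leA R α) (tk ι A) r (ι x) (ι y) := by
  refine ⟨hr, fun r1 h1 => ?_⟩
  obtain ⟨s, s1, s2, s3⟩ := hf ⟨r1, h1.le.left⟩ h1.le
  obtain ⟨a, ha, u, u1, u2⟩ := h.max x y s s2 s3
  exact ⟨u.1.restr α, (le.restr_le (u2.trans s1) h1.1).leA (sup_restr _ _) h1.1, a.1,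
    (le.restr_le u1 (h.sup _ _ _ ha)).leA (sup_restr _ _) (h.sup _ _ _ ha), x, y, a, ha, rfl⟩

theorem Cap.below_of_le (h : Cap p0 ρ α A) {u a : PP R} {x y : X} (ha : a ∈ A x y) (hu : u ≤ a) :
    Below (leA R α) (tk ι A) (u.1.restr α) (ι x) (ι y) :=
  ⟨u.2.restr α, fun r1 h1 => ⟨r1, h1.left, a.1, h1.trans
    ((le.restr_le hu (h.sup _ _ _ ha)).leA (sup_restr _ _) (h.sup _ _ _ ha)), x, y, a, ha, rfl⟩⟩

theorem Cap.isIt (h : Cap p0 ρ α A) (hT : Task p0 ρ) (hi : Function.Injective inj) :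
    IsIt (leA R α) (RT inj (leA R α) (tk ι A)) := by
  have left : ∀ r a b, Below (leA R α) (tk ι A) r a b → Below (leA R α) (tk ι A) r a a := by
    intro r a b hb
    obtain ⟨x, y, rfl, rfl, hf⟩ := h.fo hT hb
    refine h.below hb.1 fun s hs => ?_
    obtain ⟨s', s1, s2, s3⟩ := hf s hs
    exact ⟨s', s1, s2, hT.left _ _ _ s2 s3⟩
  have trans : ∀ r a b c, Below (leA R α) (tk ι A) r a b → Below (leA R α) (tk ι A) r b c →
      Below (leA R α) (tk ι A) r a c := by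
    intro r a b c hb hc
    obtain ⟨x, y, rfl, rfl, hf⟩ := h.fo hT hb
    obtain ⟨y', z, e, rfl, hf'⟩ := h.fo hT hc
    obtain rfl := ι.injective e
    refine h.below hb.1 fun s hs => ?_
    obtain ⟨s', s1, -, s3⟩ := hf s hs
    obtain ⟨s'', g1, g2, g3⟩ := hf' s' (le.trans s1 hs)
    exact ⟨s'', g1.trans s1, g2, hT.trans _ _ _ _ g2 (hT.mono _ _ _ _ g1 s3) g3⟩
  refine ⟨?_, ?_, ?_, ?_, fun r => Or.inl ⟨rfl, rfl⟩⟩
  · rintro r r' x y hr (h1 | ⟨a, rfl, ⟨rfl, h1⟩ | ⟨b, rfl, h1⟩⟩)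
    · exact Or.inl h1
    · exact Or.inr ⟨a, rfl, Or.inl ⟨rfl, h1.mono hr⟩⟩
    · exact Or.inr ⟨a, rfl, Or.inr ⟨b, rfl, h1.mono hr⟩⟩
  · rintro r x y z (⟨rfl, rfl⟩ | ⟨a, rfl, ⟨rfl, h1⟩ | ⟨b, rfl, h1⟩⟩) h2
    · exact h2
    · rcases h2 with ⟨-, rfl⟩ | ⟨b, e, -⟩
      · exact Or.inr ⟨a, rfl, Or.inl ⟨rfl, h1⟩⟩
      · simp at e
    · rcases h2 with ⟨e, -⟩ | ⟨b', e, ⟨rfl, -⟩ | ⟨c, rfl, h2⟩⟩
      · simp at e
      · exact Or.inr ⟨a, rfl, Or.inl ⟨rfl, left _ _ _ h1⟩⟩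
      · obtain rfl : b = b' := hi (Option.some.inj e)
        exact Or.inr ⟨a, rfl, Or.inr ⟨c, rfl, trans _ _ _ _ h1 h2⟩⟩
  · rintro r x y (⟨rfl, rfl⟩ | ⟨a, rfl, ⟨rfl, h1⟩ | ⟨b, rfl, h1⟩⟩)
    · exact Or.inl ⟨rfl, rfl⟩
    · exact Or.inr ⟨a, rfl, Or.inr ⟨a, rfl, h1⟩⟩
    · exact Or.inr ⟨a, rfl, Or.inr ⟨a, rfl, left _ _ _ h1⟩⟩
  · rintro r x (⟨rfl, -⟩ | ⟨a, rfl, ⟨-, h1⟩ | ⟨b, -, h1⟩⟩)
    · exact Or.inl ⟨rfl, rfl⟩
    · exact Or.inr ⟨a, rfl, Or.inl ⟨rfl, h1⟩⟩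
    · exact Or.inr ⟨a, rfl, Or.inl ⟨rfl, left _ _ _ h1⟩⟩

theorem Cap.of_RT (h : Cap p0 ρ α A) (hT : Task p0 ρ) (hi : Function.Injective inj) {r : C Y}
    {v : Option Y} {x : X} (hv : RT inj (leA R α) (tk ι A) r v (some (inj (ι x)))) :
    ∃ x', v = some (inj (ι x')) ∧ Fo p0 ρ r x' x := by
  rcases hv with ⟨-, e⟩ | ⟨a, rfl, ⟨e, -⟩ | ⟨b, e, h1⟩⟩
  · simp at e
  · simp at e
  · obtain ⟨x', y, rfl, rfl, hf⟩ := h.fo hT h1
    obtain rfl : x = y := ι.injective (hi (Option.some.inj e))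
    exact ⟨x', rfl, hf⟩

theorem Cap.of_RT_self (h : Cap p0 ρ α A) (hT : Task p0 ρ) (hi : Function.Injective inj) {r : C Y}
    {v : Option Y} (hv : RT inj (leA R α) (tk ι A) r v v) (hn : v ≠ none) :
    ∃ x, v = some (inj (ι x)) ∧ Fo p0 ρ r x x := by
  rcases hv with ⟨e, -⟩ | ⟨a, rfl, ⟨e, -⟩ | ⟨b, e, h1⟩⟩
  · exact absurd e hn
  · exact absurd e hn
  · obtain ⟨x', y, rfl, rfl, hf⟩ := h.fo hT h1
    obtain rfl : x' = y := ι.injective (hi (Option.some.inj e))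
    exact ⟨x', rfl, hf⟩

theorem Cap.cccr (h : Cap p0 ρ α A) (hT : Task p0 ρ) (hi : Function.Injective inj) :
    CCCR (two (leA R α) (RT inj (leA R α) (tk ι A))) := by
  intro κ I hI p hp
  by_cases h0 : {i | i ∈ I ∧ (p i).2 ≠ none}.Countable
  · obtain ⟨i, hi', j, hj, hne, r, r1, r2⟩ := cccr_leA (R := R) α κ _ (not_countable_diff hI h0)
      (fun i => (p i).1) fun i hi => (hp i hi.1).1
    exact ⟨i, hi'.1, j, hj.1, hne, (r, none),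
      ⟨r1, Or.inl ⟨rfl, by_contra fun e => hi'.2 ⟨hi'.1, e⟩⟩⟩,
      r2, Or.inl ⟨rfl, by_contra fun e => hj.2 ⟨hj.1, e⟩⟩⟩
  obtain ⟨i0, hi0⟩ := nonempty_of_not_countable h0
  obtain ⟨x0, -⟩ := h.of_RT_self hT hi (hp i0 hi0.1).2 hi0.2
  have h1 : ∀ i, ∃ z : PP R × X, i ∈ I ∧ (p i).2 ≠ none →
      (p i).2 = some (inj (ι z.2)) ∧ le R z.1.1 (p i).1 ∧ z.1 ≤ p0 ∧ ρ z.1 z.2 z.2 := fun i => by
    by_cases hn : i ∈ I ∧ (p i).2 ≠ none
    · obtain ⟨x, e, hf⟩ := h.of_RT_self hT hi (hp i hn.1).2 hn.2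
      obtain ⟨s, s1, s2⟩ := hf ⟨(p i).1, (hp i hn.1).1.le⟩ (hp i hn.1).1.le
      exact ⟨(s, x), fun _ => ⟨e, s1, s2⟩⟩
    · exact ⟨(p0, x0), fun g => absurd g hn⟩
  choose z hz using h1
  obtain ⟨i, hi', j, hj, hne, r, w, r1, r2, r3, r4⟩ := hT.ccc κ _ h0 (fun i => (z i).1)
    (fun i => (z i).2) fun i hi => (hz i hi).2.2
  have r0 : r ≤ p0 := r1.trans (hz i hi').2.2.1
  obtain ⟨a1, ha1, u1, u11, u12⟩ := h.max _ _ r r0 r3
  obtain ⟨a2, ha2, u2, u21, u22⟩ := h.max _ _ u1 (u12.trans r0) (hT.mono _ _ _ _ u12 r4)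
  have key : ∀ k, k ∈ I ∧ (p k).2 ≠ none → r ≤ (z k).1 → ∀ a ∈ A w (z k).2, u2 ≤ a →
      two (leA R α) (RT inj (leA R α) (tk ι A)) (u2.1.restr α, some (inj (ι w))) (p k) :=
    fun k hk g1 a ha g2 => ⟨(le.restr_le (le.trans (u22.trans (u12.trans g1)) (hz k hk).2.1)
      (hp k hk.1).1.1).leA (sup_restr _ _) (hp k hk.1).1.1,
      Or.inr ⟨_, rfl, Or.inr ⟨_, (hz k hk).1, h.below_of_le ha g2⟩⟩⟩
  exact ⟨i, hi'.1, j, hj.1, hne, _, key i hi' r1 a1 ha1 (u22.trans u11), key j hj r2 a2 ha2 u21⟩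

theorem Cap.coord (h : Cap p0 ρ α A) (hT : Task p0 ρ) (hi : Function.Injective inj)
    (hR : R α = RT inj (leA R α) (tk ι A)) : ∃ v, Coord p0 ρ v := by
  classical
  let v : PP R → Option X := fun s =>
    if h : ∃ x, s.1.f α = some (inj (ι x)) then some h.choose else none
  have hv : ∀ s x, v s = some x ↔ s.1.f α = some (inj (ι x)) := fun s x => by
    simp only [v]
    split_ifs with h1
    · exact ⟨fun e => Option.some.inj e ▸ h1.choose_spec, fun e =>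
        congrArg some (ι.injective (hi (Option.some.inj (h1.choose_spec.symm.trans e))))⟩
    · exact ⟨fun e => by simp at e, fun e => absurd ⟨x, e⟩ h1⟩
  refine ⟨v, fun s s1 x hs hx => ?_, fun s hs r hr y hy hx => ?_⟩
  · obtain ⟨x', h1, h2⟩ := h.of_RT hT hi (hR ▸ (hv _ _).1 hx ▸ hs α)
    refine ⟨x', (hv _ _).2 h1, hT.reg _ _ _ fun q hq => ?_⟩
    obtain ⟨s', g1, -, g2⟩ := h2 q (le.trans hq (s.2.le_restr α))
    exact ⟨s', g1, g2⟩
  · obtain ⟨u, hu, h1⟩ : ∃ u ≤ r, R α (u.1.restr α) (some (inj (ι y))) (s.1.f α) := by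
      rw [hR]
      by_cases hn : s.1.f α = none
      · obtain ⟨a, ha, u, u1, u2⟩ := h.max _ _ r (hr.trans hs) hy
        exact ⟨u, u2, Or.inr ⟨_, rfl, Or.inl ⟨hn, h.below_of_le ha u1⟩⟩⟩
      · obtain ⟨x, e, -⟩ := h.of_RT_self hT hi (hR ▸ s.2 α) hn
        obtain ⟨a, ha, u, u1, u2⟩ := h.max _ _ r (hr.trans hs) (hx x ((hv _ _).2 e))
        exact ⟨u, u2, Or.inr ⟨_, rfl, Or.inr ⟨_, e, h.below_of_le ha u1⟩⟩⟩
    obtain ⟨s1, g1, -, g3, g4⟩ := amalg s.2 (u.2.restr' α) (sup_restr u.1 α)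
      (le.restr' (hu.trans hr) α) (by rw [restr_restr le_rfl]; exact u.2.restr' α)
      fun γ hγ => Or.inr (restr_f_of_ge hγ)
    have g5 : le R (s1.upd α (some (inj (ι y)))) s1 := upd_le g1.left (by
      rwa [g3, g4 α le_rfl, restr_f_of_ge le_rfl, Option.or_none])
    exact ⟨⟨_, g5.left⟩, g5.trans g1, (hv _ _).2 (upd_self _ _ _)⟩

theorem gma_PP (hi : Function.Injective inj) (hT : Tasks inj R) : GMA (PP R) := by
  intro p0 X ρ h
  obtain ⟨ι⟩ : Nonempty (X ↪ O) :=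
    nonempty_embedding_to_cardinal.map fun e => e.trans ⟨_, ord_injective⟩
  choose A hA1 hA2 hA3 using fun x y => (PP.ccc (R := R)).exists_antichain {r | r ≤ p0 ∧ ρ r x y}
  have : ∀ x y, Countable (A x y) := fun x y => (hA2 x y).to_subtype
  obtain ⟨α1, hα1⟩ := exists_sup_small fun z : Σ x y, A x y => z.2.2.1.1
  have hsm : Small.{0} (tk ι A) := small_of_surjective
    (f := fun z : Σ x y, A x y => (⟨(z.2.2.1.1, ι z.1, ι z.2.1), _, _, _, z.2.2.2, rfl⟩ : tk ι A))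
    fun ⟨_, x, y, r, hr, e⟩ => ⟨⟨x, y, r, hr⟩, Subtype.ext e.symm⟩
  obtain ⟨α, hα, hR⟩ := hT (tk ι A) hsm α1
  have hc : Cap p0 ρ α A := ⟨fun x y r hr => hA1 x y hr, fun x y q hq g => hA3 x y q ⟨hq, g⟩,
    fun x y r hr => (hα1 ⟨x, y, r, hr⟩).mono hα⟩
  rw [step, if_pos ⟨hc.isIt h hi, hc.cccr h hi⟩] at hR
  exact hc.coord h hi hR

end main

end Pool.Agent.P.MP_0d6be8_lc.NKIter
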