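import Pool.Agent.P.MP_0d6be8_lc.NKStep
import Pool.Agent.P.MP_0d6be8_lc.NKTask

set_option autoImplicit false

/-! Every small task has a generic coordinate in the fixed iteration. -/

open Pool.Agent.Lib.PosetForcing

namespace Pool.Agent.P.MP_0d6be8_lc.NKStep

instance : NKIter.AllGood R := ⟨good⟩

theorem RT_eq (le : CC → CC → Prop) (t : Set (CC × NKIter.O × NKIter.O)) :
    NKIter.RT Sum.inl le t = RT le t := by
  funext r x y
  refine propext (or_congr_right ⟨?_, ?_⟩)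
  · rintro ⟨a, e, ⟨e', h⟩ | ⟨b, e', h⟩⟩
    · exact ⟨h.1, a, e, Or.inl ⟨e', h.2⟩⟩
    · exact ⟨h.1, a, e, Or.inr ⟨b, e', h.2⟩⟩
  · rintro ⟨h0, a, e, ⟨e', h⟩ | ⟨b, e', h⟩⟩
    · exact ⟨a, e, Or.inl ⟨e', h0, h⟩⟩
    · exact ⟨a, e, Or.inr ⟨b, e', h0, h⟩⟩

theorem tasks : NKIter.Tasks Sum.inl R := by
  intro t ht a
  obtain ⟨β, hβ, e⟩ := task_spec t ht a
  refine ⟨Order.succ β, hβ.trans (Order.le_succ β), ?_⟩
  rw [R_eq, step, if_neg (Order.not_isSuccLimit_succ β),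
    show (Order.succ β).pred = β from Ordinal.pred_add_one β, e, NKIter.step, RT_eq]
  by_cases h : NKIter.IsIt (NKIter.leA R (Order.succ β)) (RT (NKIter.leA R (Order.succ β)) t) ∧
      NKIter.CCCR (NKIter.two (NKIter.leA R (Order.succ β)) (RT (NKIter.leA R (Order.succ β)) t))
  · rw [if_pos h, if_pos ⟨h.1, h.2, small_RT ht⟩]
  · rw [if_neg h, if_neg fun g => h ⟨g.1, g.2.1⟩]
    rfl

theorem gma : GMA PP := NKIter.gma_PP (R := R) Sum.inl_injective tasks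

end Pool.Agent.P.MP_0d6be8_lc.NKStep
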