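import Pool.Agent.Lib.PosetForcing.Card

set_option autoImplicit false

/-! The iterand with items and promises, and the chain condition of the two-step iteration. -/

open Pool.Agent.Lib.PosetForcing

namespace Pool.Agent.P.MP_0d6be8_lc.MQ

universe u

variable {D : Type u} [Preorder D]

/-- `x p d` reads: `p` forces `d ∈ x` -/
def Mon (x : D → ℕ → Prop) : Prop := ∀ p q d, q ≤ p → x p d → x q d

/-- `p` forces that `x` is infinite -/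
def Inf (p : D) (x : D → ℕ → Prop) : Prop := ∀ q ≤ p, ∀ n, ∃ r ≤ q, ∃ d, n ≤ d ∧ x r d

/-- `p` forces that `x` is almost contained in `y` -/
def Sub (p : D) (x y : D → ℕ → Prop) : Prop :=
  ∀ q ≤ p, ∃ r ≤ q, ∃ N, ∀ d, N ≤ d → ∀ s ≤ r, x s d → ∃ t ≤ s, y t d

/-- `p` forces that `x` and `y` are almost disjoint -/
def Dis (p : D) (x y : D → ℕ → Prop) : Prop :=
  ∀ q ≤ p, ∃ r ≤ q, ∃ N, ∀ d, N ≤ d → ∀ s ≤ r, x s d → ¬ y s d

section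
variable {p q : D} {x y z : D → ℕ → Prop}

theorem Inf.mono (h : Inf p x) (hq : q ≤ p) : Inf q x := fun r hr => h r (hr.trans hq)
theorem Sub.mono (h : Sub p x y) (hq : q ≤ p) : Sub q x y := fun r hr => h r (hr.trans hq)
theorem Dis.mono (h : Dis p x y) (hq : q ≤ p) : Dis q x y := fun r hr => h r (hr.trans hq)

theorem Sub.trans (h : Sub p x y) (h' : Sub p y z) : Sub p x z := fun q hq => by
  obtain ⟨r, hr, N, hN⟩ := h q hq
  obtain ⟨r', hr', N', hN'⟩ := h' r (hr.trans hq)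
  refine ⟨r', hr'.trans hr, max N N', fun d hd s hs hx => ?_⟩
  obtain ⟨t, ht, hy⟩ := hN d (le_of_max_le_left hd) s (hs.trans hr') hx
  obtain ⟨t', ht', hz⟩ := hN' d (le_of_max_le_right hd) t (ht.trans hs) hy
  exact ⟨t', ht'.trans ht, hz⟩

theorem Inf.meet (h : Inf p x) (hx : Mon x) (h' : Sub p x y) (n : ℕ) :
    ∃ q ≤ p, ∃ d, n ≤ d ∧ x q d ∧ y q d := by
  obtain ⟨r, hr, N, hN⟩ := h' p le_rfl
  obtain ⟨s, hs, d, hd, h1⟩ := h r hr (max n N)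
  obtain ⟨t, ht, h2⟩ := hN d (le_of_max_le_right hd) s hs h1
  exact ⟨t, (ht.trans hs).trans hr, d, le_of_max_le_left hd, hx _ _ _ ht h1, h2⟩

end

theorem exists_above {W : Type*} [LinearOrder W] [Uncountable W] (hW : ∀ i : W, (Set.Iic i).Countable)
    {T : Set W} (hT : T.Countable) : ∃ i, ∀ x ∈ T, x < i := by
  obtain ⟨i, -, hi⟩ := nonempty_of_not_countable
    (not_countable_diff Set.not_countable_univ (hT.biUnion fun x _ => hW x))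
  exact ⟨i, fun x hx => lt_of_not_ge fun h => hi (Set.mem_biUnion hx h)⟩

theorem exists_enum {ι X Y : Type*} [Countable Y] (N : ι → Finset X) (c : X → Y) {I : Set ι}
    (hI : ¬ I.Countable) : ∃ (n : ℕ) (e : ι → Fin n → X) (t : Fin n → Y), ∃ I' ⊆ I,
      ¬ I'.Countable ∧ ∀ a ∈ I', (∀ x, x ∈ N a ↔ ∃ v, e a v = x) ∧ ∀ v, c (e a v) = t v := by
  obtain ⟨n, hn⟩ := exists_fiber (fun a => (N a).card) hI
  have h1 : ∀ a, (N a).card = n → ∃ e : Fin n → X, ∀ x, x ∈ N a ↔ ∃ v, e v = x := fun a h =>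
    ⟨fun v => ((N a).equivFinOfCardEq h).symm v, fun x =>
      ⟨fun hx => ⟨(N a).equivFinOfCardEq h ⟨x, hx⟩, by simp⟩, fun ⟨_, hv⟩ => hv ▸ Subtype.prop _⟩⟩
  obtain ⟨a0, h0⟩ := nonempty_of_not_countable hn
  have : Nonempty (Fin n → X) := ⟨(h1 a0 h0.2).choose⟩
  choose! e he using h1
  obtain ⟨t, ht⟩ := exists_fiber (fun a v => c (e a v)) hn
  exact ⟨n, e, t, _, fun a ha => ha.1.1, ht, fun a ha => ⟨he a ha.1.2, congrFun ha.2⟩⟩

section core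
variable {W : Type*} [LinearOrder W] [Uncountable W]

theorem core (hD : CCC D) (hW : ∀ i : W, (Set.Iic i).Countable) {ι V : Type*} [Countable V]
    {I : Set ι} (p : ι → D) (U : V → W → D → ℕ → Prop) (z : ι → V → D → ℕ → Prop) (lv : ι → V → W)
    (hU : ∀ a ∈ I, ∀ v i i', i ≤ i' → Sub (p a) (U v i') (U v i))
    (hdec : ∀ a ∈ I, ∀ v y, Mon y → ∀ q ≤ p a, ∃ r ≤ q, ∃ i, Sub r (U v i) y ∨ Dis r (U v i) y)
    (hz : ∀ a ∈ I, ∀ v, Mon (z a v) ∧ Inf (p a) (z a v) ∧ Sub (p a) (z a v) (U v (lv a v)))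
    (hlv : ∀ i, {a | a ∈ I ∧ ∃ v, lv a v ≤ i}.Countable) :
    ∃ (E T : Set ι) (i : W), E.Countable ∧ T.Countable ∧ T ⊆ I ∧ ∀ b ∈ I, b ∉ E →
      ∀ L : List (V × (D → ℕ → Prop) × ℕ),
        (∀ t ∈ L, Mon t.2.1 ∧ Inf (p b) t.2.1 ∧ Sub (p b) t.2.1 (U t.1 i)) →
        ∃ a ∈ T, ∃ q, q ≤ p a ∧ q ≤ p b ∧ ∀ t ∈ L, ∃ d, t.2.2 ≤ d ∧ z a t.1 q d ∧ t.2.1 q d := by
  let M : List (V × ℕ) → ι → D → Prop := fun s a q =>
    a ∈ I ∧ q ≤ p a ∧ ∀ x ∈ s, z a x.1 q x.2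
  have hM : ∀ s a q r, r ≤ q → M s a q → M s a r := fun s a q r hr h =>
    ⟨h.1, hr.trans h.2.1, fun x hx => (hz a h.1 _).1 _ _ _ hr (h.2.2 x hx)⟩
  let K : List (V × ℕ) → D → Set ι := fun s q => {a | ∃ r ≤ q, M s a r}
  choose A hA1 hA2 hA3 using fun s => hD.exists_antichain {q | (K s q).Countable}
  let E : Set ι := ⋃ s, ⋃ q ∈ A s, K s q
  have hE : E.Countable := Set.countable_iUnion fun s => (hA2 s).biUnion fun q hq => hA1 s hq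
  let Lg : List (V × ℕ) → D → Prop := fun s q => ∀ r ≤ q, ¬ (K s r).Countable
  have h1 : ∀ s a q, M s a q → a ∉ E → Lg s q := fun s a q h ha r hr hc => by
    obtain ⟨q0, h0, t, t1, t2⟩ := hA3 s r hc
    exact ha (Set.mem_iUnion.2 ⟨s, Set.mem_biUnion h0 ⟨t, t1, hM _ _ _ _ (t2.trans hr) h⟩⟩)
  let y : List (V × ℕ) × V → D → ℕ → Prop := fun s q d => Lg ((s.2, d) :: s.1) q
  have hy : ∀ s, Mon (y s) := fun s q r d hr h t ht => h t (ht.trans hr)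
  choose B hB1 hB2 hB3 using fun s : List (V × ℕ) × V =>
    hD.exists_antichain {r | ∃ i, Sub r (U s.2 i) (y s) ∨ Dis r (U s.2 i) (y s)}
  have : Nonempty W := inferInstance
  choose! f hf using hB1
  obtain ⟨i, hi⟩ := exists_above hW
    (Set.countable_iUnion fun s => (hB2 s).image fun q => f s (a := q))
  have h2 : ∀ s q, Lg s.1 q → Sub q (U s.2 i) (y s) := fun s q h q1 hq1 => by
    obtain ⟨a1, r1, e1, e2⟩ := nonempty_of_not_countable (h q1 hq1)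
    obtain ⟨r, e3, hr'⟩ := hdec a1 e2.1 s.2 _ (hy s) r1 e2.2.1
    have hr := e3.trans e1
    obtain ⟨q0, h0, q2, g1, g2⟩ := hB3 s r hr'
    have hlt := hi _ (Set.mem_iUnion.2 ⟨s, q0, h0, rfl⟩)
    rcases hf s h0 with h3 | h3
    · obtain ⟨t, ht, h4⟩ := ((hU a1 e2.1 _ _ _ hlt.le).mono ((g2.trans e3).trans e2.2.1)).trans
        (h3.mono g1) q2 le_rfl
      exact ⟨t, (ht.trans g2).trans hr, h4⟩
    · obtain ⟨q3, g3, N, hN⟩ := h3 q2 g1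
      obtain ⟨a, ⟨q4, g4, ha⟩, ha'⟩ := nonempty_of_not_countable (not_countable_diff
        (h q3 (((g3.trans g2).trans hr).trans hq1)) (hE.union (hlv i)))
      have h5 : i ≤ lv a s.2 := le_of_not_ge fun h => ha' (Or.inr ⟨ha.1, _, h⟩)
      obtain ⟨q5, g5, d, hd, k1, k2⟩ := ((hz a ha.1 s.2).2.1.mono ha.2.1).meet (hz a ha.1 s.2).1
        (((hz a ha.1 s.2).2.2.trans (hU a ha.1 _ _ _ (hlt.le.trans h5))).mono ha.2.1) N
      refine (hN d hd q5 (g5.trans g4) k2 (h1 _ a _ ?_ fun h => ha' (Or.inl h))).elim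
      have := hM _ _ _ _ g5 ha
      exact ⟨ha.1, this.2.1, List.forall_mem_cons.2 ⟨k1, this.2.2⟩⟩
  choose C hC1 hC2 hC3 using fun s => hD.exists_antichain {q | ∃ a, M s a q}
  choose w hw using hC1
  refine ⟨E, ⋃ s, ⋃ q ∈ C s, {a | ∃ h : q ∈ C s, w s h = a}, i, hE, Set.countable_iUnion fun s =>
    (hC2 s).biUnion fun q _ => Set.Subsingleton.countable ?_, fun a ha => ?_, fun b hb hbE L hL => ?_⟩
  · rintro _ ⟨_, rfl⟩ _ ⟨_, rfl⟩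
    rfl
  · simp only [Set.mem_iUnion] at ha
    obtain ⟨s, q, -, h, rfl⟩ := ha
    exact (hw s h).1
  have h3 : ∃ s, ∃ q ≤ p b, Lg s q ∧ ∀ t ∈ L, ∃ d, t.2.2 ≤ d ∧ (t.1, d) ∈ s ∧ t.2.1 q d := by
    induction L with
    | nil => exact ⟨[], _, le_rfl, h1 _ b _ ⟨hb, le_rfl, by simp⟩ hbE, by simp⟩
    | cons t L ih =>
      obtain ⟨s, q, hq, g1, g2⟩ := ih fun t ht => hL t (List.mem_cons_of_mem _ ht)
      obtain ⟨k1, k2, k3⟩ := hL t List.mem_cons_self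
      obtain ⟨r, hr, d, hd, k4, k5⟩ := (k2.mono hq).meet k1
        ((k3.mono hq).trans (h2 (s, t.1) q g1)) t.2.2
      refine ⟨_, r, hr.trans hq, k5, List.forall_mem_cons.2 ⟨⟨d, hd, List.mem_cons_self, k4⟩,
        fun t' ht' => ?_⟩⟩
      obtain ⟨d', k6, k7, k8⟩ := g2 t' ht'
      exact ⟨d', k6, List.mem_cons_of_mem _ k7, (hL t' (List.mem_cons_of_mem _ ht')).1 _ _ _ hr k8⟩
  obtain ⟨s, q, hq, g1, g2⟩ := h3
  obtain ⟨a1, q1, k1, k2⟩ := nonempty_of_not_countable (g1 q le_rfl)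
  obtain ⟨q0, h0, r, r1, r2⟩ := hC3 s q1 ⟨a1, k2⟩
  have k3 := hM _ _ _ _ r1 (hw s h0)
  refine ⟨w s h0, Set.mem_iUnion.2 ⟨s, Set.mem_biUnion h0 ⟨h0, rfl⟩⟩, r, k3.2.1,
    (r2.trans k1).trans hq, fun t ht => ?_⟩
  obtain ⟨d, k4, k5, k6⟩ := g2 t ht
  exact ⟨d, k4, k3.2.2 _ k5, (hL t ht).1 _ _ _ (r2.trans k1) k6⟩

end core

/-- `p` forces that `U` is a tower deciding every real and that `Z i k` is an infinite set almost
contained in `U i` -/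
structure Job {W : Type*} [LE W] (p : D) (U : W → D → ℕ → Prop) (Z : W → ℕ → D → ℕ → Prop) :
    Prop where
  dec : ∀ i i', i ≤ i' → Sub p (U i') (U i)
  ult : ∀ y, Mon y → ∀ q ≤ p, ∃ r ≤ q, ∃ i, Sub r (U i) y ∨ Dis r (U i) y
  inf : ∀ i k, Inf p (Z i k)
  sub : ∀ i k, Sub p (Z i k) (U i)

theorem Job.mono {W : Type*} [LE W] {p q : D} {U : W → D → ℕ → Prop} {Z : W → ℕ → D → ℕ → Prop}
    (h : Job p U Z) (hq : q ≤ p) : Job q U Z :=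
  ⟨fun i i' e => (h.dec i i' e).mono hq, fun y hy r hr => h.ult y hy r (hr.trans hq),
    fun i k => (h.inf i k).mono hq, fun i k => (h.sub i k).mono hq⟩

/-- finite sets of items `(j, i, k, m)` and of promises `(j, ξ, n, i)` -/
abbrev Cd (J W Ξ : Type*) := Finset (J × W × ℕ × ℕ) × Finset (J × Ξ × ℕ × W)

section main
variable {J W Ξ : Type*} [LinearOrder W] (U : J → W → D → ℕ → Prop)
  (Z : J → W → ℕ → D → ℕ → Prop) (X : Ξ → D → ℕ → Prop)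

/-- `p` forces that `c` is a condition -/
def QV (p : D) (c : Cd J W Ξ) : Prop :=
  (∀ x ∈ c.1, Job p (U x.1) (Z x.1)) ∧
    ∀ y ∈ c.2, Inf p (X y.2.1) ∧ Sub p (X y.2.1) (U y.1 y.2.2.2)

/-- `p` forces that `c` is a condition below `c0` -/
def QR (p : D) (c c0 : Cd J W Ξ) : Prop :=
  QV U Z X p c ∧ c0.1 ⊆ c.1 ∧ c0.2 ⊆ c.2 ∧ ∀ x ∈ c.1, x ∉ c0.1 → ∀ y ∈ c0.2, y.1 = x.1 →
    x.2.1 < y.2.2.2 → y.2.2.1 < x.2.2.2 ∨
      ∃ d, y.2.2.1 ≤ d ∧ Z x.1 x.2.1 x.2.2.1 p d ∧ X y.2.1 p d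

variable {U Z X} {p q : D} {c c' c'' : Cd J W Ξ}

theorem QV.mono (h : QV U Z X p c) (hq : q ≤ p) : QV U Z X q c :=
  ⟨fun x hx => (h.1 x hx).mono hq, fun y hy => ⟨(h.2 y hy).1.mono hq, (h.2 y hy).2.mono hq⟩⟩

theorem QV.refl (h : QV U Z X p c) : QR U Z X p c c :=
  ⟨h, subset_rfl, subset_rfl, fun _ h1 h2 => absurd h1 h2⟩

theorem QV.empty : QV U Z X p (∅, ∅) :=
  ⟨fun _ h => absurd h (Finset.notMem_empty _), fun _ h => absurd h (Finset.notMem_empty _)⟩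

theorem QV.top (h : QV U Z X p c) : QR U Z X p c (∅, ∅) :=
  ⟨h, Finset.empty_subset _, Finset.empty_subset _,
    fun _ _ _ _ h => absurd h (Finset.notMem_empty _)⟩

theorem QR.right (h : QR U Z X p c c') : QV U Z X p c' :=
  ⟨fun x hx => h.1.1 x (h.2.1 hx), fun y hy => h.1.2 y (h.2.2.1 hy)⟩

theorem QR.mono (hZ : ∀ j i k, Mon (Z j i k)) (hX : ∀ ξ, Mon (X ξ)) (h : QR U Z X p c c')
    (hq : q ≤ p) : QR U Z X q c c' :=
  ⟨h.1.mono hq, h.2.1, h.2.2.1, fun x h1 h2 y h3 h4 h5 => (h.2.2.2 x h1 h2 y h3 h4 h5).imp_right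
    fun ⟨d, g1, g2, g3⟩ => ⟨d, g1, hZ _ _ _ _ _ _ hq g2, hX _ _ _ _ hq g3⟩⟩

theorem QR.trans (h : QR U Z X p c c') (h' : QR U Z X p c' c'') : QR U Z X p c c'' :=
  ⟨h.1, h'.2.1.trans h.2.1, h'.2.2.1.trans h.2.2.1, fun x h1 h2 y h3 => by
    by_cases h4 : x ∈ c'.1
    · exact h'.2.2.2 x h4 h2 y h3
    · exact h.2.2.2 x h1 h4 y (h'.2.2.1 h3)⟩

theorem QV.add_item (h : QV U Z X p c) {j : J} (hj : Job p (U j) (Z j)) (i : W) (k : ℕ) :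
    ∃ m c', (j, i, k, m) ∈ c'.1 ∧ QR U Z X p c' c := by
  classical
  refine ⟨c.2.sup (fun y => y.2.2.1) + 1, (insert _ c.1, c.2), Finset.mem_insert_self _ _,
    ⟨Finset.forall_mem_insert _ _ _ |>.2 ⟨hj, h.1⟩, h.2⟩, Finset.subset_insert _ _, subset_rfl,
    fun x h1 h2 y h3 _ _ => Or.inl ?_⟩
  obtain rfl := (Finset.mem_insert.1 h1).resolve_right h2
  exact Nat.lt_succ_of_le (Finset.le_sup (f := fun y : J × Ξ × ℕ × W => y.2.2.1) h3)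

theorem QV.add_prom (h : QV U Z X p c) {j : J} {ξ : Ξ} {i : W} (h1 : Inf p (X ξ))
    (h2 : Sub p (X ξ) (U j i)) (n : ℕ) : ∃ c', (j, ξ, n, i) ∈ c'.2 ∧ QR U Z X p c' c := by
  classical
  exact ⟨(c.1, insert _ c.2), Finset.mem_insert_self _ _,
    ⟨h.1, Finset.forall_mem_insert _ _ _ |>.2 ⟨⟨h1, h2⟩, h.2⟩⟩, subset_rfl,
    Finset.subset_insert _ _, fun _ g1 g2 => absurd g1 g2⟩

theorem ccc [Uncountable W] (hD : CCC D) (hW : ∀ i : W, (Set.Iic i).Countable)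
    (hZ : ∀ j i k, Mon (Z j i k)) (hX : ∀ ξ, Mon (X ξ)) {ι : Type*} {I : Set ι}
    (hI : ¬ I.Countable) (p : ι → D) (c : ι → Cd J W Ξ) (h : ∀ a ∈ I, QV U Z X (p a) (c a)) :
    ∃ a ∈ I, ∃ b ∈ I, a ≠ b ∧ ∃ q c', (q ≤ p a ∧ QR U Z X q c' (c a)) ∧
      q ≤ p b ∧ QR U Z X q c' (c b) := by
  classical
  obtain ⟨J0, I1, s1, n1, -, hJ⟩ := exists_delta
    (fun a => (c a).1.image Prod.fst ∪ (c a).2.image Prod.fst) hI
  let lev : ι → Finset W := fun a => (c a).1.image (·.2.1) ∪ (c a).2.image (·.2.2.2)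
  have l1 : ∀ a, ∀ x ∈ (c a).1, x.2.1 ∈ lev a := fun a x hx =>
    Finset.mem_union_left _ (Finset.mem_image_of_mem _ hx)
  have l2 : ∀ a, ∀ y ∈ (c a).2, y.2.2.2 ∈ lev a := fun a x hx =>
    Finset.mem_union_right _ (Finset.mem_image_of_mem _ hx)
  obtain ⟨L0, -, I2, s2, n2, -, hL⟩ := exists_root lev n1
  let av : W → Set ι := fun i => {a | a ∈ I2 ∧ ∃ x ∈ lev a, x ∉ L0 ∧ x ≤ i}
  have hav : ∀ i, (av i).Countable := fun i => ((hW i).biUnion fun x _ => hL x).mono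
    fun a ⟨g1, x, g2, g3, g4⟩ => Set.mem_biUnion g4 (And.intro g1 (Finset.mem_sdiff.2 ⟨g2, g3⟩))
  obtain ⟨i0, hi0⟩ := exists_above hW L0.countable_toSet
  have n3 := not_countable_diff n2 (hav i0)
  obtain ⟨O, n4⟩ : ∃ O : Set (J × W × ℕ × ℕ), ¬ {a | a ∈ I2 \ av i0 ∧
      {x | x ∈ (c a).1 ∧ x.1 ∈ J0 ∧ x.2.1 ∈ L0} = O}.Countable := by
    by_contra hcon
    push Not at hcon
    refine n3 (((Set.countable_ofPred_finite_subset (J0.countable_toSet.prod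
      (L0.countable_toSet.prod (Set.countable_univ (α := ℕ × ℕ))))).biUnion
        fun O _ => hcon O).mono fun a ha => Set.mem_biUnion (x := _) ?_ (And.intro ha rfl))
    exact ⟨(c a).1.finite_toSet.subset fun x hx => hx.1, fun x hx => ⟨hx.2.1, hx.2.2, trivial⟩⟩
  obtain ⟨g, hg⟩ := Set.countable_iff_exists_injOn.1 J0.countable_toSet
  obtain ⟨n, e, t, I5, s5, n5, he⟩ := exists_enum
    (fun a => (c a).1.filter fun x => x.1 ∈ J0 ∧ x.2.1 ∉ L0) (fun x => g x.1) n4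
  have m2 : ∀ a ∈ I5, a ∈ I2 := fun a ha => (s5 ha).1.1
  have m0 : ∀ a ∈ I5, a ∈ I := fun a ha => s1 (s2 (m2 a ha))
  have e1 : ∀ a ∈ I5, ∀ v, e a v ∈ (c a).1 ∧ (e a v).1 ∈ J0 ∧ (e a v).2.1 ∉ L0 := fun a ha v =>
    Finset.mem_filter.1 (((he a ha).1 _).2 ⟨v, rfl⟩)
  obtain ⟨a0, h0⟩ := nonempty_of_not_countable n5
  have e2 : ∀ a ∈ I5, ∀ v, (e a v).1 = (e a0 v).1 := fun a ha v =>
    hg (e1 a ha v).2.1 (e1 a0 h0 v).2.1 (((he a ha).2 v).trans ((he a0 h0).2 v).symm)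
  have e3 : ∀ a ∈ I5, ∀ v, Job (p a) (U (e a0 v).1) (Z (e a0 v).1) := fun a ha v =>
    e2 a ha v ▸ (h a (m0 a ha)).1 _ (e1 a ha v).1
  obtain ⟨E, T, i, hE, hT, sT, key⟩ := core hD hW (I := I5) p (fun v => U (e a0 v).1)
    (fun a v => Z (e a0 v).1 (e a v).2.1 (e a v).2.2.1) (fun a v => (e a v).2.1)
    (fun a ha v => (e3 a ha v).dec) (fun a ha v => (e3 a ha v).ult)
    (fun a ha v => ⟨hZ _ _ _, (e3 a ha v).inf _ _, (e3 a ha v).sub _ _⟩)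
    fun i => (hav i).mono fun a ⟨ha, v, hv⟩ =>
      And.intro (m2 a ha) ⟨_, l1 a _ (e1 a ha v).1, (e1 a ha v).2.2, hv⟩
  obtain ⟨i2, hi2⟩ := exists_above hW
    ((hT.biUnion fun a _ => (lev a).countable_toSet).insert i)
  obtain ⟨b, hb, hb'⟩ := nonempty_of_not_countable
    (not_countable_diff n5 ((hE.union hT).union (hav i2)))
  have b1 : ∀ x ∈ lev b, x ∉ L0 → i2 < x := fun x g1 g2 =>
    lt_of_not_ge fun g3 => hb' (Or.inr ⟨m2 b hb, x, g1, g2, g3⟩)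
  obtain ⟨a, ha, q, q1, q2, hq⟩ := key b hb (fun g => hb' (Or.inl (Or.inl g)))
    ((((Finset.univ : Finset (Fin n)) ×ˢ (c b).2).filter
      fun t => t.2.1 = (e a0 t.1).1 ∧ t.2.2.2.2 ∉ L0).toList.map
        fun t => (t.1, X t.2.2.1, t.2.2.2.1)) (by
      simp only [List.mem_map, Finset.mem_toList, Finset.mem_filter, Finset.mem_product]
      rintro _ ⟨⟨v, y⟩, ⟨⟨-, g1⟩, g2, g3⟩, rfl⟩
      obtain ⟨g4, g5⟩ := (h b (m0 b hb)).2 y g1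
      exact ⟨hX _, g4, (g2 ▸ g5 :).trans ((e3 b hb v).dec _ _
        ((hi2 i (Or.inl rfl)).trans (b1 _ (l2 b y g1) g3)).le)⟩)
  have ha5 := sT ha
  have hne : a ≠ b := fun g => hb' (Or.inl (Or.inr (g ▸ ha)))
  have hV : QV U Z X q ((c a).1 ∪ (c b).1, (c a).2 ∪ (c b).2) :=
    ⟨fun x hx => (Finset.mem_union.1 hx).elim (((h a (m0 a ha5)).mono q1).1 x)
      (((h b (m0 b hb)).mono q2).1 x), fun x hx => (Finset.mem_union.1 hx).elim
      (((h a (m0 a ha5)).mono q1).2 x) (((h b (m0 b hb)).mono q2).2 x)⟩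
  have old : ∀ a ∈ I5, ∀ b ∈ I5, a ≠ b → ∀ x ∈ (c a).1, x ∉ (c b).1 → ∀ y ∈ (c b).2, y.1 = x.1 →
      x.1 ∈ J0 ∧ x.2.1 ∉ L0 := fun a ha b hb hne x g1 g2 y g3 g4 => by
    have g5 := hJ a (s2 (m2 a ha)) b (s2 (m2 b hb)) hne x.1
      (Finset.mem_union_left _ (Finset.mem_image_of_mem _ g1))
      (Finset.mem_union_right _ (g4 ▸ Finset.mem_image_of_mem _ g3))
    refine ⟨g5, fun g6 => g2 ?_⟩
    exact (Set.ext_iff.1 ((s5 ha).2.trans (s5 hb).2.symm) x).1 ⟨g1, g5, g6⟩ |>.1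
  refine ⟨a, m0 a ha5, b, m0 b hb, hne, q, _, ⟨q1, hV, Finset.subset_union_left,
    Finset.subset_union_left, fun x g1 g2 y g3 g4 g5 => ?_⟩, q2, hV, Finset.subset_union_right,
    Finset.subset_union_right, fun x g1 g2 y g3 g4 g5 => Or.inr ?_⟩
  · have g6 := (Finset.mem_union.1 g1).resolve_left g2
    exact absurd (((hi2 _ (Or.inr (Set.mem_biUnion ha (l2 a y g3)))).trans
      (b1 _ (l1 b x g6) (old b hb a ha5 hne.symm x g6 g2 y g3 g4).2)).trans g5) (lt_irrefl _)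
  · have g6 := (Finset.mem_union.1 g1).resolve_right g2
    have g7 := old a ha5 b hb hne x g6 g2 y g3 g4
    obtain ⟨v, rfl⟩ := ((he a ha5).1 x).1 (Finset.mem_filter.2 ⟨g6, g7⟩)
    have g8 : y.2.2.2 ∉ L0 := fun g => (s5 ha5).1.2
      ⟨m2 a ha5, _, l1 a _ g6, g7.2, (g5.trans (hi0 _ g)).le⟩
    rw [e2 a ha5 v] at g4 ⊢
    exact hq (v, X y.2.1, y.2.2.1) (List.mem_map.2 ⟨(v, y), Finset.mem_toList.2
      (Finset.mem_filter.2 ⟨Finset.mem_product.2 ⟨Finset.mem_univ _, g3⟩, g4, g8⟩), rfl⟩)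

end main

end Pool.Agent.P.MP_0d6be8_lc.MQ
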