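import Pool.Agent.P.MP_0d6be8_lc.NKIter
import Pool.Agent.P.MP_0d6be8_lc.MQ
import Pool.Agent.P.MP_0d6be8_lc.FDefs
import Pool.Agent.P.MP_0d6be8_lc.NKGMA

set_option autoImplicit false

/-! Ground forms of the principles, for an arbitrary preorder. -/

open Pool.Agent.Lib.PosetForcing

namespace Pool.Agent.P.MP_0d6be8_lc

open NKIter MQ

variable (P : Type 1) [Preorder P]

/-- Ground form of `PL`. -/
def GPL : Prop :=
  ∀ (p0 : P) (X : O → P → ℕ → Prop) (T : O → O → P → ℕ → Prop) (Z : O → O → ℕ → P → ℕ → Prop)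
    (F : O → O), (∀ x, Mon (X x)) → (∀ j x, Mon (T j x)) → (∀ j x k, Mon (Z j x k)) →
    (∀ j x y, y < x → Sub p0 (T j x) (T j y)) →
    (∀ j e, Mon e → ∀ q ≤ p0, ∃ r ≤ q, ∃ x, Sub r (T j x) e ∨ Dis r (T j x) e) →
    (∀ j x k, Inf p0 (Z j x k) ∧ Sub p0 (Z j x k) (T j x)) →
    ∃ g : O, 0 < g ∧ (∀ a < g, F a < g) ∧
      (∀ f : ℕ → O, (∀ n, f n < g) → ∃ d < g, ∀ n, f n < d) ∧
      ∀ j < g, ∀ e, Mon e → ∀ p ≤ p0,
        (∀ x, ∀ q ≤ p, ∃ r ≤ q, ∃ k, Sub r (Z j x k) e ∨ Dis r (Z j x k) e) →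
        ∃ q ≤ p, ∃ d < g,
          (∀ x < g, ∀ r ≤ q, Inf r (X x) → Sub r (X x) (T j d) → ¬ Sub r (X x) e) ∨
          (∀ x < g, ∀ r ≤ q, Inf r (X x) → Sub r (X x) (T j d) → ¬ Dis r (X x) e)

/-- What the iteration provides. -/
structure GP : Prop where
  ccc : CCC P
  card : Cardinal.mk P ≤ Cardinal.univ.{0, 1}
  gma : GMA P
  gpl : GPL P

end Pool.Agent.P.MP_0d6be8_lc
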