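import Pool.Agent.P.MP_0d6be8_lc.MQ

set_option autoImplicit false

/-! The Luzin property of the generic set of items, in terms of conditions. -/

open Pool.Agent.Lib.PosetForcing

namespace Pool.Agent.P.MP_0d6be8_lc.MQ

universe u

variable {D : Type u} [Preorder D]

theorem exists_large (hD : CCC D) {ι : Type*} {I : Set ι} (hI : ¬ I.Countable) (p : ι → D) :
    ∃ i ∈ I, ∀ s ≤ p i, ¬ {j | j ∈ I ∧ ∃ r, r ≤ s ∧ r ≤ p j}.Countable := by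
  obtain ⟨A, h1, h2, h3⟩ := hD.exists_antichain {s | {j | j ∈ I ∧ ∃ r, r ≤ s ∧ r ≤ p j}.Countable}
  obtain ⟨i, hi, hi'⟩ := nonempty_of_not_countable
    (not_countable_diff hI (h2.biUnion fun s hs => h1 hs))
  refine ⟨i, hi, fun s hs hc => ?_⟩
  obtain ⟨q, hq, t, t1, t2⟩ := h3 s hc
  exact hi' (Set.mem_biUnion hq ⟨hi, t, t1, t2.trans hs⟩)

variable {W : Type*} [LinearOrder W] [Uncountable W]

/-- below some member of an uncountable family, infinitely many members with indices below a fixed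
bound are forced into the generic filter -/
theorem exists_bound (hD : CCC D) (hW : ∀ i : W, (Set.Iic i).Countable) {I : Set W}
    (hI : ¬ I.Countable) (p : W → D) : ∃ i ∈ I, ∃ b, ∀ s ≤ p i, ∀ F : Set W, F.Finite →
      ∃ j ∈ I, j ∉ F ∧ j < b ∧ ∃ r, r ≤ s ∧ r ≤ p j := by
  obtain ⟨i, hi, h⟩ := exists_large hD hI p
  have h1 : ∀ a : W, ∃ b, ∀ s ≤ p i, ∃ j ∈ I, a < j ∧ j < b ∧ ∃ r, r ≤ s ∧ r ≤ p j := fun a => by
    obtain ⟨A, a1, a2, a3⟩ := hD.exists_antichain {t | ∃ j, j ∈ I ∧ a < j ∧ t ≤ p j}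
    have : Nonempty W := inferInstance
    choose! w hw using a1
    obtain ⟨b, hb⟩ := exists_above hW (a2.image fun t => w (a := t))
    refine ⟨b, fun s hs => ?_⟩
    obtain ⟨j, ⟨j1, r, r1, r2⟩, j2⟩ := nonempty_of_not_countable (not_countable_diff (h s hs) (hW a))
    obtain ⟨t, ht, v, v1, v2⟩ := a3 r ⟨j, j1, lt_of_not_ge j2, r2⟩
    exact ⟨_, (hw ht).1, (hw ht).2.1, hb _ ⟨t, ht, rfl⟩, v, v2.trans r1, v1.trans (hw ht).2.2⟩
  choose f hf using h1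
  obtain ⟨b, hb⟩ := exists_above hW (Set.countable_range fun n => f^[n] i)
  refine ⟨i, hi, b, fun s hs F hF => ?_⟩
  choose j j1 j2 j3 j4 using fun n => hf (f^[n] i) s hs
  have hj : StrictMono j := strictMono_nat_of_lt_succ fun n =>
    (j3 n).trans (Function.iterate_succ_apply' f n i ▸ j2 (n + 1))
  obtain ⟨_, ⟨n, rfl⟩, hn⟩ := (Set.infinite_range_of_injective hj.injective).exists_notMem_finite hF
  exact ⟨j n, j1 n, hn, (j3 n).trans (hb _ ⟨n + 1, Function.iterate_succ_apply' f n i⟩), j4 n⟩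

/-- `M p i k m` reads: `p` puts the item `(i, k, m)` into the generic set -/
theorem luz (hD : CCC D) (hW : ∀ i : W, (Set.Iic i).Countable) {p0 : D}
    {U : W → D → ℕ → Prop} {Z : W → ℕ → D → ℕ → Prop} (hZ : ∀ i k, Mon (Z i k))
    {WW : Set (D → ℕ → Prop)} (hWW : ∀ Y ∈ WW, Mon Y) {M : D → W → ℕ → ℕ → Prop}
    (hM : ∀ p q i k m, q ≤ p → M p i k m → M q i k m)
    (h1 : ∀ i k, ∀ q ≤ p0, ∃ r ≤ q, ∃ m, M r i k m)
    (h2 : ∀ Y ∈ WW, ∀ q ≤ p0, ∀ b, Inf q Y → Sub q Y (U b) → ∀ n, ∃ r ≤ q,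
      ∃ F : Set (W × ℕ × ℕ), F.Finite ∧ ∀ i k m, (i, k, m) ∉ F → i < b → m ≤ n → ∀ s ≤ r,
        M s i k m → ∃ t ≤ s, ∃ d, n ≤ d ∧ Z i k t d ∧ Y t d)
    {e : D → ℕ → Prop} {q : D} (hq : q ≤ p0)
    (he : ∀ i, ∀ r ≤ q, ∃ s ≤ r, ∃ k, Sub s (Z i k) e ∨ Dis s (Z i k) e) :
    ∃ r ≤ q, ∃ b, (∀ s ≤ r, ∀ Y ∈ WW, Inf s Y → Sub s Y (U b) → ¬ Dis s Y e) ∨
      ∀ s ≤ r, ∀ Y ∈ WW, Inf s Y → Sub s Y (U b) → ¬ Sub s Y e := by
  have h3 : ∀ i, ∃ (c : Bool × ℕ × ℕ × ℕ) (r : D), r ≤ q ∧ M r i c.2.1 c.2.2.1 ∧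
      ∀ d, c.2.2.2 ≤ d → ∀ s ≤ r, Z i c.2.1 s d →
        (c.1 = true → ∃ t ≤ s, e t d) ∧ (c.1 = false → ¬ e s d) := fun i => by
    obtain ⟨s, hs, k, hk⟩ := he i q le_rfl
    obtain ⟨s1, g1, m, hm⟩ := h1 i k s (hs.trans hq)
    rcases hk with hk | hk <;> obtain ⟨r, hr, N, hN⟩ := hk s1 g1
    · exact ⟨(true, k, m, N), r, (hr.trans g1).trans hs, hM _ _ _ _ _ hr hm,
        fun d hd t ht hz => ⟨fun _ => hN d hd t ht hz, fun h => absurd h (by simp)⟩⟩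
    · exact ⟨(false, k, m, N), r, (hr.trans g1).trans hs, hM _ _ _ _ _ hr hm,
        fun d hd t ht hz => ⟨fun h => absurd h (by simp), fun _ => hN d hd t ht hz⟩⟩
  choose c p p1 p2 p3 using h3
  obtain ⟨⟨σ, k, m, N⟩, hI⟩ := exists_fiber c (Set.not_countable_univ (α := W))
  obtain ⟨i, -, b, hb⟩ := exists_bound hD hW hI p
  have key : ∀ s ≤ p i, ∀ Y ∈ WW, Inf s Y → Sub s Y (U b) → ∀ n, ∃ t ≤ s, ∃ d, n ≤ d ∧ Y t d ∧
      (σ = true → ∃ t' ≤ t, e t' d) ∧ (σ = false → ∀ t' ≤ t, ¬ e t' d) := fun s hs Y hY y1 y2 n => by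
    obtain ⟨r, hr, F, hF, h⟩ := h2 Y hY s ((hs.trans (p1 i)).trans hq) b y1 y2 (max n (max m N))
    obtain ⟨j, ⟨-, j1⟩, j2, j3, v, v1, v2⟩ := hb r (hr.trans hs) _ (hF.image Prod.fst)
    have k2 := p2 j
    have k3 := p3 j
    rw [j1] at k2 k3
    obtain ⟨t, ht, d, hd, z1, z2⟩ := h j k m (fun g => j2 ⟨_, g, rfl⟩) j3
      (le_max_of_le_right (le_max_left _ _)) v v1 (hM _ _ _ _ _ v2 k2)
    have hN : N ≤ d := le_of_max_le_right (le_of_max_le_right hd)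
    exact ⟨t, (ht.trans v1).trans hr, d, le_of_max_le_left hd, z2, (k3 d hN t (ht.trans v2) z1).1,
      fun g t' ht' => (k3 d hN t' (ht'.trans (ht.trans v2)) (hZ _ _ _ _ _ ht' z1)).2 g⟩
  refine ⟨p i, p1 i, b, ?_⟩
  cases σ
  · refine Or.inr fun s hs Y hY y1 y2 y3 => ?_
    obtain ⟨r, hr, n, hn⟩ := y3 s le_rfl
    obtain ⟨t, ht, d, hd, z1, -, z2⟩ := key r (hr.trans hs) Y hY (y1.mono hr) (y2.mono hr) n
    obtain ⟨t', ht', z3⟩ := hn d hd t ht z1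
    exact z2 rfl t' ht' z3
  · refine Or.inl fun s hs Y hY y1 y2 y3 => ?_
    obtain ⟨r, hr, n, hn⟩ := y3 s le_rfl
    obtain ⟨t, ht, d, hd, z1, z2, -⟩ := key r (hr.trans hs) Y hY (y1.mono hr) (y2.mono hr) n
    obtain ⟨t', ht', z3⟩ := z2 rfl
    exact hn d hd t' (ht'.trans ht) (hWW Y hY _ _ _ ht' z1) z3

end Pool.Agent.P.MP_0d6be8_lc.MQ
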