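import Pool.Agent.P.MP_0d6be8_lc.NKStep
import Pool.Agent.P.MP_0d6be8_lc.GDefs
import Pool.Agent.P.MP_0d6be8_lc.ML

set_option autoImplicit false

/-! The ground form of the principle `PL` for the fixed iteration. -/

open Pool.Agent.Lib.PosetForcing

namespace Pool.Agent.P.MP_0d6be8_lc.NKStep

open NKIter MQ

theorem exists_bd {ι : Type*} [Small.{0} ι] (f : ι → O) : ∃ b, ∀ i, f i < b := by
  obtain ⟨a, ha⟩ := Ordinal.bddAbove_of_small (s := Set.range f)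
  exact ⟨Order.succ a, fun i => Order.lt_succ_iff.2 (ha ⟨i, rfl⟩)⟩

theorem exists_closure (f : O → O) : ∃ (g : O) (γ : W1 → O), StrictMono γ ∧ (∀ i, γ i < g) ∧
    (∀ a < g, ∃ i, a < γ i) ∧ ∀ i, f (γ i) < g := by
  have h0 : ∀ (i : W1) (h : ∀ j, j < i → O), ∃ b, ∀ j (e : j < i), h j e < b ∧ f (h j e) < b :=
    fun i h => by
      obtain ⟨b, hb⟩ := exists_bd fun j : Set.Iio i => max (h j.1 j.2) (f (h j.1 j.2))
      exact ⟨b, fun j e => max_lt_iff.1 (hb ⟨j, e⟩)⟩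
  choose b hb using h0
  let γ : W1 → O := (wellFounded_lt (α := W1)).fix b
  have h1 : ∀ i j, j < i → γ j < γ i ∧ f (γ j) < γ i := fun i j e => by
    have : γ i = b i fun j _ => γ j := WellFounded.fix_eq _ _ _
    rw [this]
    exact hb i (fun j _ => γ j) j e
  have h2 : ∀ i : W1, ∃ j, i < j := fun i =>
    (exists_gt_of_countable (Set.countable_singleton i)).imp fun _ h => h i rfl
  have h3 : ∀ i, γ i ≤ ⨆ i, γ i := Ordinal.le_iSup γ
  exact ⟨⨆ i, γ i, γ, fun j i e => (h1 i j e).1,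
    fun i => let ⟨j, e⟩ := h2 i; (h1 j i e).1.trans_le (h3 j),
    fun a ha => Ordinal.lt_iSup_iff.1 ha,
    fun i => let ⟨j, e⟩ := h2 i; (h1 j i e).2.trans_le (h3 j)⟩

theorem emb_proj_le {g : O} {p q : PP} (h : p ≤ q) (hq : Sup g q.1) : emb (proj g p) ≤ q :=
  le.restr_le h hq

/-- the real `x` belongs to the stage `g` -/
def At (g : O) (x : PP → ℕ → Prop) : Prop := ∀ p d, x p d → ∃ r ≤ p, x (emb (proj g r)) d

section
variable {g a : O} {x y z : PP → ℕ → Prop} {q : PP}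

theorem At.mono (hx : Mon x) (h : At a x) (e : a ≤ g) : At g x := fun p d h1 => by
  obtain ⟨r, hr, h2⟩ := h p d h1
  exact ⟨r, hr, hx _ _ _ (emb_proj_le (le_emb_proj a r) ((sup_emb _).mono e)) h2⟩

theorem exists_at (hx : Mon x) : ∃ a, At a x := by
  choose A h1 h2 h3 using fun d => ccc_PP.exists_antichain {p | x p d}
  have := (Set.countable_iUnion h2).to_subtype
  obtain ⟨a, ha⟩ := exists_sup_small fun p : ⋃ d, A d => p.1.1
  refine ⟨a, fun p d h => ?_⟩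
  obtain ⟨s, hs, r, r1, r2⟩ := h3 d p h
  exact ⟨r, r2, hx _ _ _ (emb_proj_le r1 (ha ⟨s, Set.mem_iUnion.2 ⟨d, hs⟩⟩)) (h1 d hs)⟩

theorem At.lower (hx : Mon x) (h : At g x) (hg : Order.IsSuccLimit g)
    (hb : ∀ S : Set O, S.Countable → (∀ a ∈ S, a < g) → ∃ d < g, ∀ a ∈ S, a < d) :
    ∃ a < g, At a x := by
  choose A h1 h2 h3 using fun d => ccc_PP.exists_antichain {p | Sup g p.1 ∧ x p d}
  choose! b b1 b2 using fun (p : PP) (hp : Sup g p.1) => exists_lt_of_finite p.1.fin hg hp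
  obtain ⟨a, a1, a2⟩ := hb _ ((Set.countable_iUnion h2).image b) (by
    rintro _ ⟨p, hp, rfl⟩
    obtain ⟨d, hd⟩ := Set.mem_iUnion.1 hp
    exact b1 p (h1 d hd).1)
  refine ⟨a, a1, fun p d hp => ?_⟩
  obtain ⟨r, hr, g1⟩ := h p d hp
  obtain ⟨s, hs, t, t1, t2⟩ := h3 d _ ⟨sup_emb _, g1⟩
  obtain ⟨v, v1, v2⟩ := exists_amalg r (proj_le_iff.2 t2)
  have v3 : v ≤ s := (le_emb_proj g v).trans (v2 ▸ emb_proj_le t1 (h1 d hs).1)
  exact ⟨v, v1.trans hr, hx _ _ _ (emb_proj_le v3 fun γ hγ => (b2 s (h1 d hs).1 γ hγ).trans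
    (a2 _ ⟨s, Set.mem_iUnion.2 ⟨d, hs⟩, rfl⟩)) (h1 d hs).2⟩

theorem mon_emb (hx : Mon x) : Mon fun s : Sg g => x (emb s) :=
  fun _ _ _ h => hx _ _ _ (emb_le_emb.2 h)

theorem mon_proj {w : Sg g → ℕ → Prop} (hw : Mon w) : Mon fun p => w (proj g p) :=
  fun _ _ _ h => hw _ _ _ (proj_mono g h)

theorem at_proj (w : Sg g → ℕ → Prop) : At g fun p => w (proj g p) :=
  fun p d h => ⟨p, le_rfl, by simpa only [proj_emb] using h⟩

theorem inf_proj (ha : At g x) (h : Inf q x) : Inf (proj g q) fun s => x (emb s) :=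
  fun q' hq n => by
    obtain ⟨s, hs, rfl⟩ := exists_amalg q hq
    obtain ⟨r, hr, d, hd, h1⟩ := h s hs n
    obtain ⟨t, ht, h2⟩ := ha r d h1
    exact ⟨_, proj_mono g (ht.trans hr), d, hd, h2⟩

theorem sub_proj (hx : Mon x) (ha : At g y) (h : Sub q x y) :
    Sub (proj g q) (fun s => x (emb s)) fun s => y (emb s) := fun q' hq => by
  obtain ⟨s, hs, rfl⟩ := exists_amalg q hq
  obtain ⟨r, hr, N, hN⟩ := h s hs
  refine ⟨_, proj_mono g hr, N, fun d hd s1 h1 h2 => ?_⟩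
  obtain ⟨s2, h3, rfl⟩ := exists_amalg r h1
  obtain ⟨t, ht, h4⟩ := hN d hd s2 h3 (hx _ _ _ (le_emb_proj g s2) h2)
  obtain ⟨t', ht', h5⟩ := ha t d h4
  exact ⟨_, proj_mono g (ht'.trans ht), h5⟩

theorem dis_proj (hx : Mon x) (hy : Mon y) (h : Dis q x y) :
    Dis (proj g q) (fun s => x (emb s)) fun s => y (emb s) := fun q' hq => by
  obtain ⟨s, hs, rfl⟩ := exists_amalg q hq
  obtain ⟨r, hr, N, hN⟩ := h s hs
  refine ⟨_, proj_mono g hr, N, fun d hd s1 h1 h2 h3 => ?_⟩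
  obtain ⟨s2, h4, rfl⟩ := exists_amalg r h1
  exact hN d hd s2 h4 (hx _ _ _ (le_emb_proj g s2) h2) (hy _ _ _ (le_emb_proj g s2) h3)

theorem sub_refl : Sub q x x := fun r _ => ⟨r, le_rfl, 0, fun _ _ s _ h => ⟨s, le_rfl, h⟩⟩

theorem sub_dis (hz : Mon z) (h : Sub q x y) (h' : Dis q y z) : Dis q x z := fun r hr => by
  obtain ⟨r1, h1, N, hN⟩ := h r hr
  obtain ⟨r2, h2, N', hN'⟩ := h' r1 (h1.trans hr)
  refine ⟨r2, h2.trans h1, max N N', fun d hd s hs g1 g2 => ?_⟩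
  obtain ⟨t, ht, g3⟩ := hN d (le_of_max_le_left hd) s (hs.trans h2) g1
  exact hN' d (le_of_max_le_right hd) t (ht.trans hs) g3 (hz _ _ _ ht g2)

/-- the heights deciding the reals of a stage are bounded -/
theorem exists_height {p0 : PP} {T : O → PP → ℕ → Prop} (hT : ∀ x, Mon (T x))
    (h : ∀ e, Mon e → ∀ q ≤ p0, ∃ r ≤ q, ∃ x, Sub r (T x) e ∨ Dis r (T x) e) (a : O) :
    ∃ b, ∀ e, Mon e → At a e → ∀ q ≤ p0, ∃ r ≤ q, ∃ x < b, Sub r (T x) e ∨ Dis r (T x) e := by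
  choose A h1 h2 h3 using fun w : Sg a → ℕ → Prop => ccc_PP.exists_antichain
    {r | ∃ x, Sub r (T x) (fun p => w (proj a p)) ∨ Dis r (T x) fun p => w (proj a p)}
  choose f hf using h1
  have : ∀ w, Countable (A w) := fun w => (h2 w).to_subtype
  obtain ⟨b, hb⟩ := exists_bd fun z : Σ w, A w => f z.1 z.2.2
  refine ⟨b, fun e he ha q hq => ?_⟩
  obtain ⟨r, hr, g1⟩ := h _ (mon_proj (g := a) (mon_emb he)) q hq
  obtain ⟨s, hs, t, t1, t2⟩ := h3 (fun s => e (emb s)) r g1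
  refine ⟨t, t2.trans hr, _, hb ⟨_, s, hs⟩, (hf _ hs).imp (fun g2 => (g2.mono t1).trans
    fun v _ => ⟨v, le_rfl, 0, fun d _ s _ g3 => ⟨s, le_rfl, he _ _ _ (le_emb_proj a s) g3⟩⟩)
    fun g2 v hv => ?_⟩
  obtain ⟨v1, g3, N, hN⟩ := g2 v (hv.trans t1)
  refine ⟨v1, g3, N, fun d hd s1 g4 g5 g6 => ?_⟩
  obtain ⟨s2, g7, g8⟩ := ha s1 d g6
  exact hN d hd s2 (g7.trans g4) (hT _ _ _ _ g7 g5) g8

theorem exists_nm (g : O) (V : Lab → PP → ℕ → Prop) (hV : ∀ z, Mon (V z)) :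
    ∃ j, ∀ z, nm (leA R g) j z = fun s => V z (emb s) := by
  obtain ⟨j, h1, h2⟩ := exists_canon (le := leA R g)
    {z | ∃ h : leA R g z.1 z.1, V z.2.1 (emb (g := g) ⟨z.1, h⟩) z.2.2}
    (small_of_injective (β := Sg g × Lab × ℕ) (f := fun z => (⟨z.1.1, z.2.1⟩, z.1.2))
      fun _ _ e => Subtype.ext (Prod.ext (congrArg (·.1.1) e) (congrArg (·.2) e)))
    fun _ h => h.1
  refine ⟨j, fun z => funext fun s => funext fun d => propext ⟨?_, fun h => ?_⟩⟩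
  · rintro ⟨-, r', g1, g2⟩
    rw [h2] at g2
    exact hV _ _ _ _ (leA_le g1) g2.2
  · exact ⟨h1, s.1, s.2, h2 ▸ ⟨s.2, h⟩⟩

theorem rl_of_le (hg : Order.IsSuccLimit g) {p : PP} (h : q ≤ p) :
    RL (leA R g) (proj g q).1 (q.1.f g) (p.1.f g) := R_limit hg ▸ h g

theorem exists_val (hg : Order.IsSuccLimit g) {c : Cd O W1 O}
    (h : QR (UU (leA R g)) (ZZ (leA R g)) (XX (leA R g)) (proj g q) c (vl (q.1.f g))) :
    ∃ r ≤ q, vl (r.1.f g) = c := by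
  have h1 : le (q.1.upd g (some (Sum.inr c))) q.1 := upd_le q.2
    (R_limit hg ▸ RL.of_qr (r := proj g q) (isL_inr c) (RL.qr (rl_of_le hg le_rfl)).1 h)
  exact ⟨⟨_, h1.left⟩, h1, by simp only [upd_self, vl]⟩

end

theorem gpl_PP : GPL PP := by
  intro p0 X T Z F hX hT hZ hdec hult hinf
  have h0 : ∀ a : O, ∃ b, (∀ x < a, F x < b ∧ At b (X x)) ∧
      (∀ j < a, ∀ x < a, At b (T j x) ∧ ∀ k, At b (Z j x k)) ∧ ∀ j < a, ∀ e, Mon e → At a e →
        ∀ q ≤ p0, ∃ r ≤ q, ∃ x < b, Sub r (T j x) e ∨ Dis r (T j x) e := fun a => by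
    choose f1 h1 using fun x => exists_at (hX x)
    choose f2 h2 using fun j x => exists_at (hT j x)
    choose f3 h3 using fun j x k => exists_at (hZ j x k)
    choose f4 h4 using fun j => exists_height (hT j) (hult j) a
    obtain ⟨b, hb⟩ := exists_bd fun z : Set.Iio a × Set.Iio a × ℕ =>
      max (max (max (F z.1) (f1 z.1)) (f4 z.1)) (max (f2 z.1 z.2.1) (f3 z.1 z.2.1 z.2.2))
    simp only [max_lt_iff] at hb
    refine ⟨b, fun x hx => ?_, fun j hj x hx => ⟨?_, fun k => ?_⟩, fun j hj e he ha q hq => ?_⟩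
    · have := (hb (⟨x, hx⟩, ⟨x, hx⟩, 0)).1.1
      exact ⟨this.1, (h1 x).mono (hX x) this.2.le⟩
    · exact (h2 j x).mono (hT j x) (hb (⟨j, hj⟩, ⟨x, hx⟩, 0)).2.1.le
    · exact (h3 j x k).mono (hZ j x k) (hb (⟨j, hj⟩, ⟨x, hx⟩, k)).2.2.le
    · obtain ⟨r, hr, x, g1, g2⟩ := h4 j e he ha q hq
      exact ⟨r, hr, x, g1.trans (hb (⟨j, hj⟩, ⟨j, hj⟩, 0)).1.2, g2⟩
  choose f f1 f2 f3 using h0
  obtain ⟨g, γ, γ1, γ2, γ3, γ4⟩ := exists_closure f
  have hb : ∀ S : Set O, S.Countable → (∀ a ∈ S, a < g) → ∃ d < g, ∀ a ∈ S, a < d :=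
    fun S h1 h2 => by
      choose! i hi using γ3
      obtain ⟨b, hb⟩ := exists_gt_of_countable (h1.image i)
      exact ⟨γ b, γ2 b, fun a ha => (hi a (h2 a ha)).trans (γ1 (hb _ ⟨a, ha, rfl⟩))⟩
  have hpos : 0 < g := (γ2 (Classical.arbitrary _)).pos
  have hg : Order.IsSuccLimit g := Ordinal.isSuccLimit_iff.2 ⟨hpos.ne',
    Order.isSuccPrelimit_of_succ_lt fun a ha =>
      let ⟨i, hi⟩ := γ3 a ha; (Order.succ_le_of_lt hi).trans_lt (γ2 i)⟩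
  have two : ∀ a < g, ∀ b < g, ∃ i, a < γ i ∧ b < γ i := fun a ha b hb =>
    (γ3 _ (max_lt ha hb)).imp fun _ => max_lt_iff.1
  refine ⟨g, hpos, fun a ha => let ⟨i, hi⟩ := γ3 a ha; (f1 _ a hi).1.trans (γ4 i), fun s hs => ?_,
    fun j hj e he p hp hd => ?_⟩
  · obtain ⟨d, d1, d2⟩ := hb _ (Set.countable_range s) (Set.forall_mem_range.2 hs)
    exact ⟨d, d1, fun n => d2 _ ⟨n, rfl⟩⟩
  have aT : ∀ i, At g (T j (γ i)) ∧ ∀ k, At g (Z j (γ i) k) := fun i =>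
    let ⟨i', h1, h2⟩ := two j hj _ (γ2 i)
    ⟨(f2 _ j h1 _ h2).1.mono (hT _ _) (γ4 i').le,
      fun k => ((f2 _ j h1 _ h2).2 k).mono (hZ _ _ _) (γ4 i').le⟩
  have hle : ∀ x y, y ≤ x → Sub p0 (T j x) (T j y) := fun x y h =>
    h.lt_or_eq.elim (hdec j x y) fun h => h ▸ sub_refl
  obtain ⟨c, hc⟩ := exists_nm g (fun z => z.2.elim (T j (γ z.1)) (Z j (γ z.1))) fun z => by
    rcases z with ⟨i, _ | k⟩
    exacts [hT _ _, hZ _ _ _]
  have cU : UU (leA R g) c = fun i s => T j (γ i) (emb s) := funext fun i => hc (i, none)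
  have cZ : ZZ (leA R g) c = fun i k s => Z j (γ i) k (emb s) :=
    funext fun i => funext fun k => hc (i, some k)
  have job : ∀ q ≤ p0, Job (proj g q) (UU (leA R g) c) (ZZ (leA R g) c) := fun q hq => by
    rw [cU, cZ]
    refine ⟨fun i i' h => sub_proj (hT _ _) (aT i).1 ((hle _ _ (γ1.monotone h)).mono hq),
      fun y hy q' hq' => ?_, fun i k => inf_proj ((aT i).2 k) ((hinf _ _ _).1.mono hq),
      fun i k => sub_proj (hZ _ _ _) (aT i).1 ((hinf _ _ _).2.mono hq)⟩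
    obtain ⟨s, hs, rfl⟩ := exists_amalg q hq'
    obtain ⟨a, a1, a2⟩ := (at_proj y).lower (mon_proj hy) hg hb
    obtain ⟨i, i1, i2⟩ := two j hj a a1
    obtain ⟨r, hr, x, x1, x2⟩ := f3 _ j i1 _ (mon_proj hy) (a2.mono (mon_proj hy) i2.le) s
      (hs.trans hq)
    obtain ⟨i', x3⟩ := γ3 x (x1.trans (γ4 i))
    have x4 := (hle _ _ x3.le).mono ((hr.trans hs).trans hq)
    refine ⟨_, proj_mono g hr, i', x2.imp (fun h => ?_) fun h => ?_⟩
    · simpa only [proj_emb] using sub_proj (hT _ _) (at_proj y) (x4.trans h)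
    · simpa only [proj_emb] using dis_proj (g := g) (hT _ _) (mon_proj hy) (sub_dis (mon_proj hy) x4 h)
  obtain ⟨r, hr, b, h⟩ := luz ccc_PP countable_Iic (p0 := p0) (U := fun i => T j (γ i))
    (Z := fun i => Z j (γ i)) (fun i k => hZ _ _ _) (WW := X '' Set.Iio g)
    (Set.forall_mem_image.2 fun x _ => hX x) (M := fun s i k m => (c, i, k, m) ∈ (vl (s.1.f g)).1)
    (fun _ _ _ _ _ h h' => (RL.qr (rl_of_le hg h)).2.2.2.1 h') (fun i k q hq => by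
      obtain ⟨m, c', g1, g2⟩ := (RL.qr (rl_of_le hg (le_refl q))).2.2.1.add_item (job q hq) i k
      obtain ⟨r, hr, rfl⟩ := exists_val hg g2
      exact ⟨r, hr, m, g1⟩) (Set.forall_mem_image.2 fun x hx q hq b y1 y2 n => by
      obtain ⟨ξ, hξ⟩ := exists_nm g (fun _ => X x) fun _ => hX x
      have cX : XX (leA R g) ξ = fun s => X x (emb s) := hξ lab0
      obtain ⟨i, hi⟩ := γ3 x hx
      obtain ⟨c', g1, g2⟩ := (RL.qr (rl_of_le hg (le_refl q))).2.2.1.add_prom (j := c) (ξ := ξ)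
        (i := b) (cX ▸ inf_proj ((f1 _ x hi).2.mono (hX x) (γ4 i).le) y1)
        (cX ▸ cU ▸ sub_proj (hX x) (aT b).1 y2) n
      obtain ⟨r, hr, rfl⟩ := exists_val hg g2
      refine ⟨r, hr, _, (vl (r.1.f g)).1.finite_toSet.image Prod.snd,
        fun i k m g3 g4 g5 s hs g6 => ⟨s, le_rfl, ?_⟩⟩
      obtain g7 | ⟨d, g7, g8, g9⟩ := (RL.qr (rl_of_le hg hs)).2.2.2.2.2 _ g6
        (fun h => g3 ⟨_, h, rfl⟩) _ g1 rfl g4
      · exact absurd g7 (not_lt.2 g5)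
      · rw [cZ] at g8
        rw [cX] at g9
        exact ⟨d, g7, hZ _ _ _ _ _ _ (le_emb_proj g s) g8, hX _ _ _ _ (le_emb_proj g s) g9⟩)
    hp fun i => hd (γ i)
  exact ⟨r, hr, γ b, γ2 b, h.symm.imp (fun h x hx s hs => h s hs _ ⟨x, hx, rfl⟩)
    fun h x hx s hs => h s hs _ ⟨x, hx, rfl⟩⟩

end Pool.Agent.P.MP_0d6be8_lc.NKStep
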