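import Pool.Agent.P.MP_0d6be8_lc.NKGMA
import Pool.Agent.P.MP_0d6be8_lc.FDefs

set_option autoImplicit false

/-! Pseudo-intersections of small centred families of names. -/

open Pool.Agent.Lib.PosetForcing

namespace Pool.Agent.P.MP_0d6be8_lc

variable {P : Type 1} [Preorder P]

/-- Mathias pairs: the stem grows inside the sets of the old side condition. -/
def nkpi_rho {Z : Type} (a : P → Z → ℕ → Prop) (r : P) (x y : Finset ℕ × Finset Z) : Prop :=
  y.1 ⊆ x.1 ∧ y.2 ⊆ x.2 ∧ ∀ n ∈ x.1, n ∉ y.1 → ∀ i ∈ y.2, Dn (fun s => a s i n) r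

theorem nkpi_refl {Z : Type} (a : P → Z → ℕ → Prop) (r : P) (x : Finset ℕ × Finset Z) :
    nkpi_rho a r x x := ⟨subset_rfl, subset_rfl, fun _ h h' => absurd h h'⟩

theorem nkpi_task (hC : CCC P) (p0 : P) {Z : Type} (a : P → Z → ℕ → Prop) :
    Task p0 (nkpi_rho a) where
  mono r r' x y h h1 := ⟨h1.1, h1.2.1, fun n g1 g2 i g3 => (h1.2.2 n g1 g2 i g3).mono h⟩
  reg r x y h := by
    obtain ⟨s, -, hs⟩ := h r le_rfl
    exact ⟨hs.1, hs.2.1, fun n g1 g2 i g3 => Dn.dn fun q hq =>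
      (h q hq).imp fun t ht => ⟨ht.1, ht.2.2.2 n g1 g2 i g3⟩⟩
  trans r x y z _ h h' := ⟨h'.1.trans h.1, h'.2.1.trans h.2.1, fun n g1 g2 i g3 => by
    by_cases g : n ∈ y.1
    · exact h'.2.2 n g g2 i g3
    · exact h.2.2 n g1 g i (h'.2.1 g3)⟩
  left r x _ _ _ := nkpi_refl a r x
  ccc ι I hI p x _ := by
    classical
    obtain ⟨s, hs⟩ := exists_fiber (fun i => (x i).1) hI
    obtain ⟨i, hi, j, hj, hne, r, r1, r2⟩ := hC ι _ hs p
    exact ⟨i, hi.1, j, hj.1, hne, r, (s, (x i).2 ∪ (x j).2), r1, r2,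
      ⟨hi.2.le, Finset.subset_union_left, fun n g1 g2 => absurd (hi.2 ▸ g1) g2⟩,
      hj.2.le, Finset.subset_union_right, fun n g1 g2 => absurd (hj.2 ▸ g1) g2⟩

/-- Ground form: `a s i n` reads `s` forces `n ∈ A i`, and `y s n` reads `s` puts `n` into the
pseudo-intersection. -/
theorem pi_comb (hC : CCC P) (hG : GMA P) (p0 : P) {Z : Type 1} [Small.{0} Z]
    (a : P → Z → ℕ → Prop) (ha : ∀ s s' i n, s' ≤ s → a s i n → a s' i n)
    (hc : ∀ (F : Finset Z) (n : ℕ), ∀ q ≤ p0, ∃ r ≤ q, ∃ k, n ≤ k ∧ ∀ i ∈ F, a r i k) :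
    ∃ y : P → ℕ → Prop, (∀ s s' n, s' ≤ s → y s n → y s' n) ∧
      (∀ n, ∀ q ≤ p0, ∃ r ≤ q, ∃ k, n ≤ k ∧ y r k) ∧
      ∀ i, ∀ q ≤ p0, ∃ r ≤ q, ∃ n, ∀ k, n ≤ k → ∀ s ≤ r, y s k → Dn (fun t => a t i k) s := by
  classical
  let e := equivShrink.{0} Z
  let a' : P → Shrink.{0} Z → ℕ → Prop := fun s i n => a s (e.symm i) n
  obtain ⟨v, hv⟩ := hG p0 _ _ (nkpi_task hC p0 a')
  have h0 : ∀ q ≤ p0, ∃ s ≤ q, ∃ x, v s = some x := fun q hq => by
    rcases h : v q with _ | x
    · obtain ⟨s, hs, h1⟩ := hv.ext q hq q le_rfl (∅, ∅) (nkpi_refl _ _ _)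
        (fun x hx => by simp [h] at hx)
      exact ⟨s, hs, _, h1⟩
    · exact ⟨q, le_rfl, x, h⟩
  refine ⟨fun s n => ∃ x, v s = some x ∧ n ∈ x.1, ?_, fun n q hq => ?_, fun i q hq => ?_⟩
  · rintro s s' n h ⟨x, h1, h2⟩
    obtain ⟨x', h3, h4⟩ := hv.le s' s x h h1
    exact ⟨x', h3, h4.1 h2⟩
  · obtain ⟨s, hs, x, hx⟩ := h0 q hq
    obtain ⟨r, hr, k, hk, h1⟩ := hc (x.2.map e.symm.toEmbedding) n s (hs.trans hq)
    obtain ⟨t, ht, h2⟩ := hv.ext s (hs.trans hq) r hr (insert k x.1, x.2) (nkpi_refl _ _ _)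
      (fun x' hx' => by
        obtain rfl : x = x' := by simpa [hx] using hx'
        refine ⟨Finset.subset_insert _ _, subset_rfl, fun m g1 g2 i g3 u hu => ⟨u, le_rfl, ?_⟩⟩
        obtain rfl := (Finset.mem_insert.1 g1).resolve_right g2
        exact ha _ _ _ _ hu (h1 _ (Finset.mem_map_of_mem _ g3)))
    exact ⟨t, ht.trans hs, k, hk, _, h2, Finset.mem_insert_self _ _⟩
  · obtain ⟨s, hs, x, hx⟩ := h0 q hq
    obtain ⟨t, ht, h2⟩ := hv.ext s (hs.trans hq) s le_rfl (x.1, insert (e i) x.2) (nkpi_refl _ _ _)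
      (fun x' hx' => by
        obtain rfl : x = x' := by simpa [hx] using hx'
        exact ⟨subset_rfl, Finset.subset_insert _ _, fun m g1 g2 => absurd g1 g2⟩)
    refine ⟨t, ht.trans hs, x.1.sup id + 1, fun k hk u hu ⟨x1, h3, h4⟩ => ?_⟩
    obtain ⟨x', h5, h6⟩ := hv.le u t _ hu h2
    obtain rfl : x1 = x' := by simpa [h3] using h5
    have := h6.2.2 k h4 (fun h => by
      have := Finset.le_sup (f := id) h
      simp only [id] at this
      omega) (e i) (Finset.mem_insert_self _ _)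
    simpa only [a', e.symm_apply_apply] using this

instance nkpi_clopen_app2 (f a b d : Name P) :
    Clopen fun U : Gen P => App2 Mod.mem (f.val U) (a.val U) (b.val U) (d.val U) := by
  unfold App2; infer_instance

instance nkpi_clopen_infP (w : Name P) (A : ∀ U : Gen P, Mod U → Prop)
    [∀ a : Name P, Clopen fun U => A U (a.val U)] :
    Clopen fun U : Gen P => InfP Mod.mem (w.val U) (A U) := by
  unfold InfP; infer_instance

instance nkpi_clopen_subP (w : Name P) (A B : ∀ U : Gen P, Mod U → Prop)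
    [∀ a : Name P, Clopen fun U => A U (a.val U)] [∀ a : Name P, Clopen fun U => B U (a.val U)] :
    Clopen fun U : Gen P => SubP Mod.mem (w.val U) (A U) (B U) := by
  unfold SubP; infer_instance

variable [OrderTop P]

section bridge
variable {A B : ∀ U : Gen P, Mod U → Prop} [∀ a : Name P, Clopen fun U => A U (a.val U)]
  [∀ a : Name P, Clopen fun U => B U (a.val U)] {p : P}

theorem nkpi_infP : (Forces p fun U => InfP Mod.mem (omegaName.val U) (A U)) ↔
    ∀ n, ∀ q ≤ p, ∃ r ≤ q, ∃ k, n ≤ k ∧ Forces r fun U => A U ((natName k).val U) := by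
  refine ⟨fun h n q hq => ?_, fun h => forces_forall_mem_omega fun n q hq => ?_⟩
  · obtain ⟨m, hm⟩ := Forces.exists_name (Φ := fun U m => Mod.mem m (omegaName.val U) ∧
      ¬ Mod.mem m ((natName n).val U) ∧ A U m)
      ((h.mono hq).imp fun U h => h _ (natName_mem_omega n U))
    obtain ⟨r, hr, k, hk⟩ := Forces.exists_fam (hm.imp fun U h => h.1)
    have h1 := ((hm.mono hr).and hk).imp fun U h => h.2 ▸ h.1.2
    obtain ⟨U, hU⟩ := h1.exists
    exact ⟨r, hr, k.down, not_lt.1 fun h => hU.1 (natName_mem h U), h1.imp fun U h => h.2⟩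
  · obtain ⟨r, hr, k, hk, h1⟩ := h n q hq
    exact ⟨r, hr, h1.imp fun U h => ⟨_, natName_mem_omega k U,
      fun h' => absurd (natName_mem_iff.1 h') (not_lt.2 hk), h⟩⟩

theorem nkpi_subP : (Forces p fun U => SubP Mod.mem (omegaName.val U) (A U) (B U)) ↔
    ∀ q ≤ p, ∃ r ≤ q, ∃ n, ∀ k, n ≤ k →
      Forces r fun U => A U ((natName k).val U) → B U ((natName k).val U) := by
  refine ⟨fun h q hq => ?_, fun h => Forces.of_dn fun q hq => ?_⟩
  · obtain ⟨m, hm⟩ := Forces.exists_name (Φ := fun U n => Mod.mem n (omegaName.val U) ∧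
      ∀ m, Mod.mem m (omegaName.val U) → ¬ Mod.mem m n → A U m → B U m) (h.mono hq)
    obtain ⟨r, hr, n, hn⟩ := Forces.exists_fam (hm.imp fun U h => h.1)
    exact ⟨r, hr, n.down, fun k hk => ((hm.mono hr).and hn).imp fun U h =>
      h.1.2 _ (natName_mem_omega k U) fun h' =>
        absurd (natName_mem_iff.1 (h.2 ▸ h')) (not_lt.2 hk)⟩
  · obtain ⟨r, hr, n, h1⟩ := h q hq
    have : ∀ a : Name P, Clopen fun U => ¬ Mod.mem (a.val U) ((natName n).val U) →
        A U (a.val U) → B U (a.val U) := fun a =>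
      @clopen_imp _ _ _ _ (clopen_not _) (clopen_imp _ _)
    refine ⟨r, hr, (forces_forall_mem_omega (Φ := fun U m =>
      ¬ Mod.mem m ((natName n).val U) → A U m → B U m) fun k s hs => ⟨s, le_rfl, ?_⟩).imp
      fun U h => ⟨_, natName_mem_omega n U, h⟩⟩
    rcases lt_or_ge k n with h2 | h2
    · exact Forces.of_forall (fun U h => absurd (natName_mem h2 U) h) s
    · exact ((h1 k h2).mono hs).imp fun U h _ => h

end bridge

/-- The same with a name for the pseudo-intersection. -/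
theorem pi_name (hC : CCC P) (hG : GMA P) (p0 : P) {Z : Type 1} [Small.{0} Z]
    (A : Z → ∀ U : Gen P, Mod U → Prop) [∀ i, ∀ a : Name P, Clopen fun U => A i U (a.val U)]
    (hc : ∀ (F : Finset Z) (n : ℕ), ∀ q ≤ p0, ∃ r ≤ q, ∃ k, n ≤ k ∧ ∀ i ∈ F,
      Forces r fun U => A i U ((natName k).val U)) :
    ∃ Y : Name P, (∀ U, IsSub Mod.mem (Y.val U) (omegaName.val U)) ∧
      (Forces p0 fun U => InfP Mod.mem (omegaName.val U) fun m => Mod.mem m (Y.val U)) ∧
      ∀ i, Forces p0 fun U =>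
        SubP Mod.mem (omegaName.val U) (fun m => Mod.mem m (Y.val U)) (A i U) := by
  obtain ⟨y, h1, h2, h3⟩ := pi_comb hC hG p0
    (fun s i k => Forces s fun U => A i U ((natName k).val U))
    (fun _ _ _ _ h h' => h'.mono h) hc
  let Y : Name P := niceReal {z | y z.1 z.2.down}
  refine ⟨Y, forall_mem (b := Y) (Φ := fun U z => Mod.mem z (omegaName.val U))
    fun i q _ => ⟨q, le_rfl, Forces.of_forall (natName_mem_omega _) q⟩,
    (nkpi_infP (A := fun U m => Mod.mem m (Y.val U))).2 fun n q hq => ?_,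
    fun i => (nkpi_subP (A := fun U m => Mod.mem m (Y.val U))).2 fun q hq => ?_⟩
  · obtain ⟨r, hr, k, hk, h⟩ := h2 n q hq
    exact ⟨r, hr, k, hk, forces_el_mem (b := Y) ⟨(r, ⟨k⟩), h⟩ le_rfl⟩
  · obtain ⟨r, hr, n, h⟩ := h3 i q hq
    refine ⟨r, hr, n, fun k hk => forces_imp fun s hs g => ?_⟩
    obtain ⟨t, ht, ⟨⟨u, m⟩, hu⟩, g1, g2⟩ := g.exists_el
    obtain rfl : k = m.down := g2.natName_inj
    obtain ⟨t', ht', g3⟩ := h _ hk t (ht.trans hs) (h1 _ _ _ g1 hu) t le_rfl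
    exact ⟨t', ht'.trans ht, g3⟩

/-- Directed families are centred. -/
theorem pi_directed (hC : CCC P) (hG : GMA P) (p0 : P) {Z : Type 1} [Small.{0} Z]
    (A : Z → ∀ U : Gen P, Mod U → Prop) [∀ i, ∀ a : Name P, Clopen fun U => A i U (a.val U)]
    (hi : ∀ i, Forces p0 fun U => InfP Mod.mem (omegaName.val U) (A i U))
    (hd : ∀ i j, ∀ q ≤ p0, ∃ r ≤ q, ∃ c, Forces r fun U =>
      SubP Mod.mem (omegaName.val U) (A c U) (A i U) ∧
        SubP Mod.mem (omegaName.val U) (A c U) (A j U)) :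
    ∃ Y : Name P, (∀ U, IsSub Mod.mem (Y.val U) (omegaName.val U)) ∧
      (Forces p0 fun U => InfP Mod.mem (omegaName.val U) fun m => Mod.mem m (Y.val U)) ∧
      ∀ i, Forces p0 fun U =>
        SubP Mod.mem (omegaName.val U) (fun m => Mod.mem m (Y.val U)) (A i U) := by
  classical
  have key : ∀ (F : Finset Z) (j : Z), ∀ q ≤ p0, ∃ r ≤ q, ∃ c N, ∀ i ∈ insert j F, ∀ k, N ≤ k →
      Forces r fun U => A c U ((natName k).val U) → A i U ((natName k).val U) := by
    intro F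
    induction F using Finset.induction_on with
    | empty => exact fun j q _ => ⟨q, le_rfl, j, 0, fun i hi k _ => by
        obtain rfl : i = j := by simpa using hi
        exact Forces.of_forall (fun _ => id) q⟩
    | insert l F _ ih =>
      intro j q hq
      obtain ⟨r, hr, c, N, h⟩ := ih l q hq
      obtain ⟨s, hs, c', h1⟩ := hd c j r (hr.trans hq)
      obtain ⟨t, ht, N1, h2⟩ := nkpi_subP.1 (h1.imp fun U h => h.1) s le_rfl
      obtain ⟨u, hu, N2, h3⟩ := nkpi_subP.1 (h1.imp fun U h => h.2) t ht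
      refine ⟨u, hu.trans (ht.trans (hs.trans hr)), c', max N (max N1 N2), fun i hi k hk => ?_⟩
      rcases Finset.mem_insert.1 hi with rfl | hi
      · exact h3 k (by omega)
      · exact (((h2 k (by omega)).mono hu).and
          ((h i hi k (by omega)).mono (hu.trans (ht.trans hs)))).imp fun U h g => h.2 (h.1 g)
  refine pi_name hC hG p0 A fun F n q hq => ?_
  rcases F.eq_empty_or_nonempty with rfl | ⟨j, -⟩
  · exact ⟨q, le_rfl, n, le_rfl, fun i hi => absurd hi (Finset.notMem_empty i)⟩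
  obtain ⟨r, hr, c, N, h⟩ := key F j q hq
  obtain ⟨s, hs, k, hk, h1⟩ := nkpi_infP.1 (hi c) (max n N) r (hr.trans hq)
  exact ⟨s, hs.trans hr, k, by omega, fun i hi =>
    (((h i (Finset.mem_insert_of_mem hi) k (by omega)).mono hs).and h1).imp fun U h => h.1 h.2⟩

/-- `PI` holds in every quotient model. -/
theorem pi_holds (hC : CCC P) (hG : GMA P) {W : Type 1} [LinearOrder W] [WellFoundedLT W]
    (hW : ∀ x : W, Small.{0} {y // y < x}) (U : Gen P) :
    PI Mod.mem (omegaName.val U) ((typeName W).val U) := by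
  intro A g hg
  obtain ⟨A, rfl⟩ := A.exists_name
  revert g
  refine forall_mem_fam (Φ := fun U g =>
    (∀ b n, Mod.mem b g → Mod.mem n (omegaName.val U) →
      InfP Mod.mem (omegaName.val U) (App2 Mod.mem (A.val U) b n)) →
    (∀ b n b' n', Mod.mem b g → Mod.mem n (omegaName.val U) → Mod.mem b' g →
      Mod.mem n' (omegaName.val U) → ∃ c k, Mod.mem c g ∧ Mod.mem k (omegaName.val U) ∧
      SubP Mod.mem (omegaName.val U) (App2 Mod.mem (A.val U) c k) (App2 Mod.mem (A.val U) b n) ∧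
      SubP Mod.mem (omegaName.val U) (App2 Mod.mem (A.val U) c k) (App2 Mod.mem (A.val U) b' n')) →
    ∃ z, InfP Mod.mem (omegaName.val U) (fun m => Mod.mem m z) ∧
      ∀ b n, Mod.mem b g → Mod.mem n (omegaName.val U) →
        SubP Mod.mem (omegaName.val U) (fun m => Mod.mem m z) (App2 Mod.mem (A.val U) b n))
    (fun g => of_forces_all fun p => ⟨p, le_rfl, forces_imp fun q1 _ h1 => ⟨q1, le_rfl,
      forces_imp fun p0 hp h2 => ⟨p0, le_rfl, ?_⟩⟩⟩) U
  have := hW g
  obtain ⟨Y, -, g1, g2⟩ := pi_directed hC hG p0 (Z := {y // y < g} × ℕ)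
    (fun i U => App2 Mod.mem (A.val U) ((ordName i.1.1).val U) ((natName i.2).val U))
    (fun i => (h1.mono hp).imp fun U h => h _ _ (ordName_mem i.1.2 U) (natName_mem_omega _ U))
    fun i j q hq => by
      have h3 := (h2.mono hq).imp fun U h => h _ _ _ _ (ordName_mem i.1.2 U)
        (natName_mem_omega i.2 U) (ordName_mem j.1.2 U) (natName_mem_omega j.2 U)
      obtain ⟨c, h4⟩ := Forces.exists_name h3
      obtain ⟨k, h5⟩ := Forces.exists_name h4
      have h6 := h5.imp fun U h => h.1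
      rw [ordName_eq g] at h6
      obtain ⟨r, hr, c', h7⟩ := h6.exists_fam
      obtain ⟨s, hs, k', h8⟩ := Forces.exists_fam ((h5.mono hr).imp fun U h => h.2.1)
      exact ⟨s, hs.trans hr, (c', k'.down), ((h5.mono (hs.trans hr)).and
        ((h7.mono hs).and h8)).imp fun U h => h.2.1 ▸ h.2.2 ▸ h.1.2.2⟩
  have g3 : Forces p0 fun U => ∀ b, Mod.mem b ((ordName g).val U) → ∀ n,
      Mod.mem n (omegaName.val U) → SubP Mod.mem (omegaName.val U)
        (fun m => Mod.mem m (Y.val U)) (App2 Mod.mem (A.val U) b n) := by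
    rw [ordName_eq g]
    exact forces_forall_mem_fam fun b q hq => ⟨q, le_rfl,
      forces_forall_mem_omega fun n r hr => ⟨r, le_rfl, (g2 (b, n)).mono (hr.trans hq)⟩⟩
  exact (g1.and g3).imp fun U h => ⟨_, h.1, fun b n hb hn => h.2 b hb n hn⟩

/-- The case of all small ordinals. -/
theorem pi_ordinal (hC : CCC P) (hG : GMA P) (U : Gen P) :
    PI Mod.mem (omegaName.val U) ((typeName Ordinal.{0}).val U) :=
  pi_holds hC hG (fun x => Ordinal.small_Iio x) U

end Pool.Agent.P.MP_0d6be8_lc
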