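import Pool.Agent.P.MP_0d6be8_lc.BPL
import Pool.Agent.P.MP_0d6be8_lc.NKPI
import Pool.Agent.P.MP_0d6be8_lc.NKMA
import Pool.Agent.P.MP_0d6be8_lc.NKG
import Pool.Agent.P.MP_0d6be8_lc.NKGPL

set_option autoImplicit false

/-! The forcing side: MA and the principles hold in every quotient model. -/

open Pool.Agent.Lib.PosetForcing

namespace Pool.Agent.P.MP_0d6be8_lc

open NKIter

theorem GP.princ {P : Type 1} [Preorder P] [OrderTop P] (h : GP P) : ∃ X : Name P, ∀ U : Gen P,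
    Princ Mod.mem (omegaName.val U) ((typeName O).val U) (X.val U) := by
  obtain ⟨X, hX⟩ := exists_onto h.ccc h.card
  exact ⟨X, fun U => ⟨isOrd_K U, bdd_K h.ccc U, reg_K h.ccc U, hX U,
    pi_ordinal h.ccc h.gma U, pl_holds h X U⟩⟩

theorem gp_PP : GP NKStep.PP := ⟨NKStep.ccc_PP, NKStep.mk_PP_le, NKStep.gma, NKStep.gpl_PP⟩

theorem forcing_side : ∃ K X : Name NKStep.PP, ∀ U : Gen NKStep.PP,
    MP_93aff1_lc.MA Mod.mem (omegaName.val U) ((powName omegaName).val U) ∧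
      Princ Mod.mem (omegaName.val U) (K.val U) (X.val U) := by
  obtain ⟨X, hX⟩ := gp_PP.princ
  exact ⟨_, X, fun U => ⟨NKMA.ma_holds U, hX U⟩⟩

end Pool.Agent.P.MP_0d6be8_lc
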