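import Pool.Agent.P.MP_0d6be8_lc.Construct
import Pool.Agent.P.MP_0d6be8_lc.Defs

namespace Pool.Agent.P.MP_0d6be8_lc
open Set Filter MeasureTheory Topology symmDiff

section stone
variable {A : Type} [BooleanAlgebra A]

lemma basic_inf (a b : A) : Stone.basic (a ⊓ b) = Stone.basic a ∩ Stone.basic b := by
  ext u; exact u.inf_mem a b

lemma basic_bot : Stone.basic (⊥ : A) = ∅ := by
  ext u; exact iff_of_false u.bot_notMem id

lemma basic_top : Stone.basic (⊤ : A) = univ := by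
  ext u; exact iff_of_true u.top_mem trivial

lemma basic_compl (a : A) : Stone.basic aᶜ = (Stone.basic a)ᶜ := by
  ext u
  refine ⟨fun h h' => u.bot_notMem ?_, fun h => (u.mem_or_compl_mem a).resolve_left h⟩
  rw [← inf_compl_eq_bot (a := a)]
  exact (u.inf_mem _ _).2 ⟨h', h⟩

lemma basic_sup (a b : A) : Stone.basic (a ⊔ b) = Stone.basic a ∪ Stone.basic b := by
  rw [← compl_compl (a ⊔ b), compl_sup, basic_compl, basic_inf, basic_compl, basic_compl,
    compl_inter, compl_compl, compl_compl]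

lemma basic_symmDiff (a b : A) : Stone.basic (a ∆ b) = Stone.basic a ∆ Stone.basic b := by
  rw [symmDiff_def a b, basic_sup, _root_.sdiff_eq, _root_.sdiff_eq, basic_inf, basic_inf, basic_compl,
    basic_compl]
  rfl

lemma isOpen_basic (a : A) : IsOpen (Stone.basic a) :=
  TopologicalSpace.isOpen_generateFrom_of_mem (mem_range_self a)

lemma basis_basic : TopologicalSpace.IsTopologicalBasis (range (Stone.basic (A := A))) := by
  refine ⟨?_, ?_, rfl⟩
  · rintro _ ⟨a, rfl⟩ _ ⟨b, rfl⟩ x hx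
    exact ⟨_, ⟨a ⊓ b, basic_inf a b⟩, hx, subset_rfl⟩
  · exact eq_univ_of_univ_subset (subset_sUnion_of_mem ⟨⊤, basic_top⟩)

lemma stone_t2 : T2Space (Stone A) := by
  refine ⟨fun u v huv => ?_⟩
  have : ∃ a, ¬ (u ∈ Stone.basic a ↔ v ∈ Stone.basic a) := by
    by_contra h
    apply huv
    have h1 : u.carrier = v.carrier := Set.ext fun a => not_not.1 fun h' => h ⟨a, h'⟩
    cases u; cases v; congr
  obtain ⟨a, ha⟩ := this
  have ho : IsOpen (Stone.basic a)ᶜ := basic_compl a ▸ isOpen_basic _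
  by_cases hu : u ∈ Stone.basic a
  · exact ⟨_, _, isOpen_basic a, ho, hu, fun h => ha (iff_of_true hu h), disjoint_compl_right⟩
  · exact ⟨_, _, ho, isOpen_basic a, hu, by by_contra h; exact ha (iff_of_false hu h),
      disjoint_compl_left⟩

lemma exists_basic_between {K U : Set (Stone A)} (hK : IsCompact K) (hU : IsOpen U) (h : K ⊆ U) :
    ∃ a, K ⊆ Stone.basic a ∧ Stone.basic a ⊆ U := by
  refine hK.induction_on (p := fun K => ∃ a, K ⊆ Stone.basic a ∧ Stone.basic a ⊆ U)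
    ⟨⊥, empty_subset _, by rw [basic_bot]; exact empty_subset _⟩ ?_ ?_ ?_
  · rintro s t hst ⟨a, h1, h2⟩
    exact ⟨a, hst.trans h1, h2⟩
  · rintro s t ⟨a, h1, h2⟩ ⟨b, h3, h4⟩
    exact ⟨a ⊔ b, basic_sup a b ▸ union_subset_union h1 h3, basic_sup a b ▸ union_subset h2 h4⟩
  · intro x hx
    obtain ⟨_, ⟨a, rfl⟩, h1, h2⟩ := basis_basic.exists_subset_of_mem_open (h hx) hU
    exact ⟨_, mem_nhdsWithin_of_mem_nhds ((isOpen_basic a).mem_nhds h1), a, subset_rfl, h2⟩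

theorem isSeparable_of (μ : Measure (Stone A)) [IsFiniteMeasure μ] [μ.InnerRegular]
    (h : ∃ 𝒞 : Set A, 𝒞.Countable ∧ ∀ a, ∀ ε > 0, ∃ c ∈ 𝒞, μ.real (Stone.basic (a ∆ c)) < ε) :
    IsSeparable μ := by
  have : BorelSpace (Stone A) := ⟨rfl⟩
  have : T2Space (Stone A) := stone_t2
  obtain ⟨𝒞, hc, h⟩ := h
  refine ⟨Stone.basic '' 𝒞, hc.image _, ?_, fun s hs _ ε hε => ?_⟩
  · rintro _ ⟨a, -, rfl⟩
    exact (isOpen_basic a).measurableSet
  have hε' : ENNReal.ofReal (ε / 3) ≠ 0 := by simpa using hε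
  obtain ⟨K1, hK1, hK1c, h1⟩ := hs.exists_isCompact_sdiff_lt (measure_ne_top μ _) hε'
  obtain ⟨K2, hK2, hK2c, h2⟩ := hs.compl.exists_isCompact_sdiff_lt (measure_ne_top μ _) hε'
  obtain ⟨a, h3, h4⟩ := exists_basic_between hK1c hK2c.isClosed.isOpen_compl
    (hK1.trans (subset_compl_comm.1 hK2))
  obtain ⟨c, hc', h5⟩ := h a (ε / 3) (by positivity)
  refine ⟨_, ⟨c, hc', rfl⟩, ?_⟩
  have h6 : μ (Stone.basic (a ∆ c)) < ENNReal.ofReal (ε / 3) :=
    (ENNReal.lt_ofReal_iff_toReal_lt (measure_ne_top μ _)).2 h5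
  have h7 : s ∆ Stone.basic c ⊆ (s \ K1 ∪ sᶜ \ K2) ∪ Stone.basic (a ∆ c) := by
    rw [basic_symmDiff]
    intro x
    have := @h3 x
    have := @h4 x
    simp only [mem_symmDiff, mem_union, Set.mem_sdiff, mem_compl_iff] at *
    tauto
  calc μ (s ∆ Stone.basic c) ≤ μ ((s \ K1 ∪ sᶜ \ K2) ∪ Stone.basic (a ∆ c)) := measure_mono h7
    _ ≤ μ (s \ K1) + μ (sᶜ \ K2) + μ (Stone.basic (a ∆ c)) :=
        (measure_union_le _ _).trans (by gcongr; exact measure_union_le _ _)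
    _ < ENNReal.ofReal (ε / 3) + ENNReal.ofReal (ε / 3) + ENNReal.ofReal (ε / 3) :=
        ENNReal.add_lt_add (ENNReal.add_lt_add h1 h2) h6
    _ = ENNReal.ofReal ε := by
        rw [← ENNReal.ofReal_add (by positivity) (by positivity),
          ← ENNReal.ofReal_add (by positivity) (by positivity)]
        congr 1; ring

lemma IsAdditive.bot {μ : A → ℝ} (h : IsAdditive μ) : μ ⊥ = 0 := by
  simpa using h ⊥ ⊥ disjoint_bot_left

lemma IsAdditive.sum {μ : A → ℝ} (h : IsAdditive μ) (s : Finset A)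
    (hs : (s : Set A).PairwiseDisjoint id) : ∑ a ∈ s, μ a = μ (s.sup id) := by
  classical
  induction s using Finset.induction_on with
  | empty => simp [h.bot]
  | insert a s ha ih =>
    rw [Finset.sum_insert ha, Finset.sup_insert, ih (hs.subset (by simp)), id,
      h a _ (Finset.disjoint_sup_right.2 fun b hb =>
        hs (by simp) (by simp [hb]) (fun e => ha (e ▸ hb)))]

lemma IsAdditive.varLE {μ : A → ℝ} (h : IsAdditive μ) {C : ℝ} (hC : ∀ a, |μ a| ≤ C) :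
    VarLE μ (2 * C) := by
  classical
  intro s hs
  rw [← Finset.sum_filter_add_sum_filter_not s fun a => 0 ≤ μ a]
  rw [Finset.sum_congr rfl fun a ha => abs_of_nonneg (Finset.mem_filter.1 ha).2,
    Finset.sum_congr rfl fun a ha => abs_of_neg (not_le.1 (Finset.mem_filter.1 ha).2),
    Finset.sum_neg_distrib, h.sum _ (hs.subset (Finset.coe_subset.2 (Finset.filter_subset _ _))),
    h.sum _ (hs.subset (Finset.coe_subset.2 (Finset.filter_subset _ _)))]
  linarith [(abs_le.1 (hC ((s.filter fun a => 0 ≤ μ a).sup id))).2,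
    (abs_le.1 (hC ((s.filter fun a => ¬ 0 ≤ μ a).sup id))).1]

end stone

/-- an algebra of sets as a Boolean subalgebra -/
def toSub {𝒜 : Set (Set ℕ)} (h : IsSetAlgebra 𝒜) : BooleanSubalgebra (Set ℕ) where
  carrier := 𝒜
  supClosed' := fun _ ha _ hb => h.union_mem ha hb
  infClosed' := fun _ ha _ hb => h.inter_mem ha hb
  compl_mem' := fun ha => h.compl_mem ha
  bot_mem' := h.empty_mem

open Classical in
/-- extension by zero -/
noncomputable def extend {𝒜 : Set (Set ℕ)} (h : IsSetAlgebra 𝒜) (μ : toSub h → ℝ) (e : Set ℕ) : ℝ :=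
  if he : e ∈ 𝒜 then μ ⟨e, he⟩ else 0

lemma extend_apply {𝒜 : Set (Set ℕ)} (h : IsSetAlgebra 𝒜) (μ : toSub h → ℝ) {e : Set ℕ}
    (he : e ∈ 𝒜) : extend h μ e = μ ⟨e, he⟩ := dif_pos he

lemma extend_add {𝒜 : Set (Set ℕ)} (h : IsSetAlgebra 𝒜) {μ : toSub h → ℝ} (hμ : IsAdditive μ) :
    AddOn 𝒜 (extend h μ) := by
  intro a ha b hb hab
  rw [extend_apply h μ ha, extend_apply h μ hb, extend_apply h μ (h.union_mem ha hb)]
  exact hμ ⟨a, ha⟩ ⟨b, hb⟩ (disjoint_iff.2 (Subtype.ext (disjoint_iff.1 hab)))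

theorem of_set {𝒜 : Set (Set ℕ)} (h : IsSetAlgebra 𝒜) (h1 : ∀ n : ℕ, {n} ∈ 𝒜)
    (h2 : ∀ μ : ℕ → Set ℕ → ℝ, (∀ n, AddOn 𝒜 (μ n)) → (∀ n, ∃ C, ∀ e ∈ 𝒜, |μ n e| ≤ C) →
      (∀ e ∈ 𝒜, ∃ C, ∀ n, |μ n e| ≤ C) → ∃ C, ∀ n, ∀ e ∈ 𝒜, |μ n e| ≤ C)
    (h3 : ∀ ν : Set ℕ → ℝ, Pos 𝒜 ν →
      ∃ 𝒞 ⊆ 𝒜, 𝒞.Countable ∧ ∀ e ∈ 𝒜, ∀ ε > 0, ∃ c ∈ 𝒞, ν (e ∆ c) < ε) :
    Infinite (toSub h) ∧ Nikodym (toSub h) ∧
      ∀ μ : Measure (Stone (toSub h)), IsFiniteMeasure μ → μ.InnerRegular → IsSeparable μ := by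
  refine ⟨Infinite.of_injective (fun n : ℕ => (⟨{n}, h1 n⟩ : toSub h)) fun m n hmn =>
    singleton_injective (congrArg Subtype.val hmn), fun μ hadd hv hb => ?_, fun μ _ _ => ?_⟩
  · obtain ⟨C, hC⟩ := h2 (fun n => extend h (μ n)) (fun n => extend_add h (hadd n))
      (fun n => by
        obtain ⟨C, hC⟩ := hv n
        refine ⟨C, fun e he => ?_⟩
        rw [extend_apply h _ he]
        simpa using hC {⟨e, he⟩} (by simp))
      (fun e he => by simpa only [extend_apply h _ he] using hb ⟨e, he⟩)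
    refine ⟨2 * C, fun n => (hadd n).varLE fun a => ?_⟩
    have := hC n a.1 a.2
    rwa [extend_apply h _ a.2] at this
  · have : BorelSpace (Stone (toSub h)) := ⟨rfl⟩
    have hadd : IsAdditive fun a : toSub h => μ.real (Stone.basic a) := by
      intro a b hab
      simp only [basic_sup]
      refine measureReal_union ?_ (isOpen_basic b).measurableSet
      rw [Set.disjoint_iff_inter_eq_empty, ← basic_inf, disjoint_iff.1 hab, basic_bot]
    obtain ⟨𝒞, hCA, hc, h4⟩ := h3 _ ⟨extend_add h hadd, fun a ha => by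
      rw [extend_apply h _ ha]; exact measureReal_nonneg⟩
    refine isSeparable_of μ ⟨Subtype.val ⁻¹' 𝒞, hc.preimage Subtype.val_injective, fun a ε hε => ?_⟩
    obtain ⟨c, hc', h5⟩ := h4 a.1 a.2 ε hε
    refine ⟨⟨c, hCA hc'⟩, hc', ?_⟩
    exact lt_of_eq_of_lt (extend_apply h (fun a : toSub h => μ.real (Stone.basic a))
      (a ∆ (⟨c, hCA hc'⟩ : toSub h)).2).symm h5

theorem exists_index (hCH : Cardinal.continuum.{0} = Cardinal.aleph 1) :
    ∃ (I : Type) (_ : LinearOrder I) (_ : WellFoundedLT I) (f : I → Datum),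
      (∀ i : I, (Iio i).Countable) ∧ (∀ S : Set I, S.Countable → ∃ i, ∀ j ∈ S, j < i) ∧
      ∀ d i, ∃ j, i ≤ j ∧ f j = d := by
  let I := (Cardinal.aleph.{0} 1).ord.ToType
  have hI : Cardinal.mk I = Cardinal.aleph 1 := by simp [I]
  have h1 : ∀ i : I, (Iio i).Countable := fun i => by
    rw [← Cardinal.le_aleph0_iff_set_countable, ← Order.lt_succ_iff, Cardinal.succ_aleph0]
    exact (Cardinal.mk_Iio_lt i (by simp [I])).trans_eq hI
  have h1' : ∀ i : I, (Iic i).Countable := fun i => by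
    rw [← Iio_insert]; exact (h1 i).insert i
  have hunc : Uncountable I := by
    rw [← Cardinal.aleph0_lt_mk_iff, hI]; exact Cardinal.aleph0_lt_aleph_one
  have hD : Cardinal.mk (Datum × I) = Cardinal.mk I := by
    simp [hI, ← hCH, Cardinal.mk_real]
  obtain ⟨e⟩ := Cardinal.eq.1 hD
  refine ⟨I, inferInstance, inferInstance, fun j => (e.symm j).1, h1, fun S hS => ?_,
    fun d i => ?_⟩
  · by_contra h
    push Not at h
    refine not_countable_univ ((hS.biUnion fun j _ => h1' j).mono fun i _ => ?_)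
    obtain ⟨j, hj, hij⟩ := h i
    exact mem_biUnion hj hij
  · by_contra h
    push Not at h
    refine not_countable_univ (((h1 i).preimage_of_injOn (f := fun t : I => e (d, t))
      fun s _ t _ hst => (Prod.ext_iff.1 (e.injective hst)).2).mono fun t _ => ?_)
    by_contra h'
    exact h _ (not_lt.1 h') (by simp)

section minimal
variable {A : Type} [BooleanAlgebra A]

lemma minimal_ext (B : BooleanSubalgebra A) (x : A) (p : A → Prop)
    (hinf : ∀ a b, p (a ⊓ b) ↔ p a ∧ p b) (hcompl : ∀ a, p aᶜ ↔ ¬ p a)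
    (h : ∀ e ∈ B, ¬ p e → x ⊓ e ∈ B) (C : BooleanSubalgebra A)
    (hC : ∀ D : BooleanSubalgebra A, B ≤ D → x ∈ D → C ≤ D)
    (D : BooleanSubalgebra A) (h1 : B ≤ D) (h2 : D ≤ C) : D = B ∨ D = C := by
  let N : BooleanSubalgebra A :=
    { carrier := {d | ∃ b ∈ B, ∃ c ∈ B, d ⊓ x = b ⊓ x ∧ d ⊓ xᶜ = c ⊓ xᶜ}
      supClosed' := by
        rintro d ⟨b, hb, c, hc, h3, h4⟩ d' ⟨b', hb', c', hc', h3', h4'⟩
        exact ⟨b ⊔ b', B.sup_mem hb hb', c ⊔ c', B.sup_mem hc hc',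
          by rw [inf_sup_right, inf_sup_right, h3, h3'],
          by rw [inf_sup_right, inf_sup_right, h4, h4']⟩
      infClosed' := by
        rintro d ⟨b, hb, c, hc, h3, h4⟩ d' ⟨b', hb', c', hc', h3', h4'⟩
        exact ⟨b ⊓ b', B.inf_mem hb hb', c ⊓ c', B.inf_mem hc hc',
          by rw [inf_inf_distrib_right, h3, h3', ← inf_inf_distrib_right],
          by rw [inf_inf_distrib_right, h4, h4', ← inf_inf_distrib_right]⟩
      compl_mem' := by
        have key : ∀ d b y : A, d ⊓ y = b ⊓ y → dᶜ ⊓ y = bᶜ ⊓ y := fun d b y e => by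
          have e1 : ∀ d : A, dᶜ ⊓ y = (d ⊓ y)ᶜ ⊓ y := fun d => by
            rw [compl_inf, inf_sup_right, compl_inf_eq_bot, sup_bot_eq]
          rw [e1 d, e1 b, e]
        rintro d ⟨b, hb, c, hc, h3, h4⟩
        exact ⟨bᶜ, B.compl_mem hb, cᶜ, B.compl_mem hc, key _ _ _ h3, key _ _ _ h4⟩
      bot_mem' := ⟨⊥, B.bot_mem, ⊥, B.bot_mem, rfl, rfl⟩ }
  have hCN : C ≤ N := hC N (fun b hb => ⟨b, hb, b, hb, rfl, rfl⟩)
    ⟨⊤, B.top_mem, ⊥, B.bot_mem, by simp, by simp⟩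
  have hsplit : ∀ d y : A, d = d ⊓ y ⊔ d ⊓ yᶜ := fun d y => by
    rw [← inf_sup_left, sup_compl_eq_top, inf_top_eq]
  have h' : ∀ e ∈ B, ¬ p e → xᶜ ⊓ e ∈ B := fun e he hp => by
    have : xᶜ ⊓ e = e ⊓ (x ⊓ e)ᶜ := by
      rw [compl_inf, inf_sup_left, inf_compl_eq_bot, sup_bot_eq, inf_comm]
    rw [this]; exact B.inf_mem he (B.compl_mem (h e he hp))
  by_cases hx : x ∈ D
  · exact Or.inr (le_antisymm h2 (hC D h1 hx))
  refine Or.inl (le_antisymm (fun d hd => ?_) h1)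
  have main : ∀ d ∈ D, ∀ b ∈ B, ∀ c ∈ B, d ⊓ x = b ⊓ x → d ⊓ xᶜ = c ⊓ xᶜ → ¬ p c → d ∈ B := by
    intro d hd b hb c hc h3 h4 hpc
    by_cases hpb : p b
    · exfalso
      apply hx
      have hp : ¬ p (b ⊓ cᶜ)ᶜ := by
        rw [hcompl, not_not, hinf, hcompl]; exact ⟨hpb, hpc⟩
      have h5 := h1 (h _ (B.compl_mem (B.inf_mem hb (B.compl_mem hc))) hp)
      have h6 : x ⊓ (b ⊓ cᶜ) = d ⊓ (b ⊓ cᶜ) := by
        rw [hsplit d x, h3, h4, inf_sup_right]
        have e1 : c ⊓ xᶜ ⊓ (b ⊓ cᶜ) = ⊥ := by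
          rw [eq_bot_iff, ← inf_compl_eq_bot (a := c)]
          exact le_inf (inf_le_left.trans inf_le_left) (inf_le_right.trans inf_le_right)
        rw [e1, sup_bot_eq, inf_comm b x, inf_assoc, ← inf_assoc b b, inf_idem]
      rw [hsplit x (b ⊓ cᶜ), h6]
      exact D.sup_mem (D.inf_mem hd (h1 (B.inf_mem hb (B.compl_mem hc)))) h5
    · rw [hsplit d x, h3, h4, inf_comm b, inf_comm c]
      exact B.sup_mem (h b hb hpb) (h' c hc hpc)
  obtain ⟨b, hb, c, hc, h3, h4⟩ := hCN (h2 hd)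
  by_cases hpc : p c
  · obtain ⟨b', hb', c', hc', h3', h4'⟩ := hCN (h2 (D.compl_mem hd))
    have key : ∀ d b y : A, d ⊓ y = b ⊓ y → dᶜ ⊓ y = bᶜ ⊓ y := fun d b y e => by
      have e1 : ∀ d : A, dᶜ ⊓ y = (d ⊓ y)ᶜ ⊓ y := fun d => by
        rw [compl_inf, inf_sup_right, compl_inf_eq_bot, sup_bot_eq]
      rw [e1 d, e1 b, e]
    exact B.compl_mem_iff.1 (main _ (D.compl_mem hd) _ (B.compl_mem hb) _ (B.compl_mem hc)
      (key _ _ _ h3) (key _ _ _ h4) (by rw [hcompl, not_not]; exact hpc))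
  · exact main d hd b hb c hc h3 h4 hpc

end minimal

lemma mem_closure_iff {𝒜 : Set (Set ℕ)} (h : IsSetAlgebra 𝒜) (T : Set (toSub h)) (x : toSub h) :
    x ∈ BooleanSubalgebra.closure T ↔ x.1 ∈ generateSetAlgebra (Subtype.val '' T) := by
  constructor
  · intro hx
    exact BooleanSubalgebra.closure_le.2 (show T ⊆ (toSub (isSetAlgebra_generateSetAlgebra
      (𝒜 := Subtype.val '' T))).comap (toSub h).subtype from
      fun y hy => self_subset_generateSetAlgebra ⟨y, hy, rfl⟩) hx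
  · intro hx
    have : ∀ s ∈ generateSetAlgebra (Subtype.val '' T),
        ∃ hs : s ∈ toSub h, (⟨s, hs⟩ : toSub h) ∈ BooleanSubalgebra.closure T := by
      intro s hs
      induction hs with
      | base s hs =>
        obtain ⟨y, hy, rfl⟩ := hs
        exact ⟨y.2, BooleanSubalgebra.subset_closure hy⟩
      | empty => exact ⟨h.empty_mem, BooleanSubalgebra.bot_mem⟩
      | compl s _ ih =>
        obtain ⟨h1, h2⟩ := ih
        exact ⟨h.compl_mem h1, BooleanSubalgebra.compl_mem h2⟩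
      | union s t _ _ ih1 ih2 =>
        obtain ⟨h1, h2⟩ := ih1
        obtain ⟨h3, h4⟩ := ih2
        exact ⟨h.union_mem h1 h3, BooleanSubalgebra.sup_mem h2 h4⟩
    exact (this _ hx).2

theorem minGen {I : Type} [LinearOrder I] [WellFoundedLT I] {a : I → Set ℕ}
    (ha : ∀ γ, Minimal' a γ (a γ)) : MinimallyGenerated (toSub (stage_alg a univ)) := by
  let g : ℕ ⊕ₗ I → toSub (stage_alg a univ) := fun i => match ofLex i with
    | Sum.inl n => ⟨{n}, self_subset_generateSetAlgebra (Or.inl ⟨n, rfl⟩)⟩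
    | Sum.inr γ => ⟨a γ, mem_stage a (mem_univ γ)⟩
  refine ⟨ℕ ⊕ₗ I, inferInstance, ⟨Sum.lex_wf wellFounded_lt wellFounded_lt⟩, g, ?_, fun i D h1 h2 => ?_⟩
  · refine eq_top_iff.2 fun x _ => (mem_closure_iff _ _ _).2 (generateSetAlgebra_mono ?_ x.2)
    rintro _ (⟨n, rfl⟩ | ⟨γ, -, rfl⟩)
    · exact ⟨_, ⟨toLex (Sum.inl n), rfl⟩, rfl⟩
    · exact ⟨_, ⟨toLex (Sum.inr γ), rfl⟩, rfl⟩
  have hp : ∃ p : Ultrafilter ℕ, ∀ e ∈ BooleanSubalgebra.closure (g '' Iio i), e.1 ∉ p →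
      g i ⊓ e ∈ BooleanSubalgebra.closure (g '' Iio i) := by
    rcases i with n | γ
    · refine ⟨pure n, fun e _ he => ?_⟩
      have : g (Sum.inl n) ⊓ e = ⊥ := Subtype.ext (singleton_inter_eq_empty.2 he)
      rw [this]; exact BooleanSubalgebra.bot_mem
    · obtain ⟨p, hp⟩ := ha γ
      have : Subtype.val '' (g '' Iio (toLex (Sum.inr γ))) =
          range (fun n : ℕ => ({n} : Set ℕ)) ∪ a '' Iio γ := by
        apply Subset.antisymm
        · rintro _ ⟨_, ⟨n | ξ, h, rfl⟩, rfl⟩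
          · exact Or.inl ⟨n, rfl⟩
          · exact Or.inr ⟨ξ, Sum.Lex.inr_lt_inr_iff.1 h, rfl⟩
        · rintro _ (⟨n, rfl⟩ | ⟨ξ, h, rfl⟩)
          · exact ⟨_, ⟨toLex (Sum.inl n), Sum.Lex.inl_lt_inr _ _, rfl⟩, rfl⟩
          · exact ⟨_, ⟨toLex (Sum.inr ξ), Sum.Lex.inr_lt_inr_iff.2 h, rfl⟩, rfl⟩
      refine ⟨p, fun e he hep => (mem_closure_iff _ _ _).2 ?_⟩
      have he' := (mem_closure_iff _ _ _).1 he
      erw [this] at he' ⊢
      exact hp _ he' hep
  obtain ⟨p, hp⟩ := hp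
  refine minimal_ext _ (g i) (fun e => e.1 ∈ p) (fun a b => inter_mem_iff)
    (fun a => Ultrafilter.compl_mem_iff_notMem) hp _ (fun D' h3 h4 => ?_) D h1 h2
  rw [BooleanSubalgebra.closure_le, ← Iio_insert, image_insert_eq]
  exact insert_subset h4 (BooleanSubalgebra.closure_le.1 h3)

theorem main (hCH : Cardinal.continuum.{0} = Cardinal.aleph 1) :
    ∃ (A : Type) (_ : BooleanAlgebra A), Infinite A ∧ MinimallyGenerated A ∧ Nikodym A ∧
      ∀ μ : Measure (Stone A), IsFiniteMeasure μ → μ.InnerRegular → IsSeparable μ := by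
  obtain ⟨I, _, _, f, h1, h2, h3⟩ := exists_index hCH
  obtain ⟨a, ha⟩ := exists_construction f
  have hmin : ∀ γ, Minimal' a γ (a γ) := fun γ => by
    rcases (ha γ).2 with h | h
    · exact h.1
    · exact ⟨pure 0, fun e _ _ => by rw [h, empty_inter]; exact (stage_alg _ _).empty_mem⟩
  obtain ⟨h4, h5, h6⟩ := of_set (stage_alg a univ)
    (fun n => self_subset_generateSetAlgebra (Or.inl ⟨n, rfl⟩)) (nikodym_set h1 h2 h3 ha)
    fun ν hν => separable_set hmin hν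
  exact ⟨toSub (stage_alg a univ), inferInstance, h4, minGen hmin, h5, h6⟩

end Pool.Agent.P.MP_0d6be8_lc
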