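import Pool.Agent.Lib.PosetForcing.Card

set_option autoImplicit false

/-! Finite-support iterations with the sequence of iterands as a parameter. -/

open Pool.Agent.Lib.PosetForcing Cardinal

namespace Pool.Agent.P.MP_0d6be8_lc.NKIter

/-- stages -/
abbrev O : Type 1 := Ordinal.{0}

/-- a well-ordered type of order type `ω₁` -/
abbrev W1 : Type 1 := (Cardinal.aleph.{1} 1).ord.ToType

theorem mk_W1 : Cardinal.mk W1 = ℵ₁ := by simp

instance : Uncountable W1 := by
  rw [← aleph0_lt_mk_iff, mk_W1]; exact aleph0_lt_aleph_one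

instance : Small.{0} W1 := by
  rw [small_iff_lift_mk_lt_univ, mk_W1]
  have := lift_lt_univ (Cardinal.aleph.{0} 1)
  simpa using this

theorem countable_Iio (x : W1) : (Set.Iio x).Countable := by
  rw [← le_aleph0_iff_set_countable, ← Order.lt_succ_iff, succ_aleph0]
  exact (mk_Iio_lt x (by simp)).trans_eq mk_W1

theorem countable_Iic (x : W1) : (Set.Iic x).Countable := by
  rw [← Set.Iio_insert]; exact (countable_Iio x).insert x

/-- countable subsets of `ω₁` are strictly bounded -/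
theorem exists_gt_of_countable {S : Set W1} (hS : S.Countable) : ∃ x, ∀ y ∈ S, y < x := by
  obtain ⟨x, -, hx⟩ := nonempty_of_not_countable (not_countable_diff
    (Set.not_countable_univ (α := W1)) (hS.biUnion fun y _ => countable_Iic y))
  exact ⟨x, fun y hy => not_le.1 fun h => hx (Set.mem_biUnion hy h)⟩

instance small_option {X : Type 1} [Small.{0} X] : Small.{0} (Option X) :=
  small_of_injective (Equiv.optionEquivSumPUnit.{0} X).injective

/-- raw conditions of the iteration -/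
@[ext] structure C (Y : Type 1) : Type 1 where
  /-- values -/
  f : O → Option Y
  fin : {γ | f γ ≠ none}.Finite

variable {Y : Type 1}

/-- the empty condition -/
def C.one : C Y := ⟨fun _ => none, by simp⟩

open Classical in
/-- restriction to an initial segment -/
noncomputable def C.restr (p : C Y) (α : O) : C Y :=
  ⟨fun γ => if γ < α then p.f γ else none, p.fin.subset fun γ h => by
    by_cases hγ : γ < α <;> simp_all⟩

/-- the support is below `α` -/
def Sup (α : O) (p : C Y) : Prop := ∀ γ, p.f γ ≠ none → γ < α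

theorem restr_f_of_lt {p : C Y} {α γ : O} (h : γ < α) : (p.restr α).f γ = p.f γ := if_pos h

theorem restr_f_of_ge {p : C Y} {α γ : O} (h : α ≤ γ) : (p.restr α).f γ = none :=
  if_neg (not_lt.2 h)

theorem restr_restr {p : C Y} {α γ : O} (h : γ ≤ α) : (p.restr α).restr γ = p.restr γ := by
  refine C.ext (funext fun δ => ?_)
  rcases lt_or_ge δ γ with h1 | h1
  · rw [restr_f_of_lt h1, restr_f_of_lt h1, restr_f_of_lt (h1.trans_le h)]
  · rw [restr_f_of_ge h1, restr_f_of_ge h1]

theorem sup_restr (p : C Y) (α : O) : Sup α (p.restr α) := fun γ h => by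
  by_contra hγ
  exact h (restr_f_of_ge (not_lt.1 hγ))

theorem Sup.none {p : C Y} {α γ : O} (h : Sup α p) (hγ : α ≤ γ) : p.f γ = none := by
  by_contra h1
  exact absurd (h γ h1) (not_lt.2 hγ)

theorem Sup.restr_eq {p : C Y} {α : O} (h : Sup α p) : p.restr α = p := by
  refine C.ext (funext fun δ => ?_)
  rcases lt_or_ge δ α with h1 | h1
  · exact restr_f_of_lt h1
  · rw [restr_f_of_ge h1, h.none h1]

theorem Sup.mono {p : C Y} {α β : O} (h : Sup α p) (hβ : α ≤ β) : Sup β p :=
  fun γ hγ => (h γ hγ).trans_le hβ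

theorem sup_one (α : O) : Sup α (C.one : C Y) := fun _ h => absurd rfl h

open Classical in
/-- changing one coordinate -/
noncomputable def C.upd (p : C Y) (α : O) (x : Option Y) : C Y :=
  ⟨Function.update p.f α x, (p.fin.insert α).subset fun γ h => by
    by_cases hγ : γ = α
    · exact Or.inl hγ
    · exact Or.inr (by simpa [hγ] using h)⟩

@[simp] theorem upd_self (p : C Y) (α : O) (x : Option Y) : (p.upd α x).f α = x := by
  simp [C.upd]

theorem upd_of_ne (p : C Y) {α γ : O} (x : Option Y) (h : γ ≠ α) : (p.upd α x).f γ = p.f γ := by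
  simp [C.upd, h]

theorem upd_restr (p : C Y) {α γ : O} (x : Option Y) (h : γ ≤ α) :
    (p.upd α x).restr γ = p.restr γ := by
  refine C.ext (funext fun δ => ?_)
  rcases lt_or_ge δ γ with h1 | h1
  · rw [restr_f_of_lt h1, restr_f_of_lt h1, upd_of_ne _ _ (h1.trans_le h).ne]
  · rw [restr_f_of_ge h1, restr_f_of_ge h1]

/-- forced order relations of iterands -/
abbrev Rel (Y : Type 1) : Type 1 := C Y → Option Y → Option Y → Prop

/-- the laws of an iterand -/
structure IsIt (le : C Y → C Y → Prop) (R : Rel Y) : Prop where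
  mono : ∀ r r' x y, le r' r → R r x y → R r' x y
  trans : ∀ r x y z, R r x y → R r y z → R r x z
  left : ∀ r x y, R r x y → R r x x
  top : ∀ r x, R r x x → R r x none
  nn : ∀ r, R r none none

/-- two-step iteration -/
def two (le : C Y → C Y → Prop) (R : Rel Y) (x y : C Y × Option Y) : Prop :=
  le x.1 y.1 ∧ R x.1 x.2 y.2

/-- the countable chain condition for a relation whose conditions are the `p` with `le p p` -/
def CCCR {D : Type 1} (le : D → D → Prop) : Prop :=
  ∀ (ι : Type 1) (I : Set ι), ¬ I.Countable → ∀ p : ι → D, (∀ i ∈ I, le (p i) (p i)) →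
    ∃ i ∈ I, ∃ j ∈ I, i ≠ j ∧ ∃ r, le r (p i) ∧ le r (p j)

/-- it is enough to treat families indexed by `ω₁` -/
theorem cccr_of_W1 {D : Type 1} {le : D → D → Prop}
    (h : ∀ p : W1 → D, (∀ i, le (p i) (p i)) → ∃ i j, i ≠ j ∧ ∃ r, le r (p i) ∧ le r (p j)) :
    CCCR le := by
  intro ι I hI p hp
  rw [← le_aleph0_iff_set_countable, not_le, ← Order.succ_le_iff, succ_aleph0, ← mk_W1] at hI
  obtain ⟨e⟩ := (Cardinal.le_def _ _).1 hI
  obtain ⟨i, j, hne, h1⟩ := h (fun x => p (e x).1) fun x => hp _ (e x).2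
  exact ⟨_, (e i).2, _, (e j).2, fun h2 => hne (e.injective (Subtype.ext h2)), h1⟩

/-- the order of the stage `α` -/
def leA (R : O → Rel Y) (α : O) (p q : C Y) : Prop :=
  Sup α p ∧ Sup α q ∧ ∀ γ, γ < α → R γ (p.restr γ) (p.f γ) (q.f γ)

theorem leA_congr {R R' : O → Rel Y} {α : O} (h : ∀ γ, γ < α → R' γ = R γ) :
    leA R' α = leA R α := by
  funext p q
  exact propext (and_congr_right fun _ => and_congr_right fun _ =>
    forall₂_congr fun γ hγ => by rw [h γ hγ])

/-- a good sequence of iterands of length `a` -/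
def Good (a : O) (R : O → Rel Y) : Prop :=
  ∀ b, b < a → IsIt (leA R b) (R b) ∧ CCCR (two (leA R b) (R b)) ∧
    Small.{0} {y : Y | ∃ p, R b p (some y) (some y)}

theorem Good.mono {a b : O} {R : O → Rel Y} (h : Good a R) (hb : b ≤ a) : Good b R :=
  fun c hc => h c (hc.trans_le hb)

theorem Good.congr {a : O} {R R' : O → Rel Y} (h : Good a R) (e : ∀ γ, γ < a → R' γ = R γ) :
    Good a R' := fun b hb => by
  rw [leA_congr fun γ hγ => e γ (hγ.trans hb), e b hb]
  exact h b hb

section stage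
variable {R : O → Rel Y} {a b : O} {p q r : C Y}

theorem leA.restr (h : leA R a p q) (hb : b ≤ a) : leA R b (p.restr b) (q.restr b) :=
  ⟨sup_restr _ _, sup_restr _ _, fun γ hγ => by
    rw [restr_restr hγ.le, restr_f_of_lt hγ, restr_f_of_lt hγ]
    exact h.2.2 γ (hγ.trans_le hb)⟩

theorem leA.restr_le (h : leA R a p q) (hb : b ≤ a) (hq : Sup b q) : leA R b (p.restr b) q := by
  have := h.restr hb
  rwa [hq.restr_eq] at this

theorem leA.down (h : leA R a p q) (hb : b ≤ a) (hp : Sup b p) (hq : Sup b q) : leA R b p q :=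
  ⟨hp, hq, fun γ hγ => h.2.2 γ (hγ.trans_le hb)⟩

theorem Good.trans (g : Good a R) (h : leA R a p q) (h' : leA R a q r) : leA R a p r :=
  ⟨h.1, h'.2.1, fun γ hγ => (g γ hγ).1.trans _ _ _ _ (h.2.2 γ hγ)
    ((g γ hγ).1.mono _ _ _ _ (h.restr hγ.le) (h'.2.2 γ hγ))⟩

theorem Good.left (g : Good a R) (h : leA R a p q) : leA R a p p :=
  ⟨h.1, h.1, fun γ hγ => (g γ hγ).1.left _ _ _ (h.2.2 γ hγ)⟩

theorem Good.up (g : Good a R) (hb : b ≤ a) (h : leA R b p q) : leA R a p q :=
  ⟨h.1.mono hb, h.2.1.mono hb, fun γ hγ => by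
    rcases lt_or_ge γ b with h1 | h1
    · exact h.2.2 γ h1
    · rw [h.1.none h1, h.2.1.none h1]
      exact (g γ hγ).1.nn _⟩

theorem Good.le_restr (g : Good a R) (h : leA R a p p) (b : O) : leA R a p (p.restr b) :=
  ⟨h.1, fun γ hγ => h.1 γ fun e => hγ (by
    rcases lt_or_ge γ b with h1 | h1
    · rw [restr_f_of_lt h1, e]
    · exact restr_f_of_ge h1), fun γ hγ => by
    rcases lt_or_ge γ b with h1 | h1
    · rw [restr_f_of_lt h1]; exact h.2.2 γ hγ
    · rw [restr_f_of_ge h1]; exact (g γ hγ).1.top _ _ (h.2.2 γ hγ)⟩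

theorem Good.le_one (g : Good a R) (h : leA R a p p) : leA R a p C.one :=
  ⟨h.1, sup_one _, fun γ hγ => (g γ hγ).1.top _ _ (h.2.2 γ hγ)⟩

theorem Good.one_le (g : Good a R) : leA R a C.one C.one :=
  ⟨sup_one _, sup_one _, fun γ hγ => (g γ hγ).1.nn _⟩

theorem leA_of_forall {ι : Type} {s : C Y} {p : ι → C Y} (hs : Sup a s) (hp : ∀ i, Sup a (p i))
    (h : ∀ γ, γ < a → (∀ i, leA R γ (s.restr γ) ((p i).restr γ)) →
      ∀ i, R γ (s.restr γ) (s.f γ) ((p i).f γ)) : ∀ i, leA R a s (p i) := by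
  have key : ∀ γ, γ < a → ∀ i, R γ (s.restr γ) (s.f γ) ((p i).f γ) := by
    intro γ
    induction γ using WellFoundedLT.induction with
    | ind γ ih =>
      refine fun hγ => h γ hγ fun i => ⟨sup_restr _ _, sup_restr _ _, fun δ hδ => ?_⟩
      rw [restr_restr hδ.le, restr_f_of_lt hδ, restr_f_of_lt hδ]
      exact ih δ hδ (hδ.trans hγ) i
  exact fun i => ⟨hs, hp i, fun γ hγ => key γ hγ i⟩

theorem Good.amalg (g : Good a R) (hb : b ≤ a) (hp : leA R a p p) (hq : leA R a q q)
    (h1 : leA R b r (p.restr b)) (h2 : leA R b r (q.restr b))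
    (hd : ∀ γ, b ≤ γ → p.f γ = none ∨ q.f γ = none) :
    ∃ s, leA R a s p ∧ leA R a s q ∧ s.restr b = r ∧ ∀ γ, b ≤ γ → s.f γ = (p.f γ).or (q.f γ) := by
  classical
  let s : C Y := ⟨fun γ => if γ < b then r.f γ else (p.f γ).or (q.f γ),
    ((r.fin.union p.fin).union q.fin).subset fun γ h => by
      by_contra hcon
      simp only [Set.mem_union, Set.mem_ofPred_eq, not_or, not_not] at hcon
      simp [hcon] at h⟩
  have e1 : s.restr b = r := C.ext (funext fun γ => by
    rcases lt_or_ge γ b with h | h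
    · rw [restr_f_of_lt h]; exact if_pos h
    · rw [restr_f_of_ge h, h1.1.none h])
  have e2 : ∀ γ, b ≤ γ → s.f γ = (p.f γ).or (q.f γ) := fun γ h => if_neg (not_lt.2 h)
  have hs : Sup a s := fun γ hγ => by
    rcases lt_or_ge γ b with h | h
    · exact h.trans_le hb
    · rw [e2 γ h] at hγ
      by_cases h3 : p.f γ = none
      · exact hq.1 γ (by simpa [h3] using hγ)
      · exact hp.1 γ h3
  have key := leA_of_forall (R := R) (ι := Bool) (s := s) (p := fun c => if c then p else q) hs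
    (by rintro (_ | _); exacts [hq.1, hp.1]) (by
      intro γ hγa h
      rcases lt_or_ge γ b with hγ | hγ
      · have e3 : s.restr γ = r.restr γ := by rw [← e1, restr_restr hγ.le]
        have e4 : s.f γ = r.f γ := if_pos hγ
        rw [e3, e4]
        rintro (_ | _)
        · exact restr_f_of_lt (p := q) hγ ▸ h2.2.2 γ hγ
        · exact restr_f_of_lt (p := p) hγ ▸ h1.2.2 γ hγ
      · have g1 := (g γ hγa).1.mono _ _ _ _ (h true) (hp.2.2 γ hγa)
        have g2 := (g γ hγa).1.mono _ _ _ _ (h false) (hq.2.2 γ hγa)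
        rw [e2 γ hγ]
        rcases hd γ hγ with h3 | h3
        · rintro (_ | _)
          · simpa [h3] using g2
          · simpa [h3] using (g γ hγa).1.top _ _ g2
        · rintro (_ | _)
          · simpa [h3] using (g γ hγa).1.top _ _ g1
          · simpa [h3] using g1)
  exact ⟨s, key true, key false, e1, e2⟩

theorem Good.amalg1 (g : Good a R) (hb : b ≤ a) (hp : leA R a p p) (h1 : leA R b r (p.restr b)) :
    ∃ s, leA R a s p ∧ leA R a s r ∧ s.restr b = r ∧ ∀ γ, b ≤ γ → s.f γ = p.f γ := by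
  have h2 := (g.mono hb).left h1
  obtain ⟨s, g1, g2, g3, g4⟩ := g.amalg hb hp (g.up hb h2) h1 (by rwa [h1.1.restr_eq])
    fun γ h => Or.inr (h1.1.none h)
  exact ⟨s, g1, g2, g3, fun γ h => by rw [g4 γ h, h1.1.none h, Option.or_none]⟩

theorem Good.upd_le (g : Good a R) (hp : leA R a p p) (hb : b < a) {x : Option Y}
    (h : R b (p.restr b) x (p.f b)) : leA R a (p.upd b x) p := by
  refine leA_of_forall (ι := Unit) (p := fun _ => p) (fun γ hγ => ?_) (fun _ => hp.1)
    (fun γ hγ h1 _ => ?_) ()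
  · by_cases e : γ = b
    · exact e ▸ hb
    · exact hp.1 γ (upd_of_ne p x e ▸ hγ)
  · by_cases e : γ = b
    · subst e
      rwa [upd_self, upd_restr _ _ le_rfl]
    · rw [upd_of_ne _ _ e]
      exact (g γ hγ).1.mono _ _ _ _ (h1 ()) (hp.2.2 γ hγ)

theorem leA_succ_of_two {x : Option Y} (hp : Sup (Order.succ a) p)
    (h : two (leA R a) (R a) (r, x) (p.restr a, p.f a)) :
    leA R (Order.succ a) (r.upd a x) p := by
  refine ⟨fun γ hγ => ?_, hp, fun γ hγ => ?_⟩
  · by_cases e : γ = a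
    · exact e ▸ Order.lt_succ a
    · rw [upd_of_ne _ _ e] at hγ
      exact (h.1.1 γ hγ).trans (Order.lt_succ a)
  · rcases (Order.lt_succ_iff.1 hγ).lt_or_eq with e | rfl
    · rw [upd_restr _ _ e.le, upd_of_ne _ _ e.ne, ← restr_f_of_lt (p := p) e]
      exact h.1.2.2 γ e
    · rw [upd_restr _ _ le_rfl, upd_self, h.1.1.restr_eq]
      exact h.2

/-- a finite support below a nonzero ordinal without a largest element is bounded below it -/
theorem exists_lt_of_finite {S : Set O} (hS : S.Finite) (ha : Order.IsSuccLimit a)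
    (h : ∀ γ ∈ S, γ < a) : ∃ β < a, ∀ γ ∈ S, γ < β := by
  rcases S.eq_empty_or_nonempty with rfl | hne
  · exact ⟨0, ha.pos, by simp⟩
  · obtain ⟨m, hm, hm'⟩ := S.exists_max_image id hS hne
    exact ⟨Order.succ m, ha.succ_lt (h m hm), fun γ hγ => Order.lt_succ_iff.2 (hm' γ hγ)⟩

theorem Good.cccr (g : Good a R) : CCCR (leA R a) := by
  classical
  induction a using Ordinal.limitRecOn with
  | zero =>
    intro ι I hI p hp
    obtain ⟨i, hi, j, hj, hne⟩ := exists_ne_of_not_countable hI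
    exact ⟨i, hi, j, hj, hne, C.one, ⟨sup_one _, (hp i hi).1, fun γ h => absurd h (by simp)⟩,
      sup_one _, (hp j hj).1, fun γ h => absurd h (by simp)⟩
  | add_one a _ =>
    intro ι I hI p hp
    obtain ⟨i, hi, j, hj, hne, r, r1, r2⟩ := (g a (Order.lt_succ a)).2.1 ι I hI
      (fun i => ((p i).restr a, (p i).f a))
      fun i hi => ⟨(hp i hi).restr (Order.le_succ a), (hp i hi).2.2 a (Order.lt_succ a)⟩
    exact ⟨i, hi, j, hj, hne, r.1.upd a r.2, leA_succ_of_two (hp i hi).1 r1,
      leA_succ_of_two (hp j hj).1 r2⟩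
  | limit a ha ih =>
    intro ι I0 hI0 p hp
    obtain ⟨D, I, hsub, hI, hD, hD'⟩ := exists_delta (fun ξ => (p ξ).fin.toFinset) hI0
    obtain ⟨ξ0, hξ0⟩ := nonempty_of_not_countable hI
    obtain ⟨β, hβ, hβ'⟩ := exists_lt_of_finite D.finite_toSet ha fun γ hγ =>
      (hp ξ0 (hsub hξ0)).1 γ ((p ξ0).fin.mem_toFinset.1 (hD ξ0 hξ0 hγ))
    obtain ⟨ξ, hξ, η, hη, hne, r, r1, r2⟩ := ih β hβ (g.mono hβ.le) ι I hI
      (fun ξ => (p ξ).restr β) fun ξ hξ => (hp ξ (hsub hξ)).restr hβ.le
    obtain ⟨u, u1, u2, -⟩ := g.amalg hβ.le (hp ξ (hsub hξ)) (hp η (hsub hη)) r1 r2 fun γ hγ => by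
      by_contra hcon
      push Not at hcon
      exact absurd (hβ' γ (hD' ξ hξ η hη hne γ ((p ξ).fin.mem_toFinset.2 hcon.1)
        ((p η).fin.mem_toFinset.2 hcon.2))) (not_lt.2 hγ)
    exact ⟨ξ, hsub hξ, η, hsub hη, hne, u, u1, u2⟩

theorem Good.small (g : Good a R) : Small.{0} {p : C Y // leA R a p p} := by
  have h1 : ∀ b : Set.Iio a, Small.{0} {y : Y | ∃ p, R b.1 p (some y) (some y)} :=
    fun b => (g b.1 b.2).2.2
  have h2 : ∀ (p : {p : C Y // leA R a p p}) (b : Set.Iio a),
      ∃ z : Option {y : Y | ∃ p, R b.1 p (some y) (some y)}, z.map Subtype.val = p.1.f b.1 := by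
    intro p b
    have h3 := p.2.2.2 b.1 b.2
    rcases e : p.1.f b.1 with _ | y
    · exact ⟨none, rfl⟩
    · rw [e] at h3
      exact ⟨some ⟨y, _, h3⟩, rfl⟩
  choose z hz using h2
  refine small_of_injective (f := z) fun p q h => Subtype.ext (C.ext (funext fun γ => ?_))
  rcases lt_or_ge γ a with hγ | hγ
  · rw [← hz p ⟨γ, hγ⟩, ← hz q ⟨γ, hγ⟩, h]
  · rw [p.2.1.none hγ, q.2.1.none hγ]

end stage

end Pool.Agent.P.MP_0d6be8_lc.NKIter
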