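import Mathlib

set_option autoImplicit false
set_option linter.unusedSectionVars false

/-! First-order part of the construction of a Radon measure from a finitely additive one.
All sorts and operations are parameters; nothing here builds a set or a function. -/

namespace Pool.Agent.P.MP_0d6be8_lc.NL

/-- ordered fields -/
structure OFld {R : Type} (add mul : R → R → R) (zero one : R) (le : R → R → Prop) : Prop where
  add_assoc : ∀ a b c, add (add a b) c = add a (add b c)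
  zero_add : ∀ a, add zero a = a
  neg : ∀ a, ∃ b, add b a = zero
  mul_assoc : ∀ a b c, mul (mul a b) c = mul a (mul b c)
  mul_comm : ∀ a b, mul a b = mul b a
  one_mul : ∀ a, mul one a = a
  inv : ∀ a, a ≠ zero → ∃ b, mul a b = one
  distrib : ∀ a b c, mul a (add b c) = add (mul a b) (mul a c)
  ne : zero ≠ one
  refl : ∀ a, le a a
  trans : ∀ a b c, le a b → le b c → le a c
  antisymm : ∀ a b, le a b → le b a → a = b
  total : ∀ a b, le a b ∨ le b a
  add_le : ∀ a b c, le a b → le (add a c) (add b c)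
  mul_nonneg : ∀ a b, le zero a → le zero b → le zero (mul a b)

section inst
variable {R : Type} {add mul : R → R → R} {zero one : R} {le : R → R → Prop}

open Classical in
/-- the field -/
@[reducible] noncomputable def OFld.field (h : OFld add mul zero one le) : Field R :=
  @Field.ofMinimalAxioms R ⟨add⟩ ⟨mul⟩ ⟨fun a => (h.neg a).choose⟩
    ⟨fun a => if e : a = zero then zero else (h.inv a e).choose⟩ ⟨zero⟩ ⟨one⟩
    h.add_assoc h.zero_add (fun a => (h.neg a).choose_spec) h.mul_assoc h.mul_comm h.one_mul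
    (fun a e => by
      have e' : ¬ a = zero := e
      show mul a (if e : a = zero then zero else (h.inv a e).choose) = one
      rw [dif_neg e']
      exact (h.inv a e').choose_spec)
    (dif_pos rfl) h.distrib ⟨zero, one, h.ne⟩

/-- the order -/
@[reducible] noncomputable def OFld.order (h : OFld add mul zero one le) : LinearOrder R where
  le := le
  lt := fun a b => le a b ∧ ¬ le b a
  le_refl := h.refl
  le_trans := h.trans
  lt_iff_le_not_ge := fun _ _ => Iff.rfl
  le_antisymm := h.antisymm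
  le_total := h.total
  toDecidableLE := fun _ _ => Classical.propDecidable _

theorem OFld.strict (h : OFld add mul zero one le) :
    @IsStrictOrderedRing R h.field.toSemifield.toDivisionSemiring.toSemiring
      h.order.toPartialOrder := by
  let _ := h.field
  let _ := h.order
  have h1 : IsOrderedAddMonoid R := { add_le_add_left := fun a b e c => h.add_le a b c e }
  have h2 : ∀ a b : R, 0 ≤ a → 0 ≤ b → 0 ≤ a * b := h.mul_nonneg
  have h3 : ZeroLEOneClass R := ⟨by
    rcases le_total (0 : R) 1 with e | e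
    · exact e
    · have := h2 (-1) (-1) (neg_nonneg.2 e) (neg_nonneg.2 e)
      simpa using this⟩
  have h4 : IsOrderedRing R := IsOrderedRing.of_mul_nonneg h2
  infer_instance

end inst

variable {R : Type} [Field R] [LinearOrder R] [IsStrictOrderedRing R]

/-- least upper bound -/
structure Lub (G : R → Prop) (x : R) : Prop where
  ub : ∀ r, G r → r ≤ x
  le : ∀ y, (∀ r, G r → r ≤ y) → x ≤ y

/-- greatest lower bound -/
structure Glb (G : R → Prop) (x : R) : Prop where
  lb : ∀ r, G r → x ≤ r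
  le : ∀ y, (∀ r, G r → y ≤ r) → y ≤ x

theorem Lub.glb {G L : R → Prop} {x : R} (hL : ∀ y, L y ↔ ∀ r, G r → y ≤ r) (h : Lub L x) :
    Glb G x :=
  ⟨fun r hr => h.le r fun y hy => (hL y).1 hy r hr, fun y hy => h.ub y ((hL y).2 hy)⟩

theorem Lub.ex {G : R → Prop} {x y : R} (h : Lub G x) (e : y < x) : ∃ r, G r ∧ y < r := by
  by_contra hn
  exact absurd (h.le y fun r hr => not_lt.1 fun e' => hn ⟨r, hr, e'⟩) (not_le.2 e)

theorem Glb.ex {G : R → Prop} {x y : R} (h : Glb G x) (e : x < y) : ∃ r, G r ∧ r < y := by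
  by_contra hn
  exact absurd (h.le y fun r hr => not_lt.1 fun e' => hn ⟨r, hr, e'⟩) (not_le.2 e)

theorem lub_eq {G : R → Prop} {x y : R} (h : Lub G x) (e : ∀ r, G r ↔ r ≤ y) : x = y :=
  le_antisymm (h.le y fun r hr => (e r).1 hr) (h.ub y ((e y).2 le_rfl))

theorem lub_add {G H K : R → Prop} {x y z : R} (hG : Lub G x) (hH : Lub H y) (hK : Lub K z)
    (hd : ∀ r s, s ≤ r → K r → K s)
    (h1 : ∀ r s, G r → H s → K (r + s)) (h2 : ∀ r s, ¬ G r → ¬ H s → ¬ K (r + s)) :
    z = x + y := by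
  refine le_antisymm (le_of_forall_pos_le_add fun ε hε => hK.le _ fun r hr => ?_)
    (le_of_forall_pos_le_add fun ε hε => ?_)
  · by_contra hn
    refine h2 (x + ε / 2) (y + ε / 2) (fun e => ?_) (fun e => ?_) (hd r _ (by linarith) hr)
    · have := hG.ub _ e; linarith
    · have := hH.ub _ e; linarith
  · obtain ⟨r, hr, e⟩ := hG.ex (y := x - ε / 2) (by linarith)
    obtain ⟨s, hs, e'⟩ := hH.ex (y := y - ε / 2) (by linarith)
    have := hK.ub _ (h1 r s hr hs)
    linarith

theorem exists_half : ∃ h : R, h + h = 1 := ⟨1 / 2, by ring⟩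
theorem exists_neg_one : ∃ m : R, m + 1 = 0 := ⟨-1, by ring⟩
theorem half_add {h a b c d : R} : h * (a + c + (b + d)) = h * (a + b) + h * (c + d) := by ring
theorem half_same {h c : R} (e : h + h = 1) : h * (c + c) = c := by linear_combination c * e
theorem half_nonneg {h a b : R} (e : h + h = 1) (ha : 0 ≤ a) (hb : 0 ≤ b) : 0 ≤ h * (a + b) :=
  mul_nonneg (by linarith) (add_nonneg ha hb)
theorem half_one {h a b : R} (e : a + b = 1) : h * (a + b) = h := by rw [e, mul_one]
theorem le_one_of_add {a b : R} (e : 1 = a + b) (hb : 0 ≤ b) : a ≤ 1 := by linarith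
theorem add_le_of_eq {a b c r s : R} (e : c = a + b) (h1 : r ≤ a) (h2 : s ≤ b) : r + s ≤ c := by
  linarith
theorem not_add_le_of_eq {a b c r s : R} (e : c = a + b) (h1 : ¬ r ≤ a) (h2 : ¬ s ≤ b) :
    ¬ r + s ≤ c := fun h => by
  have := not_le.1 h1
  have := not_le.1 h2
  linarith
theorem no_step {x : R} : ¬ x + 1 ≤ x := fun h => by linarith
theorem unb {G : R → Prop} {x : R} (h : Lub G x) (hs : ∀ r, G r → G (r + 1)) : False := by
  obtain ⟨r, hr, e⟩ := h.ex (y := x - 1) (by linarith)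
  have := h.ub _ (hs r hr)
  linarith

theorem succ_ge {x y : R} (h : x ≤ y) : x ≤ y + 1 := by linarith
theorem neg_step {c d m : R} (h : c + d = 0) (e : m + 1 = 0) : c + 1 + (d + m) = 0 := by linarith
theorem le_of_inner {x b : R} (h : ∀ ε : R, 0 < ε → ∃ y, y ≤ b ∧ x < y + ε) : x ≤ b :=
  le_of_forall_pos_le_add fun ε hε => by
    obtain ⟨y, h1, h2⟩ := h ε hε
    linarith

/-- the value of a two-point measure -/
structure Two (c d : R) (y z : Prop) (x : R) : Prop where
  both : y → z → x = 0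
  pos : y → ¬ z → x = c
  neg : ¬ y → z → x = d
  none : ¬ y → ¬ z → x = 0

theorem Two.add {c d a b x : R} {y z y' z' y'' z'' : Prop} (e : c + d = 0) (h : Two c d y z a)
    (h' : Two c d y' z' b) (h'' : Two c d y'' z'' x) (hy : y'' ↔ y ∨ y') (hz : z'' ↔ z ∨ z')
    (dy : y → ¬ y') (dz : z → ¬ z') : x = a + b := by
  obtain ⟨a1, a2, a3, a4⟩ := h
  obtain ⟨b1, b2, b3, b4⟩ := h'
  obtain ⟨c1, c2, c3, c4⟩ := h''
  by_cases y <;> by_cases z <;> by_cases y' <;> by_cases z' <;> simp_all <;> linarith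

theorem Two.abs {c d x t : R} {y z : Prop} (e : c + d = 0) (hc : 0 ≤ c) (h : Two c d y z x)
    (h0 : 0 ≤ t) (ht : t = x ∨ x + t = 0) :
    ((y ↔ z) → t = 0) ∧ (¬ (y ↔ z) → t = c) := by
  obtain ⟨a1, a2, a3, a4⟩ := h
  by_cases y <;> by_cases z <;> simp_all <;> rcases ht with ht | ht <;> linarith

theorem le_of_cases {c t : R} {p : Prop} (hc : 0 ≤ c) (h : (p → t = 0) ∧ (¬ p → t = c)) :
    t ≤ c := by
  by_cases e : p
  · rw [h.1 e]; exact hc
  · exact (h.2 e).le

/-- the bound for the finite sums of a two-point measure -/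
def Inv (c : R) (Y Z : Prop) (s : R) : Prop :=
  (¬ Y → ¬ Z → s ≤ 0) ∧ (¬ Y → s ≤ c) ∧ (¬ Z → s ≤ c) ∧ s ≤ c + c

theorem Inv.zero {c : R} (hc : 0 ≤ c) (Y Z : Prop) : Inv c Y Z 0 :=
  ⟨fun _ _ => le_rfl, fun _ => hc, fun _ => hc, add_nonneg hc hc⟩

theorem Inv.step {c s t : R} {Y Z y z Y' Z' : Prop} (h : Inv c Y Z s) (hy : y → ¬ Y)
    (hz : z → ¬ Z) (ht : ((y ↔ z) → t = 0) ∧ (¬ (y ↔ z) → t = c)) (hY : Y ∨ y → Y')
    (hZ : Z ∨ z → Z') : Inv c Y' Z' (s + t) := by
  obtain ⟨h1, h2, h3, h4⟩ := h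
  by_cases e : (y ↔ z)
  · rw [ht.1 e, add_zero]
    exact ⟨fun a b => h1 (fun e => a (hY (Or.inl e))) fun e => b (hZ (Or.inl e)),
      fun a => h2 fun e => a (hY (Or.inl e)), fun b => h3 fun e => b (hZ (Or.inl e)), h4⟩
  · rw [ht.2 e]
    by_cases e1 : y
    · have := h2 (hy e1)
      refine ⟨fun a _ => (a (hY (Or.inr e1))).elim, fun a => (a (hY (Or.inr e1))).elim,
        fun b => ?_, by linarith⟩
      have := h1 (hy e1) fun e => b (hZ (Or.inl e))
      linarith
    · have e2 : z := by tauto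
      have := h3 (hz e2)
      refine ⟨fun _ b => (b (hZ (Or.inr e2))).elim, fun a => ?_,
        fun b => (b (hZ (Or.inr e2))).elim, by linarith⟩
      have := h1 (fun e => a (hY (Or.inl e))) (hz e2)
      linarith

theorem exists_abs (x : R) : ∃ t : R, 0 ≤ t ∧ (t = x ∨ x + t = 0) := by
  rcases le_total 0 x with e | e
  · exact ⟨x, e, Or.inl rfl⟩
  · exact ⟨-x, neg_nonneg.2 e, Or.inr (add_neg_cancel x)⟩

/-- Boolean algebras -/
structure BAx {A : Type} (le : A → A → Prop) (inf sup : A → A → A) (cpl : A → A) : Prop where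
  ne : Nonempty A
  refl : ∀ a, le a a
  antisymm : ∀ a b, le a b → le b a → a = b
  trans : ∀ a b c, le a b → le b c → le a c
  le_inf : ∀ a b x, le x (inf a b) ↔ le x a ∧ le x b
  sup_le : ∀ a b x, le (sup a b) x ↔ le a x ∧ le b x
  distrib : ∀ a b c x, le (inf a b) x → le (inf a c) x → le (inf a (sup b c)) x
  cpl_bot : ∀ a x y, le x a → le x (cpl a) → le x y
  cpl_top : ∀ a x y, le a x → le (cpl a) x → le y x

section ba
variable {A : Type} {le : A → A → Prop} {inf sup : A → A → A} {cpl : A → A}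

theorem BAx.split (h : BAx le inf sup cpl) {a c x : A} (h1 : le (inf c a) x)
    (h2 : le (inf c (cpl a)) x) : le c x :=
  h.trans _ _ _ ((h.le_inf _ _ _).2 ⟨h.refl c, h.cpl_top a _ _
    ((h.sup_le a (cpl a) _).1 (h.refl _)).1 ((h.sup_le a (cpl a) _).1 (h.refl _)).2⟩)
    (h.distrib c a (cpl a) x h1 h2)

theorem BAx.inf_l (h : BAx le inf sup cpl) (a b : A) : le (inf a b) a :=
  ((h.le_inf a b _).1 (h.refl _)).1

theorem BAx.inf_r (h : BAx le inf sup cpl) (a b : A) : le (inf a b) b :=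
  ((h.le_inf a b _).1 (h.refl _)).2

theorem BAx.inf_eq (h : BAx le inf sup cpl) {a b : A} (e : le a b) : inf a b = a :=
  h.antisymm _ _ (h.inf_l a b) ((h.le_inf _ _ _).2 ⟨h.refl a, e⟩)

variable {P : Type} {el : P → A → Prop}

theorem BAx.el_mono (h : BAx le inf sup cpl) (hi : ∀ p a b, el p (inf a b) ↔ el p a ∧ el p b)
    {p : P} {a b : A} (e : le a b) (ha : el p a) : el p b :=
  ((hi p a b).1 ((h.inf_eq e).symm ▸ ha)).2

theorem BAx.el_bot (h : BAx le inf sup cpl) (hi : ∀ p a b, el p (inf a b) ↔ el p a ∧ el p b)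
    (hc : ∀ p a, el p (cpl a) ↔ ¬ el p a) {p : P} {a : A} (e : ∀ y, le a y) : ¬ el p a :=
  fun ha => (hc p a).1 (h.el_mono hi (e _) ha) ha

theorem BAx.el_disj (h : BAx le inf sup cpl) (hi : ∀ p a b, el p (inf a b) ↔ el p a ∧ el p b)
    (hc : ∀ p a, el p (cpl a) ↔ ¬ el p a) {p : P} {a b : A}
    (e : ∀ x y, le x a → le x b → le x y) (ha : el p a) : ¬ el p b := fun hb =>
  h.el_bot hi hc (fun y => e _ y (h.inf_l a b) (h.inf_r a b)) ((hi p a b).2 ⟨ha, hb⟩)

theorem BAx.el_sup (h : BAx le inf sup cpl) (hi : ∀ p a b, el p (inf a b) ↔ el p a ∧ el p b)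
    (hc : ∀ p a, el p (cpl a) ↔ ¬ el p a) (p : P) (a b : A) :
    el p (sup a b) ↔ el p a ∨ el p b := by
  refine ⟨fun e => by_contra fun hn => ?_, fun e => e.elim
    (h.el_mono hi ((h.sup_le a b _).1 (h.refl _)).1)
    (h.el_mono hi ((h.sup_le a b _).1 (h.refl _)).2)⟩
  refine h.el_bot hi hc (a := inf (inf (cpl a) (cpl b)) (sup a b)) (fun y => ?_)
    ((hi _ _ _).2 ⟨(hi _ _ _).2 ⟨(hc _ _).2 fun e => hn (Or.inl e),
      (hc _ _).2 fun e => hn (Or.inr e)⟩, e⟩)
  exact h.distrib _ a b y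
    (h.cpl_bot a _ _ (h.inf_r _ _) (h.trans _ _ _ (h.inf_l _ _) (h.inf_l _ _)))
    (h.cpl_bot b _ _ (h.inf_r _ _) (h.trans _ _ _ (h.inf_l _ _) (h.inf_r _ _)))

end ba

section measure
variable {A P C : Type}

/-- an algebra acting on points, and coded sets of points -/
structure Sp (inf : A → A → A) (cpl : A → A) (el : P → A → Prop) (mem : C → P → Prop)
    (un it : C → C → C) (co : C → C) (bs : A → C) : Prop where
  ne : Nonempty A
  el_inf : ∀ p a b, el p (inf a b) ↔ el p a ∧ el p b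
  el_cpl : ∀ p a, el p (cpl a) ↔ ¬ el p a
  un : ∀ S T p, mem (un S T) p ↔ mem S p ∨ mem T p
  it : ∀ S T p, mem (it S T) p ↔ mem S p ∧ mem T p
  co : ∀ S p, mem (co S) p ↔ ¬ mem S p
  bs : ∀ a p, mem (bs a) p ↔ el p a

/-- finitely additive probability -/
structure FA (el : P → A → Prop) (ν : A → R) : Prop where
  nonneg : ∀ a, 0 ≤ ν a
  add : ∀ a b c, (∀ p, el p c ↔ el p a ∨ el p b) → (∀ p, el p a → ¬ el p b) → ν c = ν a + ν b
  one : ∀ a, (∀ p, el p a) → ν a = 1

/-- open sets -/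
def Opn (el : P → A → Prop) (U : P → Prop) : Prop :=
  ∀ p, U p → ∃ a, el p a ∧ ∀ q, el q a → U q

/-- inner content, outer measure and compactness for two open sets -/
structure Out (el : P → A → Prop) (mem : C → P → Prop) (ν : A → R) (lam μ : C → R) : Prop where
  hl : ∀ U, Lub (fun r => ∃ a, (∀ p, el p a → mem U p) ∧ ν a = r) (lam U)
  hm : ∀ S, Glb (fun r => ∃ U, Opn el (mem U) ∧ (∀ p, mem S p → mem U p) ∧ lam U = r) (μ S)
  cpt : ∀ U V a, Opn el (mem U) → Opn el (mem V) → (∀ p, el p a → mem U p ∨ mem V p) →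
    ∃ b c, (∀ p, el p b → mem U p) ∧ (∀ p, el p c → mem V p) ∧ ∀ p, el p a → el p b ∨ el p c

variable {inf : A → A → A} {cpl : A → A} {el : P → A → Prop} {mem : C → P → Prop}
  {un it : C → C → C} {co : C → C} {bs : A → C} {ν : A → R} {lam μ : C → R}

theorem Sp.sup (s : Sp inf cpl el mem un it co bs) (a b : A) :
    ∃ c, ∀ p, el p c ↔ el p a ∨ el p b :=
  ⟨cpl (inf (cpl a) (cpl b)), fun p => by rw [s.el_cpl, s.el_inf, s.el_cpl, s.el_cpl]; tauto⟩

theorem Sp.bot (s : Sp inf cpl el mem un it co bs) : ∃ c, ∀ p, ¬ el p c := by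
  obtain ⟨a⟩ := s.ne
  exact ⟨inf a (cpl a), fun p => by rw [s.el_inf, s.el_cpl]; tauto⟩

theorem Sp.top (s : Sp inf cpl el mem un it co bs) : ∃ c, ∀ p, el p c := by
  obtain ⟨a, ha⟩ := s.bot
  exact ⟨cpl a, fun p => (s.el_cpl p a).2 (ha p)⟩

theorem FA.zero (f : FA el ν) {a : A} (h : ∀ p, ¬ el p a) : ν a = 0 := by
  have := f.add a a a (fun p => by tauto) (fun p e => (h p e).elim)
  linarith

theorem FA.mono (s : Sp inf cpl el mem un it co bs) (f : FA el ν) {a b : A}
    (h : ∀ p, el p a → el p b) : ν a ≤ ν b := by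
  have h1 := f.add a (inf b (cpl a)) b (fun p => by
    have := h p
    rw [s.el_inf, s.el_cpl]; tauto) (fun p => by rw [s.el_inf, s.el_cpl]; tauto)
  have := f.nonneg (inf b (cpl a))
  linarith

theorem FA.le_one (s : Sp inf cpl el mem un it co bs) (f : FA el ν) (a : A) : ν a ≤ 1 := by
  obtain ⟨t, ht⟩ := s.top
  exact (f.mono s fun p _ => ht p).trans (f.one t ht).le

theorem FA.compl (s : Sp inf cpl el mem un it co bs) (f : FA el ν) (a : A) :
    ν a + ν (cpl a) = 1 := by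
  obtain ⟨t, ht⟩ := s.top
  rw [← f.one t ht]
  exact (f.add a (cpl a) t (fun p => by have := ht p; rw [s.el_cpl]; tauto)
    (fun p => by rw [s.el_cpl]; tauto)).symm

theorem FA.modular (s : Sp inf cpl el mem un it co bs) (f : FA el ν) {a b c : A}
    (h : ∀ p, el p c ↔ el p a ∨ el p b) : ν c + ν (inf a b) = ν a + ν b := by
  have h1 := f.add a (inf b (cpl a)) c (fun p => by rw [h, s.el_inf, s.el_cpl]; tauto)
    (fun p => by rw [s.el_inf, s.el_cpl]; tauto)
  have h2 := f.add (inf a b) (inf b (cpl a)) b (fun p => by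
    rw [s.el_inf, s.el_inf, s.el_cpl]; tauto) (fun p => by rw [s.el_inf, s.el_inf, s.el_cpl]; tauto)
  linarith

theorem Sp.opn_bs (s : Sp inf cpl el mem un it co bs) (a : A) : Opn el (mem (bs a)) :=
  fun p h => ⟨a, (s.bs a p).1 h, fun q e => (s.bs a q).2 e⟩

theorem Sp.opn_un (s : Sp inf cpl el mem un it co bs) {U V : C} (hU : Opn el (mem U))
    (hV : Opn el (mem V)) : Opn el (mem (un U V)) := fun p h => by
  rcases (s.un U V p).1 h with e | e
  · obtain ⟨a, h1, h2⟩ := hU p e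
    exact ⟨a, h1, fun q e => (s.un U V q).2 (Or.inl (h2 q e))⟩
  · obtain ⟨a, h1, h2⟩ := hV p e
    exact ⟨a, h1, fun q e => (s.un U V q).2 (Or.inr (h2 q e))⟩

theorem Sp.opn_it (s : Sp inf cpl el mem un it co bs) {U V : C} (hU : Opn el (mem U))
    (hV : Opn el (mem V)) : Opn el (mem (it U V)) := fun p h => by
  obtain ⟨a, h1, h2⟩ := hU p ((s.it U V p).1 h).1
  obtain ⟨b, h3, h4⟩ := hV p ((s.it U V p).1 h).2
  exact ⟨inf a b, (s.el_inf p a b).2 ⟨h1, h3⟩, fun q e =>
    (s.it U V q).2 ⟨h2 q ((s.el_inf q a b).1 e).1, h4 q ((s.el_inf q a b).1 e).2⟩⟩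

variable (s : Sp inf cpl el mem un it co bs) (f : FA el ν) (o : Out el mem ν lam μ)
include s f o

theorem lam_ge {U : C} {a : A} (h : ∀ p, el p a → mem U p) : ν a ≤ lam U :=
  (o.hl U).ub _ ⟨a, h, rfl⟩

theorem lam_le {U : C} {r : R} (h : ∀ a, (∀ p, el p a → mem U p) → ν a ≤ r) : lam U ≤ r :=
  (o.hl U).le r fun _ ⟨a, h1, h2⟩ => h2 ▸ h a h1

theorem lam_mono {U V : C} (h : ∀ p, mem U p → mem V p) : lam U ≤ lam V :=
  lam_le s f o fun _ ha => lam_ge s f o fun p e => h p (ha p e)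

theorem lam_bs (a : A) : lam (bs a) = ν a :=
  le_antisymm (lam_le s f o fun _ hb => f.mono s fun p e => (s.bs a p).1 (hb p e))
    (lam_ge s f o fun p e => (s.bs a p).2 e)

theorem lam_sub {U V : C} (hU : Opn el (mem U)) (hV : Opn el (mem V)) :
    lam (un U V) + lam (it U V) ≤ lam U + lam V := by
  have key : ∀ a d, (∀ p, el p a → mem (un U V) p) → (∀ p, el p d → mem (it U V) p) →
      ν a + ν d ≤ lam U + lam V := by
    intro a d ha hd
    obtain ⟨b, c, hb, hc, h⟩ := o.cpt U V a hU hV fun p e => (s.un U V p).1 (ha p e)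
    obtain ⟨b', hb'⟩ := s.sup b d
    obtain ⟨c', hc'⟩ := s.sup c d
    obtain ⟨u, hu⟩ := s.sup b' c'
    have h1 := f.modular s hu
    have h2 : ν a ≤ ν u := f.mono s fun p e => by
      have := h p e
      rw [hu, hb', hc']; tauto
    have h3 : ν d ≤ ν (inf b' c') := f.mono s fun p e => by rw [s.el_inf, hb', hc']; tauto
    have h4 : ν b' ≤ lam U := lam_ge s f o fun p e =>
      ((hb' p).1 e).elim (hb p) fun e => ((s.it U V p).1 (hd p e)).1
    have h5 : ν c' ≤ lam V := lam_ge s f o fun p e =>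
      ((hc' p).1 e).elim (hc p) fun e => ((s.it U V p).1 (hd p e)).2
    linarith
  have h1 : lam (un U V) ≤ lam U + lam V - lam (it U V) := lam_le s f o fun a ha => by
    have : lam (it U V) ≤ lam U + lam V - ν a := lam_le s f o fun d hd => by
      have := key a d ha hd; linarith
    linarith
  linarith

theorem mu_le {S U : C} (hU : Opn el (mem U)) (h : ∀ p, mem S p → mem U p) : μ S ≤ lam U :=
  (o.hm S).lb _ ⟨U, hU, h, rfl⟩

theorem mu_ge {S : C} {r : R} (h : ∀ U, Opn el (mem U) → (∀ p, mem S p → mem U p) → r ≤ lam U) :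
    r ≤ μ S :=
  (o.hm S).le r fun _ ⟨U, h1, h2, h3⟩ => h3 ▸ h U h1 h2

theorem mu_mono {S T : C} (h : ∀ p, mem S p → mem T p) : μ S ≤ μ T :=
  mu_ge s f o fun _ hU hT => mu_le s f o hU fun p e => hT p (h p e)

theorem mu_congr {S T : C} (h : ∀ p, mem S p ↔ mem T p) : μ S = μ T :=
  le_antisymm (mu_mono s f o fun p => (h p).1) (mu_mono s f o fun p => (h p).2)

theorem mu_opn {U : C} (hU : Opn el (mem U)) : μ U = lam U :=
  le_antisymm (mu_le s f o hU fun _ e => e) (mu_ge s f o fun _ _ h => lam_mono s f o h)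

theorem mu_bs {S : C} {a : A} (h : ∀ p, mem S p ↔ el p a) : μ S = ν a := by
  rw [mu_congr s f o (T := bs a) fun p => (h p).trans (s.bs a p).symm,
    mu_opn s f o (s.opn_bs a), lam_bs s f o]

theorem mu_empty {S : C} (h : ∀ p, ¬ mem S p) : μ S = 0 := by
  obtain ⟨a, ha⟩ := s.bot
  rw [mu_bs s f o fun p => iff_of_false (h p) (ha p), f.zero ha]

theorem mu_univ {S : C} (h : ∀ p, mem S p) : μ S = 1 := by
  obtain ⟨a, ha⟩ := s.top
  rw [mu_bs s f o fun p => iff_of_true (h p) (ha p), f.one a ha]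

theorem mu_nonneg (S : C) : 0 ≤ μ S := by
  obtain ⟨a, ha⟩ := s.bot
  rw [← mu_empty s f o (S := bs a) fun p e => ha p ((s.bs a p).1 e)]
  exact mu_mono s f o fun p e => (ha p ((s.bs a p).1 e)).elim

theorem mu_sub (S T : C) : μ (un S T) + μ (it S T) ≤ μ S + μ T := by
  have key : ∀ U V, Opn el (mem U) → Opn el (mem V) → (∀ p, mem S p → mem U p) →
      (∀ p, mem T p → mem V p) → μ (un S T) + μ (it S T) ≤ lam U + lam V := by
    intro U V hU hV h1 h2
    have h3 := lam_sub s f o hU hV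
    have h4 : μ (un S T) ≤ lam (un U V) := mu_le s f o (s.opn_un hU hV) fun p e =>
      (s.un U V p).2 (((s.un S T p).1 e).imp (h1 p) (h2 p))
    have h5 : μ (it S T) ≤ lam (it U V) := mu_le s f o (s.opn_it hU hV) fun p e =>
      (s.it U V p).2 (((s.it S T p).1 e).imp (h1 p) (h2 p))
    linarith
  have h1 : μ (un S T) + μ (it S T) - μ T ≤ μ S := mu_ge s f o fun U hU h1 => by
    have : μ (un S T) + μ (it S T) - lam U ≤ μ T := mu_ge s f o fun V hV h2 => by
      have := key U V hU hV h1 h2; linarith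
    linarith
  linarith

theorem mu_cover {S T W : C} (h : ∀ p, mem W p → mem S p ∨ mem T p) : μ W ≤ μ S + μ T := by
  have h1 := mu_sub s f o S T
  have h2 := mu_nonneg s f o (it S T)
  have h3 : μ W ≤ μ (un S T) := mu_mono s f o fun p e => (s.un S T p).2 (h p e)
  linarith

theorem mu_co (S : C) : 1 ≤ μ S + μ (co S) := by
  obtain ⟨a, ha⟩ := s.top
  rw [← mu_univ s f o (S := bs a) fun p => (s.bs a p).2 (ha p)]
  exact mu_cover s f o fun p _ => by rw [s.co]; tauto

theorem ms_congr {S T : C} (h : ∀ p, mem S p ↔ mem T p) (e : μ S + μ (co S) ≤ 1) :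
    μ T + μ (co T) ≤ 1 := by
  rwa [← mu_congr s f o h, ← mu_congr s f o (S := co S) (T := co T) fun p => by
    rw [s.co, s.co, h]]

theorem ms_co {S : C} (e : μ S + μ (co S) ≤ 1) : μ (co S) + μ (co (co S)) ≤ 1 := by
  rw [mu_congr s f o (S := co (co S)) (T := S) fun p => by rw [s.co, s.co, not_not]]
  linarith

theorem ms_aux {S T : C} (e : μ S + μ (co S) ≤ 1) (e' : μ T + μ (co T) ≤ 1) :
    μ (un S T) + μ (co (un S T)) ≤ 1 ∧ μ (un S T) + μ (it S T) = μ S + μ T := by
  have h1 := mu_sub s f o S T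
  have h2 := mu_sub s f o (co S) (co T)
  have h3 : μ (un (co S) (co T)) = μ (co (it S T)) := mu_congr s f o fun p => by
    rw [s.un, s.co, s.co, s.co, s.it]; tauto
  have h4 : μ (it (co S) (co T)) = μ (co (un S T)) := mu_congr s f o fun p => by
    rw [s.it, s.co, s.co, s.co, s.un]; tauto
  have h5 := mu_co s f o (un S T)
  have h6 := mu_co s f o (it S T)
  have h7 := mu_co s f o S
  have h8 := mu_co s f o T
  constructor <;> linarith

theorem ms_un {S T W : C} (e : μ S + μ (co S) ≤ 1) (e' : μ T + μ (co T) ≤ 1)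
    (h : ∀ p, mem W p ↔ mem S p ∨ mem T p) : μ W + μ (co W) ≤ 1 :=
  ms_congr s f o (fun p => (s.un S T p).trans (h p).symm) (ms_aux s f o e e').1

theorem mu_add {S T W : C} (e : μ S + μ (co S) ≤ 1) (e' : μ T + μ (co T) ≤ 1)
    (h : ∀ p, mem W p ↔ mem S p ∨ mem T p) (hd : ∀ p, mem S p → ¬ mem T p) :
    μ W = μ S + μ T := by
  have h1 := (ms_aux s f o e e').2
  rw [mu_empty s f o (S := it S T) fun p e => hd p ((s.it S T p).1 e).1 ((s.it S T p).1 e).2,
    mu_congr s f o (S := un S T) (T := W) fun p => (s.un S T p).trans (h p).symm] at h1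
  linarith

theorem ms_opn {U : C} (hU : Opn el (mem U)) : μ U + μ (co U) ≤ 1 := by
  have : lam U ≤ 1 - μ (co U) := lam_le s f o fun a ha => by
    have h1 : μ (co U) ≤ μ (bs (cpl a)) := mu_mono s f o fun p e =>
      (s.bs _ p).2 ((s.el_cpl p a).2 fun e' => (s.co U p).1 e (ha p e'))
    rw [mu_bs s f o (s.bs (cpl a))] at h1
    have := f.compl s a
    linarith
  rw [mu_opn s f o hU]
  linarith

theorem start {S : C} {ε : R} (hε : 0 < ε) :
    ∃ V, Opn el (mem V) ∧ (∀ p, mem S p → mem V p) ∧ lam V < μ S + ε := by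
  obtain ⟨_, ⟨V, h1, h2, rfl⟩, h3⟩ := (o.hm S).ex (y := μ S + ε) (by linarith)
  exact ⟨V, h1, h2, h3⟩

theorem step {S T V : C} {ε : R} (hST : ∀ p, mem S p → mem T p) (hV : Opn el (mem V))
    (h1 : ∀ p, mem S p → mem V p) (h2 : lam V < μ S + ε) :
    ∃ W, (∀ p, mem V p → mem W p) ∧ Opn el (mem W) ∧ (∀ p, mem T p → mem W p) ∧
      lam W < μ T + ε := by
  obtain ⟨U, hU, h3, h4⟩ := start s f o (S := T) (ε := μ S + ε - lam V) (by linarith)
  refine ⟨un V U, fun p e => (s.un V U p).2 (Or.inl e), s.opn_un hV hU,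
    fun p e => (s.un V U p).2 (Or.inr (h3 p e)), ?_⟩
  have h5 := lam_sub s f o hV hU
  have h6 : μ S ≤ lam (it V U) := mu_le s f o (s.opn_it hV hU) fun p e =>
    (s.it V U p).2 ⟨h1 p e, h3 p (hST p e)⟩
  linarith

/-- continuity from below, given the open covers -/
theorem cont {J : Type} {S : J → C} {T : C} {r : R} (hr : ∀ n, μ (S n) ≤ r)
    (h : ∀ ε : R, 0 < ε → ∃ W, Opn el (mem W) ∧ (∀ p, mem T p → mem W p) ∧
      ∀ a, (∀ p, el p a → mem W p) → ∃ n V, (∀ p, el p a → mem V p) ∧ lam V < μ (S n) + ε) :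
    μ T ≤ r := by
  refine le_of_forall_pos_le_add fun ε hε => ?_
  obtain ⟨W, h1, h2, h3⟩ := h ε hε
  refine (mu_le s f o h1 h2).trans (lam_le s f o fun a ha => ?_)
  obtain ⟨n, V, h4, h5⟩ := h3 a ha
  have := lam_ge s f o h4
  have := hr n
  linarith

theorem ms_lim {J : Type} {S : J → C} {T : C} (hS : ∀ n, μ (S n) + μ (co (S n)) ≤ 1)
    (h : ∀ n p, mem (S n) p → mem T p) (hc : ∀ r, (∀ n, μ (S n) ≤ r) → μ T ≤ r) :
    μ T + μ (co T) ≤ 1 := by
  have := hc (1 - μ (co T)) fun n => by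
    have h1 : μ (co T) ≤ μ (co (S n)) := mu_mono s f o fun p e =>
      (s.co _ p).2 fun e' => (s.co _ p).1 e (h n p e')
    have := hS n
    linarith
  linarith

theorem inner {S : C} (e : μ S + μ (co S) ≤ 1) {ε : R} (hε : 0 < ε) :
    ∃ U, Opn el (mem U) ∧ (∀ p, mem (co U) p → mem S p) ∧ μ S < μ (co U) + ε := by
  obtain ⟨U, h1, h2, h3⟩ := start s f o (S := co S) hε
  refine ⟨U, h1, fun p hp => by_contra fun hn => (s.co U p).1 hp (h2 p ((s.co S p).2 hn)), ?_⟩
  have h4 := mu_co s f o U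
  rw [mu_opn s f o h1] at h4
  linarith

theorem far {h : R} (e : h + h = 1) : ∃ q : R, 0 < q ∧ ∀ (c : A) (S T : C), ν c = h →
    (∀ p, el p c → mem S p ∨ mem T p) → μ S < q → μ T < q → False := by
  refine ⟨h / 2, by linarith, fun c S T h1 h2 h3 h4 => ?_⟩
  have h5 := mu_cover s f o (W := bs c) fun p e => h2 p ((s.bs c p).1 e)
  rw [mu_bs s f o (s.bs c)] at h5
  linarith

end measure

end Pool.Agent.P.MP_0d6be8_lc.NL
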