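import Pool.Agent.P.MP_0d6be8_lc.NKIter
import Pool.Agent.P.MP_0d6be8_lc.MQ

set_option autoImplicit false

/-! The fixed iteration: tasks at successor stages, the product over all jobs at limit stages. -/

open Pool.Agent.Lib.PosetForcing Cardinal

namespace Pool.Agent.P.MP_0d6be8_lc.NKStep

open NKIter

/-- values of conditions of the iterands -/
abbrev Y : Type 1 := O ⊕ MQ.Cd O W1 O

/-- raw conditions -/
abbrev CC : Type 1 := C Y

/-- labels of the components of a job -/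
abbrev Lab : Type 1 := W1 × Option ℕ

theorem mk_le_univ_of_small (X : Type 1) [h : Small.{0} X] : #X ≤ Cardinal.univ.{0, 1} := by
  rw [small_iff_lift_mk_lt_univ] at h
  simpa using h.le

theorem mk_finset_le {X : Type 1} (h : #X ≤ Cardinal.univ.{0, 1}) :
    #(Finset X) ≤ Cardinal.univ.{0, 1} := by
  rcases finite_or_infinite X with h1 | h1
  · exact mk_le_univ_of_small _
  · rwa [mk_finset_of_infinite]

theorem mk_prod_le {X Z : Type 1} (h : #X ≤ Cardinal.univ.{0, 1}) (h' : #Z ≤ Cardinal.univ.{0, 1}) :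
    #(X × Z) ≤ Cardinal.univ.{0, 1} := by
  rw [mk_prod, lift_id, lift_id]
  exact mul_le_of_le aleph0_lt_univ.le h h'

theorem mk_prod_small_le {X : Type 1} (Z : Type) (h : #X ≤ Cardinal.univ.{0, 1}) :
    #(X × Z) ≤ Cardinal.univ.{0, 1} :=
  (mk_congr (Equiv.prodCongr (Equiv.refl X) Equiv.ulift.{1}.symm)).le.trans
    (mk_prod_le h (mk_le_univ_of_small _))

theorem mk_O_le : #O ≤ Cardinal.univ.{0, 1} := mk_ordinal.le

theorem mk_Y_le : #(Option Y) ≤ Cardinal.univ.{0, 1} := by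
  rw [mk_option, mk_sum, lift_id, lift_id]
  exact add_le_of_le aleph0_lt_univ.le (add_le_of_le aleph0_lt_univ.le mk_O_le
    (mk_prod_le (mk_finset_le (mk_prod_le mk_O_le (mk_le_univ_of_small _)))
      (mk_finset_le (mk_prod_le mk_O_le (mk_prod_le mk_O_le (mk_le_univ_of_small _))))))
    (one_le_aleph0.trans aleph0_lt_univ.le)

theorem mk_C_le : #CC ≤ Cardinal.univ.{0, 1} := by
  classical
  refine le_trans (mk_le_of_injective (f := fun p : CC =>
    p.fin.toFinset.image fun γ => (γ, p.f γ)) ?_) (mk_finset_le (mk_prod_le mk_O_le mk_Y_le))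
  have key : ∀ p q : CC, (p.fin.toFinset.image fun γ => (γ, p.f γ)) =
      (q.fin.toFinset.image fun γ => (γ, q.f γ)) → ∀ γ, p.f γ ≠ none → p.f γ = q.f γ := by
    intro p q h γ hγ
    have : (γ, p.f γ) ∈ q.fin.toFinset.image fun γ => (γ, q.f γ) :=
      h ▸ Finset.mem_image.2 ⟨γ, p.fin.mem_toFinset.2 hγ, rfl⟩
    obtain ⟨δ, -, h1⟩ := Finset.mem_image.1 this
    obtain ⟨rfl, h2⟩ := Prod.ext_iff.1 h1
    exact h2.symm
  intro p q e2
  refine C.ext (funext fun γ => ?_)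
  by_cases h1 : p.f γ = none
  · by_cases h2 : q.f γ = none
    · rw [h1, h2]
    · exact (key q p e2.symm γ h2).symm
  · exact key p q e2 γ h1

theorem mk_small_le {X : Type 1} (h : #X ≤ Cardinal.univ.{0, 1}) :
    #{t : Set X // Small.{0} t} ≤ Cardinal.univ.{0, 1} := by
  obtain ⟨e⟩ : Nonempty (X ↪ O) := by rwa [← Cardinal.le_def, mk_ordinal]
  have h1 := mk_subset_mk_lt_cof (α := O)
    (by rw [mk_ordinal]; exact IsStrongLimit.univ.isStrongPrelimit)
  rw [mk_ordinal, IsInaccessible.univ.isRegular.cof_ord] at h1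
  rw [← h1]
  refine mk_le_of_injective (f := fun t => ⟨e '' t.1, ?_⟩) fun t t' h => ?_
  · have := t.2
    have h2 : Small.{0} (e '' t.1) := inferInstance
    rw [small_iff_lift_mk_lt_univ] at h2
    simpa using h2
  · exact Subtype.ext (e.injective.image_injective (congrArg Subtype.val h))

/-- every small subset is listed cofinally often -/
theorem exists_listing {X : Type 1} (h : #X ≤ Cardinal.univ.{0, 1}) : ∃ task : O → Set X,
    ∀ t : Set X, Small.{0} t → ∀ α, ∃ β, α ≤ β ∧ task β = t := by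
  obtain ⟨e⟩ : Nonempty ({t : Set X // Small.{0} t} × O ↪ O) := by
    rw [← Cardinal.le_def, mk_ordinal]
    exact mk_prod_le (mk_small_le h) mk_O_le
  have : Nonempty ({t : Set X // Small.{0} t} × O) := ⟨(⟨∅, inferInstance⟩, 0)⟩
  refine ⟨fun γ => (Function.invFun e γ).1.1, fun t ht α => ?_⟩
  obtain ⟨δ, hδ⟩ : ∃ δ, α ≤ e (⟨t, ht⟩, δ) := by
    by_contra hcon
    push Not at hcon
    exact not_small_ordinal.{0, 0} (small_of_injective
      (f := fun δ => (⟨e (⟨t, ht⟩, δ), hcon δ⟩ : Set.Iio α)) fun δ δ' h =>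
        congrArg Prod.snd (e.injective (congrArg Subtype.val h)))
  exact ⟨_, hδ, by simp only [Function.leftInverse_invFun e.injective _]⟩

/-- the bookkeeping function -/
noncomputable def task : O → Set (CC × O × O) :=
  (exists_listing (mk_prod_le mk_C_le (mk_prod_le mk_O_le mk_O_le))).choose

theorem task_spec (t : Set (CC × O × O)) (ht : Small.{0} t) (α : O) : ∃ β, α ≤ β ∧ task β = t :=
  (exists_listing (mk_prod_le mk_C_le (mk_prod_le mk_O_le mk_O_le))).choose_spec t ht α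

/-- codes of families of names of reals -/
noncomputable def code : O → Set (CC × Lab × ℕ) :=
  (exists_listing (mk_prod_le mk_C_le (mk_le_univ_of_small (Lab × ℕ)))).choose

theorem code_spec (t : Set (CC × Lab × ℕ)) (ht : Small.{0} t) : ∃ j, code j = t :=
  ((exists_listing (mk_prod_le mk_C_le (mk_le_univ_of_small (Lab × ℕ)))).choose_spec t ht 0).imp
    fun _ h => h.2

/-- transitivity -/
def Tr (le : CC → CC → Prop) : Prop := ∀ a b c, le a b → le b c → le a c

/-- the conditions of a relation -/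
def St (le : CC → CC → Prop) : Type 1 := {p : CC // le p p}

instance (le : CC → CC → Prop) [h : Fact (Tr le)] : Preorder (St le) where
  le p q := le p.1 q.1
  le_refl p := p.2
  le_trans _ _ _ := h.out _ _ _

/-- least codes of sets of conditions -/
def Canon (le : CC → CC → Prop) (j : O) : Prop :=
  (∀ z ∈ code j, le z.1 z.1) ∧ ∀ j', code j' = code j → j ≤ j'

theorem exists_canon {le : CC → CC → Prop} (t : Set (CC × Lab × ℕ)) (ht : Small.{0} t)
    (h : ∀ z ∈ t, le z.1 z.1) : ∃ j, Canon le j ∧ code j = t := by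
  obtain ⟨j, hj, hmin⟩ := (wellFounded_lt (α := O)).has_min {j | code j = t} (code_spec t ht)
  exact ⟨j, ⟨fun z hz => h z (hj ▸ hz), fun j' e => not_lt.1 (hmin j' (e.trans hj))⟩, hj⟩

theorem small_canon {le : CC → CC → Prop} (h : Small.{0} (St le)) : Small.{0} {j | Canon le j} := by
  refine small_of_injective (β := Set (St le × Lab × ℕ))
    (f := fun j => {z | (z.1.1, z.2) ∈ code j.1}) fun j j' e => Subtype.ext ?_
  have key : code j.1 = code j'.1 := Set.ext fun z =>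
    ⟨fun hz => (Set.ext_iff.1 e (⟨z.1, j.2.1 z hz⟩, z.2)).1 hz,
      fun hz => (Set.ext_iff.1 e (⟨z.1, j'.2.1 z hz⟩, z.2)).2 hz⟩
  exact le_antisymm (j.2.2 _ key.symm) (j'.2.2 _ key)

/-- the component `z` of the family coded by `j` -/
def nm (le : CC → CC → Prop) (j : O) (z : Lab) (r : St le) (d : ℕ) : Prop :=
  Canon le j ∧ ∃ r', le r.1 r' ∧ (r', z, d) ∈ code j

/-- towers -/
def UU (le : CC → CC → Prop) (j : O) (i : W1) : St le → ℕ → Prop := nm le j (i, none)

/-- the sets of the items -/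
def ZZ (le : CC → CC → Prop) (j : O) (i : W1) (k : ℕ) : St le → ℕ → Prop := nm le j (i, some k)

/-- a fixed label -/
noncomputable def lab0 : Lab := (Classical.arbitrary W1, none)

/-- the reals of the promises -/
def XX (le : CC → CC → Prop) (ξ : O) : St le → ℕ → Prop := nm le ξ lab0

theorem mon_nm (le : CC → CC → Prop) [h : Fact (Tr le)] (j : O) (z : Lab) : MQ.Mon (nm le j z) :=
  fun _ _ _ hq ⟨h1, r', h2, h3⟩ => ⟨h1, r', h.out _ _ _ hq h2, h3⟩

/-- the pair of finite sets given by a value -/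
def vl : Option Y → MQ.Cd O W1 O
  | some (Sum.inr c) => c
  | _ => (∅, ∅)

/-- values of the limit iterands -/
def IsL (x : Option Y) : Prop := ∀ a, x ≠ some (Sum.inl a)

theorem isL_none : IsL none := fun _ h => by simp at h

theorem isL_inr (c : MQ.Cd O W1 O) : IsL (some (Sum.inr c)) := fun _ h => by simp at h

/-- the iterand of the limit stages -/
def RL (le : CC → CC → Prop) : Rel Y := fun r x y => (x = none ∧ y = none) ∨
  ∃ (_ : Fact (Tr le)) (hr : le r r), IsL x ∧ IsL y ∧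
    MQ.QR (UU le) (ZZ le) (XX le) (⟨r, hr⟩ : St le) (vl x) (vl y)

theorem RL.qr {le : CC → CC → Prop} [Fact (Tr le)] {r : St le} {x y : Option Y}
    (h : RL le r.1 x y) : IsL x ∧ IsL y ∧ MQ.QR (UU le) (ZZ le) (XX le) r (vl x) (vl y) := by
  rcases h with ⟨rfl, rfl⟩ | ⟨_, _, h⟩
  · exact ⟨isL_none, isL_none, MQ.QV.empty.refl⟩
  · exact h

theorem RL.of_qr {le : CC → CC → Prop} [h : Fact (Tr le)] {r : St le} {x y : Option Y}
    (hx : IsL x) (hy : IsL y) (h1 : MQ.QR (UU le) (ZZ le) (XX le) r (vl x) (vl y)) :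
    RL le r.1 x y := Or.inr ⟨h, r.2, hx, hy, h1⟩

theorem isIt_RL {le : CC → CC → Prop} (hl : ∀ a b, le a b → le a a) : IsIt le (RL le) := by
  refine ⟨?_, ?_, ?_, ?_, fun _ => Or.inl ⟨rfl, rfl⟩⟩
  · rintro r r' x y h (h1 | ⟨_, hr, h1, h2, h3⟩)
    · exact Or.inl h1
    · exact RL.of_qr (r := ⟨r', hl _ _ h⟩) h1 h2
        (h3.mono (fun _ _ _ => mon_nm _ _ _) (fun _ => mon_nm _ _ _) h)
  · rintro r x y z (⟨rfl, rfl⟩ | ⟨_, hr, h1, h2, h3⟩) h
    · exact h
    · obtain ⟨-, g2, g3⟩ := RL.qr (r := ⟨r, hr⟩) h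
      exact RL.of_qr (r := ⟨r, hr⟩) h1 g2 (h3.trans g3)
  · rintro r x y (⟨rfl, rfl⟩ | ⟨_, hr, h1, -, h3⟩)
    · exact Or.inl ⟨rfl, rfl⟩
    · exact RL.of_qr (r := ⟨r, hr⟩) h1 h1 h3.1.refl
  · rintro r x (⟨rfl, -⟩ | ⟨_, hr, h1, -, h3⟩)
    · exact Or.inl ⟨rfl, rfl⟩
    · exact RL.of_qr (r := ⟨r, hr⟩) h1 isL_none h3.1.top

theorem ccc_St {le : CC → CC → Prop} [Fact (Tr le)] (hl : ∀ a b, le a b → le a a) (hc : CCCR le) :
    CCC (St le) := fun ι I hI p => by
  obtain ⟨i, hi, j, hj, hne, r, r1, r2⟩ := hc ι I hI (fun i => (p i).1) fun i _ => (p i).2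
  exact ⟨i, hi, j, hj, hne, ⟨r, hl _ _ r1⟩, r1, r2⟩

theorem cccr_RL {le : CC → CC → Prop} (ht : Tr le) (hl : ∀ a b, le a b → le a a) (hc : CCCR le) :
    CCCR (two le (RL le)) := by
  have : Fact (Tr le) := ⟨ht⟩
  refine cccr_of_W1 fun p hp => ?_
  have h1 := fun i => RL.qr (r := ⟨(p i).1, (hp i).1⟩) (hp i).2
  obtain ⟨a, -, b, -, hne, q, c, g1, g2⟩ := MQ.ccc (ccc_St hl hc) countable_Iic
    (fun _ _ _ => mon_nm _ _ _) (fun _ => mon_nm _ _ _) Set.not_countable_univ
    (fun i => (⟨(p i).1, (hp i).1⟩ : St le)) (fun i => vl (p i).2) fun i _ => (h1 i).2.2.1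
  exact ⟨a, b, hne, (q.1, some (Sum.inr c)), ⟨g1.1, RL.of_qr (isL_inr c) (h1 a).1 g1.2⟩,
    g2.1, RL.of_qr (isL_inr c) (h1 b).1 g2.2⟩

theorem small_RL {le : CC → CC → Prop} (h : Small.{0} (St le)) :
    Small.{0} {y : Y | ∃ p, RL le p (some y) (some y)} := by
  have := small_canon h
  let S : Set O := {j | Canon le j}
  let φ : Set (S × W1 × ℕ × ℕ) × Set (S × S × ℕ × W1) → Y → Prop := fun z y =>
    ∃ c, y = Sum.inr c ∧ (∀ x, x ∈ c.1 ↔ ∃ u ∈ z.1, x = (u.1.1, u.2)) ∧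
      ∀ x, x ∈ c.2 ↔ ∃ u ∈ z.2, x = (u.1.1, u.2.1.1, u.2.2)
  have h1 : ∀ y : {y : Y | ∃ p, RL le p (some y) (some y)}, ∃ z, φ z y.1 := by
    rintro ⟨y, p, ⟨e, -⟩ | ⟨_, hr, g1, -, g2⟩⟩
    · simp at e
    · rcases y with a | c
      · exact absurd rfl (g1 a)
      · refine ⟨({u | (u.1.1, u.2) ∈ c.1}, {u | (u.1.1, u.2.1.1, u.2.2) ∈ c.2}), c, rfl,
          fun x => ⟨fun hx => ?_, ?_⟩, fun x => ⟨fun hx => ?_, ?_⟩⟩
        · obtain ⟨_, -, _, -, g3⟩ := (g2.1.1 x hx).inf x.2.1 0 _ le_rfl 0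
          exact ⟨(⟨x.1, g3.1⟩, x.2), hx, rfl⟩
        · rintro ⟨u, hu, rfl⟩; exact hu
        · obtain ⟨_, -, _, -, g3, g4⟩ := (g2.1.2 x hx).1.meet (mon_nm _ _ _) (g2.1.2 x hx).2 0
          exact ⟨(⟨x.1, g4.1⟩, ⟨x.2.1, g3.1⟩, x.2.2), hx, rfl⟩
        · rintro ⟨u, hu, rfl⟩; exact hu
  choose z hz using h1
  refine small_of_injective (f := z) fun y y' e => Subtype.ext ?_
  obtain ⟨c, e1, g1, g2⟩ := hz y
  obtain ⟨c', e2, g3, g4⟩ := hz y'
  rw [e1, e2, Prod.ext (Finset.ext fun x => (g1 x).trans (e ▸ (g3 x).symm))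
    (Finset.ext fun x => (g2 x).trans (e ▸ (g4 x).symm))]

/-- densely below `r` the pair `(a, b)` is listed in `t` -/
def Below (le : CC → CC → Prop) (t : Set (CC × O × O)) (r : CC) (a b : O) : Prop :=
  ∀ r1, le r1 r → ∃ r2, le r2 r1 ∧ ∃ r', le r2 r' ∧ (r', a, b) ∈ t

/-- the iterand coded by a task -/
def RT (le : CC → CC → Prop) (t : Set (CC × O × O)) : Rel Y := fun r x y =>
  (x = none ∧ y = none) ∨ le r r ∧ ∃ a, x = some (Sum.inl a) ∧
    ((y = none ∧ Below le t r a a) ∨ ∃ b, y = some (Sum.inl b) ∧ Below le t r a b)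

theorem small_RT {le : CC → CC → Prop} {t : Set (CC × O × O)} (ht : Small.{0} t) :
    Small.{0} {y : Y | ∃ p, RT le t p (some y) (some y)} := by
  refine small_subset (s := Set.range fun z : t => (Sum.inl z.1.2.1 : Y)) ?_
  rintro y ⟨p, ⟨e, -⟩ | ⟨hp, a, e, ⟨e', -⟩ | ⟨b, -, h⟩⟩⟩
  · simp at e
  · simp at e'
  · obtain ⟨_, -, r', -, h1⟩ := h p hp
    exact ⟨⟨_, h1⟩, (Option.some.inj e).symm⟩

/-- what is asked of an iterand -/
def Ok (le : CC → CC → Prop) (S : Rel Y) : Prop :=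
  IsIt le S ∧ CCCR (two le S) ∧ Small.{0} {y : Y | ∃ p, S p (some y) (some y)}

open Classical in
/-- the iterand chosen at the stage `α` -/
noncomputable def step (α : O) (le : CC → CC → Prop) : Rel Y :=
  if Order.IsSuccLimit α then RL le
  else if Ok le (RT le (task α.pred)) then RT le (task α.pred) else fun _ x y => x = none ∧ y = none

open Classical in
/-- the iterands -/
noncomputable def R : O → Rel Y :=
  (wellFounded_lt (α := O)).fix fun α R' =>
    step α (leA (fun γ => if h : γ < α then R' γ h else fun _ _ _ => True) α)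

theorem R_eq (α : O) : R α = step α (leA R α) := by
  classical
  rw [R, WellFounded.fix_eq]
  congr 1
  exact leA_congr fun γ hγ => dif_pos hγ

theorem good (a : O) : Good a R := by
  intro b hb
  clear hb
  induction b using WellFoundedLT.induction with
  | ind b ih =>
    have g : Good b R := ih
    change Ok _ _
    rw [R_eq, step]
    split_ifs with h1 h2
    · exact ⟨isIt_RL fun _ _ => g.left, cccr_RL (fun _ _ _ => g.trans) (fun _ _ => g.left) g.cccr,
        small_RL g.small⟩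
    · exact h2
    · refine ⟨⟨fun _ _ _ _ _ h => h, fun _ _ _ _ h h' => ⟨h.1, h'.2⟩, fun _ _ _ h => ⟨h.1, h.1⟩,
        fun _ _ h => ⟨h.1, rfl⟩, fun _ => ⟨rfl, rfl⟩⟩, fun ι I hI p hp => ?_, ?_⟩
      · obtain ⟨i, hi, j, hj, hne, r, r1, r2⟩ := g.cccr ι I hI (fun i => (p i).1)
          fun i hi => (hp i hi).1
        exact ⟨i, hi, j, hj, hne, (r, none), ⟨r1, rfl, (hp i hi).2.1⟩, r2, rfl, (hp j hj).2.1⟩
      · have : IsEmpty {y : Y | ∃ _ : CC, some y = none ∧ some y = none} :=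
          ⟨fun ⟨_, _, h, _⟩ => by simp at h⟩
        infer_instance

theorem isIt (α : O) : IsIt (leA R α) (R α) := (good _ α (Order.lt_succ α)).1

theorem R_limit {α : O} (h : Order.IsSuccLimit α) : R α = RL (leA R α) := by
  rw [R_eq, step, if_pos h]

/-- ground form of Martin's principle: a small task that is a ccc iterand at all late stages is used -/
theorem exists_R_eq_RT (t : Set (CC × O × O)) (ht : Small.{0} t) (α0 : O)
    (h : ∀ α, α0 ≤ α → IsIt (leA R α) (RT (leA R α) t) ∧ CCCR (two (leA R α) (RT (leA R α) t))) :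
    ∃ α, α0 ≤ α ∧ R α = RT (leA R α) t := by
  obtain ⟨β, hβ, e⟩ := task_spec t ht α0
  have h1 := h (Order.succ β) (hβ.trans (Order.le_succ β))
  refine ⟨Order.succ β, hβ.trans (Order.le_succ β), ?_⟩
  rw [R_eq, step, if_neg (Order.not_isSuccLimit_succ β), show (Order.succ β).pred = β from Ordinal.pred_add_one β, e,
    if_pos ⟨h1.1, h1.2, small_RT ht⟩]

theorem exists_sup (p : CC) : ∃ α, Sup α p := by
  obtain ⟨α, hα⟩ := p.fin.bddAbove
  exact ⟨Order.succ α, fun γ h => Order.lt_succ_iff.2 (hα h)⟩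

theorem exists_sup_small {ι : Type 1} [Small.{0} ι] (p : ι → CC) : ∃ α, ∀ i, Sup α (p i) := by
  choose a ha using fun i => exists_sup (p i)
  obtain ⟨α, hα⟩ := Ordinal.bddAbove_of_small (s := Set.range a)
  exact ⟨α, fun i => (ha i).mono (hα ⟨i, rfl⟩)⟩

theorem exists_sup_two (p q : CC) (β : O) : ∃ α, β < α ∧ Sup α p ∧ Sup α q := by
  obtain ⟨a, ha⟩ := exists_sup p
  obtain ⟨b, hb⟩ := exists_sup q
  exact ⟨max (Order.succ β) (max a b), lt_max_of_lt_left (Order.lt_succ β),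
    ha.mono (le_max_of_le_right (le_max_left _ _)), hb.mono (le_max_of_le_right (le_max_right _ _))⟩

/-- the order of the whole iteration -/
def le (p q : CC) : Prop := ∀ γ, R γ (p.restr γ) (p.f γ) (q.f γ)

theorem leA_iff {α : O} {p q : CC} : leA R α p q ↔ Sup α p ∧ Sup α q ∧ le p q := by
  refine ⟨fun h => ⟨h.1, h.2.1, fun γ => ?_⟩, fun h => ⟨h.1, h.2.1, fun γ _ => h.2.2 γ⟩⟩
  rcases lt_or_ge γ α with h1 | h1
  · exact h.2.2 γ h1
  · rw [h.1.none h1, h.2.1.none h1]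
    exact (isIt γ).nn _

theorem leA_le {α : O} {p q : CC} (h : leA R α p q) : le p q := (leA_iff.1 h).2.2

theorem le.restr {p q : CC} (h : le p q) (α : O) : leA R α (p.restr α) (q.restr α) := by
  obtain ⟨a, h0, h1, h2⟩ := exists_sup_two p q α
  exact (leA_iff.2 ⟨h1, h2, h⟩).restr h0.le

theorem le.trans {p q r : CC} (h : le p q) (h' : le q r) : le p r :=
  fun γ => (isIt γ).trans _ _ _ _ (h γ) ((isIt γ).mono _ _ _ _ (h.restr γ) (h' γ))

theorem le.left {p q : CC} (h : le p q) : le p p := fun γ => (isIt γ).left _ _ _ (h γ)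

theorem le.restr' {p q : CC} (h : le p q) (α : O) : le (p.restr α) (q.restr α) :=
  leA_le (h.restr α)

theorem le.le_restr {p : CC} (h : le p p) (α : O) : le p (p.restr α) := by
  obtain ⟨a, ha⟩ := exists_sup p
  exact leA_le ((good a).le_restr (leA_iff.2 ⟨ha, ha, h⟩) α)

theorem le.restr_le {p q : CC} {α : O} (h : le p q) (hq : Sup α q) : le (p.restr α) q := by
  have := h.restr' α
  rwa [hq.restr_eq] at this

theorem amalg1 {p r : CC} {β : O} (hp : le p p) (hr : Sup β r) (h1 : le r (p.restr β)) :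
    ∃ s, le s p ∧ le s r ∧ s.restr β = r := by
  obtain ⟨a, h0, ha, -⟩ := exists_sup_two p p β
  obtain ⟨s, g1, g2, g3, -⟩ := (good a).amalg1 h0.le (leA_iff.2 ⟨ha, ha, hp⟩)
    (leA_iff.2 ⟨hr, sup_restr _ _, h1⟩)
  exact ⟨s, leA_le g1, leA_le g2, g3⟩

theorem upd_le {p : CC} (hp : le p p) {α : O} {x : Option Y} (h : R α (p.restr α) x (p.f α)) :
    le (p.upd α x) p := by
  obtain ⟨a, h0, ha, -⟩ := exists_sup_two p p α
  exact leA_le ((good a).upd_le (leA_iff.2 ⟨ha, ha, hp⟩) h0 h)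

/-- the forcing -/
def PP : Type 1 := {p : CC // le p p}

instance : Preorder PP where
  le p q := le p.1 q.1
  le_refl p := p.2
  le_trans _ _ _ h h' := le.trans h h'

instance : OrderTop PP where
  top := ⟨C.one, fun γ => (isIt γ).nn _⟩
  le_top p := fun γ => (isIt γ).top _ _ (p.2 γ)

theorem PP.le_def {p q : PP} : p ≤ q ↔ le p.1 q.1 := Iff.rfl

theorem cccr_le : CCCR le := cccr_of_W1 fun p hp => by
  obtain ⟨α, hα⟩ := exists_sup_small p
  obtain ⟨i, -, j, -, hne, r, r1, r2⟩ := (good α).cccr W1 Set.univ Set.not_countable_univ p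
    fun i _ => leA_iff.2 ⟨hα i, hα i, hp i⟩
  exact ⟨i, j, hne, r, leA_le r1, leA_le r2⟩

theorem ccc_PP : CCC PP := fun ι I hI p => by
  obtain ⟨i, hi, j, hj, hne, r, r1, r2⟩ := cccr_le ι I hI (fun i => (p i).1) fun i _ => (p i).2
  exact ⟨i, hi, j, hj, hne, ⟨r, r1.left⟩, r1, r2⟩

theorem mk_PP_le : #PP ≤ Cardinal.univ.{0, 1} := (mk_subtype_le _).trans mk_C_le

instance (g : O) : Fact (Tr (leA R g)) := ⟨fun _ _ _ => (good g).trans⟩

/-- the conditions of the stage `g` -/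
abbrev Sg (g : O) : Type 1 := St (leA R g)

instance (g : O) : Small.{0} (Sg g) := (good g).small

theorem small_stage (g : O) : Small.{0} {p : PP | Sup g p.1} :=
  small_of_injective (β := Sg g) (f := fun p => ⟨p.1.1, leA_iff.2 ⟨p.2, p.2, p.1.2⟩⟩)
    fun _ _ h => Subtype.ext (Subtype.ext (congrArg (fun z : Sg g => z.1) h))

/-- a stage condition as a condition of the forcing -/
def emb {g : O} (q : Sg g) : PP := ⟨q.1, leA_le q.2⟩

/-- the restriction to a stage -/
noncomputable def proj (g : O) (p : PP) : Sg g := ⟨p.1.restr g, p.2.restr g⟩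

theorem emb_le_emb {g : O} {q q' : Sg g} : emb q ≤ emb q' ↔ q ≤ q' :=
  ⟨fun h => leA_iff.2 ⟨q.2.1, q'.2.1, h⟩, fun h => leA_le h⟩

theorem sup_emb {g : O} (q : Sg g) : Sup g (emb q).1 := q.2.1

theorem proj_emb {g : O} (q : Sg g) : proj g (emb q) = q := Subtype.ext q.2.1.restr_eq

theorem emb_proj {g : O} {p : PP} (h : Sup g p.1) : emb (proj g p) = p := Subtype.ext h.restr_eq

theorem le_emb_proj (g : O) (p : PP) : p ≤ emb (proj g p) := p.2.le_restr g

theorem proj_mono (g : O) {p q : PP} (h : p ≤ q) : proj g p ≤ proj g q := le.restr h g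

theorem proj_le_iff {g : O} {p : PP} {q : Sg g} : proj g p ≤ q ↔ p ≤ emb q :=
  ⟨fun h => (le_emb_proj g p).trans (emb_le_emb.2 h), fun h => proj_emb q ▸ proj_mono g h⟩

/-- everything below the restriction amalgamates with the condition -/
theorem exists_amalg {g : O} (p : PP) {q : Sg g} (h : q ≤ proj g p) :
    ∃ s ≤ p, proj g s = q := by
  obtain ⟨s, s1, -, s3⟩ := amalg1 p.2 q.2.1 (leA_le h)
  exact ⟨⟨s, s1.left⟩, s1, Subtype.ext s3⟩

end Pool.Agent.P.MP_0d6be8_lc.NKStep
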