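import Mathlib

namespace Pool.Agent.P.MP_0d6be8_lc
open Set Filter Topology

variable {I : Type}

/-- nonprincipal ultrafilters on the naturals -/
def NU : Type := {U : Ultrafilter ℕ // (U : Filter ℕ) ≤ cofinite}

lemma exists_NU {A : Set ℕ} (hA : A.Infinite) : ∃ U : NU, A ∈ U.1 := by
  have : (cofinite ⊓ 𝓟 A : Filter ℕ).NeBot := hA.cofinite_inf_principal_neBot
  obtain ⟨U, hU⟩ := Ultrafilter.exists_le (cofinite ⊓ 𝓟 A : Filter ℕ)
  exact ⟨⟨U, hU.trans inf_le_left⟩, (le_principal_iff.1 (hU.trans inf_le_right))⟩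

lemma NU.infinite (U : NU) {A : Set ℕ} (hA : A ∈ U.1) : A.Infinite := by
  intro h
  have h1 : Aᶜ ∈ (U.1 : Filter ℕ) := U.2 h.compl_mem_cofinite
  exact (Ultrafilter.compl_mem_iff_notMem.1 h1) hA

lemma NU.compl_mem (U : NU) {A : Set ℕ} (hA : A.Finite) : Aᶜ ∈ U.1 := U.2 hA.compl_mem_cofinite

lemma NU.ge_mem (U : NU) (m : ℕ) : {n | m ≤ n} ∈ U.1 := by
  have := U.compl_mem (finite_Iio m)
  simpa [Set.compl_Iio, Set.Ici] using this

instance : Nonempty NU := let ⟨U, _⟩ := exists_NU (infinite_univ (α := ℕ)); ⟨U⟩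

open Classical in
/-- limit of a sequence of points along an ultrafilter -/
noncomputable def ulim (U : NU) (w : ℕ → I → Bool) : I → Bool :=
  fun i => decide ({n | w n i = true} ∈ U.1)

lemma ulim_mem (U : NU) (w : ℕ → I → Bool) (i : I) : {n | w n i = ulim U w i} ∈ U.1 := by
  by_cases h : {n | w n i = true} ∈ U.1
  · have : ulim U w i = true := by simp [ulim, h]
    rwa [this]
  · have : ulim U w i = false := by simp [ulim, h]
    rw [this]
    have h2 := Ultrafilter.compl_mem_iff_notMem.2 h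
    refine mem_of_superset h2 fun n hn => ?_
    simpa using hn

lemma ulim_eq (U : NU) (w : ℕ → I → Bool) (i : I) {c : Bool} (h : {n | w n i = c} ∈ U.1) :
    ulim U w i = c := by
  obtain ⟨n, h1, h2⟩ := U.1.nonempty_of_mem (inter_mem h (ulim_mem U w i))
  exact h2.symm.trans h1

lemma ulim_closed (U : NU) (w : ℕ → I → Bool) {C : Set (I → Bool)} (hC : IsClosed C)
    (h : {n | w n ∈ C} ∈ U.1) : ulim U w ∈ C := by
  refine hC.mem_of_tendsto (f := w) (b := (U.1 : Filter ℕ)) ?_ h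
  rw [tendsto_pi_nhds]
  intro i
  rw [nhds_discrete, tendsto_pure]
  exact ulim_mem U w i

lemma isClosed_coord (i : I) (p : Bool → Prop) : IsClosed {w : I → Bool | p (w i)} :=
  (isClosed_discrete {b | p b}).preimage (continuous_apply i)

/-- two-point form of the Nikodym property -/
def PTwo (K : Set (I → Bool)) : Prop :=
  ∀ y z : ℕ → I → Bool, (∀ n, y n ∈ K) → (∀ n, z n ∈ K) → (∀ n, y n ≠ z n) →
    ∃ i, {n | y n i ≠ z n i}.Infinite

variable {K : Set (I → Bool)}

lemma PTwo.on (h : PTwo K) {E : Set ℕ} (hE : E.Infinite) (y z : ℕ → I → Bool)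
    (hy : ∀ n, y n ∈ K) (hz : ∀ n, z n ∈ K) (hne : ∀ n, y n ≠ z n) :
    ∃ i, {n | n ∈ E ∧ y n i ≠ z n i}.Infinite := by
  let e := hE.natEmbedding
  obtain ⟨i, hi⟩ := h (fun k => y (e k)) (fun k => z (e k)) (fun _ => hy _) (fun _ => hz _)
    (fun _ => hne _)
  refine ⟨i, ?_⟩
  have := hi.image (f := fun k => (e k : ℕ))
    (fun a _ b _ hab => e.injective (Subtype.ext hab))
  refine this.mono ?_
  rintro _ ⟨k, hk, rfl⟩
  exact ⟨(e k).2, hk⟩

lemma PTwo.split (h : PTwo K) {E : Set ℕ} (hE : E.Infinite) (r : ℕ → I → Bool)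
    (hr : ∀ n, r n ∈ K) (hinj : Function.Injective r) :
    ∃ i, ∀ c, {n | n ∈ E ∧ r n i = c}.Infinite := by
  let e := hE.natEmbedding
  have he : Function.Injective fun k => (e k : ℕ) := fun a b hab => e.injective (Subtype.ext hab)
  obtain ⟨i, hi⟩ := h (fun k => r (e (2 * k))) (fun k => r (e (2 * k + 1))) (fun _ => hr _)
    (fun _ => hr _) (fun k hk => by have := he (hinj hk); omega)
  refine ⟨i, fun c hc => hi ?_⟩
  have h1 := hc.preimage (f := fun k => (e (2 * k) : ℕ))
    (fun a _ b _ hab => by have := he hab; omega)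
  have h2 := hc.preimage (f := fun k => (e (2 * k + 1) : ℕ))
    (fun a _ b _ hab => by have := he hab; omega)
  refine (h1.union h2).subset fun k hk => ?_
  have hk' : r (e (2 * k)) i ≠ r (e (2 * k + 1)) i := hk
  by_cases h3 : r (e (2 * k)) i = c
  · exact Or.inl ⟨(e _).2, h3⟩
  · refine Or.inr ⟨(e _).2, ?_⟩
    revert hk' h3
    cases r (e (2 * k)) i <;> cases r (e (2 * k + 1)) i <;> cases c <;> simp

/-- infinite closed subsets of `K` -/
structure IC (K G : Set (I → Bool)) : Prop where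
  sub : G ⊆ K
  closed : IsClosed G
  inf : G.Infinite

lemma PTwo.split_set (h : PTwo K) {G : Set (I → Bool)} (hG : IC K G) :
    ∃ i, ∀ c, (G ∩ {w | w i = c}).Infinite := by
  let e := hG.inf.natEmbedding
  have he : Function.Injective fun k => (e k : I → Bool) :=
    fun a b hab => e.injective (Subtype.ext hab)
  obtain ⟨i, hi⟩ := h.split infinite_univ (fun k => e k) (fun k => hG.sub (e k).2) he
  refine ⟨i, fun c => ((hi c).image he.injOn).mono ?_⟩
  rintro _ ⟨k, hk, rfl⟩
  exact ⟨(e k).2, hk.2⟩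

lemma IC.part {G : Set (I → Bool)} (hG : IC K G) {i : I} {c : Bool}
    (h : (G ∩ {w | w i = c}).Infinite) : IC K (G ∩ {w | w i = c}) :=
  ⟨inter_subset_left.trans hG.sub, hG.closed.inter (isClosed_coord i (· = c)), h⟩

lemma PTwo.disj_seq (h : PTwo K) {G : Set (I → Bool)} (hG : IC K G) :
    ∃ F : ℕ → Set (I → Bool), (∀ n, IC K (F n) ∧ F n ⊆ G) ∧
      ∀ n m, n ≠ m → ∀ w, w ∈ F n → w ∉ F m := by
  choose f hf using fun G : {G // IC K G} => h.split_set G.2
  let H : ℕ → {G // IC K G} := fun n => Nat.rec ⟨G, hG⟩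
    (fun _ H => ⟨H.1 ∩ {w | w (f H) = false}, H.2.part (hf H false)⟩) n
  have hH : ∀ n, (H (n + 1)).1 = (H n).1 ∩ {w | w (f (H n)) = false} := fun _ => rfl
  have hanti : Antitone fun n => (H n).1 :=
    antitone_nat_of_succ_le fun n => by rw [hH]; exact inter_subset_left
  have key : ∀ n m, n < m → ∀ w, w ∈ (H n).1 ∩ {w | w (f (H n)) = true} →
      w ∉ (H m).1 ∩ {w | w (f (H m)) = true} := by
    intro n m hnm w h1 h2
    have h3 : w ∈ (H (n + 1)).1 := hanti (Nat.succ_le_of_lt hnm) h2.1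
    rw [hH] at h3
    have h4 : w (f (H n)) = true := h1.2
    have h5 : w (f (H n)) = false := h3.2
    rw [h4] at h5
    exact Bool.noConfusion h5
  refine ⟨fun n => (H n).1 ∩ {w | w (f (H n)) = true}, fun n => ⟨(H n).2.part (hf _ true), ?_⟩, ?_⟩
  · exact inter_subset_left.trans (hanti (Nat.zero_le n))
  · intro n m hnm w h1 h2
    rcases lt_or_gt_of_ne hnm with h3 | h3
    · exact key n m h3 w h1 h2
    · exact key m n h3 w h2 h1

lemma IC.acc {F : Set (I → Bool)} (hF : IC K F) :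
    ∃ w ∈ F, ∀ j c, (F ∩ {u | u j ≠ c}).Finite → w j = c := by
  let e := hF.inf.natEmbedding
  have he : Function.Injective fun k => (e k : I → Bool) :=
    fun a b hab => e.injective (Subtype.ext hab)
  obtain ⟨U⟩ : Nonempty NU := inferInstance
  refine ⟨ulim U fun k => e k, ulim_closed U _ hF.closed (univ_mem' fun k => (e k).2), ?_⟩
  intro j c hc
  refine ulim_eq U _ j (mem_of_superset (U.compl_mem (hc.preimage he.injOn)) fun k hk => ?_)
  by_contra h1
  exact hk ⟨(e k).2, h1⟩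

variable [LinearOrder I] [WellFoundedLT I]

lemma PTwo.half (h : PTwo K) {G : Set (I → Bool)} (hG : IC K G) :
    ∃ m, ∀ b, ∃ G', IC K G' ∧ G' ⊆ G ∧ (∀ w ∈ G', w m = b) ∧
      ∀ j ≤ m, ∀ u ∈ G', ∀ v ∈ G', u j = v j := by
  obtain ⟨m, hm, hmin⟩ := WellFounded.has_min (wellFounded_lt (α := I))
    {i | ∀ c, (G ∩ {w | w i = c}).Infinite} (h.split_set hG)
  have hv : ∀ j, ∃ c, j < m → (G ∩ {w | w j ≠ c}).Finite := by
    intro j
    by_cases hj : j < m
    · have h1 : ¬ ∀ c, (G ∩ {w | w j = c}).Infinite := fun h1 => hmin j h1 hj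
      simp only [not_forall, Set.not_infinite] at h1
      obtain ⟨c, hc⟩ := h1
      refine ⟨!c, fun _ => hc.subset fun w hw => ⟨hw.1, ?_⟩⟩
      have h2 : w j ≠ !c := hw.2
      change w j = c
      revert h2
      cases w j <;> cases c <;> simp
    · exact ⟨true, fun h1 => absurd h1 hj⟩
  choose v hv using hv
  refine ⟨m, fun b => ⟨(G ∩ {w | w m = b}) ∩ {w | ∀ j < m, w j = v j}, ⟨?_, ?_, ?_⟩, ?_, ?_, ?_⟩⟩
  · exact fun w hw => hG.sub hw.1.1
  · refine (hG.part (hm b)).closed.inter ?_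
    have : {w : I → Bool | ∀ j < m, w j = v j} = ⋂ j, {w | j < m → w j = v j} := by
      ext w; simp
    rw [this]
    exact isClosed_iInter fun j => isClosed_coord j fun c => j < m → c = v j
  · obtain ⟨F, hF, hd⟩ := h.disj_seq (hG.part (hm b))
    choose w hw hw' using fun n => (hF n).1.acc
    refine infinite_of_injective_forall_mem (f := w) (fun n k hnk => ?_) fun n => ⟨(hF n).2 (hw n), ?_⟩
    · by_contra h1
      exact hd n k h1 _ (hw n) (hnk ▸ hw k)
    · intro j hj
      exact hw' n j _ ((hv j hj).subset fun u hu => ⟨((hF n).2 hu.1).1, hu.2⟩)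
  · exact fun w hw => hw.1.1
  · exact fun w hw => hw.1.2
  · intro j hj u hu w hw
    rcases hj.lt_or_eq with h1 | h1
    · rw [hu.2 j h1, hw.2 j h1]
    · rw [h1]; exact hu.1.2.trans hw.1.2.symm

/-- a tree of closed sets in which children accumulate inside the parent and siblings are
separated below their first split -/
structure Sys (K : Set (I → Bool)) {N : Type} (ch : N → ℕ → N) (Φ : N → Set (I → Bool)) : Prop where
  sub : ∀ s, Φ s ⊆ K
  closed : ∀ s, IsClosed (Φ s)
  ne : ∀ s, (Φ s).Nonempty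
  lim : ∀ s (U : NU) (w : ℕ → I → Bool), {n | w n ∈ Φ (ch s n)} ∈ U.1 → ulim U w ∈ Φ s
  sep : ∀ s n n', n ≠ n' → ∃ j, (∀ u ∈ Φ (ch s n), ∀ u' ∈ Φ (ch s n'), u j ≠ u' j) ∧
    ∀ i ≤ j, ∀ u ∈ Φ (ch s n), ∀ v ∈ Φ (ch s n), u i = v i

theorem PTwo.exists_sys (h : PTwo K) {F : Set (I → Bool)} (hF : IC K F) :
    ∃ (N : Type) (_ : Nonempty N) (ch : N → ℕ → N) (Φ : N → Set (I → Bool)),
      Sys K ch Φ ∧ ∀ s, Φ s ⊆ F := by
  choose m hf hic hsub hval hconst using fun G : {G // IC K G} => h.half G.2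
  let G : (ℕ → Bool) → ℕ → {G // IC K G} := fun x k => Nat.rec ⟨F, hF⟩
    (fun k H => ⟨hf H (x k), hic H (x k)⟩) k
  have hG : ∀ x k, (G x (k + 1)).1 = hf (G x k) (x k) := fun _ _ => rfl
  have hloc : ∀ x x' k, (∀ j < k, x j = x' j) → G x k = G x' k := by
    intro x x' k
    induction k with
    | zero => intro _; rfl
    | succ k ih =>
      intro hk
      apply Subtype.ext
      rw [hG, hG, ih fun j hj => hk j (Nat.lt_succ_of_lt hj), hk k (Nat.lt_succ_self k)]
  have hanti : ∀ x, Antitone fun k => (G x k).1 := fun x =>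
    antitone_nat_of_succ_le fun k => by rw [hG]; exact hsub _ _
  let ch : (ℕ → Bool) → ℕ → (ℕ → Bool) := fun x n => Function.update x n (!x n)
  have hch : ∀ x n k, k ≤ n → G (ch x n) k = G x k := fun x n k hk =>
    hloc _ _ _ fun j hj => Function.update_of_ne (by omega) _ _
  have key : ∀ x n n', n < n' → ∀ u ∈ ⋂ k, (G (ch x n) k).1, ∀ u' ∈ ⋂ k, (G (ch x n') k).1,
      (u ∈ hf (G x n) (!x n)) ∧ u' ∈ hf (G x n) (x n) := by
    intro x n n' hn u hu u' hu'
    have h1 := mem_iInter.1 hu (n + 1)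
    have h2 := mem_iInter.1 hu' (n + 1)
    rw [hG, hch x n n le_rfl] at h1
    rw [hch x n' (n + 1) hn, hG] at h2
    refine ⟨?_, h2⟩
    simpa [ch] using h1
  refine ⟨ℕ → Bool, inferInstance, ch, fun x => ⋂ k, (G x k).1, ⟨?_, ?_, ?_, ?_, ?_⟩, ?_⟩
  · exact fun x => (iInter_subset _ 0).trans (G x 0).2.sub
  · exact fun x => isClosed_iInter fun k => (G x k).2.closed
  · intro x
    exact IsCompact.nonempty_iInter_of_sequence_nonempty_isCompact_isClosed _
      (fun k => hanti x (Nat.le_succ k)) (fun k => (G x k).2.inf.nonempty)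
      (G x 0).2.closed.isCompact (fun k => (G x k).2.closed)
  · intro x U w hw
    refine mem_iInter.2 fun k => ulim_closed U w (G x k).2.closed ?_
    refine mem_of_superset (inter_mem hw (U.ge_mem k)) fun n hn => ?_
    have h1 := mem_iInter.1 hn.1 k
    rwa [hch x n k hn.2] at h1
  · intro x n n' hn
    rcases lt_or_gt_of_ne hn with h1 | h1
    · refine ⟨m (G x n), fun u hu u' hu' => ?_, fun i hi u hu v hv => ?_⟩
      · obtain ⟨h2, h3⟩ := key x n n' h1 u hu u' hu'
        rw [hval _ _ _ h2, hval _ _ _ h3]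
        cases x n <;> simp
      · have h2 := mem_iInter.1 hu (n + 1)
        have h3 := mem_iInter.1 hv (n + 1)
        rw [hG, hch x n n le_rfl] at h2 h3
        exact hconst _ _ i hi u h2 v h3
    · refine ⟨m (G x n'), fun u hu u' hu' => ?_, fun i hi u hu v hv => ?_⟩
      · obtain ⟨h2, h3⟩ := key x n' n h1 u' hu' u hu
        rw [hval _ _ _ h2, hval _ _ _ h3]
        cases x n' <;> simp
      · have h2 := mem_iInter.1 hu (n' + 1)
        have h3 := mem_iInter.1 hv (n' + 1)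
        rw [hch x n (n' + 1) h1, hG] at h2 h3
        exact hconst _ _ i hi u h2 v h3
  · exact fun x => iInter_subset (fun k => (G x k).1) 0

end Pool.Agent.P.MP_0d6be8_lc
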