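import Pool.Agent.P.MP_0d6be8_lc.NM1

set_option linter.unusedSectionVars false

namespace Pool.Agent.P.MP_0d6be8_lc
open Set Filter Topology

variable {I N : Type} {K : Set (I → Bool)} {ch : N → ℕ → N} {Φ : N → Set (I → Bool)}

/-- the part of a labelled tree above the child `n` of the root -/
def sh {α : Type} (n : ℕ) (U : List ℕ → α) : List ℕ → α := fun t => U (n :: t)

/-- a labelled tree from a root label and the trees above the children -/
def jn {α : Type} (a : α) (f : ℕ → List ℕ → α) : List ℕ → α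
  | [] => a
  | n :: t => f n t

/-- the value at coordinate `i` computed by iterated ultrafilter limits -/
inductive Val (ch : N → ℕ → N) (Φ : N → Set (I → Bool)) (i : I) :
    N → (List ℕ → NU) → Bool → Prop
  | base (s : N) (U : List ℕ → NU) (v : Bool) (h : ∀ w ∈ Φ s, w i = v) : Val ch Φ i s U v
  | step (s : N) (U : List ℕ → NU) (v : Bool) (A : Set ℕ) (hA : A ∈ (U []).1)
      (h : ∀ n ∈ A, Val ch Φ i (ch s n) (sh n U) v) : Val ch Φ i s U v

/-- the coordinates in `J` split along a well-founded tree only -/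
inductive Rk (ch : N → ℕ → N) (Φ : N → Set (I → Bool)) (J : Set I) : N → Prop
  | base (s : N) (h : ∀ i ∈ J, ∀ u ∈ Φ s, ∀ v ∈ Φ s, u i = v i) : Rk ch Φ J s
  | step (s : N) (m : ℕ) (h : ∀ n, m ≤ n → Rk ch Φ J (ch s n)) : Rk ch Φ J s

variable [LinearOrder I] [WellFoundedLT I]

lemma Sys.const_child (h : Sys K ch Φ) {s : N} {i : I} {v : Bool} (hv : ∀ w ∈ Φ s, w i = v) :
    {n | ¬ ∀ w ∈ Φ (ch s n), w i = v}.Finite := by
  by_contra h1
  obtain ⟨U, hU⟩ := exists_NU h1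
  have h2 : ∀ n, ∃ w ∈ Φ (ch s n), (¬ ∀ w ∈ Φ (ch s n), w i = v) → w i ≠ v := by
    intro n
    by_cases h3 : ∀ w ∈ Φ (ch s n), w i = v
    · obtain ⟨w, hw⟩ := h.ne (ch s n)
      exact ⟨w, hw, fun h4 => absurd h3 h4⟩
    · simp only [not_forall] at h3
      obtain ⟨w, hw, h4⟩ := h3
      exact ⟨w, hw, fun _ => h4⟩
  choose w hw hw' using h2
  have h3 := hv _ (h.lim s U w (univ_mem' hw))
  obtain ⟨n, h4, h5⟩ := U.1.nonempty_of_mem (inter_mem hU (ulim_mem U w i))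
  exact hw' n h4 (h5.trans h3)

lemma Sys.val_const (h : Sys K ch Φ) {i : I} {s : N} {U : List ℕ → NU} {v : Bool}
    (hv : Val ch Φ i s U v) : ∀ v', (∀ w ∈ Φ s, w i = v') → v = v' := by
  induction hv with
  | base s U v h1 =>
    intro v' h2
    obtain ⟨w, hw⟩ := h.ne s
    exact (h1 w hw).symm.trans (h2 w hw)
  | step s U v A hA _ ih =>
    intro v' h2
    obtain ⟨n, h3, h4⟩ := (U []).1.nonempty_of_mem
      (inter_mem hA ((U []).compl_mem (h.const_child h2)))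
    exact ih n h3 v' (not_not.1 h4)

lemma Sys.val_unique (h : Sys K ch Φ) {i : I} {s : N} {U : List ℕ → NU} {v : Bool}
    (hv : Val ch Φ i s U v) : ∀ v', Val ch Φ i s U v' → v = v' := by
  induction hv with
  | base s U v h1 => exact fun v' h2 => (h.val_const h2 v h1).symm
  | step s U v A hA h1 ih =>
    intro v' h2
    cases h2 with
    | base _ _ _ h3 => exact h.val_const (Val.step s U v A hA h1) v' h3
    | step _ _ _ B hB h3 =>
      obtain ⟨n, h4, h5⟩ := (U []).1.nonempty_of_mem (inter_mem hA hB)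
      exact ih n h4 v' (h3 n h5)

lemma Sys.rk_const (h : Sys K ch Φ) {J J' : Set I} (hJ : J.Finite) {s : N} (hs : Rk ch Φ J' s) :
    (∀ i ∈ J, ∀ u ∈ Φ s, ∀ v ∈ Φ s, u i = v i) → Rk ch Φ (J ∪ J') s := by
  induction hs with
  | base s h1 =>
    intro h2
    refine Rk.base s fun i hi => ?_
    rcases hi with hi | hi
    · exact h2 i hi
    · exact h1 i hi
  | step s m _ ih =>
    intro h2
    obtain ⟨w, hw⟩ := h.ne s
    have h3 : (⋃ i ∈ J, {n | ¬ ∀ u ∈ Φ (ch s n), u i = w i}).Finite :=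
      hJ.biUnion fun i hi => h.const_child fun u hu => h2 i hi u hu w hw
    obtain ⟨b, hb⟩ := h3.bddAbove
    refine Rk.step s (max m (b + 1)) fun n hn => ih n (le_of_max_le_left hn) ?_
    intro i hi u hu v hv
    have h4 : ∀ u ∈ Φ (ch s n), u i = w i := by
      by_contra h5
      have := hb (mem_biUnion hi h5)
      have := le_of_max_le_right hn
      omega
    rw [h4 u hu, h4 v hv]

lemma Sys.rk_union (h : Sys K ch Φ) {J J' : Set I} (hJ : J.Finite) (hJ' : J'.Finite) {s : N}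
    (hs : Rk ch Φ J s) : Rk ch Φ J' s → Rk ch Φ (J ∪ J') s := by
  induction hs with
  | base s h1 => exact fun h2 => h.rk_const hJ h2 h1
  | step s m h1 ih =>
    intro h2
    cases h2 with
    | base _ h3 => rw [union_comm]; exact h.rk_const hJ' (Rk.step s m h1) h3
    | step _ m' h3 =>
      exact Rk.step s (max m m') fun n hn =>
        ih n (le_of_max_le_left hn) (h3 n (le_of_max_le_right hn))

lemma Sys.rk_finite (h : Sys K ch Φ) {J : Set I} (hJ : J.Finite) {s : N} :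
    (∀ i ∈ J, Rk ch Φ {i} s) → Rk ch Φ J s := by
  induction J, hJ using Set.Finite.induction_on with
  | empty => exact fun _ => Rk.base s fun i hi => hi.elim
  | @insert a J _ hJ ih =>
    intro h1
    rw [insert_eq]
    exact h.rk_union (finite_singleton a) hJ (h1 a (mem_insert _ _))
      (ih fun i hi => h1 i (mem_insert_of_mem _ hi))

/-- the ultrafilters follow the set `W` of nodes -/
def Adapt (ch : N → ℕ → N) (W : Set N) (s : N) (U : List ℕ → NU) : Prop :=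
  ∀ t : List ℕ, t.foldl ch s ∈ W → {n | ch (t.foldl ch s) n ∈ W} ∈ (U t).1

lemma Sys.ex_fin (h : Sys K ch Φ) {C : Set (I → Bool)} (hC : IsClosed C) {W : Set N}
    (hW : ∀ s ∈ W, (Φ s ∩ C).Nonempty) {J : Set I} {s : N} (hs : Rk ch Φ J s) :
    ∀ U, s ∈ W → Adapt ch W s U → ∃ w ∈ Φ s ∩ C, ∀ j ∈ J, Val ch Φ j s U (w j) := by
  induction hs with
  | base s h1 =>
    intro U h2 _
    obtain ⟨w, hw⟩ := hW s h2
    exact ⟨w, hw, fun j hj => Val.base s U _ fun u hu => h1 j hj u hu w hw.1⟩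
  | step s m _ ih =>
    intro U h2 h3
    have hA : {n | m ≤ n} ∩ {n | ch s n ∈ W} ∈ (U []).1 := inter_mem ((U []).ge_mem m) (h3 [] h2)
    have h4 : ∀ n, ∃ w, n ∈ {n | m ≤ n} ∩ {n | ch s n ∈ W} →
        w ∈ Φ (ch s n) ∩ C ∧ ∀ j ∈ J, Val ch Φ j (ch s n) (sh n U) (w j) := by
      intro n
      by_cases h5 : n ∈ {n | m ≤ n} ∩ {n | ch s n ∈ W}
      · obtain ⟨w, hw, hw'⟩ := ih n h5.1 (sh n U) h5.2 fun t ht => h3 (n :: t) ht
        exact ⟨w, fun _ => ⟨hw, hw'⟩⟩
      · exact ⟨fun _ => true, fun h6 => absurd h6 h5⟩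
    choose w hw using h4
    refine ⟨ulim (U []) w, ⟨h.lim s _ w (mem_of_superset hA fun n hn => (hw n hn).1.1),
      ulim_closed _ w hC (mem_of_superset hA fun n hn => (hw n hn).1.2)⟩, fun j hj => ?_⟩
    refine Val.step s U _ _ (inter_mem hA (ulim_mem (U []) w j)) fun n hn => ?_
    have h5 : w n j = ulim (U []) w j := hn.2
    rw [← h5]
    exact (hw n hn.1).2 j hj

lemma Sys.ex_all (h : Sys K ch Φ) {C : Set (I → Bool)} (hC : IsClosed C) {W : Set N}
    (hW : ∀ s ∈ W, (Φ s ∩ C).Nonempty) {J : Set I} {s : N} (hs : ∀ j ∈ J, Rk ch Φ {j} s)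
    (U : List ℕ → NU) (h1 : s ∈ W) (h2 : Adapt ch W s U) :
    ∃ w ∈ Φ s ∩ C, ∀ j ∈ J, Val ch Φ j s U (w j) := by
  have := ((h.closed s).inter hC).isCompact.inter_iInter_nonempty
    (fun j : J => {w : I → Bool | Val ch Φ j s U (w j)})
    (fun j => isClosed_coord (j : I) fun c => Val ch Φ j s U c) (fun u => by
      have h3 : (Subtype.val '' (u : Set J)).Finite := u.finite_toSet.image _
      obtain ⟨w, hw, hw'⟩ := h.ex_fin hC hW (h.rk_finite h3 (s := s) (by
        rintro _ ⟨j, -, rfl⟩; exact hs j j.2)) U h1 h2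
      exact ⟨w, hw, mem_iInter₂.2 fun j hj => hw' j ⟨j, hj, rfl⟩⟩)
  obtain ⟨w, hw, hw'⟩ := this
  exact ⟨w, hw, fun j hj => mem_iInter.1 hw' ⟨j, hj⟩⟩

/-- at most one node of each level splits -/
def OneSplit (K : Set (I → Bool)) : Prop :=
  ∀ i, ∀ u ∈ K, ∀ v ∈ K, ∀ u' ∈ K, ∀ v' ∈ K, (∀ j < i, u j = v j) → u i ≠ v i →
    (∀ j < i, u' j = v' j) → u' i ≠ v' i → ∀ j < i, u j = u' j

lemma Sys.all_rk (h : Sys K ch Φ) (hM : OneSplit K) (i : I) : ∀ s, Rk ch Φ {i} s := by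
  induction i using WellFoundedLT.induction with
  | ind i ih =>
  by_contra h0
  simp only [not_forall] at h0
  obtain ⟨s, hs⟩ := h0
  let W : Set N := {s | ¬ Rk ch Φ {i} s}
  have hinf : ∀ s ∈ W, {n | ch s n ∈ W}.Infinite := by
    intro s hs h1
    obtain ⟨b, hb⟩ := h1.bddAbove
    refine hs (Rk.step s (b + 1) fun n hn => ?_)
    by_contra h2
    have := hb (show n ∈ {n | ch s n ∈ W} from h2)
    omega
  have hsp : ∀ s ∈ W, ¬ ∀ u ∈ Φ s, ∀ v ∈ Φ s, u i = v i := fun s hs h1 =>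
    hs (Rk.base s fun j hj => by rw [mem_singleton_iff.1 hj]; exact h1)
  have hne : ∀ b, ∀ s ∈ W, (Φ s ∩ {w | w i = b}).Nonempty := by
    intro b s hs
    have h1 := hsp s hs
    simp only [not_forall] at h1
    obtain ⟨u, hu, v, hv, huv⟩ := h1
    by_cases h2 : u i = b
    · exact ⟨u, hu, h2⟩
    · refine ⟨v, hv, ?_⟩
      change v i = b
      revert huv h2
      cases u i <;> cases v i <;> cases b <;> simp
  have hU : ∀ s, ∃ U : NU, s ∈ W → {n | ch s n ∈ W} ∈ U.1 := by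
    intro s
    by_cases h1 : s ∈ W
    · obtain ⟨U, hU⟩ := exists_NU (hinf s h1)
      exact ⟨U, fun _ => hU⟩
    · exact ⟨Classical.arbitrary _, fun h2 => absurd h2 h1⟩
  choose U hU using hU
  have key : ∀ s ∈ W, ∃ u ∈ Φ s, ∃ v ∈ Φ s, (∀ j < i, u j = v j) ∧ u i ≠ v i := by
    intro s hs
    have h1 : Adapt ch W s fun t => U (t.foldl ch s) := fun t ht => hU _ ht
    obtain ⟨u, hu, hu'⟩ := h.ex_all (isClosed_coord i (· = true)) (hne true) (J := Iio i)
      (fun j hj => ih j hj s) _ hs h1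
    obtain ⟨v, hv, hv'⟩ := h.ex_all (isClosed_coord i (· = false)) (hne false) (J := Iio i)
      (fun j hj => ih j hj s) _ hs h1
    refine ⟨u, hu.1, v, hv.1, fun j hj => h.val_unique (hu' j hj) _ (hv' j hj), ?_⟩
    have h2 : u i = true := hu.2
    have h3 : v i = false := hv.2
    rw [h2, h3]
    simp
  obtain ⟨n, hn, n', hn', hnn⟩ := (hinf s hs).nontrivial
  obtain ⟨j, hj, hj'⟩ := h.sep s n n' hnn
  obtain ⟨u, hu, v, hv, h1, h2⟩ := key _ hn
  obtain ⟨u', hu', v', hv', h3, h4⟩ := key _ hn'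
  have hji : j < i := by
    by_contra h5
    exact h2 (hj' i (not_lt.1 h5) u hu v hv)
  exact hj u hu u' hu' (hM i u (h.sub _ hu) v (h.sub _ hv) u' (h.sub _ hu') v' (h.sub _ hv')
    h1 h2 h3 h4 j hji)

lemma Sys.exists_z (h : Sys K ch Φ) (hM : OneSplit K) (s : N) (U : List ℕ → NU) :
    ∃ w ∈ Φ s, ∀ j, Val ch Φ j s U (w j) := by
  obtain ⟨w, hw, hw'⟩ := h.ex_all isClosed_univ (W := univ)
    (fun s _ => by rw [inter_univ]; exact h.ne s) (J := univ) (fun j _ => h.all_rk hM j s) U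
    (mem_univ _) (fun _ _ => univ_mem' fun _ => mem_univ _)
  exact ⟨w, hw.1, fun j => hw' j (mem_univ _)⟩

omit [LinearOrder I] [WellFoundedLT I] in
lemma Val.loc {i : I} {s : N} {U : List ℕ → NU} {v : Bool} (hv : Val ch Φ i s U v) :
    ∃ A : List ℕ → Set ℕ, (∀ t, A t ∈ (U t).1) ∧
      ∀ U' : List ℕ → NU, (∀ t, A t ∈ (U' t).1) → Val ch Φ i s U' v := by
  induction hv with
  | base s U v h1 => exact ⟨fun _ => univ, fun _ => univ_mem, fun U' _ => Val.base s U' v h1⟩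
  | step s U v B hB _ ih =>
    have h1 : ∀ n, ∃ A : List ℕ → Set ℕ, (∀ t, A t ∈ (sh n U t).1) ∧ (n ∈ B →
        ∀ U' : List ℕ → NU, (∀ t, A t ∈ (U' t).1) → Val ch Φ i (ch s n) U' v) := by
      intro n
      by_cases hn : n ∈ B
      · obtain ⟨A, h2, h3⟩ := ih n hn
        exact ⟨A, h2, fun _ => h3⟩
      · exact ⟨fun _ => univ, fun _ => univ_mem, fun h2 => absurd h2 hn⟩
    choose A hA hA' using h1
    refine ⟨jn B A, fun t => ?_, fun U' hU' => Val.step s U' v B (hU' []) fun n hn =>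
      hA' n hn _ fun t => hU' (n :: t)⟩
    cases t with
    | nil => exact hB
    | cons n t => exact hA n t

lemma Sys.nontrivial (h : Sys K ch Φ) (hP : PTwo K) (s : N) (z : I → Bool) :
    ∃ y ∈ Φ s, y ≠ z := by
  choose w hw using fun n => h.ne (ch s n)
  have hinj : Function.Injective w := by
    intro n n' hn
    by_contra h1
    obtain ⟨j, hj, -⟩ := h.sep s n n' h1
    exact hj _ (hw n) _ (hw n') (by rw [hn])
  obtain ⟨i, hi⟩ := hP.split infinite_univ w (fun n => h.sub _ (hw n)) hinj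
  obtain ⟨U, hU⟩ := exists_NU (hi (!z i))
  refine ⟨ulim U w, h.lim s U w (univ_mem' hw), fun h1 => ?_⟩
  have h2 := ulim_eq U w i (c := !z i) (mem_of_superset hU fun n hn => hn.2)
  rw [h1] at h2
  revert h2
  cases z i <;> simp

/-- coordinate `i` splits along a tree of rank at least the given ordinal -/
inductive Big {Ω : Type} [LT Ω] (ch : N → ℕ → N) (Φ : N → Set (I → Bool)) (i : I) : N → Ω → Prop
  | mk (s : N) (ζ : Ω) (h : ¬ ∀ u ∈ Φ s, ∀ v ∈ Φ s, u i = v i) (S : Ω → Set ℕ)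
      (hS : ∀ ξ, ξ < ζ → (S ξ).Infinite)
      (hb : ∀ ξ, ξ < ζ → ∀ n ∈ S ξ, Big ch Φ i (ch s n) ξ) : Big ch Φ i s ζ

variable {Ω : Type} [LinearOrder Ω]

omit [LinearOrder I] [WellFoundedLT I] in
lemma Big.mono {i : I} {s : N} {ζ ξ : Ω} (h : Big ch Φ i s ζ) (hξ : ξ ≤ ζ) : Big ch Φ i s ξ := by
  cases h with
  | mk _ _ h1 S hS hb =>
    exact Big.mk s ξ h1 S (fun a ha => hS a (ha.trans_le hξ)) fun a ha => hb a (ha.trans_le hξ)

omit [LinearOrder I] [WellFoundedLT I] in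
lemma Rk.not_big [Nonempty Ω] (hb : ∀ f : ℕ → Ω, ∃ ζ, ∀ n, f n < ζ) {i : I} {s : N}
    (hs : Rk ch Φ {i} s) : ∃ ζ : Ω, ¬ Big ch Φ i s ζ := by
  induction hs with
  | base s h1 =>
    refine ⟨Classical.arbitrary _, fun h2 => ?_⟩
    cases h2 with
    | mk _ _ h3 => exact h3 (h1 i rfl)
  | step s m _ ih =>
    have h1 : ∀ n, ∃ ζ : Ω, m ≤ n → ¬ Big ch Φ i (ch s n) ζ := by
      intro n
      by_cases hn : m ≤ n
      · obtain ⟨ζ, h2⟩ := ih n hn
        exact ⟨ζ, fun _ => h2⟩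
      · exact ⟨Classical.arbitrary _, fun h2 => absurd h2 hn⟩
    choose f hf using h1
    obtain ⟨ξ, hξ⟩ := hb f
    obtain ⟨ζ, hζ⟩ := hb fun _ => ξ
    refine ⟨ζ, fun h2 => ?_⟩
    cases h2 with
    | mk _ _ _ S hS h3 =>
      obtain ⟨n, h4, h5⟩ := (hS ξ (hζ 0)).exists_gt m
      exact hf n h5.le ((h3 ξ (hζ 0) n h4).mono (hξ n).le)

/-- each coordinate depends on one member of each ultrafilter -/
def Cont (y : (List ℕ → NU) → I → Bool) : Prop :=
  ∀ U i, ∃ A : List ℕ → Set ℕ, (∀ t, A t ∈ (U t).1) ∧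
    ∀ U' : List ℕ → NU, (∀ t, A t ∈ (U' t).1) → y U' i = y U i

lemma ladder {ζ : Ω} (hc : (Iio ζ).Countable) (hne : (Iio ζ).Nonempty) :
    ∃ l : ℕ → Ω, (∀ n, l n < ζ) ∧ ∀ ξ < ζ, ∃ m, ∀ n, m ≤ n → ξ ≤ l n := by
  obtain ⟨f, hf⟩ := hc.exists_eq_range hne
  have h1 : ∀ n, f n < ζ := fun n => show f n ∈ Iio ζ from hf ▸ mem_range_self n
  refine ⟨fun n => (Finset.range (n + 1)).sup' Finset.nonempty_range_add_one f, fun n => ?_,
    fun ξ hξ => ?_⟩
  · exact (Finset.sup'_lt_iff _).2 fun k _ => h1 k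
  · obtain ⟨m, rfl⟩ : ξ ∈ range f := hf ▸ hξ
    exact ⟨m, fun n hn => Finset.le_sup' f (Finset.mem_range.2 (by omega))⟩

theorem Sys.names [WellFoundedLT Ω] (h : Sys K ch Φ) (hP : PTwo K)
    (hc : ∀ ζ : Ω, (Iio ζ).Countable) (z : N → (List ℕ → NU) → I → Bool)
    (hz : ∀ s U, z s U ∈ Φ s) (hz' : ∀ s U j, Val ch Φ j s U (z s U j)) (ζ : Ω) :
    ∀ s (E : List ℕ → Set ℕ), (∀ t, (E t).Infinite) → ∃ y, Cont y ∧
      (∀ U, y U ∈ Φ s ∧ ∀ i, y U i ≠ z s U i → Big ch Φ i s ζ) ∧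
      ∃ U : List ℕ → NU, (∀ t, E t ∈ (U t).1) ∧ y U ≠ z s U := by
  induction ζ using WellFoundedLT.induction with
  | ind ζ ih =>
  intro s E hE
  by_cases hne : (Iio ζ).Nonempty
  · obtain ⟨l, hl, hl'⟩ := ladder (hc ζ) hne
    choose y hy1 hy2 V hV hy3 using fun n => ih (l n) (hl n) (ch s n) (sh n E) fun t => hE _
    obtain ⟨i₀, hi₀⟩ := hP.on (hE []) (fun n => y n (V n)) (fun n => z (ch s n) (V n))
      (fun n => h.sub _ (hy2 n _).1) (fun n => h.sub _ (hz _ _)) hy3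
    obtain ⟨U₀, hU₀⟩ := exists_NU hi₀
    have coh : ∀ U i, z s U i = ulim (U []) (fun n => z (ch s n) (sh n U)) i := by
      intro U i
      refine h.val_unique (hz' s U i) _ (Val.step s U _ _
        (ulim_mem (U []) (fun n => z (ch s n) (sh n U)) i) fun n hn => ?_)
      have h1 : z (ch s n) (sh n U) i = _ := hn
      rw [← h1]
      exact hz' _ _ _
    have hmem : ∀ U : List ℕ → NU, ulim (U []) (fun n => y n (sh n U)) ∈ Φ s := fun U =>
      h.lim s _ _ (univ_mem' fun n => (hy2 n _).1)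
    refine ⟨fun U => ulim (U []) fun n => y n (sh n U), fun U i => ?_, fun U => ⟨hmem U, ?_⟩,
      jn U₀ V, fun t => ?_, fun h1 => ?_⟩
    · choose A hA hA' using fun n => hy1 n (sh n U) i
      refine ⟨jn {n | y n (sh n U) i = ulim (U []) (fun n => y n (sh n U)) i} A, fun t => ?_,
        fun U' hU' => ulim_eq _ _ _ (mem_of_superset (hU' []) fun n hn => ?_)⟩
      · cases t with
        | nil => exact ulim_mem (U []) (fun n => y n (sh n U)) i
        | cons n t => exact hA n t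
      · exact (hA' n _ fun t => hU' (n :: t)).trans hn
    · intro i hi
      have h1 : {n | y n (sh n U) i ≠ z (ch s n) (sh n U) i} ∈ (U []).1 := by
        refine mem_of_superset (inter_mem (ulim_mem (U []) (fun n => y n (sh n U)) i)
          (ulim_mem (U []) (fun n => z (ch s n) (sh n U)) i)) fun n hn h2 => hi ?_
        rw [coh]
        exact hn.1.symm.trans (h2.trans hn.2)
      refine Big.mk s ζ (fun h2 => hi (h2 _ (hmem U) _ (hz s U)))
        (fun ξ => {n | y n (sh n U) i ≠ z (ch s n) (sh n U) i} ∩ {n | ξ ≤ l n})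
        (fun ξ hξ => ?_) fun ξ _ n hn => ((hy2 n _).2 i hn.1).mono hn.2
      obtain ⟨m, hm⟩ := hl' ξ hξ
      exact (U []).infinite (inter_mem h1 (mem_of_superset ((U []).ge_mem m) hm))
    · cases t with
      | nil => exact mem_of_superset hU₀ fun n hn => hn.1
      | cons n t => exact hV n t
    · have h2 := congrFun h1 i₀
      rw [coh] at h2
      obtain ⟨n, ⟨h3, h4⟩, h5⟩ := U₀.1.nonempty_of_mem (inter_mem (inter_mem hU₀
        (ulim_mem U₀ (fun n => y n (V n)) i₀)) (ulim_mem U₀ (fun n => z (ch s n) (V n)) i₀))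
      exact h3.2 (h4.trans (h2.trans h5.symm))
  · choose U hU using fun t => exists_NU (hE t)
    obtain ⟨y, hy, hy'⟩ := h.nontrivial hP s (z s U)
    refine ⟨fun _ => y, fun U i => ⟨fun _ => univ, fun _ => univ_mem, fun _ _ => rfl⟩,
      fun U' => ⟨hy, fun i hi => ?_⟩, U, hU, hy'⟩
    exact Big.mk s ζ (fun h2 => hi (h2 _ hy _ (hz s U'))) (fun _ => univ)
      (fun ξ hξ => absurd ⟨ξ, hξ⟩ hne) fun ξ hξ => absurd ⟨ξ, hξ⟩ hne

end Pool.Agent.P.MP_0d6be8_lc
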