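import Pool.Agent.P.MP_0d6be8_lc.NM2

set_option linter.unusedSectionVars false

namespace Pool.Agent.P.MP_0d6be8_lc
open Set Filter Topology

variable {Ω : Type} [LinearOrder Ω] [WellFoundedLT Ω]

lemma chain_neBot {ι : Type} [LinearOrder ι] [Nonempty ι] (E : ι → Set ℕ) (h1 : ∀ a, (E a).Infinite)
    (h2 : ∀ a b, a < b → (E b \ E a).Finite) : (⨅ a, (cofinite ⊓ 𝓟 (E a) : Filter ℕ)).NeBot := by
  have hanti : Antitone fun a => (cofinite ⊓ 𝓟 (E a) : Filter ℕ) := by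
    intro a b hab
    rcases hab.lt_or_eq with h3 | h3
    · refine le_inf inf_le_left (le_principal_iff.2 ?_)
      refine mem_of_superset (inter_mem_inf (h2 a b h3).compl_mem_cofinite (mem_principal_self _))
        fun n hn => ?_
      by_contra h4
      exact hn.1 ⟨hn.2, h4⟩
    · rw [h3]
  exact iInf_neBot_of_directed' hanti.directed_ge fun a => (h1 a).cofinite_inf_principal_neBot

lemma chain_pseudo {ι : Type} [LinearOrder ι] [Countable ι] (E : ι → Set ℕ)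
    (h1 : ∀ a, (E a).Infinite) (h2 : ∀ a b, a < b → (E b \ E a).Finite) :
    ∃ B : Set ℕ, B.Infinite ∧ ∀ a, (B \ E a).Finite := by
  rcases isEmpty_or_nonempty ι with h3 | h3
  · exact ⟨univ, infinite_univ, fun a => h3.elim a⟩
  have := chain_neBot E h1 h2
  have h4 : (cofinite : Filter ℕ).IsCountablyGenerated := by
    rw [Nat.cofinite_eq_atTop]; infer_instance
  obtain ⟨x, hx⟩ := exists_seq_tendsto (⨅ a, (cofinite ⊓ 𝓟 (E a) : Filter ℕ))
  rw [tendsto_iInf] at hx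
  refine ⟨range x, fun h5 => ?_, fun a => ?_⟩
  · obtain ⟨a⟩ := h3
    have h6 := (tendsto_inf.1 (hx a)).1 h5.compl_mem_cofinite
    obtain ⟨n, hn⟩ := (atTop : Filter ℕ).nonempty_of_mem h6
    exact hn (mem_range_self n)
  · have h6 := tendsto_principal.1 (tendsto_inf.1 (hx a)).2
    rw [← Nat.cofinite_eq_atTop, eventually_cofinite] at h6
    refine (h6.image x).subset ?_
    rintro _ ⟨⟨n, rfl⟩, hn⟩
    exact ⟨n, hn, rfl⟩

theorem tower {T : Type} (hc : ∀ ζ : Ω, (Iio ζ).Countable) (D : Ω → (T → Set ℕ) → Prop)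
    (hD : ∀ η (E : T → Set ℕ), (∀ t, (E t).Infinite) →
      ∃ E' : T → Set ℕ, (∀ t, (E' t).Infinite ∧ E' t ⊆ E t) ∧ D η E') :
    ∃ E : Ω → T → Set ℕ, (∀ η t, (E η t).Infinite) ∧ (∀ η, D η (E η)) ∧
      ∀ ζ η, ζ < η → ∀ t, (E η t \ E ζ t).Finite := by
  classical
  let P : (η : Ω) → ((ζ : Ω) → ζ < η → T → Set ℕ) → (T → Set ℕ) → Prop := fun η f E' =>
    (∀ t, (E' t).Infinite) ∧ D η E' ∧ ∀ ζ (h : ζ < η) t, (E' t \ f ζ h t).Finite
  let E : Ω → T → Set ℕ := (wellFounded_lt (α := Ω)).fix fun η f =>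
    if h : ∃ E', P η f E' then h.choose else fun _ => univ
  have hE : ∀ η, E η = if h : ∃ E', P η (fun ζ _ => E ζ) E' then h.choose else fun _ => univ :=
    fun η => WellFounded.fix_eq _ _ η
  have key : ∀ η, P η (fun ζ _ => E ζ) (E η) := by
    intro η
    induction η using WellFoundedLT.induction with
    | ind η ih =>
    have h : ∃ E', P η (fun ζ _ => E ζ) E' := by
      have := (hc η).to_subtype
      choose B hB hB' using fun t => chain_pseudo (ι := Iio η) (fun a => E a t)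
        (fun a => (ih a a.2).1 t) fun a b hab => (ih b b.2).2.2 a hab t
      obtain ⟨E', h1, h2⟩ := hD η B hB
      exact ⟨E', fun t => (h1 t).1, h2, fun ζ h t =>
        (hB' t ⟨ζ, h⟩).subset (sdiff_subset_sdiff_left (h1 t).2)⟩
    rw [hE η, dif_pos h]
    exact h.choose_spec
  exact ⟨E, fun η => (key η).1, fun η => (key η).2.1, fun ζ η h => (key η).2.2 ζ h⟩

variable {I : Type} [LinearOrder I] [WellFoundedLT I] {K : Set (I → Bool)} [Nonempty Ω]

theorem column (hM : OneSplit K) (hP : PTwo K) (hc : ∀ ζ : Ω, (Iio ζ).Countable)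
    (hb : ∀ f : ℕ → Ω, ∃ ζ, ∀ n, f n < ζ) {F : Set (I → Bool)} (hF : IC K F) :
    ∃ z ∈ F, ∃ y : Ω → I → Bool, (∀ η, y η ∈ F ∧ y η ≠ z) ∧
      ∀ i, ∃ ζ, ∀ η, ζ ≤ η → y η i = z i := by
  obtain ⟨N, ⟨s⟩, ch, Φ, h, hsub⟩ := hP.exists_sys hF
  choose z hz hz' using h.exists_z hM
  obtain ⟨E, h1, h2, h3⟩ := tower (T := List ℕ) hc (fun η E => ∀ U : List ℕ → NU,
      (∀ t, E t ∈ (U t).1) → ∃ y ∈ Φ s, y ≠ z s U ∧ ∀ i, y i ≠ z s U i → Big ch Φ i s η) (by
    intro η E hE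
    obtain ⟨y, hy1, hy2, U, hU, hy3⟩ := h.names hP hc z hz hz' η s E hE
    obtain ⟨i, hi⟩ := Function.ne_iff.1 hy3
    obtain ⟨A, hA, hA'⟩ := hy1 U i
    obtain ⟨B, hB, hB'⟩ := (hz' s U i).loc
    refine ⟨fun t => E t ∩ (A t ∩ B t), fun t => ⟨(U t).infinite
      (inter_mem (hU t) (inter_mem (hA t) (hB t))), inter_subset_left⟩, fun U' hU' => ?_⟩
    refine ⟨y U', (hy2 U').1, fun h4 => hi ?_, (hy2 U').2⟩
    rw [← hA' U' fun t => mem_of_superset (hU' t) fun n hn => hn.2.1, h4]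
    exact h.val_unique (hz' s U' i) _ (hB' U' fun t => mem_of_superset (hU' t) fun n hn => hn.2.2))
  have h4 : ∀ t, ∃ U : NU, ∀ η, E η t ∈ U.1 := by
    intro t
    have := chain_neBot (fun η => E η t) (fun η => h1 η t) fun a b hab => h3 a b hab t
    obtain ⟨U, hU⟩ := Ultrafilter.exists_le (⨅ a, (cofinite ⊓ 𝓟 (E a t) : Filter ℕ))
    exact ⟨⟨U, (hU.trans (iInf_le _ (Classical.arbitrary Ω))).trans inf_le_left⟩, fun η =>
      le_principal_iff.1 ((hU.trans (iInf_le _ η)).trans inf_le_right)⟩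
  choose U hU using h4
  choose y hy1 hy2 hy3 using fun η => h2 η U fun t => hU t η
  refine ⟨z s U, hsub s (hz s U), y, fun η => ⟨hsub s (hy1 η), hy2 η⟩, fun i => ?_⟩
  obtain ⟨ζ, hζ⟩ := (h.all_rk hM i s).not_big hb
  refine ⟨ζ, fun η hη => ?_⟩
  by_contra h5
  exact hζ ((hy3 η i h5).mono hη)

theorem column_set (hM : OneSplit K) (hP : PTwo K) (hc : ∀ ζ : Ω, (Iio ζ).Countable)
    (hb : ∀ f : ℕ → Ω, ∃ ζ, ∀ n, f n < ζ) {F : Set (I → Bool)} (hF : IC K F) :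
    ∃ z ∈ F, ∃ G : Ω → Set (I → Bool), (∀ η, IC K (G η)) ∧ (∀ η, G η ⊆ F ∧ z ∉ G η) ∧
      ∀ i, ∃ ζ, ∀ η, ζ ≤ η → ∀ w ∈ G η, w i = z i := by
  obtain ⟨z, hz, y, hy, hy'⟩ := column hM hP hc hb hF
  have h1 : ∀ η, (y '' Ici η).Infinite := by
    intro η h2
    choose i hi using fun η => Function.ne_iff.1 (hy η).2
    obtain ⟨f, hf⟩ := h2.countable.exists_eq_range ⟨_, η, self_mem_Ici, rfl⟩
    choose g hg hg' using fun n => show f n ∈ y '' Ici η from hf ▸ mem_range_self n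
    choose c hc' using hy'
    obtain ⟨ξ, hξ⟩ := hb fun n => c (i (g n))
    obtain ⟨n, hn⟩ : y (max η ξ) ∈ range f := hf ▸ ⟨_, le_max_left η ξ, rfl⟩
    apply hi (g n)
    rw [hg', hn]
    exact hc' _ _ ((hξ n).le.trans (le_max_right _ _))
  have h2 : ∀ η, ∃ i, (y '' Ici η ∩ {w | w i ≠ z i}).Infinite := by
    intro η
    let e := (h1 η).natEmbedding
    have he : Function.Injective fun k => (e k : I → Bool) :=
      fun a b hab => e.injective (Subtype.ext hab)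
    have h3 : ∀ k, (e k : I → Bool) ∈ F ∧ (e k : I → Bool) ≠ z := fun k => by
      obtain ⟨ξ, -, h4⟩ := (e k).2
      rw [← h4]
      exact hy ξ
    obtain ⟨i, hi⟩ := hP (fun k => e k) (fun _ => z) (fun k => hF.sub (h3 k).1)
      (fun _ => hF.sub hz) fun k => (h3 k).2
    refine ⟨i, (hi.image he.injOn).mono ?_⟩
    rintro _ ⟨k, hk, rfl⟩
    exact ⟨(e k).2, hk⟩
  choose i hi using h2
  refine ⟨z, hz, fun η => (F ∩ {w | w (i η) ≠ z (i η)}) ∩
    ⋂ j, {w | (∀ ξ, η ≤ ξ → y ξ j = z j) → w j = z j}, fun η => ⟨fun w hw => hF.sub hw.1.1, ?_, ?_⟩,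
    fun η => ⟨fun w hw => hw.1.1, fun hw => hw.1.2 rfl⟩, fun j => ?_⟩
  · exact (hF.closed.inter (isClosed_coord (i η) (· ≠ z (i η)))).inter (isClosed_iInter fun j =>
      isClosed_coord j fun c => (∀ ξ, η ≤ ξ → y ξ j = z j) → c = z j)
  · refine (hi η).mono ?_
    rintro _ ⟨⟨ξ, hξ, rfl⟩, h3⟩
    exact ⟨⟨(hy ξ).1, h3⟩, mem_iInter.2 fun j hj => hj ξ hξ⟩
  · obtain ⟨ζ, hζ⟩ := hy' j
    exact ⟨ζ, fun η hη w hw => mem_iInter.1 hw.2 j fun ξ hξ => hζ ξ (hη.trans hξ)⟩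

/-- coordinate `i` of the sequence is almost constant on `E` -/
def Conv (r : ℕ → I → Bool) (E : Set ℕ) (i : I) : Prop := ∃ c, {n | n ∈ E ∧ r n i ≠ c}.Finite

lemma not_conv {r : ℕ → I → Bool} {E : Set ℕ} {i : I} (h : ¬ Conv r E i) (c : Bool) :
    {n | n ∈ E ∧ r n i = c}.Infinite := fun h1 => h ⟨!c, h1.subset fun n hn => ⟨hn.1, by
      have h2 := hn.2
      revert h2
      cases r n i <;> cases c <;> simp⟩⟩

lemma Conv.ulim_eq {r : ℕ → I → Bool} {E : Set ℕ} {i : I} (h : Conv r E i) {U V : NU}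
    (hU : E ∈ U.1) (hV : E ∈ V.1) : ulim U r i = ulim V r i := by
  obtain ⟨c, hc⟩ := h
  have : ∀ U : NU, E ∈ U.1 → ulim U r i = c := fun U hU =>
    Pool.Agent.P.MP_0d6be8_lc.ulim_eq U r i (mem_of_superset (inter_mem hU (U.compl_mem hc))
      fun n hn => by by_contra h1; exact hn.2 ⟨hn.1, h1⟩)
  rw [this U hU, this V hV]

lemma ulim_ne (U : NU) (r r' : ℕ → I → Bool) (i : I) (h : {n | r n i ≠ r' n i} ∈ U.1) :
    ulim U r i ≠ ulim U r' i := by
  intro h1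
  obtain ⟨n, ⟨h2, h3⟩, h4⟩ := U.1.nonempty_of_mem
    (inter_mem (inter_mem h (ulim_mem U r i)) (ulim_mem U r' i))
  exact h2 (h3.trans (h1.trans h4.symm))

lemma first_sep (hM : OneSplit K) (hP : PTwo K) (y z : ℕ → I → Bool) (hy : ∀ n, y n ∈ K)
    (hz : ∀ n, z n ∈ K) (hne : ∀ n, y n ≠ z n) (hK : IsClosed K) {E : Set ℕ} (hE : E.Infinite) :
    ∃ E', E'.Infinite ∧ E' ⊆ E ∧ ∃ i, (∀ n ∈ E', y n i ≠ z n i) ∧ ∀ j < i, Conv z E' j := by
  obtain ⟨i, hi, hmin⟩ := WellFounded.has_min (wellFounded_lt (α := I))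
    {i | {n | n ∈ E ∧ y n i ≠ z n i}.Infinite} (hP.on hE y z hy hz hne)
  refine ⟨_, hi, fun n hn => hn.1, i, fun n hn => hn.2, fun j hj => ?_⟩
  by_contra h1
  have key : ∀ U : NU, {n | n ∈ E ∧ y n i ≠ z n i} ∈ U.1 →
      (∀ k < i, ulim U z k = ulim U y k) ∧ ulim U z i ≠ ulim U y i := by
    intro U hU
    refine ⟨fun k hk => ?_, (ulim_ne U y z i (mem_of_superset hU fun n hn => hn.2)).symm⟩
    have h2 : {n | n ∈ E ∧ y n k ≠ z n k}.Finite := not_infinite.1 fun h2 => hmin k h2 hk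
    refine ulim_eq U z k (mem_of_superset
      (inter_mem (inter_mem hU (U.compl_mem h2)) (ulim_mem U y k)) fun n hn => ?_)
    have h3 : y n k = z n k := by by_contra h3; exact hn.1.2 ⟨hn.1.1.1, h3⟩
    exact h3.symm.trans hn.2
  obtain ⟨U, hU⟩ := exists_NU (not_conv h1 true)
  obtain ⟨V, hV⟩ := exists_NU (not_conv h1 false)
  obtain ⟨h2, h3⟩ := key U (mem_of_superset hU fun n hn => hn.1)
  obtain ⟨h4, h5⟩ := key V (mem_of_superset hV fun n hn => hn.1)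
  have h6 := hM i _ (ulim_closed U z hK (univ_mem' hz)) _ (ulim_closed U y hK (univ_mem' hy))
    _ (ulim_closed V z hK (univ_mem' hz)) _ (ulim_closed V y hK (univ_mem' hy)) h2 h3 h4 h5 j hj
  rw [ulim_eq U z j (c := true) (mem_of_superset hU fun n hn => hn.2),
    ulim_eq V z j (c := false) (mem_of_superset hV fun n hn => hn.2)] at h6
  exact Bool.noConfusion h6

theorem descent (hM : OneSplit K) (hP : PTwo K) (hK : IC K K) (hc : ∀ ζ : Ω, (Iio ζ).Countable)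
    (hb : ∀ f : ℕ → Ω, ∃ ζ, ∀ n, f n < ζ)
    (hH : ∀ D : List Ω × Ω → Set ℕ → Prop,
      (∀ p E, E.Infinite → ∃ E', E'.Infinite ∧ E' ⊆ E ∧ D p E') →
      ∃ B : Set ℕ, B.Infinite ∧ ∀ p, ∃ E, D p E ∧ (B \ E).Finite) : False := by
  obtain ⟨F, hF, hd⟩ := hP.disj_seq hK
  choose z hz G hG hG' hG'' using fun F : {F // IC K F} => column_set hM hP hc hb F.2
  let H : ℕ → List Ω → {F // IC K F} := fun n σ => List.rec ⟨F n, (hF n).1⟩
    (fun η _ X => ⟨G X η, hG X η⟩) σ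
  have hH' : ∀ n η σ, (H n (η :: σ)).1 = G (H n σ) η := fun _ _ _ => rfl
  have hsub : ∀ n σ, (H n σ).1 ⊆ F n := by
    intro n σ
    induction σ with
    | nil => exact subset_rfl
    | cons η σ ih => rw [hH']; exact (hG' _ η).1.trans ih
  let r : List Ω → ℕ → I → Bool := fun σ n => z (H n σ)
  have hr : ∀ σ n, r σ n ∈ K := fun σ n => (H n σ).2.sub (hz _)
  have hne : ∀ η σ n, r (η :: σ) n ≠ r σ n := by
    intro η σ n h1
    have h2 : r (η :: σ) n ∈ G (H n σ) η := hz (H n (η :: σ))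
    rw [h1] at h2
    exact (hG' _ η).2 h2
  have hinj : ∀ σ, Function.Injective (r σ) := by
    intro σ n m h1
    by_contra h2
    exact hd n m h2 _ (hsub n σ (hz _)) (by
      change r σ n ∈ F m
      rw [h1]; exact hsub m σ (hz _))
  obtain ⟨B, hB, hB'⟩ := hH (fun p E => ∃ i, (∀ n ∈ E, r (p.2 :: p.1) n i ≠ r p.1 n i) ∧
      ∀ j < i, Conv (r p.1) E j)
    (fun p E hE => first_sep hM hP (r (p.2 :: p.1)) (r p.1) (hr (p.2 :: p.1)) (hr p.1)
      (hne p.2 p.1)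
      hK.closed hE)
  obtain ⟨i, ⟨σ, hi⟩, hmin⟩ := WellFounded.has_min (wellFounded_lt (α := I))
    {i | ∃ σ, ¬ Conv (r σ) B i} (by
      obtain ⟨i, hi⟩ := hP.split hB (r []) (hr []) (hinj [])
      refine ⟨i, [], fun ⟨c, h1⟩ => hi (!c) (h1.subset fun n hn => ⟨hn.1, ?_⟩)⟩
      rw [hn.2]
      cases c <;> simp)
  have hlow : ∀ σ, ∀ j < i, Conv (r σ) B j := fun σ j hj => by
    by_contra h1
    exact hmin j ⟨σ, h1⟩ hj
  choose c hc' using fun n => hG'' (H n σ) i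
  obtain ⟨η, hη⟩ := hb c
  have heq : ∀ n, r (η :: σ) n i = r σ n i := fun n => hc' n η (hη n).le _ (hz (H n (η :: σ)))
  obtain ⟨E, ⟨i₀, h1, h2⟩, h3⟩ := hB' (σ, η)
  have h4 : i₀ < i := by
    rcases lt_trichotomy i₀ i with h4 | h4 | h4
    · exact h4
    · obtain ⟨n, h5, h6⟩ := (hB.sdiff h3).nonempty
      have h7 : n ∈ E := by by_contra h7; exact h6 ⟨h5, h7⟩
      exact absurd (heq n) (h4 ▸ h1 n h7)
    · obtain ⟨v, hv⟩ := h2 i h4
      refine absurd ⟨v, (hv.union h3).subset fun n hn => ?_⟩ hi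
      by_cases h7 : n ∈ E
      · exact Or.inl ⟨h7, hn.2⟩
      · exact Or.inr ⟨hn.1, h7⟩
  obtain ⟨U, hU⟩ := exists_NU (not_conv hi true)
  obtain ⟨V, hV⟩ := exists_NU (not_conv hi false)
  have hUB : B ∈ U.1 := mem_of_superset hU fun n hn => hn.1
  have hVB : B ∈ V.1 := mem_of_superset hV fun n hn => hn.1
  have h5 : ∀ τ, (∀ n, r τ n i = r σ n i) → ulim U (r τ) i ≠ ulim V (r τ) i := by
    intro τ hτ
    rw [ulim_eq U _ i (c := true) (mem_of_superset hU fun n hn => (hτ n).trans hn.2),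
      ulim_eq V _ i (c := false) (mem_of_superset hV fun n hn => (hτ n).trans hn.2)]
    simp
  have h6 := hM i _ (ulim_closed U _ hK.closed (univ_mem' (hr σ)))
    _ (ulim_closed V _ hK.closed (univ_mem' (hr σ)))
    _ (ulim_closed U _ hK.closed (univ_mem' (hr (η :: σ))))
    _ (ulim_closed V _ hK.closed (univ_mem' (hr (η :: σ))))
    (fun j hj => (hlow σ j hj).ulim_eq hUB hVB) (h5 σ fun _ => rfl)
    (fun j hj => (hlow (η :: σ) j hj).ulim_eq hUB hVB) (h5 (η :: σ) heq) i₀ h4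
  refine ulim_ne U (r (η :: σ)) (r σ) i₀ ?_ h6.symm
  refine mem_of_superset (inter_mem hUB (U.compl_mem h3)) fun n hn => h1 n ?_
  by_contra h7
  exact hn.2 ⟨hn.1, h7⟩

end Pool.Agent.P.MP_0d6be8_lc
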