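import Pool.Agent.P.MP_0d6be8_lc.NM3
import Pool.Agent.P.MP_0d6be8_lc.Main
import Pool.Agent.P.MP_0d6be8_lc.DefsMA
import Pool.Agent.P.MP_0d6be8_lc.DefsH

set_option linter.unusedSectionVars false

namespace Pool.Agent.P.MP_0d6be8_lc
open Set Filter Topology

/-- conditions for adding a pseudo-intersection -/
structure Cnd {Ω : Type} (E : Ω → Set ℕ) : Type where
  s : Finset ℕ
  F : Finset Ω

instance Cnd.po {Ω : Type} (E : Ω → Set ℕ) : PartialOrder (Cnd E) where
  le q p := p.s ⊆ q.s ∧ p.F ⊆ q.F ∧ ∀ n ∈ q.s, n ∉ p.s → ∀ η ∈ p.F, n ∈ E η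
  le_refl p := ⟨subset_rfl, subset_rfl, fun _ h h' => absurd h h'⟩
  le_trans r q p h1 h2 := ⟨h2.1.trans h1.1, h2.2.1.trans h1.2.1, fun n hn hn' η hη => by
    by_cases h3 : n ∈ q.s
    · exact h2.2.2 n h3 hn' η hη
    · exact h1.2.2 n hn h3 η (h2.2.1 hη)⟩
  le_antisymm p q h1 h2 := by
    cases p; cases q
    congr
    · exact Finset.Subset.antisymm h2.1 h1.1
    · exact Finset.Subset.antisymm h2.2.1 h1.2.1

theorem MA.pseudo (h : MA) {Ω : Type} [LinearOrder Ω] [Nonempty Ω]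
    (hΩ : Cardinal.mk Ω < Cardinal.continuum) (hω : Cardinal.aleph0.{0} < Cardinal.continuum)
    (E : Ω → Set ℕ) (h1 : ∀ a, (E a).Infinite) (h2 : ∀ a b, a < b → (E b \ E a).Finite) :
    ∃ B : Set ℕ, B.Infinite ∧ ∀ a, (B \ E a).Finite := by
  classical
  let D : Ω ⊕ ℕ → Set (Cnd E) := Sum.elim (fun η => {p | η ∈ p.F}) fun n => {p | ∃ m ∈ p.s, n < m}
  obtain ⟨G, -, -, hG, hD⟩ := h (Cnd E) ⟨⟨∅, ∅⟩⟩ (by
    intro A hA
    refine Set.MapsTo.countable_of_injOn (f := Cnd.s) (t := univ) (mapsTo_univ _ _) ?_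
      countable_univ
    intro p hp q hq hpq
    by_contra h3
    refine hA hp hq h3 ⟨⟨p.s, p.F ∪ q.F⟩, ⟨subset_rfl, Finset.subset_union_left,
      fun _ h h' => absurd h h'⟩, ⟨hpq ▸ subset_rfl, Finset.subset_union_right,
      fun _ h h' => absurd h (hpq ▸ h')⟩⟩) (range D) (by
    refine Cardinal.mk_range_le.trans_lt ?_
    rw [Cardinal.mk_sum, Cardinal.lift_id, Cardinal.lift_id, Cardinal.mk_nat]
    exact Cardinal.add_lt_of_lt hω.le hΩ hω) (by
    rintro _ ⟨x, rfl⟩ p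
    rcases x with η | n
    · exact ⟨⟨p.s, insert η p.F⟩, Finset.mem_insert_self _ _, subset_rfl,
        Finset.subset_insert _ _, fun _ h h' => absurd h h'⟩
    · have := chain_neBot E h1 h2
      have h3 : {m | n < m} ∩ ⋂ η ∈ p.F, E η ∈ ⨅ a, (cofinite ⊓ 𝓟 (E a) : Filter ℕ) := by
        refine inter_mem (mem_iInf_of_mem (Classical.arbitrary Ω) (mem_inf_of_left ?_)) ?_
        · rw [Nat.cofinite_eq_atTop]; exact eventually_gt_atTop n
        · exact (biInter_finset_mem _).2 fun η _ =>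
            mem_iInf_of_mem η (mem_inf_of_right (mem_principal_self _))
      obtain ⟨m, h4, h5⟩ := Filter.nonempty_of_mem h3
      refine ⟨⟨insert m p.s, p.F⟩, ⟨m, Finset.mem_insert_self _ _, h4⟩, Finset.subset_insert _ _,
        subset_rfl, fun k hk hk' η hη => ?_⟩
      rcases Finset.mem_insert.1 hk with h6 | h6
      · rw [h6]; exact mem_iInter₂.1 h5 η hη
      · exact absurd h6 hk')
  refine ⟨{n | ∃ p ∈ G, n ∈ p.s}, infinite_of_forall_exists_gt fun n => ?_, fun η => ?_⟩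
  · obtain ⟨p, hp, m, hm, hm'⟩ := hD _ ⟨Sum.inr n, rfl⟩
    exact ⟨m, ⟨p, hp, hm⟩, hm'⟩
  · obtain ⟨p, hp, hη⟩ := hD _ ⟨Sum.inl η, rfl⟩
    refine p.s.finite_toSet.subset ?_
    rintro n ⟨⟨q, hq, hn⟩, hn'⟩
    obtain ⟨r, -, h3, h4⟩ := hG p hp q hq
    by_contra h5
    exact hn' (h3.2.2 n (h4.1 hn) h5 η hη)

/-- every family of at most `aleph 1` dense open sets has a common member -/
def HBig : Prop :=
  ∀ 𝒟 : Set (Set (Set ℕ)), Cardinal.mk 𝒟 ≤ Cardinal.aleph 1 → (∀ D ∈ 𝒟, DenseOpen D) →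
    (⋂₀ 𝒟).Nonempty

lemma exists_omega1 : ∃ (Ω : Type) (_ : LinearOrder Ω) (_ : WellFoundedLT Ω) (_ : Infinite Ω),
    Cardinal.mk Ω = Cardinal.aleph 1 ∧ (∀ i : Ω, (Iio i).Countable) ∧
      ∀ f : ℕ → Ω, ∃ ζ, ∀ n, f n < ζ := by
  let Ω := (Cardinal.aleph.{0} 1).ord.ToType
  have hI : Cardinal.mk Ω = Cardinal.aleph 1 := by simp [Ω]
  have h1 : ∀ i : Ω, (Iio i).Countable := fun i => by
    rw [← Cardinal.le_aleph0_iff_set_countable, ← Order.lt_succ_iff, Cardinal.succ_aleph0]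
    exact (Cardinal.mk_Iio_lt i (by simp [Ω])).trans_eq hI
  have h1' : ∀ i : Ω, (Iic i).Countable := fun i => by
    rw [← Iio_insert]; exact (h1 i).insert i
  have hunc : Uncountable Ω := by
    rw [← Cardinal.aleph0_lt_mk_iff, hI]; exact Cardinal.aleph0_lt_aleph_one
  refine ⟨Ω, inferInstance, inferInstance, inferInstance, hI, h1, fun f => ?_⟩
  by_contra h2
  simp only [not_exists, not_forall, not_lt] at h2
  refine not_countable_univ ((countable_iUnion fun n => h1' (f n)).mono fun i _ => ?_)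
  obtain ⟨n, hn⟩ := h2 i
  exact mem_iUnion.2 ⟨n, hn⟩

theorem MA.hBig (h : MA) (hCH : Cardinal.continuum.{0} ≠ Cardinal.aleph 1) : HBig := by
  intro 𝒟 h𝒟 hD
  rcases 𝒟.eq_empty_or_nonempty with h0 | h0
  · exact ⟨univ, by simp [h0]⟩
  obtain ⟨Ω, _, _, _, hI, h1, -⟩ := exists_omega1
  have := h0.to_subtype
  obtain ⟨j⟩ := (Cardinal.le_def _ _).1 (h𝒟.trans_eq hI.symm)
  let e : Ω → 𝒟 := Function.invFun j
  have he : Function.Surjective e := Function.invFun_surjective j.injective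
  obtain ⟨E, h2, h3, h4⟩ := tower (T := Unit) h1 (fun η E => E () ∈ (e η).1) fun η E hE => by
    obtain ⟨E', h2, h3⟩ := (hD _ (e η).2).2.2 (E ()) (hE ())
    exact ⟨fun _ => E', fun _ => ⟨(hD _ (e η).2).1 _ h2, h3⟩, h2⟩
  obtain ⟨B, hB, hB'⟩ := h.pseudo
    (hI.trans_lt (lt_of_le_of_ne Cardinal.aleph_one_le_continuum hCH.symm))
    Cardinal.aleph0_lt_continuum (fun η => E η ()) (fun η => h2 η ()) fun a b hab => h4 a b hab ()
  refine ⟨B, fun D hD' => ?_⟩
  obtain ⟨η, hη⟩ := he ⟨D, hD'⟩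
  have h5 := h3 η
  rw [hη] at h5
  exact (hD D hD').2.1 _ h5 B hB (hB' η)

theorem no_closed (h : HBig) {I : Type}
    [LinearOrder I] [WellFoundedLT I] {K : Set (I → Bool)} (hM : OneSplit K) (hP : PTwo K)
    (hK : IC K K) : False := by
  obtain ⟨Ω, _, _, _, hI, h1, hb⟩ := exists_omega1
  have hD : Cardinal.mk (List Ω × Ω) = Cardinal.aleph 1 := by
    rw [Cardinal.mk_prod, Cardinal.lift_id, Cardinal.lift_id, Cardinal.mk_list_eq_mk, hI,
      Cardinal.mul_eq_self (Cardinal.aleph0_le_aleph 1)]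
  refine descent hM hP hK h1 hb fun D hD' => ?_
  obtain ⟨B, hB⟩ := h (range fun p => {E | E.Infinite ∧ ∃ E', D p E' ∧ (E \ E').Finite})
    (Cardinal.mk_range_le.trans_eq hD) (by
    rintro _ ⟨p, rfl⟩
    refine ⟨fun E hE => hE.1, ?_, fun E hE => ?_⟩
    · rintro E ⟨-, E', h2, h3⟩ E'' h4 h5
      refine ⟨h4, E', h2, (h5.union h3).subset fun n hn => ?_⟩
      by_cases h6 : n ∈ E
      · exact Or.inr ⟨h6, hn.2⟩
      · exact Or.inl ⟨hn.1, h6⟩
    · obtain ⟨E', h2, h3, h4⟩ := hD' p E hE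
      exact ⟨E', ⟨h2, E', h4, by simp⟩, h3⟩)
  have h2 := fun p => hB _ ⟨p, rfl⟩
  exact ⟨B, (h2 (Classical.arbitrary _)).1, fun p => (h2 p).2⟩

variable {A : Type} [BooleanAlgebra A]

lemma Stone.ext' {u v : Stone A} (h : ∀ a, a ∈ u.carrier ↔ a ∈ v.carrier) : u = v := by
  have h1 : u.carrier = v.carrier := Set.ext h
  cases u; cases v; congr

lemma Stone.compl_mem (u : Stone A) (a : A) : aᶜ ∈ u.carrier ↔ a ∉ u.carrier :=
  Set.ext_iff.1 (basic_compl a) u

lemma Stone.sup_mem (u : Stone A) (a b : A) : a ⊔ b ∈ u.carrier ↔ a ∈ u.carrier ∨ b ∈ u.carrier :=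
  Set.ext_iff.1 (basic_sup a b) u

lemma Stone.agree {u v : Stone A} {S : Set A} (h : ∀ a ∈ S, a ∈ u.carrier ↔ a ∈ v.carrier) {a : A}
    (ha : a ∈ BooleanSubalgebra.closure S) : a ∈ u.carrier ↔ a ∈ v.carrier := by
  induction ha using BooleanSubalgebra.closure_bot_sup_induction with
  | mem x hx => exact h x hx
  | bot => exact iff_of_false u.bot_notMem v.bot_notMem
  | sup x _ y _ h1 h2 => rw [u.sup_mem, v.sup_mem, h1, h2]
  | compl x _ h1 => rw [u.compl_mem, v.compl_mem, h1]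

lemma Stone.exists_mem {a : A} (ha : a ≠ ⊥) : ∃ u : Stone A, a ∈ u.carrier := by
  have h1 : (Order.Ideal.principal aᶜ).IsProper := by
    refine Order.Ideal.isProper_of_notMem (p := ⊤) fun h => ha ?_
    have h2 : (⊤ : A) ≤ aᶜ := h
    simpa using h2
  obtain ⟨J, hJ, hJ'⟩ := h1.exists_le_maximal
  have hp := hJ'.isPrime
  refine ⟨⟨{x | xᶜ ∈ J}, by simp, by simpa using hp.toIsProper.top_notMem, fun x y => ?_,
    fun x => ?_⟩, hJ Order.Ideal.mem_principal_self⟩
  · simp only [mem_ofPred_eq, compl_inf]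
    exact Order.Ideal.sup_mem_iff
  · simp only [mem_ofPred_eq, compl_compl]
    exact (hp.mem_or_compl_mem (x := x)).symm

lemma Stone.infinite [Infinite A] : Infinite (Stone A) := by
  by_contra h
  rw [not_infinite_iff_finite] at h
  have h1 : ∀ a b : A, Stone.basic a = Stone.basic b → a ≤ b := by
    intro a b hab
    by_contra h2
    obtain ⟨u, hu⟩ := Stone.exists_mem (a := a ⊓ bᶜ) fun h3 => h2 (by
      rwa [← _root_.sdiff_eq, sdiff_eq_bot_iff] at h3)
    rw [u.inf_mem, u.compl_mem] at hu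
    exact hu.2 (show u ∈ Stone.basic b from hab ▸ hu.1)
  exact not_injective_infinite_finite (Stone.basic (A := A))
    fun a b hab => le_antisymm (h1 a b hab) (h1 b a hab.symm)

theorem exists_pairs (h : HBig) [Infinite A]
    (hA : MinimallyGenerated A) : ∃ x y : ℕ → Stone A, (∀ n, x n ≠ y n) ∧
      ∀ a, {n | ¬ (a ∈ (x n).carrier ↔ a ∈ (y n).carrier)}.Finite := by
  classical
  by_contra h0
  obtain ⟨I, _, _, g, hg, hmin⟩ := hA
  let φ : Stone A → I → Bool := fun u i => decide (g i ∈ u.carrier)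
  have hφ : ∀ u v i, φ u i = φ v i ↔ (g i ∈ u.carrier ↔ g i ∈ v.carrier) := fun u v i => by
    simp [φ]
  have hinj : Function.Injective φ := fun u v huv => Stone.ext' fun a =>
    Stone.agree (S := range g) (by rintro _ ⟨i, rfl⟩; exact (hφ u v i).1 (congrFun huv i))
      (by rw [hg]; trivial)
  have := Stone.infinite (A := A)
  refine no_closed h (K := range φ) ?_ ?_ ⟨subset_rfl, ?_, infinite_range_of_injective hinj⟩
  · rintro i _ ⟨u, rfl⟩ _ ⟨v, rfl⟩ _ ⟨u', rfl⟩ _ ⟨v', rfl⟩ h1 h2 h3 h4 j hj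
    have key : ∀ u v u' v' : Stone A, (∀ j < i, φ u j = φ v j) → φ u i ≠ φ v i →
        (∀ j < i, φ u' j = φ v' j) → φ u' i ≠ φ v' i →
        ∀ c ∈ BooleanSubalgebra.closure (g '' Iio i), c ∈ u.carrier → c ∈ u'.carrier := by
      intro u v u' v' h1 h2 h3 h4 c hc hu
      by_contra hu'
      have h5 : ∀ u v : Stone A, (∀ j < i, φ u j = φ v j) → ∀ a ∈ g '' Iio i,
          a ∈ u.carrier ↔ a ∈ v.carrier := by
        rintro u v h5 _ ⟨j, hj, rfl⟩
        exact (hφ u v j).1 (h5 j hj)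
      have hle : BooleanSubalgebra.closure (g '' Iio i) ≤ BooleanSubalgebra.closure (g '' Iic i) :=
        BooleanSubalgebra.closure_mono (image_mono Iio_subset_Iic_self)
      have hgi : g i ∈ BooleanSubalgebra.closure (g '' Iic i) :=
        BooleanSubalgebra.subset_closure ⟨i, self_mem_Iic, rfl⟩
      rcases hmin i (BooleanSubalgebra.closure (insert (g i ⊓ c) (g '' Iio i)))
        (BooleanSubalgebra.closure_mono (subset_insert _ _))
        (BooleanSubalgebra.closure_le.2 (insert_subset (BooleanSubalgebra.inf_mem hgi (hle hc))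
          fun a ha => hle (BooleanSubalgebra.subset_closure ha))) with h6 | h6
      · have h7 : g i ⊓ c ∈ BooleanSubalgebra.closure (g '' Iio i) :=
          h6 ▸ BooleanSubalgebra.subset_closure (mem_insert _ _)
        have h8 := Stone.agree (h5 u v h1) h7
        have h9 := (Stone.agree (h5 u v h1) hc).1 hu
        rw [u.inf_mem, v.inf_mem] at h8
        exact h2 ((hφ u v i).2 ⟨fun h => (h8.1 ⟨h, hu⟩).1, fun h => (h8.2 ⟨h, h9⟩).1⟩)
      · rw [← h6] at hgi
        refine h4 ((hφ u' v' i).2 (Stone.agree ?_ hgi))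
        intro a ha
        rcases ha with ha | ha
        · have h9 : c ∉ v'.carrier := fun h => hu' ((Stone.agree (h5 u' v' h3) hc).2 h)
          rw [ha, u'.inf_mem, v'.inf_mem]
          exact iff_of_false (fun h => hu' h.2) fun h => h9 h.2
        · exact h5 u' v' h3 a ha
    have hc : g j ∈ BooleanSubalgebra.closure (g '' Iio i) :=
      BooleanSubalgebra.subset_closure ⟨j, hj, rfl⟩
    exact (hφ u u' j).2 ⟨key u v u' v' h1 h2 h3 h4 _ hc, key u' v' u v h3 h4 h1 h2 _ hc⟩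
  · intro y z hy hz hne
    choose x hx using hy
    choose x' hx' using hz
    by_contra h1
    simp only [not_exists, not_infinite] at h1
    refine h0 ⟨x, x', fun n hn => hne n (by rw [← hx, ← hx', hn]), fun a => ?_⟩
    have ha : a ∈ BooleanSubalgebra.closure (range g) := by rw [hg]; trivial
    induction ha using BooleanSubalgebra.closure_bot_sup_induction with
    | mem a ha =>
      obtain ⟨i, rfl⟩ := ha
      refine (h1 i).subset fun n hn h2 => hn ((hφ _ _ i).1 ?_)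
      rw [hx, hx']
      exact h2
    | bot =>
      exact finite_empty.subset fun n hn =>
        hn (iff_of_false (x n).bot_notMem (x' n).bot_notMem)
    | sup a _ b _ h2 h3 =>
      refine (h2.union h3).subset fun n hn => ?_
      by_contra h4
      simp only [mem_union, mem_ofPred_eq, not_or, not_not] at h4
      exact hn (by rw [Stone.sup_mem, Stone.sup_mem, h4.1, h4.2])
    | compl a _ h2 =>
      refine h2.subset fun n hn h4 => hn ?_
      rw [Stone.compl_mem, Stone.compl_mem, h4]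
  · rw [isClosed_iff_ultrafilter]
    intro w 𝒰 hw hK
    let ψ := Function.invFun φ
    have hψ : ∀ᶠ w' in (𝒰 : Filter (I → Bool)), φ (ψ w') = w' :=
      mem_of_superset hK fun w' hw' => Function.invFun_eq hw'
    refine ⟨⟨{a | {w' | a ∈ (ψ w').carrier} ∈ 𝒰}, univ_mem' fun w' => (ψ w').top_mem, fun h1 => ?_,
      fun a b => ?_, fun a => ?_⟩, funext fun i => ?_⟩
    · obtain ⟨w', hw'⟩ := 𝒰.nonempty_of_mem h1
      exact (ψ w').bot_notMem hw'
    · have h1 : {w' | a ⊓ b ∈ (ψ w').carrier} =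
          {w' | a ∈ (ψ w').carrier} ∩ {w' | b ∈ (ψ w').carrier} :=
        Set.ext fun w' => (ψ w').inf_mem a b
      simp only [mem_ofPred_eq]
      rw [h1]
      exact inter_mem_iff
    · have h1 : {w' | aᶜ ∈ (ψ w').carrier} = {w' | a ∈ (ψ w').carrier}ᶜ :=
        Set.ext fun w' => (ψ w').compl_mem a
      simp only [mem_ofPred_eq]
      rw [h1]
      exact 𝒰.mem_or_compl_mem _
    · have h1 : {w' : I → Bool | w' i = w i} ∈ 𝒰 := by
        have h2 := ((continuous_apply i).tendsto w).mono_left hw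
        rw [nhds_discrete, tendsto_pure] at h2
        exact h2
      have h2 : ∀ᶠ w' in (𝒰 : Filter (I → Bool)), (g i ∈ (ψ w').carrier ↔ w i = true) := by
        filter_upwards [hψ, h1] with w' h3 h4
        rw [← h4, ← congrFun h3 i]
        simp [φ]
      cases hwi : w i
      · refine decide_eq_false fun h3 => ?_
        obtain ⟨w', h4, h5⟩ := 𝒰.nonempty_of_mem (inter_mem h3 h2)
        have h6 := h5.1 h4
        rw [hwi] at h6
        exact Bool.noConfusion h6
      · exact decide_eq_true (mem_of_superset h2 fun w' h3 => h3.2 hwi)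

theorem not_nikodym {x y : ℕ → Stone A} (h1 : ∀ n, x n ≠ y n)
    (h2 : ∀ a, {n | ¬ (a ∈ (x n).carrier ↔ a ∈ (y n).carrier)}.Finite) : ¬ Nikodym A := by
  classical
  intro hN
  let δ : Stone A → A → ℝ := fun u a => if a ∈ u.carrier then 1 else 0
  have hδ : ∀ u, IsAdditive (δ u) := by
    intro u a b hab
    have h3 : ¬ (a ∈ u.carrier ∧ b ∈ u.carrier) := by
      rw [← u.inf_mem, hab.eq_bot]; exact u.bot_notMem
    by_cases ha : a ∈ u.carrier <;> by_cases hb : b ∈ u.carrier <;>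
      simp [δ, u.sup_mem, ha, hb] at h3 ⊢
  let μ : ℕ → A → ℝ := fun n a => n * (δ (x n) a - δ (y n) a)
  have hμ : ∀ n, IsAdditive (μ n) := fun n a b hab => by
    simp only [μ]; rw [hδ _ a b hab, hδ _ a b hab]; ring
  have habs : ∀ n a, |μ n a| = if (a ∈ (x n).carrier ↔ a ∈ (y n).carrier) then 0 else (n : ℝ) := by
    intro n a
    by_cases ha : a ∈ (x n).carrier <;> by_cases hb : a ∈ (y n).carrier <;> simp [μ, δ, ha, hb]
  obtain ⟨C, hC⟩ := hN μ hμ (fun n => ⟨_, (hμ n).varLE (C := n) fun a => by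
      rw [habs]; split_ifs <;> simp⟩) fun a => by
    obtain ⟨b, hb⟩ := (h2 a).bddAbove
    refine ⟨b, fun n => ?_⟩
    rw [habs]
    split_ifs with h3
    · simp
    · exact_mod_cast hb h3
  obtain ⟨n, hn⟩ := exists_nat_gt C
  obtain ⟨a, ha⟩ := not_forall.1 fun h3 => h1 n (Stone.ext' h3)
  have h3 := hC n {a} (by simp)
  rw [Finset.sum_singleton, habs, if_neg ha] at h3
  exact absurd h3 (not_le.2 hn)

theorem not_hBig [Infinite A] (hA : MinimallyGenerated A) (hN : Nikodym A) : ¬ HBig := fun h =>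
  let ⟨_, _, h1, h2⟩ := exists_pairs h hA
  not_nikodym h1 h2 hN

theorem MA.ch_of_nikodym (h : MA) [Infinite A] (hA : MinimallyGenerated A) (hN : Nikodym A) :
    Cardinal.continuum.{0} = Cardinal.aleph 1 := by
  by_contra hCH
  exact not_hBig hA hN (h.hBig hCH)

end Pool.Agent.P.MP_0d6be8_lc
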