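import Pool.Agent.P.MP_0d6be8_lc.Basic

namespace Pool.Agent.P.MP_0d6be8_lc
open Set Filter MeasureTheory Topology

/-- `a` agrees off `S` with a member of `B0` -/
def Det (B0 : Set (Set ℕ)) (S a : Set ℕ) : Prop := ∃ c ∈ B0, ∀ x, x ∉ S → (x ∈ a ↔ x ∈ c)

/-- a promise that may be made at a stage with algebra `B0` -/
structure Valid (B0 : Set (Set ℕ)) (E : ℕ → Set ℕ) (w : ℕ → ℕ → ℝ) : Prop where
  mem : ∀ i, E i ∈ B0
  sub : ∀ i j, ∃ k, E i ∪ E j ⊆ E k ∧ ∀ n, w n k ≤ w n i + w n j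
  atomless : ∀ z : Ultrafilter ℕ, ∀ ε > 0, ∀ᶠ n in atTop, ∃ i, E i ∈ z ∧ w n i < ε

/-- the promise is kept on `B` -/
def Holds (B0 : Set (Set ℕ)) (E : ℕ → Set ℕ) (w : ℕ → ℕ → ℝ) (B : Set (Set ℕ)) : Prop :=
  ∀ F : Set (Set ℕ), F.Finite → F ⊆ B → ∀ ε > 0, ∃ᶠ n in atTop, ∃ i, w n i < ε ∧
    ∀ a ∈ F, Det B0 (E i) a

lemma Det.mono {B0 : Set (Set ℕ)} {S T a : Set ℕ} (h : Det B0 S a) (hST : S ⊆ T) : Det B0 T a := by
  obtain ⟨c, hc, h⟩ := h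
  exact ⟨c, hc, fun x hx => h x fun h' => hx (hST h')⟩

lemma det_algebra {B0 : Set (Set ℕ)} (h : IsSetAlgebra B0) (S : Set ℕ) :
    IsSetAlgebra {a | Det B0 S a} where
  empty_mem := ⟨∅, h.empty_mem, fun _ _ => Iff.rfl⟩
  compl_mem := by
    rintro a ⟨c, hc, h1⟩
    exact ⟨cᶜ, h.compl_mem hc, fun x hx => not_congr (h1 x hx)⟩
  union_mem := by
    rintro a b ⟨c, hc, h1⟩ ⟨d, hd, h2⟩
    exact ⟨c ∪ d, h.union_mem hc hd, fun x hx => or_congr (h1 x hx) (h2 x hx)⟩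

lemma gen_finite {G : Set (Set ℕ)} {a : Set ℕ} (ha : a ∈ generateSetAlgebra G) :
    ∃ T ⊆ G, T.Finite ∧ a ∈ generateSetAlgebra T := by
  induction ha with
  | base s hs => exact ⟨{s}, by simpa using hs, finite_singleton _,
      self_subset_generateSetAlgebra rfl⟩
  | empty => exact ⟨∅, empty_subset _, finite_empty, generateSetAlgebra.empty⟩
  | compl s _ ih =>
    obtain ⟨T, h1, h2, h3⟩ := ih
    exact ⟨T, h1, h2, generateSetAlgebra.compl _ h3⟩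
  | union s t _ _ ih1 ih2 =>
    obtain ⟨T, h1, h2, h3⟩ := ih1
    obtain ⟨T', h1', h2', h3'⟩ := ih2
    exact ⟨T ∪ T', union_subset h1 h1', h2.union h2', generateSetAlgebra.union _ _
      (generateSetAlgebra_mono subset_union_left h3) (generateSetAlgebra_mono subset_union_right h3')⟩

lemma gen_finite' {G F : Set (Set ℕ)} (hF : F.Finite) (h : F ⊆ generateSetAlgebra G) :
    ∃ T ⊆ G, T.Finite ∧ F ⊆ generateSetAlgebra T := by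
  choose T h1 h2 h3 using fun a : F => gen_finite (h a.2)
  have := hF.to_subtype
  exact ⟨⋃ a, T a, iUnion_subset h1, finite_iUnion h2, fun a ha =>
    generateSetAlgebra_mono (subset_iUnion T ⟨a, ha⟩) (h3 ⟨a, ha⟩)⟩

lemma Holds.gen {B0 : Set (Set ℕ)} {E : ℕ → Set ℕ} {w : ℕ → ℕ → ℝ} {G : Set (Set ℕ)}
    (h0 : IsSetAlgebra B0) (h : Holds B0 E w G) : Holds B0 E w (generateSetAlgebra G) := by
  intro F hF hFG ε hε
  obtain ⟨T, h1, h2, h3⟩ := gen_finite' hF hFG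
  refine (h T h2 h1 ε hε).mono ?_
  rintro n ⟨i, hi, h4⟩
  exact ⟨i, hi, fun a ha => (det_algebra h0 (E i)).generateSetAlgebra_subset h4 (h3 ha)⟩

lemma Valid.holds {B0 : Set (Set ℕ)} {E : ℕ → Set ℕ} {w : ℕ → ℕ → ℝ} (h : Valid B0 E w) :
    Holds B0 E w B0 := by
  intro F _ hF ε hε
  refine (h.atomless (pure 0) ε hε).frequently.mono ?_
  rintro n ⟨i, -, hi⟩
  exact ⟨i, hi, fun a ha => ⟨a, hF ha, fun _ _ => Iff.rfl⟩⟩

/-- a free ultrafilter on the indices along which the promise is kept -/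
lemma Holds.exists_ultrafilter {B0 B : Set (Set ℕ)} {E : ℕ → Set ℕ} {w : ℕ → ℕ → ℝ}
    (h : Holds B0 E w B) : ∃ U : Ultrafilter ℕ, (U : Filter ℕ) ≤ atTop ∧
      ∀ F : Set (Set ℕ), F.Finite → F ⊆ B → ∀ ε > 0, ∀ᶠ n in (U : Filter ℕ), ∃ i, w n i < ε ∧
        ∀ a ∈ F, Det B0 (E i) a := by
  let I := {q : Set (Set ℕ) × ℝ // q.1.Finite ∧ q.1 ⊆ B ∧ 0 < q.2}
  let f : I → Filter ℕ := fun q => atTop ⊓ 𝓟 {n | ∃ i, w n i < q.1.2 ∧ ∀ a ∈ q.1.1, Det B0 (E i) a}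
  have : Nonempty I := ⟨⟨(∅, 1), finite_empty, empty_subset _, one_pos⟩⟩
  have hdir : Directed (· ≥ ·) f := by
    rintro ⟨⟨F, ε⟩, h1, h2, h3⟩ ⟨⟨F', ε'⟩, h1', h2', h3'⟩
    refine ⟨⟨(F ∪ F', min ε ε'), h1.union h1', union_subset h2 h2', lt_min h3 h3'⟩, ?_, ?_⟩ <;>
    refine inf_le_inf_left _ (principal_mono.2 ?_) <;> rintro n ⟨i, hi, h4⟩
    · exact ⟨i, hi.trans_le (min_le_left _ _), fun a ha => h4 a (Or.inl ha)⟩
    · exact ⟨i, hi.trans_le (min_le_right _ _), fun a ha => h4 a (Or.inr ha)⟩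
  have hne : NeBot (⨅ q, f q) := iInf_neBot_of_directed hdir fun q =>
    frequently_iff_neBot.1 (h q.1.1 q.2.1 q.2.2.1 q.1.2 q.2.2.2)
  obtain ⟨U, hU⟩ := Ultrafilter.exists_le (⨅ q, f q)
  refine ⟨U, hU.trans ((iInf_le f (Classical.arbitrary I)).trans inf_le_left), fun F h1 h2 ε hε => ?_⟩
  exact le_principal_iff.1 (hU.trans ((iInf_le f ⟨(F, ε), h1, h2, hε⟩).trans inf_le_right))

/-- a point at which a fixed proportion of the mass concentrates -/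
lemma exists_point {B : Set (Set ℕ)} (hB : IsSetAlgebra B) (ν : ℕ → Set ℕ → ℝ)
    (hν : ∀ n, Pos B (ν n)) (U : Ultrafilter ℕ) (hU : ∀ᶠ n in (U : Filter ℕ), 0 < ν n univ) :
    ∃ p : Ultrafilter ℕ, ∀ W ∈ B, W ∈ p → ∃ δ > 0, ∀ᶠ n in (U : Filter ℕ), δ * ν n univ < ν n W := by
  let I := {W : Set ℕ // W ∈ B ∧ ∀ δ > 0, ∀ᶠ n in (U : Filter ℕ), ν n W ≤ δ * ν n univ}
  have : Nonempty I := ⟨⟨∅, hB.empty_mem, fun δ hδ => hU.mono fun n hn => by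
    rw [(hν n).add.empty hB]; positivity⟩⟩
  let f : I → Filter ℕ := fun W => 𝓟 (W.1)ᶜ
  have hdir : Directed (· ≥ ·) f := by
    rintro ⟨W, h1, h2⟩ ⟨W', h1', h2'⟩
    refine ⟨⟨W ∪ W', hB.union_mem h1 h1', fun δ hδ => ?_⟩,
      principal_mono.2 (compl_subset_compl.2 subset_union_left),
      principal_mono.2 (compl_subset_compl.2 subset_union_right)⟩
    filter_upwards [h2 (δ / 2) (by positivity), h2' (δ / 2) (by positivity)] with n h3 h4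
    linarith [(hν n).union_le hB h1 h1']
  have hne : NeBot (⨅ q, f q) := iInf_neBot_of_directed hdir fun W => by
    refine principal_neBot_iff.2 (nonempty_compl.2 fun h => ?_)
    obtain ⟨n, h1, h2⟩ := ((W.2.2 (1 / 2) (by norm_num)).and hU).exists
    rw [h] at h1
    linarith
  obtain ⟨p, hp⟩ := Ultrafilter.exists_le (⨅ q, f q)
  refine ⟨p, fun W hW hWp => ?_⟩
  by_contra hcon
  push Not at hcon
  have h1 : ∀ δ > 0, ∀ᶠ n in (U : Filter ℕ), ν n W ≤ δ * ν n univ := fun δ hδ => hcon δ hδ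
  have h2 : Wᶜ ∈ p := le_principal_iff.1 (hp.trans (iInf_le f ⟨W, hW, h1⟩))
  exact Ultrafilter.compl_mem_iff_notMem.1 h2 hWp

lemma exists_seq {X : Type} (P : X → Prop) (R : ℕ → X → X → Prop) (x0 : X) (h0 : P x0)
    (h : ∀ k x, P x → ∃ y, P y ∧ R k x y) :
    ∃ x : ℕ → X, (∀ k, P (x k)) ∧ ∀ k, R k (x k) (x (k + 1)) := by
  choose! f hf1 hf2 using h
  let x : ℕ → X := fun k => Nat.rec x0 (fun k y => f k y) k
  have hx : ∀ k, P (x k) := fun k => by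
    induction k with
    | zero => exact h0
    | succ k ih => exact hf1 k _ ih
  exact ⟨x, hx, fun k => hf2 k _ (hx k)⟩

section step
variable {B B0 : Set (Set ℕ)} {E : ℕ → Set ℕ} {w : ℕ → ℕ → ℝ}

lemma sub_promise (hB : IsSetAlgebra B) (hB0 : B0 ⊆ B) (hV : Valid B0 E w) (hH : Holds B0 E w B)
    (p : Ultrafilter ℕ) {W u : Set ℕ} (hW : W ∈ B) (hWp : W ∈ p) (hu : u ∈ B)
    {F : Set (Set ℕ)} (hF : F.Finite) (hFB : F ⊆ B) {ε : ℝ} (hε : 0 < ε) (N : ℕ) :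
    ∃ W' ∈ B, W' ∈ p ∧ W' ⊆ W ∧ ∃ n ≥ N, ∃ i, w n i < ε ∧ (∀ b ∈ F, Det B0 (E i) b) ∧
      ∀ a : Set ℕ, (∀ x, x ∉ W' → (x ∈ a ↔ x ∈ u)) → Det B0 (E i) a := by
  obtain ⟨n, ⟨i, hi, h1⟩, ⟨j, hj, h2⟩, hn⟩ := ((hH (insert u F) (hF.insert u)
    (insert_subset hu hFB) (ε / 2) (by positivity)).and_eventually
    ((hV.atomless p (ε / 2) (by positivity)).and (eventually_ge_atTop N))).exists
  obtain ⟨k, hk, hw⟩ := hV.sub i j
  refine ⟨W ∩ E j, hB.inter_mem hW (hB0 (hV.mem j)), inter_mem hWp hj, inter_subset_left, n, hn, k,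
    by linarith [hw n], fun b hb => (h1 b (Or.inr hb)).mono (subset_union_left.trans hk),
    fun a ha => ?_⟩
  obtain ⟨c, hc, h3⟩ := h1 u (Or.inl rfl)
  refine ⟨c, hc, fun x hx => ?_⟩
  rw [ha x fun h => hx (hk (Or.inr h.2)), h3 x fun h => hx (hk (Or.inl h))]

lemma sub_kill (hB : IsSetAlgebra B) (hA0 : IsSetAlgebra B0) (hB0 : B0 ⊆ B) (hV : Valid B0 E w)
    {μ ν : ℕ → Set ℕ → ℝ} (hadd : ∀ n, AddOn B (μ n)) (hν : ∀ n, Pos B (ν n))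
    (hdom : ∀ n, Dom B (μ n) (ν n)) (htend : Tendsto (fun n => ν n univ) atTop atTop)
    (hw : ∀ n i, ν n (E i) ≤ ν n univ * w n i)
    (hh : ∀ n, ∃ g ∈ B0, ∀ W ∈ B, ν n W - 1 ≤ μ n (W ∩ g) - μ n (W \ g))
    (hbd : ∀ e ∈ B, ∃ C, ∀ n, |μ n e| ≤ C)
    (U : Ultrafilter ℕ) (hU : (U : Filter ℕ) ≤ atTop)
    (hU2 : ∀ F : Set (Set ℕ), F.Finite → F ⊆ B → ∀ ε > 0, ∀ᶠ n in (U : Filter ℕ),
      ∃ i, w n i < ε ∧ ∀ a ∈ F, Det B0 (E i) a)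
    (p : Ultrafilter ℕ)
    (hp : ∀ W ∈ B, W ∈ p → ∃ δ > 0, ∀ᶠ n in (U : Filter ℕ), δ * ν n univ < ν n W)
    {W u : Set ℕ} (hW : W ∈ B) (hWp : W ∈ p) (hu : u ∈ B) (hWu : Disjoint u W) (k : ℕ) :
    ∃ W' ∈ B, ∃ u' ∈ B, W' ∈ p ∧ W' ⊆ W ∧ Disjoint u' W' ∧ (∀ x, x ∉ W → (x ∈ u' ↔ x ∈ u)) ∧
      ∃ n i, ∃ c ∈ B0, (∀ a : Set ℕ, (∀ x, x ∉ W' → (x ∈ a ↔ x ∈ u')) →
        ∀ x, x ∉ E i → (x ∈ a ↔ x ∈ c)) ∧ ν n univ * w n i + k ≤ |μ n c| := by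
  obtain ⟨δ, hδ, h1⟩ := hp W hW hWp
  obtain ⟨C, hC⟩ := hbd u hu
  obtain ⟨n, h1, ⟨i, hi, h2⟩, ⟨j, hj, h3⟩, h4, h5⟩ := (h1.and ((hU2 {W, u} (toFinite _)
    (insert_subset hW (singleton_subset_iff.2 hu)) (δ / 10) (by positivity)).and
    (hU ((hV.atomless p (δ / 10) (by positivity)).and
      ((htend.eventually_ge_atTop ((k + C + 1) * 5 / δ)).and (htend.eventually_ge_atTop 0)))))).exists
  obtain ⟨g0, hg0, h6⟩ := hh n
  have hg : ∃ g ∈ B0, (δ * ν n univ - 1) / 2 ≤ |μ n (W ∩ g)| := by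
    have h7 := h6 W hW
    by_cases h : (δ * ν n univ - 1) / 2 ≤ |μ n (W ∩ g0)|
    · exact ⟨g0, hg0, h⟩
    · refine ⟨g0ᶜ, hA0.compl_mem hg0, ?_⟩
      rw [← Set.sdiff_eq]
      linarith [le_abs_self (μ n (W ∩ g0)), neg_abs_le (μ n (W \ g0))]
  obtain ⟨g, hg, h7⟩ := hg
  obtain ⟨cW, hcW, h8⟩ := h2 W (Or.inl rfl)
  obtain ⟨cu, hcu, h9⟩ := h2 u (Or.inr rfl)
  obtain ⟨l, hl, hwl⟩ := hV.sub i j
  have hEj := hB0 (hV.mem j)
  have hdis : ∀ x, x ∈ u → x ∉ W := fun x hx => Set.disjoint_left.1 hWu hx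
  refine ⟨W ∩ E j, hB.inter_mem hW hEj, u ∪ (W ∩ g) \ E j,
    hB.union_mem hu (hB.sdiff_mem (hB.inter_mem hW (hB0 hg)) hEj), inter_mem hWp hj,
    inter_subset_left, Set.disjoint_left.2 ?_, fun x hx => by simp [hx], n, l, cu ∪ cW ∩ g,
    hA0.union_mem hcu (hA0.inter_mem hcW hg), fun a ha x hx => ?_, ?_⟩
  · rintro x (hx | hx) hx'
    · exact hdis x hx hx'.1
    · exact hx.2 hx'.2
  · have hxj : x ∉ E j := fun h => hx (hl (Or.inr h))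
    have hxi : x ∉ E i := fun h => hx (hl (Or.inl h))
    rw [ha x fun h => hxj h.2]
    simp [hxj, h8 x hxi, h9 x hxi]
  · have h10 := approx_le hB (hadd n) (hν n) (hdom n)
      (hB.union_mem hu (hB.inter_mem hW (hB0 hg)))
      (hB0 (hA0.union_mem hcu (hA0.inter_mem hcW hg))) (hB0 (hV.mem i))
      (fun x hxi => by simp [h8 x hxi, h9 x hxi])
    rw [hadd n u hu _ (hB.inter_mem hW (hB0 hg)) (hWu.mono_right inter_subset_left)] at h10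
    have h11 := hw n i
    have h12 := hC n
    have h13 : ν n univ * w n i ≤ ν n univ * (δ / 10) := by gcongr
    have h14 : ν n univ * w n l ≤ ν n univ * (δ / 10 + δ / 10) := by
      gcongr; linarith [hwl n]
    have h15 : (k + C + 1) * 5 ≤ ν n univ * δ := by rwa [div_le_iff₀ hδ] at h4
    have h16 : |μ n (W ∩ g)| ≤ |μ n (cu ∪ cW ∩ g)| + |μ n u + μ n (W ∩ g) - μ n (cu ∪ cW ∩ g)|
        + |μ n u| := by
      have e : μ n (W ∩ g) = μ n (cu ∪ cW ∩ g) + (μ n u + μ n (W ∩ g) - μ n (cu ∪ cW ∩ g))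
          + -μ n u := by ring
      calc |μ n (W ∩ g)| = |μ n (cu ∪ cW ∩ g) + (μ n u + μ n (W ∩ g) - μ n (cu ∪ cW ∩ g))
          + -μ n u| := by rw [← e]
        _ ≤ _ := by
          refine (abs_add_le _ _).trans ?_
          rw [abs_neg]
          gcongr
          exact abs_add_le _ _
    nlinarith

end step

theorem step {B : Set (Set ℕ)} (hB : IsSetAlgebra B) (hc : B.Countable) {J : Type} [Countable J]
    (B0 : J → Set (Set ℕ)) (E : J → ℕ → Set ℕ) (w : J → ℕ → ℕ → ℝ)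
    (hA0 : ∀ j, IsSetAlgebra (B0 j)) (hB0 : ∀ j, B0 j ⊆ B) (hV : ∀ j, Valid (B0 j) (E j) (w j))
    (hH : ∀ j, Holds (B0 j) (E j) (w j) B) (j0 : J)
    {μ ν : ℕ → Set ℕ → ℝ} (hadd : ∀ n, AddOn B (μ n)) (hν : ∀ n, Pos B (ν n))
    (hdom : ∀ n, Dom B (μ n) (ν n)) (htend : Tendsto (fun n => ν n univ) atTop atTop)
    (hw : ∀ n i, ν n (E j0 i) ≤ ν n univ * w j0 n i)
    (hh : ∀ n, ∃ g ∈ B0 j0, ∀ W ∈ B, ν n W - 1 ≤ μ n (W ∩ g) - μ n (W \ g))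
    (hbd : ∀ e ∈ B, ∃ C, ∀ n, |μ n e| ≤ C) :
    ∃ (a : Set ℕ) (p : Ultrafilter ℕ), (∀ e ∈ B, e ∉ p → a ∩ e ∈ B) ∧
      (∀ j, Holds (B0 j) (E j) (w j) (insert a B)) ∧
      ∀ k : ℕ, ∃ n i, ∃ c ∈ B0 j0, (∀ x, x ∉ E j0 i → (x ∈ a ↔ x ∈ c)) ∧
        ν n univ * w j0 n i + k ≤ |μ n c| := by
  obtain ⟨U, hU, hU2⟩ := (hH j0).exists_ultrafilter
  obtain ⟨p, hp⟩ := exists_point hB ν hν U (hU (htend.eventually_gt_atTop 0))
  obtain ⟨f, hf⟩ := hc.exists_eq_range ⟨∅, hB.empty_mem⟩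
  have : Nonempty J := ⟨j0⟩
  obtain ⟨ι, hι⟩ := exists_surjective_nat J
  have hfB : ∀ k, f k ∈ B := fun k => hf ▸ mem_range_self k
  obtain ⟨x, hx, hR⟩ := exists_seq
    (fun q : Set ℕ × Set ℕ => q.1 ∈ B ∧ q.2 ∈ B ∧ q.1 ∈ p ∧ Disjoint q.2 q.1)
    (fun k q q' => q'.1 ⊆ q.1 ∧ (∀ x, x ∉ q.1 → (x ∈ q'.2 ↔ x ∈ q.2)) ∧ (f k ∈ p → q'.1 ⊆ f k) ∧
      (∃ n i, ∃ c ∈ B0 j0, (∀ a : Set ℕ, (∀ x, x ∉ q'.1 → (x ∈ a ↔ x ∈ q'.2)) →
        ∀ x, x ∉ E j0 i → (x ∈ a ↔ x ∈ c)) ∧ ν n univ * w j0 n i + k ≤ |μ n c|) ∧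
      ∃ n ≥ k, ∃ i, w (ι k.unpair.1) n i < 1 / ((k : ℝ) + 1) ∧
        (∀ b ∈ f '' Iic k, Det (B0 (ι k.unpair.1)) (E (ι k.unpair.1) i) b) ∧
        ∀ a : Set ℕ, (∀ x, x ∉ q'.1 → (x ∈ a ↔ x ∈ q'.2)) →
          Det (B0 (ι k.unpair.1)) (E (ι k.unpair.1) i) a)
    (univ, ∅) ⟨hB.univ_mem, hB.empty_mem, univ_mem, by simp⟩ (by
      rintro k ⟨W, u⟩ ⟨hW, hu, hWp, hWu⟩
      obtain ⟨W1, hW1, u1, hu1, hW1p, hW1W, hd1, hu1u, n, i, c, hc, h1, h2⟩ :=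
        sub_kill hB (hA0 j0) (hB0 j0) (hV j0) hadd hν hdom htend hw hh hbd U hU hU2 p hp
          hW hWp hu hWu k
      have : ∃ W2 ∈ B, W2 ∈ p ∧ W2 ⊆ W1 ∧ (f k ∈ p → W2 ⊆ f k) := by
        by_cases h : f k ∈ p
        · exact ⟨W1 ∩ f k, hB.inter_mem hW1 (hfB k), inter_mem hW1p h, inter_subset_left,
            fun _ => inter_subset_right⟩
        · exact ⟨W1, hW1, hW1p, subset_rfl, fun h' => absurd h' h⟩
      obtain ⟨W2, hW2, hW2p, hW21, hW2f⟩ := this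
      obtain ⟨W3, hW3, hW3p, hW32, n', hn', i', h3, h4, h5⟩ :=
        sub_promise hB (hB0 (ι k.unpair.1)) (hV _) (hH _) p hW2 hW2p hu1
          ((finite_Iic k).image f) (by rintro _ ⟨l, -, rfl⟩; exact hfB l)
          (Nat.one_div_pos_of_nat (α := ℝ) (n := k)) k
      refine ⟨(W3, u1), ⟨hW3, hu1, hW3p, hd1.mono_right (hW32.trans hW21)⟩,
        hW32.trans (hW21.trans hW1W), hu1u, fun h => hW32.trans (hW2f h),
        ⟨n, i, c, hc, fun a ha => h1 a fun x hx => ha x fun h => hx (hW21 (hW32 h)), h2⟩,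
        n', hn', i', h3, h4, h5⟩)
  have hanti : Antitone fun k => (x k).1 := antitone_nat_of_succ_le fun k => (hR k).1
  have hstab : ∀ k l, k ≤ l → ∀ y, y ∉ (x k).1 → (y ∈ (x l).2 ↔ y ∈ (x k).2) := by
    intro k l hkl y hy
    induction l, hkl using Nat.le_induction with
    | base => rfl
    | succ l hkl ih => rw [← ih]; exact (hR l).2.1 y fun h => hy (hanti hkl h)
  let a : Set ℕ := ⋃ k, (x k).2
  have ha : ∀ k y, y ∉ (x k).1 → (y ∈ a ↔ y ∈ (x k).2) := by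
    intro k y hy
    refine ⟨fun h => ?_, fun h => mem_iUnion.2 ⟨k, h⟩⟩
    obtain ⟨l, hl⟩ := mem_iUnion.1 h
    rcases le_total k l with hkl | hkl
    · exact (hstab k l hkl y hy).1 hl
    · exact (hstab l k hkl y (Set.disjoint_left.1 (hx l).2.2.2 hl)).2 hl
  refine ⟨a, p, fun e he hep => ?_, fun j F hF hFB ε hε => ?_, fun k => ?_⟩
  · obtain ⟨k, hk⟩ : eᶜ ∈ range f := hf ▸ hB.compl_mem he
    have h1 := (hR k).2.2.1 (hk ▸ Ultrafilter.compl_mem_iff_notMem.2 hep)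
    rw [hk] at h1
    have : a ∩ e = (x (k + 1)).2 ∩ e := by
      ext y
      exact and_congr_left fun hy => ha (k + 1) y fun h => h1 h hy
    rw [this]
    exact hB.inter_mem (hx _).2.1 he
  · refine frequently_atTop.2 fun N => ?_
    obtain ⟨t, rfl⟩ := hι j
    have h1 : ∃ M, F \ {a} ⊆ f '' Iic M := by
      have h2 : F \ {a} ⊆ range f := fun b hb => hf ▸ (hFB hb.1).resolve_left hb.2
      obtain ⟨T, -, hT, hT2⟩ := (hF.subset sdiff_subset).exists_subset_finite_image_eq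
        (s := univ) (f := f) (by rwa [image_univ])
      obtain ⟨M, hM⟩ := hT.bddAbove
      exact ⟨M, hT2 ▸ image_mono hM⟩
    obtain ⟨M, hM⟩ := h1
    obtain ⟨L, hL⟩ := exists_nat_one_div_lt hε
    have hk := Nat.right_le_pair t (max N (max M L))
    obtain ⟨n, hn, i, h2, h3, h4⟩ := (hR (Nat.pair t (max N (max M L)))).2.2.2.2
    simp only [max_le_iff] at hk
    rw [Nat.unpair_pair] at h2 h3 h4
    refine ⟨n, hk.1.trans hn, i, h2.trans_le (le_trans ?_ hL.le), fun b hb => ?_⟩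
    · gcongr; exact hk.2.2
    · by_cases hba : b = a
      · exact hba ▸ h4 a (ha _)
      · exact h3 b (image_mono (Iic_subset_Iic.2 hk.2.1) (hM ⟨hb, hba⟩))
  · obtain ⟨n, i, c, hc, h1, h2⟩ := (hR k).2.2.2.1
    exact ⟨n, i, c, hc, h1 a (ha _), h2⟩

end Pool.Agent.P.MP_0d6be8_lc
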